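import Pool.Agent.NLE.RungeE
import Pool.Agent.NL.Defs

/-!
# NLE-CaseB: lengths divisible by an odd prime `b` dividing `z - 1`

PLAN.  LTE: `v_b(rep z (b^i m)) = v_b(b^i m)` as `b ∣ z - 1`, `b` odd (see `NLC/Reduce.lean` (private
lemmas) or `Int.emultiplicity_pow_sub_pow` / `padicValNat.pow_sub_pow`).  So `v_b(n) = q v_b(y)`, a multiple
of `q`, positive: `b^q ∣ n`.  `N i = n / b^i`.  `rep z (N i) = rep z (N (i+1)) * rep (z^(N (i+1))) b`.
Claim: for `i ≤ 3 < q`: `b^i * rep z (N i) = u_i^q` for a natural `u_i`: induction, or directly: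
`rep z n = rep z (N i) * rep (z^(N i)) (b^i)`, the gcd of the two factors is a power of `b`
(`gcd (rep z a) (rep (z^a) c) = gcd (rep z a) c`), `v_b (rep z (N i)) = v_b(n) - i`,
`v_b (rep (z^(N i)) (b^i)) = i`; the prime-to-`b` parts are coprime with product a `q`-th power.
Hence `rep (z^(N (i+1))) b = b * v_i^q` for `i = 0, 1, 2` (quotients).
`W = z^(N 3)`; `W^b = z^(N 2)`, `W^(b^2) = z^(N 1)`.  Choose `e 1, e 2, e 3 < q` not all zero with
`e1 + e2 + e3 ≡ 0`, `e1 + b e2 + b^2 e3 ≡ 0 mod q` (two linear equations over `ZMod q`, three unknowns: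
`(b(b-1)... )`, explicitly `(b^2 - b ... )`: `e = (b, -(b+1), 1)` mod `q` works: `b - (b+1) + 1 = 0` and
`b - b(b+1) + b^2 = 0`; take residues in `[0, q)`, `e 3 = 1`).
`F = (∑ i<b, X^i)^e1 * (∑ i<b, X^(b i))^e2 * (∑ i<b, X^(b^2 i))^e3`, `e3 = 1`: monic of degree
`(b-1)(e1 + b e2 + b^2 e3) = q J`, `J < b^3`; it is no `q`-th power over `ℚ`: `exp(2πi/b^3)` is a root of
multiplicity `e3 = 1` (see `NLC/RungeP.lean`).  Coefficients: `0 ≤ F.coeff i ≤ F.eval 1 = b^(e1+e2+e3) ≤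
b^(3q) `.  `T = b^((e1+e2+e3)/q) v_2^e1 v_1^e2 v_0^e3`, `T^q = F(W)`.  Apply `runge_eff` with `H = b^(3q)`,
`J + 1 ≤ b^3`.
-/

namespace Pool.Agent.NLE

open Finset Polynomial

private theorem CaseB_isPow {m q : ℕ} (hm : m ≠ 0) (h : ∀ p, q ∣ m.factorization p) :
    ∃ w, m = w ^ q := by
  refine ⟨m.factorization.prod fun p k => p ^ (k / q), ?_⟩
  conv_lhs => rw [← Nat.prod_factorization_pow_eq_self hm]
  unfold Finsupp.prod
  rw [← Finset.prod_pow]
  refine Finset.prod_congr rfl fun p _ => ?_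
  rw [← pow_mul, Nat.div_mul_cancel (h p)]

private theorem CaseB_cast_one {l x : ℕ} (h : (x : ZMod l) = 1) (n : ℕ) :
    ((NL.rep x n : ℕ) : ZMod l) = n := by
  unfold NL.rep
  push_cast
  rw [h]
  simp

private theorem CaseB_lte {P x n : ℕ} (hP : P.Prime) (hP2 : P ≠ 2) (hx : 1 < x) (h : P ∣ x - 1)
    (hn : n ≠ 0) : (NL.rep x n).factorization P = n.factorization P := by
  have : Fact P.Prime := ⟨hP⟩
  have hxP : ¬ P ∣ x := by
    intro hd
    have h1 : P ∣ x - (x - 1) := Nat.dvd_sub hd h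
    have h2 : x - (x - 1) = 1 := by omega
    rw [h2] at h1
    exact hP.one_lt.ne' (Nat.dvd_one.1 h1)
  have h1 := padicValNat.pow_sub_pow (p := P) (hP.odd_of_ne_two hP2) hx h hxP hn
  rw [one_pow] at h1
  have h2 := NL.rep_mul (by omega : 1 ≤ x) n
  have h3 : x ^ n - 1 = NL.rep x n * (x - 1) := by omega
  rw [h3, padicValNat.mul (NL.rep_pos (Nat.one_le_iff_ne_zero.2 hn)).ne' (by omega)] at h1
  rw [Nat.factorization_def _ hP, Nat.factorization_def _ hP]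
  omega

private theorem CaseB_one {z a l : ℕ} (hz : 2 ≤ z) (hd : l ∣ NL.rep z a) :
    ((z : ZMod l)) ^ a = 1 := by
  have h1 : ((NL.rep z a : ℕ) : ZMod l) = 0 := (ZMod.natCast_eq_zero_iff _ _).2 hd
  have h2 := NL.rep_mul (by omega : 1 ≤ z) a
  have h3 := congrArg (Nat.cast (R := ZMod l)) h2
  push_cast at h3
  rw [h1, zero_mul, zero_add] at h3
  exact h3.symm

private theorem CaseB_split {z n a c : ℕ} (ha : 1 ≤ a) (hc : 1 ≤ c) (hn : n = a * c)
    (l : ℕ) : (NL.rep z n).factorization l =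
      (NL.rep z a).factorization l + (NL.rep (z ^ a) c).factorization l := by
  rw [hn, NL.rep_mul_eq, Nat.factorization_mul (NL.rep_pos ha).ne' (NL.rep_pos hc).ne',
    Finsupp.add_apply]

private theorem CaseB_away {q z n a c l : ℕ} (hz : 2 ≤ z) (ha : 1 ≤ a) (hc : 1 ≤ c)
    (hn : n = a * c) (hv : q ∣ (NL.rep z n).factorization l) (hl : ¬ l ∣ c) :
    q ∣ (NL.rep z a).factorization l := by
  by_cases hd : l ∣ NL.rep z a
  · have h1 : ¬ l ∣ NL.rep (z ^ a) c := by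
      intro h2
      have h3 : ((z ^ a : ℕ) : ZMod l) = 1 := by
        push_cast
        exact CaseB_one hz hd
      have h4 := (ZMod.natCast_eq_zero_iff _ _).2 h2
      rw [CaseB_cast_one h3, ZMod.natCast_eq_zero_iff] at h4
      exact hl h4
    rw [CaseB_split ha hc hn, Nat.factorization_eq_zero_of_not_dvd h1, add_zero] at hv
    exact hv
  · rw [Nat.factorization_eq_zero_of_not_dvd hd]
    exact dvd_zero _

/-- the quotients are `b` times a `q`-th power -/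
private theorem CaseB_quot {q b z n y a i : ℕ} (hb : b.Prime) (hb2 : b ≠ 2) (hz : 2 ≤ z)
    (hbz : b ∣ z - 1) (h : y ^ q = NL.rep z n) (ha : 1 ≤ a) (hn : n = a * b * b ^ i) :
    ∃ v, NL.rep (z ^ a) b = b * v ^ q := by
  have hv : ∀ l, q ∣ (NL.rep z n).factorization l := by
    intro l
    rw [← h, Nat.factorization_pow, Finsupp.smul_apply, smul_eq_mul]
    exact dvd_mul_right _ _
  have hb1 : 1 ≤ b := hb.one_lt.le
  have hX : 1 < z ^ a := Nat.one_lt_pow (by omega) (by omega)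
  have hbX : b ∣ z ^ a - 1 := by
    have h1 : z - 1 ∣ z ^ a - 1 := by
      have h2 := Nat.sub_dvd_pow_sub_pow z 1 a
      rwa [one_pow] at h2
    exact hbz.trans h1
  have h1 : (NL.rep (z ^ a) b).factorization b = 1 := by
    rw [CaseB_lte hb hb2 hX hbX (by omega), hb.factorization_self]
  have hR : NL.rep (z ^ a) b ≠ 0 := (NL.rep_pos hb1).ne'
  have h2 : b ∣ NL.rep (z ^ a) b := by
    apply (hb.dvd_iff_one_le_factorization hR).2
    rw [h1]
  obtain ⟨m, hm⟩ := h2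
  have hm0 : m ≠ 0 := by
    rintro rfl
    rw [mul_zero] at hm
    exact hR hm
  have h3 : ∀ l, q ∣ m.factorization l := by
    intro l
    have h4 : (NL.rep (z ^ a) b).factorization l = b.factorization l + m.factorization l := by
      rw [hm, Nat.factorization_mul (by omega) hm0, Finsupp.add_apply]
    by_cases hl : l = b
    · subst hl
      rw [h1, hb.factorization_self] at h4
      have h5 : m.factorization l = 0 := by omega
      rw [h5]
      exact dvd_zero _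
    · have h5 : b.factorization l = 0 := by
        rw [hb.factorization, Finsupp.single_apply, if_neg (Ne.symm hl)]
      rw [h5, zero_add] at h4
      rw [← h4]
      by_cases hp : l.Prime
      · have hlb : ∀ j, ¬ l ∣ b ^ j := fun j hd =>
          hl ((Nat.prime_dvd_prime_iff_eq hp hb).1 (hp.dvd_of_dvd_pow hd))
        have h6 : q ∣ (NL.rep z (a * b)).factorization l :=
          CaseB_away hz (Nat.mul_pos ha hb1) (Nat.pow_pos hb1) hn (hv l) (hlb i)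
        have h7 : q ∣ (NL.rep z a).factorization l :=
          CaseB_away hz ha (Nat.pow_pos hb1) (c := b ^ (i + 1))
            (by rw [hn, pow_succ]; ring) (hv l) (hlb (i + 1))
        rw [CaseB_split ha hb1 rfl] at h6
        exact (Nat.dvd_add_right h7).1 h6
      · rw [Nat.factorization_eq_zero_of_not_prime _ hp]
        exact dvd_zero _
  obtain ⟨w, hw⟩ := CaseB_isPow hm0 h3
  exact ⟨w, by rw [hm, hw]⟩

private theorem CaseB_monic (k b : ℕ) (hk : 1 ≤ k) (hb : 1 ≤ b) :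
    (∑ i ∈ range b, ((X : ℤ[X]) ^ k) ^ i).Monic ∧
      (∑ i ∈ range b, ((X : ℤ[X]) ^ k) ^ i).natDegree = k * (b - 1) := by
  have h := geom_sum_mul ((X : ℤ[X]) ^ k) b
  rw [← pow_mul, ← C_1] at h
  have h1 : ((X : ℤ[X]) ^ k - C 1).Monic := monic_X_pow_sub_C 1 (by omega)
  have h2 : ((X : ℤ[X]) ^ (k * b) - C 1).Monic :=
    monic_X_pow_sub_C 1 (Nat.mul_pos hk hb).ne'
  have h3 : (∑ i ∈ range b, ((X : ℤ[X]) ^ k) ^ i).Monic :=
    Monic.of_mul_monic_right h1 (by rw [h]; exact h2)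
  refine ⟨h3, ?_⟩
  have h4 := congrArg natDegree h
  rw [h3.natDegree_mul h1, natDegree_X_pow_sub_C, natDegree_X_pow_sub_C] at h4
  rw [Nat.mul_sub, mul_one]
  omega

private theorem CaseB_mult {q b e1 e2 : ℕ} (hq : q.Prime) (hb : b.Prime) (H : ℂ[X])
    (h : H ^ q = (∑ i ∈ range b, ((X : ℂ[X]) ^ 1) ^ i) ^ e1 *
      (∑ i ∈ range b, ((X : ℂ[X]) ^ b) ^ i) ^ e2 * ∑ i ∈ range b, ((X : ℂ[X]) ^ b ^ 2) ^ i) :
    False := by
  have hb1 : 1 < b := hb.one_lt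
  have hb3 : b ^ 3 ≠ 0 := pow_ne_zero _ (by omega)
  have hz := Complex.isPrimitiveRoot_exp (b ^ 3) hb3
  set ζ : ℂ := Complex.exp (2 * Real.pi * Complex.I / ((b ^ 3 : ℕ) : ℂ)) with hζ
  have l2 : b ^ 2 < b ^ 3 := Nat.pow_lt_pow_right hb1 (by omega)
  have l1 : b < b ^ 2 := by
    calc b = b ^ 1 := (pow_one b).symm
      _ < b ^ 2 := Nat.pow_lt_pow_right hb1 (by omega)
  have z1 : ζ ^ b ≠ 1 := hz.pow_ne_one_of_pos_of_lt (by omega) (l1.trans l2)
  have z2 : ζ ^ b ^ 2 ≠ 1 := hz.pow_ne_one_of_pos_of_lt (by omega) l2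
  have zz : ζ ^ b ^ 3 = 1 := hz.pow_eq_one
  have g : ∀ k, (∑ i ∈ range b, ((X : ℂ[X]) ^ k) ^ i) * (X ^ k - 1) = X ^ (k * b) - 1 := by
    intro k
    rw [geom_sum_mul, ← pow_mul]
  have nz : ∀ k, ζ ^ (k * b) ≠ 1 → (∑ i ∈ range b, ((X : ℂ[X]) ^ k) ^ i).eval ζ ≠ 0 := by
    intro k hk h0
    have h3 := congrArg (eval ζ) (g k)
    rw [eval_mul, h0, zero_mul, eval_sub, eval_pow, eval_X, eval_one] at h3
    exact hk (sub_eq_zero.1 h3.symm)
  have n1 := nz 1 (by rw [one_mul]; exact z1)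
  have n2 := nz b (by rw [← sq]; exact z2)
  set A : ℂ[X] := (∑ i ∈ range b, ((X : ℂ[X]) ^ 1) ^ i) ^ e1 *
      (∑ i ∈ range b, ((X : ℂ[X]) ^ b) ^ i) ^ e2 with hA
  have hAe : A.eval ζ ≠ 0 := by
    rw [hA, eval_mul, eval_pow, eval_pow]
    exact mul_ne_zero (pow_ne_zero _ n1) (pow_ne_zero _ n2)
  have hA0 : A ≠ 0 := by
    intro h0
    rw [h0, eval_zero] at hAe
    exact hAe rfl
  have mA : rootMultiplicity ζ A = 0 := rootMultiplicity_eq_zero hAe
  have hX0 : (X ^ b ^ 3 - 1 : ℂ[X]) ≠ 0 := by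
    have := X_pow_sub_C_ne_zero (R := ℂ) (n := b ^ 3) (by omega) 1
    rwa [C_1] at this
  have g3 : (∑ i ∈ range b, ((X : ℂ[X]) ^ b ^ 2) ^ i) * (X ^ b ^ 2 - 1) = X ^ b ^ 3 - 1 := by
    rw [g (b ^ 2), ← pow_succ]
  have hg0 : (∑ i ∈ range b, ((X : ℂ[X]) ^ b ^ 2) ^ i) ≠ 0 := by
    intro h0
    rw [h0, zero_mul] at g3
    exact hX0 g3.symm
  have mX : rootMultiplicity ζ (X ^ b ^ 2 - 1 : ℂ[X]) = 0 := by
    apply rootMultiplicity_eq_zero
    intro h0
    rw [IsRoot, eval_sub, eval_pow, eval_X, eval_one] at h0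
    exact z2 (sub_eq_zero.1 h0)
  have hsep : (X ^ b ^ 3 - 1 : ℂ[X]).Separable :=
    X_pow_sub_one_separable_iff.2 (by exact_mod_cast hb3)
  have hle : rootMultiplicity ζ (X ^ b ^ 3 - 1 : ℂ[X]) ≤ 1 :=
    rootMultiplicity_le_one_of_separable hsep ζ
  have hge : 0 < rootMultiplicity ζ (X ^ b ^ 3 - 1 : ℂ[X]) := by
    rw [rootMultiplicity_pos hX0, IsRoot, eval_sub, eval_pow, eval_X, eval_one, zz, sub_self]
  have m3 : rootMultiplicity ζ (∑ i ∈ range b, ((X : ℂ[X]) ^ b ^ 2) ^ i) = 1 := by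
    have h4 := rootMultiplicity_mul (x := ζ) (p := ∑ i ∈ range b, ((X : ℂ[X]) ^ b ^ 2) ^ i)
      (q := X ^ b ^ 2 - 1) (by rw [g3]; exact hX0)
    rw [g3, mX] at h4
    omega
  have h5 := congrArg (rootMultiplicity ζ) h
  rw [rootMultiplicity_mul (mul_ne_zero hA0 hg0), mA, m3, ← count_roots, roots_pow,
    Multiset.count_nsmul] at h5
  have h6 : q ∣ 1 := ⟨_, (h5.trans (zero_add 1)).symm⟩
  exact hq.one_lt.ne' (Nat.dvd_one.1 h6)

private theorem CaseB_coeff (P : ℕ[X]) (i : ℕ) : P.coeff i ≤ P.eval 1 := by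
  rw [eval_eq_sum_range]
  by_cases hi : i ≤ P.natDegree
  · have h1 := Finset.single_le_sum (f := fun i => P.coeff i * 1 ^ i)
      (fun j _ => Nat.zero_le _) (Finset.mem_range.2 (Nat.lt_succ_of_le hi))
    simpa using h1
  · rw [coeff_eq_zero_of_natDegree_lt (by omega)]
    exact Nat.zero_le _

private theorem CaseB_num {q b e1 e2 J : ℕ} (hq : 5 ≤ q) (hb : 3 ≤ b) (h1 : e1 < q) (h2 : e2 < q)
    (h : 1 * (b - 1) * e1 + b * (b - 1) * e2 + b ^ 2 * (b - 1) = q * J) : J + 1 ≤ b ^ 3 := by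
  obtain ⟨c, rfl⟩ : ∃ c, b = c + 1 := ⟨b - 1, by omega⟩
  obtain ⟨p, rfl⟩ : ∃ p, q = p + 1 := ⟨q - 1, by omega⟩
  rw [Nat.add_sub_cancel] at h
  have a1 : c * e1 ≤ c * p := Nat.mul_le_mul_left _ (by omega)
  have a2 : (c + 1) * c * e2 ≤ (c + 1) * c * p := Nat.mul_le_mul_left _ (by omega)
  by_contra hJ
  have hJ' : (c + 1) ^ 3 ≤ J := by omega
  have a3 : (p + 1) * (c + 1) ^ 3 ≤ (p + 1) * J := Nat.mul_le_mul_left _ hJ'
  have hc : 2 ≤ c := by omega
  have hp : 4 ≤ p := by omega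
  nlinarith [Nat.mul_le_mul hc hc, Nat.zero_le (p * c), Nat.zero_le (p * c ^ 2),
    Nat.zero_le (p * c ^ 3), Nat.zero_le (c ^ 3), Nat.zero_le (c ^ 2)]

theorem caseB {q b z n y : ℕ} (hq : q.Prime) (hq5 : 5 ≤ q) (hb : b.Prime) (hb2 : b ≠ 2)
    (hz : 2 ≤ z) (hbz : b ∣ z - 1) (hn : 0 < n) (hbn : b ∣ n) (h : y ^ q = NL.rep z n) :
    b ^ q ∣ n ∧ z ^ (n / b ^ 3) ≤ (16 * q ^ 2 * (b ^ (3 * q) + 1)) ^ (q * b ^ 3) := by
  have hb1 : 1 ≤ b := hb.one_lt.le
  have hb3 : 3 ≤ b := by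
    have := hb.two_le
    omega
  -- the divisibility
  have hd : b ^ q ∣ n := by
    have h1 : (NL.rep z n).factorization b = n.factorization b :=
      CaseB_lte hb hb2 (by omega) hbz hn.ne'
    rw [← h, Nat.factorization_pow, Finsupp.smul_apply, smul_eq_mul] at h1
    have h2 : 1 ≤ n.factorization b := (hb.dvd_iff_one_le_factorization hn.ne').1 hbn
    have h3 : q ≤ n.factorization b := by
      rw [← h1] at h2 ⊢
      have h4 : 1 ≤ y.factorization b := by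
        rcases Nat.eq_zero_or_pos (y.factorization b) with h5 | h5
        · rw [h5, mul_zero] at h2
          omega
        · exact h5
      exact Nat.le_mul_of_pos_right _ h4
    exact (hb.pow_dvd_iff_le_factorization hn.ne').2 h3
  refine ⟨hd, ?_⟩
  obtain ⟨c, hc⟩ : b ^ 3 ∣ n := (pow_dvd_pow b (by omega)).trans hd
  have hc' : n / b ^ 3 = c := by
    rw [hc, Nat.mul_div_cancel_left _ (Nat.pow_pos hb1)]
  rw [hc']
  have hc1 : 1 ≤ c := by
    rcases Nat.eq_zero_or_pos c with h0 | h0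
    · rw [h0, mul_zero] at hc
      omega
    · exact h0
  obtain ⟨v0, hv0⟩ := CaseB_quot (i := 2) hb hb2 hz hbz h hc1 (by rw [hc]; ring)
  obtain ⟨v1, hv1⟩ := CaseB_quot (i := 1) (a := c * b) hb hb2 hz hbz h (Nat.mul_pos hc1 hb1)
    (by rw [hc]; ring)
  obtain ⟨v2, hv2⟩ := CaseB_quot (i := 0) (a := c * b ^ 2) hb hb2 hz hbz h
    (Nat.mul_pos hc1 (Nat.pow_pos hb1)) (by rw [hc]; ring)
  rw [pow_mul] at hv1 hv2
  generalize hW : z ^ c = W at hv0 hv1 hv2 ⊢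
  -- the exponents
  have hqp : 0 < q := by omega
  obtain ⟨e1, he1, k1, hk1⟩ : ∃ e1 < q, ∃ k, b = e1 + q * k :=
    ⟨b % q, Nat.mod_lt _ hqp, b / q, (Nat.mod_add_div b q).symm⟩
  obtain ⟨e2, he2, k2, hk2⟩ : ∃ e2 < q, ∃ k, e2 + (b + 1) = q * k := by
    rcases Nat.eq_zero_or_pos ((b + 1) % q) with h0 | h0
    · refine ⟨0, hqp, (b + 1) / q, ?_⟩
      have := Nat.mod_add_div (b + 1) q
      omega
    · refine ⟨q - (b + 1) % q, by omega, (b + 1) / q + 1, ?_⟩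
      have h1 := Nat.mod_add_div (b + 1) q
      have h2 := Nat.mod_lt (b + 1) hqp
      rw [mul_add, mul_one]
      omega
  have hsum : ∃ s, e1 + e2 + 1 = q * s := by
    have h1 : q ∣ e1 + e2 + 1 := by
      have h2 : q ∣ (e1 + e2 + 1) + q * k1 := ⟨k2, by rw [← hk2]; omega⟩
      exact (Nat.dvd_add_left (dvd_mul_right q k1)).1 h2
    exact h1
  obtain ⟨s, hs⟩ := hsum
  have hdeg : ∃ J, 1 * (b - 1) * e1 + b * (b - 1) * e2 + b ^ 2 * (b - 1) = q * J := by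
    have h1 : q ∣ e1 + b * e2 + b ^ 2 := by
      have h2 : q ∣ (e1 + b * e2 + b ^ 2) + q * k1 := by
        refine ⟨b * k2, ?_⟩
        have h3 : e1 + b * e2 + b ^ 2 + q * k1 = b * (e2 + (b + 1)) := by
          have h4 : e1 + q * k1 = b := hk1.symm
          calc e1 + b * e2 + b ^ 2 + q * k1 = (e1 + q * k1) + b * e2 + b ^ 2 := by ring
            _ = b + b * e2 + b ^ 2 := by rw [h4]
            _ = b * (e2 + (b + 1)) := by ring
        rw [h3, hk2]
        ring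
      exact (Nat.dvd_add_left (dvd_mul_right q k1)).1 h2
    have h5 : 1 * (b - 1) * e1 + b * (b - 1) * e2 + b ^ 2 * (b - 1) =
        (e1 + b * e2 + b ^ 2) * (b - 1) := by ring
    rw [h5]
    exact h1.mul_right _
  obtain ⟨J, hJ⟩ := hdeg
  -- the polynomial
  obtain ⟨m0, d0⟩ := CaseB_monic 1 b le_rfl hb1
  obtain ⟨m1, d1⟩ := CaseB_monic b b hb1 hb1
  obtain ⟨m2, d2⟩ := CaseB_monic (b ^ 2) b (Nat.pow_pos hb1) hb1
  set F : ℤ[X] := (∑ i ∈ range b, ((X : ℤ[X]) ^ 1) ^ i) ^ e1 *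
    (∑ i ∈ range b, ((X : ℤ[X]) ^ b) ^ i) ^ e2 * ∑ i ∈ range b, ((X : ℤ[X]) ^ b ^ 2) ^ i with hFd
  have hFm : F.Monic := ((m0.pow e1).mul (m1.pow e2)).mul m2
  have hFdeg : F.natDegree = q * J := by
    rw [hFd, ((m0.pow e1).mul (m1.pow e2)).natDegree_mul m2, (m0.pow e1).natDegree_mul (m1.pow e2),
      m0.natDegree_pow, m1.natDegree_pow, d0, d1, d2, ← hJ]
    ring
  have hFq : ∀ G : ℚ[X], G ^ q ≠ F.map (Int.castRingHom ℚ) := by
    intro G hG
    have h2 := congrArg (Polynomial.map (algebraMap ℚ ℂ)) hG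
    refine CaseB_mult (e1 := e1) (e2 := e2) hq hb (G.map (algebraMap ℚ ℂ)) ?_
    rw [← Polynomial.map_pow, h2, hFd]
    simp [Polynomial.map_sum]
  have hFc : ∀ i, |F.coeff i| ≤ ((b ^ (3 * q) : ℕ) : ℤ) := by
    intro i
    set P : ℕ[X] := (∑ i ∈ range b, ((X : ℕ[X]) ^ 1) ^ i) ^ e1 *
      (∑ i ∈ range b, ((X : ℕ[X]) ^ b) ^ i) ^ e2 * ∑ i ∈ range b, ((X : ℕ[X]) ^ b ^ 2) ^ i with hP
    have h1 : F = P.map (Nat.castRingHom ℤ) := by
      rw [hFd, hP]
      simp [Polynomial.map_sum]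
    have h2 : P.eval 1 = b ^ (e1 + e2 + 1) := by
      rw [hP]
      simp [eval_finsetSum, pow_add]
    have h3 := CaseB_coeff P i
    rw [h2] at h3
    have h4 : b ^ (e1 + e2 + 1) ≤ b ^ (3 * q) := Nat.pow_le_pow_right hb1 (by omega)
    rw [h1, coeff_map]
    show |((P.coeff i : ℕ) : ℤ)| ≤ _
    rw [Nat.abs_cast]
    exact_mod_cast h3.trans h4
  have hev : ((b ^ s * (v0 ^ e1 * v1 ^ e2 * v2) : ℕ) : ℤ) ^ q = F.eval (W : ℤ) := by
    have h1 : F.eval (W : ℤ) = ((NL.rep W b ^ e1 * NL.rep (W ^ b) b ^ e2 * NL.rep (W ^ b ^ 2) b : ℕ) : ℤ) := by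
      rw [hFd]
      simp [NL.rep, eval_finsetSum]
    rw [h1, hv0, hv1, hv2, ← Nat.cast_pow]
    refine congrArg Nat.cast ?_
    calc (b ^ s * (v0 ^ e1 * v1 ^ e2 * v2)) ^ q
        = b ^ (q * s) * (v0 ^ e1 * v1 ^ e2 * v2) ^ q := by
          rw [mul_pow, ← pow_mul, mul_comm s q]
      _ = b ^ (e1 + e2 + 1) * (v0 ^ e1 * v1 ^ e2 * v2) ^ q := by rw [hs]
      _ = (b * v0 ^ q) ^ e1 * (b * v1 ^ q) ^ e2 * (b * v2 ^ q) := by
          rw [pow_add, pow_add, pow_one, mul_pow, mul_pow, mul_pow, mul_pow, ← pow_mul, ← pow_mul,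
            ← pow_mul, ← pow_mul, mul_comm q e1, mul_comm q e2]
          ring
  have hrun := runge_eff (q := q) (J := J) (H := b ^ (3 * q)) hq.two_le hFm hFdeg hFq hFc hev
  refine hrun.trans (Nat.pow_le_pow_right ?_ ?_)
  · positivity
  · exact Nat.mul_le_mul_left _ (CaseB_num hq5 hb3 he1 he2 hJ)

end Pool.Agent.NLE
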