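import Pool.Agent.NLE.CaseB

/-!
# NLE-CaseB2: consequences of `caseB`

PLAN.  `n / b^3 ≥ b^(q-3)`, `z ≥ b + 1`, `b ≥ 3`; `b^(q-3) = b^(q-6) b^3`, so `caseB` gives
`z^(b^(q-6)) ≤ (16 q^2 (b^(3q)+1))^q ≤ (32 q^2 b^(3q))^q` (take `b^3`-th roots: `Nat.pow_le_pow_left_iff`).
`caseB_large`: with `z ≥ b`: `b^(b^(q-6)) ≤ (32 q^2)^q b^(3q^2)`; `b^(q-6) ≥ 3^(q-6) ≥ 3 q^2 + 4 q * ...` for
`q ≥ 40`, say (`32 q^2 ≤ 3^q ≤ b^q`, so the right side is `≤ b^(4 q^2)` and `3^(q-6) > 4 q^2` for `q ≥ 20`).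
`caseB_fixed` (`q ≥ 7`, `b^(q-6) ≥ b`): `z^b ≤ (32 q^2 b^(3q))^q`.  If `b ≥ b0 := 6 q^2 + 32 q^2 ..`: `b^b` is
larger (`b ≥ 32 q^2`: right side `≤ b^(q + 3q^2)`, `b > q + 3 q^2`), else `z ≤ z^b ≤ (32 q^2 b0^(3q))^q`.
-/

namespace Pool.Agent.NLE

private theorem CaseB2_key {q b z n y : ℕ} (hq : q.Prime) (hq6 : 6 ≤ q) (hb : b.Prime)
    (hb2 : b ≠ 2) (hz : 2 ≤ z) (hbz : b ∣ z - 1) (hn : 0 < n) (hbn : b ∣ n)
    (h : y ^ q = NL.rep z n) : b < z ∧ z ^ (b ^ (q - 6)) ≤ (32 * q ^ 2 * b ^ (3 * q)) ^ q := by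
  have hb0 : 0 < b := hb.pos
  have hbz' : b < z := by
    have h1 := Nat.le_of_dvd (by omega) hbz
    omega
  refine ⟨hbz', ?_⟩
  obtain ⟨⟨m, hm⟩, h2⟩ := caseB hq (by omega) hb hb2 hz hbz hn hbn h
  have hm0 : 0 < m := by
    rcases Nat.eq_zero_or_pos m with h3 | h3
    · rw [h3, mul_zero] at hm
      omega
    · exact h3
  have hdiv : n / b ^ 3 = b ^ (q - 6) * b ^ 3 * m := by
    have h3 : n = b ^ 3 * (b ^ (q - 6) * b ^ 3 * m) := by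
      rw [hm]
      have h4 : q = 3 + ((q - 6) + 3) := by omega
      have h5 : b ^ q = b ^ 3 * (b ^ (q - 6) * b ^ 3) := by
        conv_lhs => rw [h4]
        rw [pow_add, pow_add]
      rw [h5]
      ring
    rw [h3, Nat.mul_div_cancel_left _ (pow_pos hb0 3)]
  have h3 : z ^ (b ^ (q - 6) * b ^ 3) ≤ z ^ (n / b ^ 3) := by
    refine Nat.pow_le_pow_right (by omega) ?_
    rw [hdiv]
    exact Nat.le_mul_of_pos_right _ hm0
  have h4 : (z ^ (b ^ (q - 6))) ^ (b ^ 3) ≤ ((16 * q ^ 2 * (b ^ (3 * q) + 1)) ^ q) ^ (b ^ 3) := by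
    rw [← pow_mul, ← pow_mul]
    exact h3.trans h2
  have h5 : z ^ (b ^ (q - 6)) ≤ (16 * q ^ 2 * (b ^ (3 * q) + 1)) ^ q :=
    (Nat.pow_le_pow_iff_left (pow_pos hb0 3).ne').1 h4
  refine h5.trans (Nat.pow_le_pow_left ?_ q)
  have h6 : 1 ≤ b ^ (3 * q) := Nat.one_le_pow _ _ hb0
  nlinarith [Nat.zero_le (q ^ 2)]

private theorem CaseB2_num1 (m : ℕ) (hm : 34 ≤ m) : 4 * (m + 6) ^ 2 < 3 ^ m := by
  induction m, hm using Nat.le_induction with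
  | base => norm_num
  | succ m hm ih =>
    have h : 3 ^ (m + 1) = 3 ^ m * 3 := pow_succ 3 m
    rw [h]
    nlinarith

private theorem CaseB2_num2 (q : ℕ) (hq : 40 ≤ q) : 32 * q ^ 2 ≤ 3 ^ q := by
  induction q, hq using Nat.le_induction with
  | base => norm_num
  | succ m hm ih =>
    have h : 3 ^ (m + 1) = 3 ^ m * 3 := pow_succ 3 m
    rw [h]
    nlinarith

theorem caseB_large {q b z n y : ℕ} (hq : q.Prime) (hq5 : 40 ≤ q) (hb : b.Prime) (hb2 : b ≠ 2)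
    (hz : 2 ≤ z) (hbz : b ∣ z - 1) (hn : 0 < n) (hbn : b ∣ n) : y ^ q ≠ NL.rep z n := by
  intro h
  obtain ⟨h1, h2⟩ := CaseB2_key hq (by omega) hb hb2 hz hbz hn hbn h
  have hb3 : 3 ≤ b := by
    have := hb.two_le
    omega
  have h3 : b ^ (b ^ (q - 6)) ≤ b ^ (4 * q ^ 2) := by
    refine (Nat.pow_le_pow_left h1.le _).trans (h2.trans ?_)
    have h4 : 32 * q ^ 2 ≤ b ^ q :=
      (CaseB2_num2 q hq5).trans (Nat.pow_le_pow_left hb3 q)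
    calc (32 * q ^ 2 * b ^ (3 * q)) ^ q ≤ (b ^ q * b ^ (3 * q)) ^ q :=
          Nat.pow_le_pow_left (Nat.mul_le_mul_right _ h4) q
      _ = b ^ (4 * q ^ 2) := by
          rw [← pow_add, ← pow_mul]
          congr 1
          ring
  have h5 : b ^ (q - 6) ≤ 4 * q ^ 2 := (Nat.pow_le_pow_iff_right (by omega)).1 h3
  have h6 : 4 * ((q - 6) + 6) ^ 2 < 3 ^ (q - 6) := CaseB2_num1 (q - 6) (by omega)
  have h7 : (q - 6) + 6 = q := by omega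
  rw [h7] at h6
  have h8 : 3 ^ (q - 6) ≤ b ^ (q - 6) := Nat.pow_le_pow_left hb3 _
  omega

theorem caseB_fixed {q : ℕ} (hq : q.Prime) (hq7 : 7 ≤ q) : ∃ Z0 : ℕ, ∀ b z n y : ℕ, Z0 ≤ z →
    b.Prime → b ≠ 2 → b ∣ z - 1 → 0 < n → b ∣ n → y ^ q ≠ NL.rep z n := by
  refine ⟨(32 * q ^ 2 * (32 * q ^ 2) ^ (3 * q)) ^ q + 1, ?_⟩
  intro b z n y hz0 hb hb2 hbz hn hbn h
  have hq0 : 0 < 32 * q ^ 2 := by
    have := hq.pos
    positivity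
  have hz : 2 ≤ z := by
    have h1 : 0 < (32 * q ^ 2 * (32 * q ^ 2) ^ (3 * q)) ^ q := by positivity
    omega
  obtain ⟨h1, h2⟩ := CaseB2_key hq (by omega) hb hb2 hz hbz hn hbn h
  have hb0 : 0 < b := hb.pos
  have h3 : z ^ b ≤ (32 * q ^ 2 * b ^ (3 * q)) ^ q := by
    refine le_trans (Nat.pow_le_pow_right (by omega) ?_) h2
    calc b = b ^ 1 := (pow_one b).symm
      _ ≤ b ^ (q - 6) := Nat.pow_le_pow_right hb0 (by omega)
  rcases Nat.lt_or_ge b (32 * q ^ 2) with h4 | h4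
  · have h5 : z ≤ z ^ b := Nat.le_self_pow hb0.ne' z
    have h6 : (32 * q ^ 2 * b ^ (3 * q)) ^ q ≤ (32 * q ^ 2 * (32 * q ^ 2) ^ (3 * q)) ^ q :=
      Nat.pow_le_pow_left (Nat.mul_le_mul_left _ (Nat.pow_le_pow_left h4.le _)) q
    omega
  · have h5 : b ^ b ≤ b ^ (q + 3 * q ^ 2) := by
      refine (Nat.pow_le_pow_left h1.le b).trans (h3.trans ?_)
      calc (32 * q ^ 2 * b ^ (3 * q)) ^ q ≤ (b * b ^ (3 * q)) ^ q :=
            Nat.pow_le_pow_left (Nat.mul_le_mul_right _ h4) q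
        _ = b ^ (q + 3 * q ^ 2) := by
            rw [← pow_succ', ← pow_mul]
            congr 1
            ring
    have h6 : b ≤ q + 3 * q ^ 2 := (Nat.pow_le_pow_iff_right hb.one_lt).1 h5
    nlinarith

end Pool.Agent.NLE
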