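import Pool.Agent.NLE.SqQuart

/-!
# NLE-SqFour: `x + 1 = 2 u^2`, `x^2 + 1 = 2 v^2` (four digits)

PLAN.  `u, v > 0`.  `v^2 = u^4 + (u^2 - 1)^2`, so `(v - u^2)(v + u^2) = (u^2-1)^2`, `v` odd.
`u` ODD: the factors have gcd 2: `v - u^2 = 2 a^2`, `v + u^2 = 2 b^2` (`a ≥ 0`, `b > 0`), `u^2 = b^2 - a^2`,
`2 a b = u^2 - 1`, `d = b - a`: `d^2 - 2 a^2 = 1`, `u^2 = d (d + 2a)`, coprime (`d` odd): `d = r^2`,
`r^4 - 1 = 2 a^2`, `quart_two`: `a = 0`, `d = 1`, `u = 1`, `x = 1`.
`u` EVEN: the factors are odd and coprime: `v - u^2 = a^2`, `v + u^2 = b^2`, `a b = u^2 - 1`, `2 u^2 = b^2 - a^2`,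
`b - a = 2 c`: `2 c^2 - a^2 = 1`, `u^2 = 2 c (c + a)`; `c` odd (mod 8), `gcd (c, a) = 1`: `c = r^2`,
`c + a = 2 w^2`; `A = 2c + a`: `A^2 - 2 (c+a)^2 = 1`, i.e. `A^2 - 8 w^4 = 1`, `A = 2m + 1`: `m (m+1) = 2 w^4`:
`{m, m+1} = {p^4, 2 q^4}`: `p^4 + 1 = 2 (q^2)^2` (`quart_one`: `p^4 = 1`, `m = 1`, `w^4 = 1`) or
`p^4 - 1 = 2 (q^2)^2` (`quart_two`: `q = 0`, `w = 0`, `c + a = 0`, impossible).  So `A = 3`, `c + a = 2`,
`c = 1`, `a = 1`, `b = 3`, `u^2 = 4`, `x = 7`.
-/

namespace Pool.Agent.NLE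

private theorem sqfour_sq {a b c : ℤ} (ha : 0 ≤ a) (hb : 0 ≤ b) (h : IsCoprime a b)
    (heq : a * b = c ^ 2) : ∃ p q : ℤ, 0 ≤ p ∧ 0 ≤ q ∧ a = p ^ 2 ∧ b = q ^ 2 := by
  obtain ⟨p, hp⟩ := Int.sq_of_isCoprime h heq
  obtain ⟨q, hq⟩ := Int.sq_of_isCoprime h.symm (by rw [mul_comm]; exact heq)
  have ha' : a = p ^ 2 := by
    rcases hp with hp | hp
    · exact hp
    · linarith [sq_nonneg p]
  have hb' : b = q ^ 2 := by
    rcases hq with hq | hq
    · exact hq
    · linarith [sq_nonneg q]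
  exact ⟨|p|, |q|, abs_nonneg p, abs_nonneg q, by rw [sq_abs]; exact ha', by rw [sq_abs]; exact hb'⟩

private theorem sqfour_two {x : ℤ} (h : Odd x) : IsCoprime x 2 := by
  obtain ⟨k, hk⟩ := h
  exact ⟨1, -k, by rw [hk]; ring⟩

/-- the last step: `m (m+1) = 2 w^4` -/
private theorem sqfour_last {m w : ℤ} (hm : 0 < m) (h : m * (m + 1) = 2 * w ^ 4) : m = 1 := by
  have hcop : IsCoprime m (m + 1) := ⟨-1, 1, by ring⟩
  rcases Int.even_or_odd m with he | ho
  · obtain ⟨k, hk⟩ := he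
    exfalso
    have hk2 : m = 2 * k := by linarith
    have hk0 : 0 < k := by linarith
    have h1 : k * (m + 1) = (w ^ 2) ^ 2 := by
      have : 2 * (k * (m + 1)) = 2 * (w ^ 2) ^ 2 := by
        have e : 2 * (k * (m + 1)) = m * (m + 1) := by rw [hk2]; ring
        rw [e, h]; ring
      linarith
    have hc1 : IsCoprime k (m + 1) := by
      have : IsCoprime (2 * k) (m + 1) := by rw [← hk2]; exact hcop
      exact this.of_mul_left_right
    obtain ⟨q1, p1, hq1, hp1, e1, e2⟩ := sqfour_sq hk0.le (by linarith) hc1 h1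
    have h2 : (q1 * p1) ^ 2 = (w ^ 2) ^ 2 := by rw [mul_pow, ← e1, ← e2]; exact h1
    have h3 : q1 * p1 = w ^ 2 := by
      have := abs_eq_abs.mpr ((sq_eq_sq_iff_eq_or_eq_neg).mp h2)
      rwa [abs_of_nonneg (mul_nonneg hq1 hp1), abs_of_nonneg (sq_nonneg w)] at this
    have hc2 : IsCoprime q1 p1 := by
      rw [e1, e2] at hc1
      exact (IsCoprime.pow_iff two_pos two_pos).mp hc1
    obtain ⟨q, p, hq, hp, e3, e4⟩ := sqfour_sq hq1 hp1 hc2 h3
    have h4 : p ^ 4 - 1 = 2 * (q ^ 2) ^ 2 := by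
      have a1 : m + 1 = p ^ 4 := by rw [e2, e4]; ring
      have a2 : k = (q ^ 2) ^ 2 := by rw [e1, e3]
      rw [← a1, ← a2]; linarith
    have h5 := quart_two h4
    have h6 : k = 0 := by rw [e1, e3, h5]; ring
    linarith
  · obtain ⟨k, hk⟩ := ho
    have hk0 : 0 ≤ k := by omega
    have h1 : m * (k + 1) = (w ^ 2) ^ 2 := by
      have : 2 * (m * (k + 1)) = 2 * (w ^ 2) ^ 2 := by
        have e : 2 * (m * (k + 1)) = m * (m + 1) := by rw [hk]; ring
        rw [e, h]; ring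
      linarith
    have hc1 : IsCoprime m (k + 1) := by
      have : IsCoprime m (2 * (k + 1)) := by
        have e : 2 * (k + 1) = m + 1 := by rw [hk]; ring
        rw [e]; exact hcop
      exact this.of_mul_right_right
    obtain ⟨p1, q1, hp1, hq1, e1, e2⟩ := sqfour_sq hm.le (by linarith) hc1 h1
    have h2 : (p1 * q1) ^ 2 = (w ^ 2) ^ 2 := by rw [mul_pow, ← e1, ← e2]; exact h1
    have h3 : p1 * q1 = w ^ 2 := by
      have := abs_eq_abs.mpr ((sq_eq_sq_iff_eq_or_eq_neg).mp h2)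
      rwa [abs_of_nonneg (mul_nonneg hp1 hq1), abs_of_nonneg (sq_nonneg w)] at this
    have hc2 : IsCoprime p1 q1 := by
      rw [e1, e2] at hc1
      exact (IsCoprime.pow_iff two_pos two_pos).mp hc1
    obtain ⟨p, q, hp, hq, e3, e4⟩ := sqfour_sq hp1 hq1 hc2 h3
    have h4 : p ^ 4 + 1 = 2 * (q ^ 2) ^ 2 := by
      have a1 : m = p ^ 4 := by rw [e1, e3]; ring
      have a2 : k + 1 = (q ^ 2) ^ 2 := by rw [e2, e4]
      rw [← a1, ← a2]; linarith
    have h5 := quart_one h4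
    have a1 : m = (p ^ 2) ^ 2 := by rw [e1, e3]
    rw [a1, h5]; norm_num

private theorem sqfour_main {u v : ℤ} (hu : 2 ≤ u) (hv : 0 < v)
    (h : v ^ 2 = 2 * u ^ 4 - 2 * u ^ 2 + 1) : u = 2 := by
  have hfac : (v - u ^ 2) * (v + u ^ 2) = (u ^ 2 - 1) ^ 2 := by linear_combination h
  have hu2 : 4 ≤ u ^ 2 := by nlinarith
  have hsum : 0 < v + u ^ 2 := by linarith
  have hdiff : 0 < v - u ^ 2 := by
    by_contra hcon
    push Not at hcon
    have h1 : 0 < (u ^ 2 - 1) ^ 2 := by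
      have : 0 < u ^ 2 - 1 := by linarith
      positivity
    have h2 : (v - u ^ 2) * (v + u ^ 2) ≤ 0 := mul_nonpos_of_nonpos_of_nonneg hcon hsum.le
    linarith
  have hcop : IsCoprime v (u ^ 2) := ⟨v, 2 - 2 * u ^ 2, by linear_combination h⟩
  have hvodd : Odd v := by
    have : Odd (v ^ 2) := ⟨u ^ 4 - u ^ 2, by rw [h]; ring⟩
    exact (Int.odd_pow' two_ne_zero).mp this
  obtain ⟨k, hk⟩ := hvodd
  rcases Int.even_or_odd u with he | ho
  · -- u even
    obtain ⟨l, hl⟩ := he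
    have hodd1 : Odd (v - u ^ 2) := ⟨k - 2 * l ^ 2, by rw [hk, hl]; ring⟩
    have hc0 : IsCoprime (v - u ^ 2) (u ^ 2) := by
      have := hcop.add_mul_left_left (-1)
      have e : v + u ^ 2 * (-1) = v - u ^ 2 := by ring
      rwa [e] at this
    have hc1 : IsCoprime (v - u ^ 2) (v + u ^ 2) := by
      have h2 : IsCoprime (v - u ^ 2) (2 * u ^ 2) := (sqfour_two hodd1).mul_right hc0
      have h3 := h2.add_mul_left_right 1
      have e : 2 * u ^ 2 + (v - u ^ 2) * 1 = v + u ^ 2 := by ring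
      rwa [e] at h3
    obtain ⟨a, b, ha, hb, e1, e2⟩ := sqfour_sq hdiff.le hsum.le hc1 hfac
    have hab : a * b = u ^ 2 - 1 := by
      have h2 : (a * b) ^ 2 = (u ^ 2 - 1) ^ 2 := by rw [mul_pow, ← e1, ← e2]; exact hfac
      have := abs_eq_abs.mpr ((sq_eq_sq_iff_eq_or_eq_neg).mp h2)
      rwa [abs_of_nonneg (mul_nonneg ha hb), abs_of_nonneg (by linarith)] at this
    have hdif : b ^ 2 - a ^ 2 = 2 * u ^ 2 := by rw [← e1, ← e2]; ring
    have haodd : Odd a := by
      rw [e1] at hodd1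
      exact (Int.odd_pow' two_ne_zero).mp hodd1
    have hbodd : Odd b := by
      have : Odd (b ^ 2) := ⟨k + 2 * l ^ 2, by rw [← e2, hk, hl]; ring⟩
      exact (Int.odd_pow' two_ne_zero).mp this
    have hba : Even (b - a) := hbodd.sub_odd haodd
    obtain ⟨c, hc⟩ := hba
    have hb' : b = a + 2 * c := by linarith
    have hq1 : 2 * c ^ 2 - a ^ 2 = 1 := by
      rw [hb'] at hab hdif
      linarith
    have hq2 : u ^ 2 = 2 * c * (c + a) := by
      rw [hb'] at hdif
      linarith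
    have ha0 : 0 < a := by
      rcases ha.lt_or_eq with h0 | h0
      · exact h0
      · exfalso
        rw [← h0] at e1
        linarith
    have hc0' : 0 < c := by
      by_contra hcon
      push Not at hcon
      have hba' : b ≤ a := by linarith
      have : b ^ 2 ≤ a ^ 2 := by nlinarith
      linarith
    have hcodd : Odd c := by
      rcases Int.even_or_odd c with h0 | h0
      · exfalso
        obtain ⟨c', hc'⟩ := h0
        obtain ⟨a', ha'⟩ := haodd
        have h8 : 2 * (c' + c') ^ 2 - (2 * a' + 1) ^ 2 = 1 := by rw [← hc', ← ha']; exact hq1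
        have h9 : 2 * (4 * c' ^ 2 - 2 * a' ^ 2 - 2 * a' - 1) = 0 := by linarith
        have h10 : 4 * c' ^ 2 - 2 * a' ^ 2 - 2 * a' - 1 = 0 := by linarith
        have h11 : 2 * (2 * c' ^ 2 - a' ^ 2 - a') = 1 := by linarith
        omega
      · exact h0
    have hcop2 : IsCoprime c (2 * (c + a)) := by
      have h1 : IsCoprime c a := ⟨2 * c, -a, by linear_combination hq1⟩
      have h2 : IsCoprime c (c + a) := by
        have := h1.add_mul_left_right 1
        have e : a + c * 1 = c + a := by ring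
        rwa [e] at this
      exact (sqfour_two hcodd).mul_right h2
    obtain ⟨r, s, hr, hs, e3, e4⟩ := sqfour_sq hc0'.le (by linarith) hcop2
      (show c * (2 * (c + a)) = u ^ 2 by rw [hq2]; ring)
    have hseven : Even s := by
      have : Even (s ^ 2) := ⟨c + a, by rw [← e4]; ring⟩
      exact (Int.even_pow' two_ne_zero).mp this
    obtain ⟨w, hw⟩ := hseven
    have hw2 : c + a = 2 * w ^ 2 := by
      rw [hw] at e4
      linarith
    obtain ⟨a', ha'⟩ := haodd
    have hlast : (c + a') * ((c + a') + 1) = 2 * w ^ 4 := by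
      have h1 : (2 * c + a) ^ 2 - 2 * (c + a) ^ 2 = 1 := by linear_combination hq1
      rw [hw2] at h1
      have h2 : 2 * c + a = 2 * (c + a') + 1 := by rw [ha']; ring
      rw [h2] at h1
      linarith
    have hm := sqfour_last (by omega) hlast
    have hc1' : c = 1 := by omega
    have ha1 : a' = 0 := by omega
    rw [ha1] at ha'
    rw [ha', hc1'] at hq2
    have : u ^ 2 = 4 := by rw [hq2]; norm_num
    nlinarith
  · -- u odd
    exfalso
    obtain ⟨l, hl⟩ := ho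
    obtain ⟨α, hα⟩ : ∃ α, v - u ^ 2 = 2 * α := ⟨k - 2 * l ^ 2 - 2 * l, by rw [hk, hl]; ring⟩
    obtain ⟨β, hβ⟩ : ∃ β, v + u ^ 2 = 2 * β := ⟨k + 2 * l ^ 2 + 2 * l + 1, by rw [hk, hl]; ring⟩
    obtain ⟨t, ht⟩ : ∃ t, u ^ 2 - 1 = 2 * t := ⟨2 * l ^ 2 + 2 * l, by rw [hl]; ring⟩
    have hαβ : α * β = t ^ 2 := by
      have : 4 * (α * β) = 4 * t ^ 2 := by
        calc 4 * (α * β) = (2 * α) * (2 * β) := by ring
          _ = (v - u ^ 2) * (v + u ^ 2) := by rw [hα, hβ]
          _ = (u ^ 2 - 1) ^ 2 := hfac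
          _ = (2 * t) ^ 2 := by rw [ht]
          _ = 4 * t ^ 2 := by ring
      linarith
    have hc1 : IsCoprime α β := by
      obtain ⟨s, t', hst⟩ := hcop
      have h1 : v = α + β := by linarith
      have h2 : u ^ 2 = β - α := by linarith
      refine ⟨s - t', s + t', ?_⟩
      rw [h1, h2] at hst
      linear_combination hst
    obtain ⟨a, b, ha, hb, e1, e2⟩ := sqfour_sq (by linarith) (by linarith) hc1 hαβ
    have hab : a * b = t := by
      have h2 : (a * b) ^ 2 = t ^ 2 := by rw [mul_pow, ← e1, ← e2]; exact hαβ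
      have := abs_eq_abs.mpr ((sq_eq_sq_iff_eq_or_eq_neg).mp h2)
      rwa [abs_of_nonneg (mul_nonneg ha hb), abs_of_nonneg (by linarith)] at this
    have hu' : u ^ 2 = b ^ 2 - a ^ 2 := by rw [← e1, ← e2]; linarith
    have hd : (b - a) ^ 2 - 2 * a ^ 2 = 1 := by
      have : 2 * (a * b) = u ^ 2 - 1 := by rw [hab, ht]
      linarith
    have hfac2 : (b - a) * (b + a) = u ^ 2 := by rw [hu']; ring
    have hba : 0 < b - a := by
      by_contra hcon
      push Not at hcon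
      have : (b - a) * (b + a) ≤ 0 := mul_nonpos_of_nonpos_of_nonneg hcon (by linarith)
      linarith
    have hdodd : Odd (b - a) := by
      have : Odd ((b - a) ^ 2) := ⟨a ^ 2, by linarith⟩
      exact (Int.odd_pow' two_ne_zero).mp this
    have hc2 : IsCoprime (b - a) (b + a) := by
      have h1 : IsCoprime (b - a) a := ⟨b - a, -2 * a, by linear_combination hd⟩
      have h2 : IsCoprime (b - a) (2 * a) := (sqfour_two hdodd).mul_right h1
      have h3 := h2.add_mul_left_right 1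
      have e : 2 * a + (b - a) * 1 = b + a := by ring
      rwa [e] at h3
    obtain ⟨r, s, hr, hs, e3, e4⟩ := sqfour_sq hba.le (by linarith) hc2 hfac2
    have h4 : r ^ 4 - 1 = 2 * a ^ 2 := by
      have : r ^ 4 = (b - a) ^ 2 := by rw [e3]; ring
      rw [this]; linarith
    have ha0 := quart_two h4
    rw [ha0] at hab
    have : t = 0 := by linarith
    rw [this] at ht
    linarith

theorem sq_four {x u v : ℕ} (hx : 1 < x) (h1 : x + 1 = 2 * u ^ 2) (h2 : x ^ 2 + 1 = 2 * v ^ 2) :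
    x = 7 := by
  have h1' : (x : ℤ) + 1 = 2 * (u : ℤ) ^ 2 := by exact_mod_cast h1
  have h2' : (x : ℤ) ^ 2 + 1 = 2 * (v : ℤ) ^ 2 := by exact_mod_cast h2
  have hx' : (x : ℤ) = 2 * (u : ℤ) ^ 2 - 1 := by linarith
  have hu : 2 ≤ u := by
    by_contra hcon
    push Not at hcon
    have : u ^ 2 ≤ 1 := by
      have : u ≤ 1 := by omega
      calc u ^ 2 ≤ 1 ^ 2 := Nat.pow_le_pow_left this 2
        _ = 1 := by norm_num
    omega
  have hv : 0 < v := by
    rcases Nat.eq_zero_or_pos v with h0 | h0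
    · rw [h0] at h2
      simp at h2
    · exact h0
  have hmain : (v : ℤ) ^ 2 = 2 * (u : ℤ) ^ 4 - 2 * (u : ℤ) ^ 2 + 1 := by
    rw [hx'] at h2'
    linarith
  have := sqfour_main (by exact_mod_cast hu) (by exact_mod_cast hv) hmain
  have hu2 : u = 2 := by exact_mod_cast this
  rw [hu2] at h1
  omega

end Pool.Agent.NLE
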