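import Pool.Agent.NLE.SqOdd
import Pool.Agent.NLE.SqFour

/-!
# NLE-SqAll: square repunits (Ljunggren's theorem)

PLAN.  `n` odd: `sq_odd`.  `n = 2 m`: `y^2 = rep x m * (x^m + 1)` (`NL.rep_mul_eq`), `gcd ∣ 2`
(`x^m ≡ 1 mod rep x m`).
`m` odd (`m ≥ 3` since `n > 2`): `rep x m` is odd (`m` odd summands), so the factors are coprime, both squares;
`sq_odd`: `x = 3`, `m = 5`, `3^5 + 1 = 244` is no square.
`m` even: `x^m + 1 = (x^(m/2))^2 + 1` is no square, so the gcd is 2, `x` odd, `x^m + 1 = 2 v^2`,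
`rep x m = 2 u^2`.  `m = 2 l`: `rep x m = rep x l * (x^l + 1)`.
 `l = 1`: `x + 1 = 2 u^2`, `x^2 + 1 = 2 v^2`: `sq_four`: `x = 7`, `n = 4`.
 `l` even: `(x^(l/2))^4 + 1 = 2 v^2`: `quart_one` gives `x^(l/2) = 1`, impossible.
 `l ≥ 3` odd: `rep x l` is odd and coprime to `x^l + 1` (gcd divides 2), `rep x l * (x^l + 1) = 2 u^2`, so
 `rep x l` is a square; `sq_odd`: `x = 3`, `l = 5`, `x^m + 1 = 3^10 + 1 = 59050 = 2 * 29525`, `29525` no square.
-/

namespace Pool.Agent.NLE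

private theorem sqall_sq {a b c : ℕ} (hab : Nat.Coprime a b) (h : a * b = c ^ 2) :
    ∃ d, a = d ^ 2 :=
  exists_eq_pow_of_mul_eq_pow (Nat.isUnit_iff.2 hab) h

private theorem sqall_gcd {x m : ℕ} (hx : 1 < x) : Nat.gcd (NL.rep x m) (x ^ m + 1) ∣ 2 := by
  have h1 := NL.rep_mul (x := x) (by omega) m
  have h2 : Nat.gcd (NL.rep x m) (x ^ m + 1) ∣ NL.rep x m * (x - 1) :=
    (Nat.gcd_dvd_left _ _).trans (dvd_mul_right _ _)
  have h3 : Nat.gcd (NL.rep x m) (x ^ m + 1) ∣ x ^ m + 1 := Nat.gcd_dvd_right _ _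
  have h4 : x ^ m + 1 = NL.rep x m * (x - 1) + 2 := by omega
  rw [h4] at h3 ⊢
  exact (Nat.dvd_add_right (by rw [h4] at h2; exact h2)).1 h3

private theorem sqall_pw {x : ℕ} (hx : x % 2 = 1) (m : ℕ) : x ^ m % 2 = 1 := by
  simp [Nat.pow_mod, hx]

private theorem sqall_par {x : ℕ} (hx : x % 2 = 1) (m : ℕ) : NL.rep x m % 2 = m % 2 := by
  induction m with
  | zero => simp [NL.rep]
  | succ m ih =>
    have h1 : x ^ m % 2 = 1 := sqall_pw hx m
    rw [NL.rep_succ]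
    omega

private theorem sqall_par0 {x : ℕ} (hx : x % 2 = 0) (m : ℕ) (hm : 1 ≤ m) : NL.rep x m % 2 = 1 := by
  obtain ⟨k, rfl⟩ : ∃ k, m = k + 1 := ⟨m - 1, by omega⟩
  clear hm
  induction k with
  | zero => simp [NL.rep]
  | succ k ih =>
    have h1 : x ^ (k + 1) % 2 = 0 := by
      rw [pow_succ, Nat.mul_mod, hx, mul_zero, Nat.zero_mod]
    rw [NL.rep_succ]
    omega

private theorem sqall_odd {x m : ℕ} (hm : m % 2 = 1) : NL.rep x m % 2 = 1 := by
  rcases Nat.mod_two_eq_zero_or_one x with h | h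
  · exact sqall_par0 h m (by omega)
  · rw [sqall_par h, hm]

private theorem sqall_cop {x m : ℕ} (hx : 1 < x) (h : NL.rep x m % 2 = 1) :
    Nat.Coprime (NL.rep x m) (x ^ m + 1) := by
  have h1 := sqall_gcd (m := m) hx
  have h2 : Nat.gcd (NL.rep x m) (x ^ m + 1) ∣ NL.rep x m := Nat.gcd_dvd_left _ _
  rcases (Nat.dvd_prime Nat.prime_two).1 h1 with h3 | h3
  · exact h3
  · exfalso
    rw [h3] at h2
    omega

/-- `a ^ 2 + 1` is no square for `a > 0` -/
private theorem sqall_nosq {a b : ℕ} (ha : 0 < a) (h : a ^ 2 + 1 = b ^ 2) : False := by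
  have h1 : a < b := by nlinarith
  nlinarith

private theorem sqall_two (x m : ℕ) : NL.rep x (m * 2) = NL.rep x m * (x ^ m + 1) := by
  rw [NL.rep_mul_eq, NL.rep_succ (x ^ m) 1, NL.rep_one, pow_one, add_comm 1]

theorem sq_all {x y n : ℕ} (hx : 1 < x) (hn : 2 < n) (h : y ^ 2 = NL.rep x n) :
    (x = 3 ∧ n = 5) ∨ (x = 7 ∧ n = 4) := by
  rcases Nat.mod_two_eq_zero_or_one n with hn2 | hn2
  swap
  · exact Or.inl (sq_odd hx hn2 (by omega) h)
  obtain ⟨m, rfl⟩ : ∃ m, n = m * 2 := ⟨n / 2, by omega⟩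
  have hm1 : 1 < m := by omega
  rw [sqall_two] at h
  rcases Nat.mod_two_eq_zero_or_one m with hm2 | hm2
  swap
  · exfalso
    have hc := sqall_cop hx (sqall_odd (x := x) hm2)
    obtain ⟨u, hu⟩ := sqall_sq hc h.symm
    obtain ⟨w, hw⟩ := sqall_sq hc.symm (by rw [mul_comm]; exact h.symm)
    obtain ⟨h1, h2⟩ := sq_odd hx hm2 hm1 hu.symm
    rw [h1, h2] at hw
    have h3 : w ^ 2 = 244 := by
      rw [← hw]
      norm_num
    have h4 : 15 < w := by nlinarith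
    have h5 : w < 16 := by nlinarith
    omega
  obtain ⟨l, rfl⟩ : ∃ l, m = l * 2 := ⟨m / 2, by omega⟩
  have hl : 1 ≤ l := by omega
  have hxl : 0 < x ^ l := Nat.pow_pos (by omega)
  have hxm : x ^ (l * 2) = (x ^ l) ^ 2 := pow_mul x l 2
  have hxo : x % 2 = 1 := by
    rcases Nat.mod_two_eq_zero_or_one x with h0 | h0
    · exfalso
      have hc := sqall_cop hx (sqall_par0 h0 (l * 2) (by omega))
      obtain ⟨w, hw⟩ := sqall_sq hc.symm (by rw [mul_comm]; exact h.symm)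
      rw [hxm] at hw
      exact sqall_nosq hxl hw
    · exact h0
  have hxk : ∀ k, x ^ k % 2 = 1 := sqall_pw hxo
  have hr : NL.rep x (l * 2) % 2 = 0 := by
    rw [sqall_par hxo]
    omega
  obtain ⟨A, hA⟩ : ∃ A, NL.rep x (l * 2) = 2 * A := ⟨NL.rep x (l * 2) / 2, by omega⟩
  obtain ⟨B, hB⟩ : ∃ B, x ^ (l * 2) + 1 = 2 * B := ⟨(x ^ (l * 2) + 1) / 2, by
    have := hxk (l * 2)
    omega⟩
  have hAB : Nat.Coprime A B := by
    have h1 := sqall_gcd (m := l * 2) hx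
    rw [hA, hB, Nat.gcd_mul_left] at h1
    have h2 : Nat.gcd A B ∣ 1 := Nat.dvd_of_mul_dvd_mul_left two_pos (by rw [mul_one]; exact h1)
    exact Nat.dvd_one.1 h2
  have hy : ∃ z, A * B = z ^ 2 := by
    rw [hA, hB] at h
    have h1 : y % 2 = 0 := by
      rcases Nat.mod_two_eq_zero_or_one y with h0 | h0
      · exact h0
      · exfalso
        have h2 : y ^ 2 % 2 = 1 := sqall_pw h0 2
        rw [h, mul_assoc, Nat.mul_mod_right] at h2
        omega
    obtain ⟨z, rfl⟩ : ∃ z, y = 2 * z := ⟨y / 2, by omega⟩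
    exact ⟨z, by nlinarith⟩
  obtain ⟨z, hz⟩ := hy
  obtain ⟨u, hu⟩ := sqall_sq hAB hz
  obtain ⟨w, hw⟩ := sqall_sq hAB.symm (by rw [mul_comm]; exact hz)
  rw [hu] at hA
  rw [hw] at hB
  rw [sqall_two] at hA
  rcases eq_or_lt_of_le hl with hl1 | hl1
  · -- four digits
    subst hl1
    right
    rw [NL.rep_one, one_mul, pow_one] at hA
    rw [one_mul] at hB
    exact ⟨sq_four hx hA hB, rfl⟩
  exfalso
  rcases Nat.mod_two_eq_zero_or_one l with hl2 | hl2
  · obtain ⟨j, rfl⟩ : ∃ j, l = j * 2 := ⟨l / 2, by omega⟩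
    have h1 : (((x ^ j : ℕ) : ℤ)) ^ 4 + 1 = 2 * (w : ℤ) ^ 2 := by
      have h2 : (x ^ j) ^ 4 + 1 = 2 * w ^ 2 := by
        rw [← hB, ← pow_mul]
        ring
      exact_mod_cast h2
    have h2 := quart_one h1
    have h3 : (x ^ j) ^ 2 = 1 := by exact_mod_cast h2
    have h4 : x ^ 1 ≤ x ^ j := Nat.pow_le_pow_right (by omega) (by omega)
    rw [pow_one] at h4
    nlinarith
  · have ho := sqall_odd (x := x) hl2
    have hc := sqall_cop hx ho
    obtain ⟨C, hC⟩ : ∃ C, x ^ l + 1 = 2 * C := ⟨(x ^ l + 1) / 2, by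
      have := hxk l
      omega⟩
    have hcC : Nat.Coprime (NL.rep x l) C := by
      rw [hC] at hc
      exact Nat.Coprime.coprime_mul_left_right hc
    have hm : NL.rep x l * C = u ^ 2 := by
      rw [hC] at hA
      nlinarith
    obtain ⟨t, ht⟩ := sqall_sq hcC hm
    obtain ⟨h1, h2⟩ := sq_odd hx hl2 hl1 ht.symm
    rw [h1, h2] at hB
    have h3 : w ^ 2 = 29525 := by
      have h4 : 3 ^ (5 * 2) + 1 = 2 * 29525 := by norm_num
      omega
    have h4 : 171 < w := by nlinarith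
    have h5 : w < 172 := by nlinarith
    omega

end Pool.Agent.NLE
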