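import Pool.Agent.NLE.EFin
import Pool.Agent.NLE.SqAll

/-!
# NLE-EAll: THEOREM E for all exponents
-/

namespace Pool.Agent.NLE

open Finset

theorem comp_finite_all2 :
    {t : ℕ × ℕ × ℕ × ℕ | 1 < t.1 ∧ 1 < t.2.1 ∧ 1 < t.2.2.1 ∧ 2 < t.2.2.2 ∧ ¬ t.2.2.2.Prime ∧
      (∀ p : ℕ, p.Prime → t.2.2.2 ≠ p ^ 3) ∧
      t.2.1 ^ t.2.2.1 * (t.1 - 1) = t.1 ^ t.2.2.2 - 1}.Finite := by
  have h1 := comp_finite_all
  have h2 : ((fun w : ℕ × ℕ => ((7 : ℕ), w.1, w.2, (4 : ℕ))) ''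
      (Set.Iic (7 ^ 4) ×ˢ Set.Iic (7 ^ 4))).Finite :=
    ((Set.finite_Iic _).prod (Set.finite_Iic _)).image _
  refine (h1.union h2).subset ?_
  rintro ⟨x, y, m, n⟩ ⟨hx, hy, hm, hn, hp, hpq, h⟩
  simp only at hx hy hm hn hp hpq h
  by_cases h2 : ∀ k : ℕ, m ≠ 2 ^ k
  · exact Or.inl ⟨hx, hy, hm, hn, hp, h2, hpq, h⟩
  · right
    push Not at h2
    obtain ⟨k, hk⟩ := h2
    have hk1 : 1 ≤ k := by
      rcases Nat.eq_zero_or_pos k with h0 | h0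
      · rw [h0, pow_zero] at hk
        omega
      · exact h0
    obtain ⟨l, rfl⟩ : ∃ l, m = l * 2 := ⟨2 ^ (k - 1), by
      rw [hk, ← pow_succ]
      congr 1
      omega⟩
    have hrep : y ^ (l * 2) = NL.rep x n := by
      have h1 := NL.rep_mul (by omega : 1 ≤ x) n
      have h2 : y ^ (l * 2) * (x - 1) = NL.rep x n * (x - 1) := by omega
      exact Nat.eq_of_mul_eq_mul_right (by omega) h2
    have h5 : (y ^ l) ^ 2 = NL.rep x n := by rw [← pow_mul, hrep]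
    have h3 := NL.rep_lt (x := x) (n := n) (by omega)
    have h6 : y ≤ y ^ (l * 2) := Nat.le_self_pow (by omega) y
    have h7 : l * 2 < y ^ (l * 2) := Nat.lt_pow_self (by omega)
    rcases sq_all hx hn h5 with ⟨_, hn5⟩ | ⟨hx7, hn4⟩
    · exact absurd (by rw [hn5]; norm_num) hp
    · subst hx7 hn4
      simp only [Set.mem_image, Set.mem_prod, Set.mem_Iic]
      exact ⟨(y, l * 2), ⟨by show y ≤ 7 ^ 4; omega, by show l * 2 ≤ 7 ^ 4; omega⟩, rfl⟩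

end Pool.Agent.NLE
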