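import Pool.Agent.NL.Defs

/-!
# NLE-LTE: `b ^ i * rep z (n / b ^ i)` is a `q`-th power
-/

namespace Pool.Agent.NLE

open Finset

private theorem LTE_isPow {m q : ℕ} (hm : m ≠ 0) (h : ∀ p, q ∣ m.factorization p) :
    ∃ w, m = w ^ q := by
  refine ⟨m.factorization.prod fun p k => p ^ (k / q), ?_⟩
  conv_lhs => rw [← Nat.prod_factorization_pow_eq_self hm]
  unfold Finsupp.prod
  rw [← Finset.prod_pow]
  refine Finset.prod_congr rfl fun p _ => ?_
  rw [← pow_mul, Nat.div_mul_cancel (h p)]

private theorem LTE_cast_one {l x : ℕ} (h : (x : ZMod l) = 1) (n : ℕ) :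
    ((NL.rep x n : ℕ) : ZMod l) = n := by
  unfold NL.rep
  push_cast
  rw [h]
  simp

private theorem LTE_lte {P x n : ℕ} (hP : P.Prime) (hP2 : P ≠ 2) (hx : 1 < x) (h : P ∣ x - 1)
    (hn : n ≠ 0) : (NL.rep x n).factorization P = n.factorization P := by
  have : Fact P.Prime := ⟨hP⟩
  have hxP : ¬ P ∣ x := by
    intro hd
    have h1 : P ∣ x - (x - 1) := Nat.dvd_sub hd h
    have h2 : x - (x - 1) = 1 := by omega
    rw [h2] at h1
    exact hP.one_lt.ne' (Nat.dvd_one.1 h1)
  have h1 := padicValNat.pow_sub_pow (p := P) (hP.odd_of_ne_two hP2) hx h hxP hn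
  rw [one_pow] at h1
  have h2 := NL.rep_mul (by omega : 1 ≤ x) n
  have h3 : x ^ n - 1 = NL.rep x n * (x - 1) := by omega
  rw [h3, padicValNat.mul (NL.rep_pos (Nat.one_le_iff_ne_zero.2 hn)).ne' (by omega)] at h1
  rw [Nat.factorization_def _ hP, Nat.factorization_def _ hP]
  omega

private theorem LTE_one {z a l : ℕ} (hz : 2 ≤ z) (hd : l ∣ NL.rep z a) :
    ((z : ZMod l)) ^ a = 1 := by
  have h1 : ((NL.rep z a : ℕ) : ZMod l) = 0 := (ZMod.natCast_eq_zero_iff _ _).2 hd
  have h2 := NL.rep_mul (by omega : 1 ≤ z) a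
  have h3 := congrArg (Nat.cast (R := ZMod l)) h2
  push_cast at h3
  rw [h1, zero_mul, zero_add] at h3
  exact h3.symm

private theorem LTE_split {z n a c : ℕ} (ha : 1 ≤ a) (hc : 1 ≤ c) (hn : n = a * c)
    (l : ℕ) : (NL.rep z n).factorization l =
      (NL.rep z a).factorization l + (NL.rep (z ^ a) c).factorization l := by
  rw [hn, NL.rep_mul_eq, Nat.factorization_mul (NL.rep_pos ha).ne' (NL.rep_pos hc).ne',
    Finsupp.add_apply]

private theorem LTE_away {q z n a c l : ℕ} (hz : 2 ≤ z) (ha : 1 ≤ a) (hc : 1 ≤ c)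
    (hn : n = a * c) (hv : q ∣ (NL.rep z n).factorization l) (hl : ¬ l ∣ c) :
    q ∣ (NL.rep z a).factorization l := by
  by_cases hd : l ∣ NL.rep z a
  · have h1 : ¬ l ∣ NL.rep (z ^ a) c := by
      intro h2
      have h3 : ((z ^ a : ℕ) : ZMod l) = 1 := by
        push_cast
        exact LTE_one hz hd
      have h4 := (ZMod.natCast_eq_zero_iff _ _).2 h2
      rw [LTE_cast_one h3, ZMod.natCast_eq_zero_iff] at h4
      exact hl h4
    rw [LTE_split ha hc hn, Nat.factorization_eq_zero_of_not_dvd h1, add_zero] at hv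
    exact hv
  · rw [Nat.factorization_eq_zero_of_not_dvd hd]
    exact dvd_zero _

theorem rep_div_pow {q b z n y : ℕ} (hb : b.Prime) (hb2 : b ≠ 2) (hz : 2 ≤ z)
    (hbz : b ∣ z - 1) (hn : 0 < n) (hbn : b ∣ n) (h : y ^ q = NL.rep z n) :
    b ^ q ∣ n ∧ ∀ i ≤ q, ∃ u : ℕ, u ^ q = b ^ i * NL.rep z (n / b ^ i) := by
  have hb1 : 1 ≤ b := hb.one_lt.le
  have hb3 : 3 ≤ b := by
    have := hb.two_le
    omega
  have hlte : (NL.rep z n).factorization b = n.factorization b :=
    LTE_lte hb hb2 (by omega) hbz hn.ne'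
  have hd : b ^ q ∣ n := by
    have h1 := hlte
    rw [← h, Nat.factorization_pow, Finsupp.smul_apply, smul_eq_mul] at h1
    have h2 : 1 ≤ n.factorization b := (hb.dvd_iff_one_le_factorization hn.ne').1 hbn
    have h3 : q ≤ n.factorization b := by
      rw [← h1] at h2 ⊢
      have h4 : 1 ≤ y.factorization b := by
        rcases Nat.eq_zero_or_pos (y.factorization b) with h5 | h5
        · rw [h5, mul_zero] at h2
          omega
        · exact h5
      exact Nat.le_mul_of_pos_right _ h4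
    exact (hb.pow_dvd_iff_le_factorization hn.ne').2 h3
  have hv : ∀ l, q ∣ (NL.rep z n).factorization l := by
    intro l
    rw [← h, Nat.factorization_pow, Finsupp.smul_apply, smul_eq_mul]
    exact dvd_mul_right _ _
  refine ⟨hd, fun i hi => ?_⟩
  obtain ⟨a, ha⟩ : b ^ i ∣ n := (pow_dvd_pow b hi).trans hd
  have ha' : n / b ^ i = a := by
    rw [ha, Nat.mul_div_cancel_left _ (Nat.pow_pos hb1)]
  rw [ha']
  have ha1 : 1 ≤ a := by
    rcases Nat.eq_zero_or_pos a with h0 | h0
    · rw [h0, mul_zero] at ha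
      omega
    · exact h0
  have hbi : 1 ≤ b ^ i := Nat.pow_pos hb1
  have hn' : n = a * b ^ i := by rw [ha, mul_comm]
  have hR : NL.rep z a ≠ 0 := (NL.rep_pos ha1).ne'
  obtain ⟨w, hw⟩ := LTE_isPow (m := b ^ i * NL.rep z a) (q := q)
    (Nat.mul_ne_zero (by omega) hR) (by
      intro l
      rw [Nat.factorization_mul (by omega) hR, Finsupp.add_apply, Nat.factorization_pow,
        Finsupp.smul_apply, smul_eq_mul]
      by_cases hl : l = b
      · subst hl
        rw [hb.factorization_self, mul_one, LTE_lte hb hb2 (by omega) hbz (by omega)]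
        have h1 := hv l
        rw [hlte, hn', Nat.factorization_mul (by omega) (by omega), Finsupp.add_apply,
          Nat.factorization_pow, Finsupp.smul_apply, smul_eq_mul, hb.factorization_self, mul_one,
          add_comm] at h1
        exact h1
      · have h5 : b.factorization l = 0 := by
          rw [hb.factorization, Finsupp.single_apply, if_neg (Ne.symm hl)]
        rw [h5, mul_zero, zero_add]
        by_cases hp : l.Prime
        · exact LTE_away hz ha1 hbi hn' (hv l) fun hd =>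
            hl ((Nat.prime_dvd_prime_iff_eq hp hb).1 (hp.dvd_of_dvd_pow hd))
        · rw [Nat.factorization_eq_zero_of_not_prime _ hp]
          exact dvd_zero _)
  exact ⟨w, hw.symm⟩

end Pool.Agent.NLE
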