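import Pool.Agent.NLC.Main
import Pool.Agent.NL.FixedOne
import Pool.Agent.NLE.CaseB
import Pool.Agent.NLE.LTE

/-!
# NLE-Five: fifth powers, lengths `p^5`, `p ∣ z - 1`

PLAN.  `rep_div_pow` (NLE/LTE.lean, q = 5, n = p^5, b = p): `u_i^5 = p^i * rep z (p^(5-i))`.
`NLC.main_par 5` gives `Z0, N0`.  Small `p` (`p < P0 := max N0 60`): `caseB` gives `z ≤ z^(p^2) ≤ const(p)`
(`n / p^3 = p^2`), sum over `p < P0`.  `p ≥ P0`, `p % 5`:
0: impossible (`p = 5 < P0`).  1: `n % 5 = 1`: `NL.fixed_one`.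
2: `n = p^2`, `n2 = p^3`, `h = 2`, `t = u_2 u_3 / p` (`t^5 = rep z (p^3) * rep z (p^2)`, the product of the
two equations is `p^5 * ...`), `5 J + 2 = p^3 + p^2`.
3: `n = p`, `n2 = p^3`, `h = 3`, `t = u_2 u_4^2 / p^2`, `5 J + 3 = p^3 + 2 p`.
4: `n = p^2`, `n2 = p^4`, `h = 4`, `t = u_1 u_3^3 / p^2`, `5 J + 4 = p^4 + 3 p^2`.
In each case `t^5 (z-1)^h = (z^n2 - 1)(z^n - 1)^(h-1)`; `Good` (see the end of `pair_large` in NLC/Main.lean: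
`p : Par := ⟨q, h, J, n, P, R, L + 1, L⟩`), `N0 ≤ n`, `n2 ≤ n^6`: contradiction with `main_par`.
-/

namespace Pool.Agent.NLE

private theorem Five_root {p i j s c u v A B : ℕ} (hp : 1 ≤ p) (hu : u ^ 5 = p ^ i * A)
    (hv : v ^ 5 = p ^ j * B) (hc : i + s * j = 5 * c) : ∃ t : ℕ, t ^ 5 = A * B ^ s := by
  have h1 : (u * v ^ s) ^ 5 = (p ^ c) ^ 5 * (A * B ^ s) := by
    calc (u * v ^ s) ^ 5 = u ^ 5 * (v ^ 5) ^ s := by
          rw [mul_pow, ← pow_mul, ← pow_mul, mul_comm s 5]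
      _ = p ^ (i + s * j) * (A * B ^ s) := by
          rw [hu, hv, mul_pow, pow_add, ← pow_mul, mul_comm j s]
          ring
      _ = (p ^ c) ^ 5 * (A * B ^ s) := by rw [hc, ← pow_mul, mul_comm 5 c]
  have h2 : (p ^ c) ^ 5 ∣ (u * v ^ s) ^ 5 := ⟨_, h1⟩
  rw [Nat.pow_dvd_pow_iff (by norm_num)] at h2
  obtain ⟨t, ht⟩ := h2
  refine ⟨t, ?_⟩
  rw [ht, mul_pow] at h1
  exact Nat.eq_of_mul_eq_mul_left (by positivity) h1

private theorem Five_key {Z1 N0 : ℕ}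
    (hmain : ∀ (p : NLC.Par) (n2 : ℕ), p.q = 5 → NLC.Good p n2 → N0 ≤ p.n →
      n2 ≤ p.n ^ (5 + 1) → ∀ z t : ℕ, Z1 ≤ z →
      (t : ℤ) ^ p.q * ((z : ℤ) - 1) ^ p.h ≠ ((z : ℤ) ^ n2 - 1) * ((z : ℤ) ^ p.n - 1) ^ (p.h - 1))
    {z n n2 h J t : ℕ} (hz : Z1 ≤ z) (h2 : 2 ≤ h) (h5 : h < 5) (hn : 1 ≤ n)
    (hnn : 2 * n ≤ n2) (h60 : 60 ≤ n2) (hJ : 5 * J + h = n2 + (h - 1) * n) (hN : N0 ≤ n)
    (hn6 : n2 ≤ n ^ 6) (ht : t ^ 5 = NL.rep z n2 * NL.rep z n ^ (h - 1)) : False := by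
  let R := n2 / 60
  let P := 4 * R
  let L := (P + J + R) / n
  let p : NLC.Par := ⟨5, h, J, n, P, R, L + 1, L⟩
  have hg : NLC.Good p n2 := ⟨h2, h5, hn, hnn, h60, hJ, rfl, rfl, rfl, rfl⟩
  refine hmain p n2 rfl hg hN hn6 z t hz ?_
  show (t : ℤ) ^ 5 * ((z : ℤ) - 1) ^ h = ((z : ℤ) ^ n2 - 1) * ((z : ℤ) ^ n - 1) ^ (h - 1)
  have h3 : ((t : ℤ)) ^ 5 = ((NL.rep z n2 : ℕ) : ℤ) * ((NL.rep z n : ℕ) : ℤ) ^ (h - 1) := by
    exact_mod_cast ht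
  obtain ⟨s, rfl⟩ : ∃ s, h = s + 1 := ⟨h - 1, by omega⟩
  rw [Nat.add_sub_cancel] at h3 ⊢
  rw [h3, ← NL.rep_mul_int z n2, ← NL.rep_mul_int z n, mul_pow]
  ring

theorem five : ∃ Z0 : ℕ, ∀ z p y : ℕ, Z0 ≤ z → p.Prime → p ≠ 2 → p ∣ z - 1 →
    y ^ 5 ≠ NL.rep z (p ^ 5) := by
  obtain ⟨Z1, N0, hmain⟩ := NLC.main_par 5 (by norm_num)
  obtain ⟨X0, hfix⟩ := NL.fixed_one (q := 5) (by norm_num)
  set P0 := max N0 60 with hP0
  set Z2 := (16 * 5 ^ 2 * (P0 ^ (3 * 5) + 1)) ^ (5 * P0 ^ 3) with hZ2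
  refine ⟨max (max Z1 X0) (max (Z2 + 1) 2), fun z p y hz hp hp2 hpz hy => ?_⟩
  have hzZ1 : Z1 ≤ z := ((le_max_left _ _).trans (le_max_left _ _)).trans hz
  have hzX0 : X0 ≤ z := ((le_max_right _ _).trans (le_max_left _ _)).trans hz
  have hzZ2 : Z2 + 1 ≤ z := ((le_max_left _ _).trans (le_max_right _ _)).trans hz
  have hz2 : 2 ≤ z := ((le_max_right _ _).trans (le_max_right _ _)).trans hz
  have hp1 : 1 ≤ p := hp.one_lt.le
  have hpos : 0 < p ^ 5 := Nat.pow_pos hp1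
  have hpd : p ∣ p ^ 5 := dvd_pow_self p (by norm_num)
  by_cases hsm : p ≤ P0
  · have h1 := (caseB (q := 5) (by norm_num) (by norm_num) hp hp2 hz2 hpz hpos hpd hy).2
    have h2 : p ^ 5 / p ^ 3 = p ^ 2 := by
      rw [Nat.pow_div (by norm_num) hp1]
    rw [h2] at h1
    have h3 : z ≤ z ^ (p ^ 2) := Nat.le_self_pow (by positivity) z
    have h4 : (16 * 5 ^ 2 * (p ^ (3 * 5) + 1)) ^ (5 * p ^ 3) ≤ Z2 := by
      rw [hZ2]
      refine (Nat.pow_le_pow_left ?_ _).trans (Nat.pow_le_pow_right (by positivity) ?_)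
      · exact Nat.mul_le_mul_left _ (Nat.add_le_add_right (Nat.pow_le_pow_left hsm _) _)
      · exact Nat.mul_le_mul_left _ (Nat.pow_le_pow_left hsm _)
    omega
  · have hN0 : N0 ≤ p := by
      have : N0 ≤ P0 := le_max_left _ _
      omega
    have h60 : 60 ≤ p := by
      have : 60 ≤ P0 := le_max_right _ _
      omega
    obtain ⟨-, hu⟩ := rep_div_pow (q := 5) hp hp2 hz2 hpz hpos hpd hy
    have hdiv : ∀ i ≤ 5, p ^ 5 / p ^ i = p ^ (5 - i) := fun i hi => Nat.pow_div hi hp1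
    obtain ⟨u1, hu1⟩ := hu 1 (by norm_num)
    obtain ⟨u2, hu2⟩ := hu 2 (by norm_num)
    obtain ⟨u3, hu3⟩ := hu 3 (by norm_num)
    obtain ⟨u4, hu4⟩ := hu 4 (by norm_num)
    rw [hdiv 1 (by norm_num)] at hu1
    rw [hdiv 2 (by norm_num)] at hu2
    rw [hdiv 3 (by norm_num)] at hu3
    rw [hdiv 4 (by norm_num)] at hu4
    have e1 : (5 - 1 : ℕ) = 4 := rfl
    have e2 : (5 - 2 : ℕ) = 3 := rfl
    have e3 : (5 - 3 : ℕ) = 2 := rfl
    have e4 : (5 - 4 : ℕ) = 1 := rfl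
    rw [e1] at hu1
    rw [e2] at hu2
    rw [e3] at hu3
    rw [e4, pow_one] at hu4
    have hpp2 : p ≤ p ^ 2 := Nat.le_self_pow (by norm_num) p
    have hm2 : p ^ 2 % 5 = (p % 5) ^ 2 % 5 := Nat.pow_mod p 2 5
    have hm3 : p ^ 3 % 5 = (p % 5) ^ 3 % 5 := Nat.pow_mod p 3 5
    have hm4 : p ^ 4 % 5 = (p % 5) ^ 4 % 5 := Nat.pow_mod p 4 5
    have hm5 : p ^ 5 % 5 = (p % 5) ^ 5 % 5 := Nat.pow_mod p 5 5
    have hlt : p % 5 < 5 := Nat.mod_lt _ (by norm_num)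
    have h23 : 2 * p ^ 2 ≤ p ^ 3 := by
      calc 2 * p ^ 2 ≤ p * p ^ 2 := Nat.mul_le_mul_right _ (by omega)
        _ = p ^ 3 := by ring
    have h13 : 2 * p ≤ p ^ 3 := by
      have := Nat.mul_le_mul_left 2 hpp2
      omega
    have h24 : 2 * p ^ 2 ≤ p ^ 4 := by
      refine h23.trans (Nat.pow_le_pow_right hp1 (by norm_num))
    interval_cases hr : p % 5
    · have h5 : 5 ∣ p := Nat.dvd_of_mod_eq_zero hr
      have := (Nat.prime_dvd_prime_iff_eq (by norm_num) hp).1 h5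
      omega
    · exact hfix z y (p ^ 5) hzX0 (Nat.one_lt_pow (by norm_num) hp.one_lt)
        (by rw [hm5]; norm_num) hy
    · obtain ⟨t, ht⟩ := Five_root (s := 1) (c := 1) hp1 hu2 hu3 (by norm_num)
      obtain ⟨J, hJ⟩ : ∃ J, 5 * J + 2 = p ^ 3 + p ^ 2 := by
        refine ⟨(p ^ 3 + p ^ 2) / 5, ?_⟩
        norm_num at hm2 hm3
        omega
      refine Five_key hmain (h := 2) (n := p ^ 2) (n2 := p ^ 3) (J := J) (t := t) hzZ1 le_rfl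
        (by norm_num) (by omega) h23 (by omega) (by omega) (by omega) ?_ ht
      rw [← pow_mul]
      exact Nat.pow_le_pow_right hp1 (by norm_num)
    · obtain ⟨t, ht⟩ := Five_root (s := 2) (c := 2) hp1 hu2 hu4 (by norm_num)
      obtain ⟨J, hJ⟩ : ∃ J, 5 * J + 3 = p ^ 3 + 2 * p := by
        refine ⟨(p ^ 3 + 2 * p) / 5, ?_⟩
        norm_num at hm3
        omega
      refine Five_key hmain (h := 3) (n := p) (n2 := p ^ 3) (J := J) (t := t) hzZ1 (by norm_num)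
        (by norm_num) (by omega) h13 (by omega) (by omega) hN0 ?_ ht
      exact Nat.pow_le_pow_right hp1 (by norm_num)
    · obtain ⟨t, ht⟩ := Five_root (s := 3) (c := 2) hp1 hu1 hu3 (by norm_num)
      obtain ⟨J, hJ⟩ : ∃ J, 5 * J + 4 = p ^ 4 + 3 * p ^ 2 := by
        refine ⟨(p ^ 4 + 3 * p ^ 2) / 5, ?_⟩
        norm_num at hm2 hm4
        omega
      refine Five_key hmain (h := 4) (n := p ^ 2) (n2 := p ^ 4) (J := J) (t := t) hzZ1 (by norm_num)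
        (by norm_num) (by omega) h24 (by omega) (by omega) (by omega) ?_ ht
      rw [← pow_mul]
      exact Nat.pow_le_pow_right hp1 (by norm_num)

end Pool.Agent.NLE
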