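import Pool.Agent.NLE.GauF

/-!
# NLE-Stormer: Størmer's theorem `X^2 + 1 ≠ 2 v^q` for `X > 1`

PLAN.  Prove it for all integers `X` with `1 < |X|` (needed for the symmetry).  `gau_two`:
`X + i = (1+i) a^q`, `a = A + Bi`, `A^2 + B^2 = v` odd (`X` is odd, mod 4), so exactly one of `A, B` is even.
SYMMETRY: WLOG `B` is even: `q ≡ 1 mod 4`: `-X + i = (1+i) (B + Ai)^q`; `q ≡ 3 mod 4`:
`-X + i = (1+i) (-B - Ai)^q` (conjugate and multiply by units).
`q ≡ 1 mod 4`: `A + B` divides `Im ((1+i)(A+Bi)^q) = 1` (it vanishes for `B = -A`: `(1+i)(1-i)^q` is real), so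
`A + B = e = ±1`, `A + Bi = e (1 - (1-i) B')`, `B' = e B`, `e^q = e`:
`1 = e (1 + ∑_{j=2}^q C(q,j) (-B')^j c_j)`, `c_j = Im (2 (1-i)^(j-1))`: `c_2 = -2`, `2^(1 + ⌊(j-1)/2⌋) ∣ c_j`
(`(1-i)^2 = -2i`); modulo 4: `e = 1`; then `∑_{j≥2} C(q,j)(-B')^j c_j = 0`, and if `B' ≠ 0` the term `j = 2` has
strictly the smallest 2-adic valuation: `C(q,j) j (j-1) = 2 C(q,2) C(q-2,j-2)`, so for `j ≥ 3`
`v_2(term j) - v_2(term 2) ≥ - v_2(j(j-1)) + (j-2) + 1 + ⌊(j-1)/2⌋ > 0` (`B'` even).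
`q ≡ 3 mod 4`: `A - B` divides 1 (`(1+i)^(q+1)` is real), `A - B = e`, `A + Bi = e + B (1+i)`:
`1 = Im ((1+i)(e + B(1+i))^q) = e + 2 q B + ∑_{j≥2} C(q,j) e^(q-j) B^j Im ((1+i)^(j+1))`, all `Im` even for
`j ≥ 2`... so modulo 4 `e = 1`, and the term `2qB` (`B ≠ 0` even) has strictly the smallest valuation: the terms
`j ≥ 2` are divisible by `2 B^2`.  So `B = 0`, `A = ±1`, `X + i = ±(1+i)`, `|X| = 1`.
-/

namespace Pool.Agent.NLE

open Finset

/-- the imaginary part as an additive map -/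
private def Stormer_im : GaussianInt →+ ℤ where
  toFun z := z.im
  map_zero' := rfl
  map_add' _ _ := rfl

private lemma Stormer_im_cast (n : ℤ) (z : GaussianInt) : ((n : GaussianInt) * z).im = n * z.im := by
  rw [Zsqrtd.im_mul, Zsqrtd.re_intCast, Zsqrtd.im_intCast]
  ring

/-- the expansion of the imaginary part -/
private lemma Stormer_exp (q : ℕ) (e b : ℤ) (ζ : GaussianInt) :
    ((⟨1, 1⟩ : GaussianInt) * ((e : GaussianInt) + (b : GaussianInt) * ζ) ^ q).im =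
      ∑ j ∈ range (q + 1), ((q.choose j : ℕ) : ℤ) * e ^ (q - j) * b ^ j *
        ((⟨1, 1⟩ : GaussianInt) * ζ ^ j).im := by
  rw [add_comm, add_pow, mul_sum]
  have h := map_sum Stormer_im (fun m => (⟨1, 1⟩ : GaussianInt) * (((b : GaussianInt) * ζ) ^ m *
    (e : GaussianInt) ^ (q - m) * ((q.choose m : ℕ) : GaussianInt))) (range (q + 1))
  refine h.trans (sum_congr rfl fun j _ => ?_)
  show ((⟨1, 1⟩ : GaussianInt) * (((b : GaussianInt) * ζ) ^ j *
    (e : GaussianInt) ^ (q - j) * ((q.choose j : ℕ) : GaussianInt))).im = _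
  rw [← Stormer_im_cast]
  congr 1
  push_cast
  ring

private lemma Stormer_pow_two (j : ℕ) (hj : 3 ≤ j) : j ≤ 2 ^ (j - 1) := by
  obtain ⟨d, rfl⟩ := Nat.exists_eq_add_of_le hj
  have h : 3 + d - 1 = d + 2 := by omega
  rw [h, pow_add]
  have h2 : d < 2 ^ d := Nat.lt_two_pow_self
  omega

/-- 2-adic valuations of the binomial coefficients -/
private lemma Stormer_choose {q j v : ℕ} (hj : 3 ≤ j) (h : 2 ^ v ∣ q.choose 2) :
    2 ^ (v + 1) ∣ q.choose j * 2 ^ (j - 1) := by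
  have h1 : j * (j - 1) * q.choose j = 2 * q.choose 2 * (q - 2).choose (j - 2) := by
    have h2 := Nat.choose_mul (n := q) (k := j) (s := 2) (by omega)
    have h3 : j.choose 2 * 2 = j * (j - 1) := by
      rw [Nat.choose_two_right, Nat.div_mul_cancel]
      exact (Nat.even_mul_pred_self j).two_dvd
    rw [← h3]
    calc j.choose 2 * 2 * q.choose j = 2 * (q.choose j * j.choose 2) := by ring
      _ = _ := by rw [h2]; ring
  have h4 : 2 ^ (v + 1) ∣ j * (j - 1) * q.choose j := by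
    rw [h1, pow_succ, mul_comm (2 ^ v) 2]
    exact dvd_mul_of_dvd_left (mul_dvd_mul_left 2 h) _
  obtain ⟨s, m, hm, hsm⟩ := Nat.exists_eq_two_pow_mul_odd (n := j * (j - 1))
    (Nat.mul_ne_zero (by omega) (by omega))
  have hs : s ≤ j - 1 := by
    have h5 : 2 ^ s ∣ j * (j - 1) := ⟨m, hsm⟩
    have h6 : 2 ^ s ≤ j := by
      rcases Nat.even_or_odd j with hev | hodd
      · have hodd : Odd (j - 1) := by
          obtain ⟨t, ht⟩ := hev
          exact ⟨t - 1, by omega⟩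
        have hc : Nat.Coprime (2 ^ s) (j - 1) :=
          Nat.Coprime.pow_left s ((Nat.coprime_two_left).2 hodd)
        exact Nat.le_of_dvd (by omega) (hc.dvd_of_dvd_mul_right h5)
      · have hc : Nat.Coprime (2 ^ s) j :=
          Nat.Coprime.pow_left s ((Nat.coprime_two_left).2 hodd)
        have h7 := Nat.le_of_dvd (by omega) (hc.dvd_of_dvd_mul_left h5)
        omega
    exact (Nat.pow_le_pow_iff_right (by norm_num)).1 (h6.trans (Stormer_pow_two j hj))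
  rw [hsm, mul_assoc, mul_left_comm] at h4
  have hc : Nat.Coprime (2 ^ (v + 1)) m :=
    Nat.Coprime.pow_left _ ((Nat.coprime_two_left).2 hm)
  have h5 := hc.dvd_of_dvd_mul_left h4
  refine h5.trans ?_
  rw [mul_comm]
  exact Nat.mul_dvd_mul_left _ (pow_dvd_pow 2 hs)

private lemma Stormer_e {q : ℕ} {e b : ℤ} {c : ℕ → ℤ}
    (h : ∑ j ∈ range (q + 1), ((q.choose j : ℕ) : ℤ) * e ^ (q - j) * b ^ j * c j = 1)
    (hq : c q = 0) : e = 1 ∨ e = -1 := by
  have h1 : e ∣ 1 := by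
    rw [← h]
    refine dvd_sum fun j hj => ?_
    rcases Nat.lt_or_ge j q with h2 | h2
    · have h3 : e ∣ e ^ (q - j) := dvd_pow_self e (by omega)
      exact dvd_mul_of_dvd_left (dvd_mul_of_dvd_left (dvd_mul_of_dvd_right h3 _) _) _
    · have h3 : j = q := by
        have := mem_range.1 hj
        omega
      rw [h3, hq, mul_zero]
      exact dvd_zero e
  exact Int.isUnit_iff.1 (isUnit_of_dvd_one h1)

private lemma Stormer_odd {q : ℕ} (hq : Odd q) {e : ℤ} (he : e = 1 ∨ e = -1) : e ^ q = e := by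
  rcases he with rfl | rfl
  · exact one_pow _
  · exact hq.neg_one_pow

private lemma Stormer_one {m : ℕ} (hq : Odd (m + 2)) {e b : ℤ} {c : ℕ → ℤ} (hb : 2 ∣ b)
    (h : ∑ j ∈ range (m + 2 + 1), (((m + 2).choose j : ℕ) : ℤ) * e ^ (m + 2 - j) * b ^ j * c j = 1)
    (hcq : c (m + 2) = 0) (h0 : c 0 = 1) (h1 : c 1 = 0) (h2 : c 2 = -2)
    (h3 : ∀ j, 3 ≤ j → 4 ∣ c j) : b = 0 := by
  have he := Stormer_e h hcq
  by_contra hb0
  rw [sum_range_succ', sum_range_succ', sum_range_succ', h0] at h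
  simp only [zero_add, Nat.choose_zero_right, Nat.choose_one_right, h1, h2, Nat.sub_zero,
    Stormer_odd hq he, pow_zero, mul_one, mul_zero, Nat.cast_one, one_mul, pow_one, add_zero,
    Nat.reduceAdd] at h
  obtain ⟨b', rfl⟩ := hb
  have he1 : e = 1 := by
    have h4 : (4 : ℤ) ∣ ∑ k ∈ range m, (((m + 2).choose (k + 1 + 1 + 1) : ℕ) : ℤ) *
        e ^ (m + 2 - (k + 1 + 1 + 1)) * (2 * b') ^ (k + 1 + 1 + 1) * c (k + 1 + 1 + 1) :=
      dvd_sum fun k _ => dvd_mul_of_dvd_right (h3 _ (by omega)) _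
    obtain ⟨t, ht⟩ := h4
    rw [ht] at h
    rcases he with he | he
    · exact he
    · exfalso
      rw [he] at h
      have h5 : (1 : ℤ) = 4 * (t + ((m + 2).choose 2 : ℕ) * (-1) ^ (m + 2 - 2) * b' ^ 2 * -2) + -1 := by
        linear_combination -h
      omega
  subst he1
  simp only [one_pow, mul_one] at h
  -- the term `j = 2`
  have hN : (m + 2).choose 2 ≠ 0 := (Nat.choose_pos (by omega)).ne'
  obtain ⟨v, w, hw, hvw⟩ := Nat.exists_eq_two_pow_mul_odd hN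
  have hterm : ∀ k ∈ range m, (2 : ℤ) ^ (v + 1) * (2 * (2 * b') ^ 2) ∣
      (((m + 2).choose (k + 1 + 1 + 1) : ℕ) : ℤ) * (2 * b') ^ (k + 1 + 1 + 1) *
        c (k + 1 + 1 + 1) := by
    intro k hk
    have hk := mem_range.1 hk
    obtain ⟨c', hc'⟩ := h3 (k + 1 + 1 + 1) (by omega)
    obtain ⟨d, hd⟩ := Stormer_choose (q := m + 2) (j := k + 1 + 1 + 1) (v := v) (by omega)
      ⟨w, hvw⟩
    have hd' : (((m + 2).choose (k + 1 + 1 + 1) : ℕ) : ℤ) * 2 ^ (k + 1 + 1) = 2 ^ (v + 1) * d := by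
      exact_mod_cast hd
    refine ⟨(d : ℤ) * b' ^ (k + 1) * c', ?_⟩
    rw [hc']
    calc (((m + 2).choose (k + 1 + 1 + 1) : ℕ) : ℤ) * (2 * b') ^ (k + 1 + 1 + 1) * (4 * c')
        = ((((m + 2).choose (k + 1 + 1 + 1) : ℕ) : ℤ) * 2 ^ (k + 1 + 1)) *
          (2 * (2 * b') ^ 2) * (b' ^ (k + 1) * c') := by ring
      _ = _ := by rw [hd']; ring
  obtain ⟨t, ht⟩ := dvd_sum hterm
  rw [ht, hvw] at h
  push_cast at h
  have hb' : (2 * b') ^ 2 ≠ 0 := pow_ne_zero 2 hb0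
  have h5 : (2 * (2 * b') ^ 2) * 2 ^ v * (2 * t - w) = 0 := by
    linear_combination h
  rcases mul_eq_zero.1 h5 with h6 | h6
  · rcases mul_eq_zero.1 h6 with h7 | h7
    · exact (mul_ne_zero two_ne_zero hb') h7
    · exact (pow_ne_zero v two_ne_zero) h7
  · obtain ⟨w', hw'⟩ := hw
    rw [hw'] at h6
    push_cast at h6
    omega

private lemma Stormer_three {m : ℕ} (hq : Odd (m + 1)) {e b : ℤ} {c : ℕ → ℤ} (hb : 2 ∣ b)
    (h : ∑ j ∈ range (m + 1 + 1), (((m + 1).choose j : ℕ) : ℤ) * e ^ (m + 1 - j) * b ^ j * c j = 1)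
    (hcq : c (m + 1) = 0) (h0 : c 0 = 1) (h1 : c 1 = 2)
    (h2 : ∀ j, 2 ≤ j → 2 ∣ c j) : b = 0 := by
  have he := Stormer_e h hcq
  by_contra hb0
  have hev : e ^ (m + 1 - 1) = 1 := by
    have hm : Even m := by
      obtain ⟨t, ht⟩ := hq
      exact ⟨t, by omega⟩
    rw [Nat.add_sub_cancel]
    rcases he with rfl | rfl
    · exact one_pow _
    · exact hm.neg_one_pow
  rw [sum_range_succ', sum_range_succ', h0] at h
  simp only [zero_add, Nat.choose_zero_right, Nat.choose_one_right, h1, Nat.sub_zero,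
    Stormer_odd hq he, pow_zero, mul_one, Nat.cast_one, one_mul, pow_one, hev] at h
  have hs : 2 * b ^ 2 ∣ ∑ k ∈ range m, (((m + 1).choose (k + 1 + 1) : ℕ) : ℤ) *
        e ^ (m + 1 - (k + 1 + 1)) * b ^ (k + 1 + 1) * c (k + 1 + 1) := by
    refine dvd_sum fun k _ => ?_
    obtain ⟨c', hc'⟩ := h2 (k + 1 + 1) (by omega)
    refine ⟨(((m + 1).choose (k + 1 + 1) : ℕ) : ℤ) * e ^ (m + 1 - (k + 1 + 1)) * b ^ k * c', ?_⟩
    rw [hc']
    ring
  obtain ⟨t, ht⟩ := hs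
  rw [ht] at h
  obtain ⟨b', rfl⟩ := hb
  have he1 : e = 1 := by
    rcases he with he | he
    · exact he
    · exfalso
      rw [he] at h
      have h5 : (1 : ℤ) = 4 * (2 * b' ^ 2 * t + ((m + 1 : ℕ) : ℤ) * b') + -1 := by
        linear_combination -h
      omega
  rw [he1] at h
  have h6 : (2 * (2 * b')) * (2 * b' * t + ((m + 1 : ℕ) : ℤ)) = 0 := by
    linear_combination h
  rcases mul_eq_zero.1 h6 with h7 | h7
  · exact (mul_ne_zero two_ne_zero hb0) h7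
  · obtain ⟨s, hs⟩ := hq
    rw [hs] at h7
    push_cast at h7
    have h8 : (2 : ℤ) * (b' * t + s) + 1 = 0 := by linear_combination h7
    omega

private lemma Stormer_main {q : ℕ} (hq : Odd q) (hq3 : 3 ≤ q) {A B : ℤ} (hB : 2 ∣ B)
    (h : ((⟨1, 1⟩ : GaussianInt) * ⟨A, B⟩ ^ q).im = 1) : B = 0 := by
  obtain ⟨k, hk⟩ : ∃ k, q = 4 * k + 1 ∨ q = 4 * k + 3 := by
    obtain ⟨t, ht⟩ := hq
    rcases Nat.even_or_odd t with ⟨r, hr⟩ | ⟨r, hr⟩
    · exact ⟨r, Or.inl (by omega)⟩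
    · exact ⟨r, Or.inr (by omega)⟩
  rcases hk with hk | hk
  · have hAB : (⟨A, B⟩ : GaussianInt) = ((A + B : ℤ) : GaussianInt) + (B : GaussianInt) * ⟨-1, 1⟩ := by
      ext <;> simp
    rw [hAB, Stormer_exp] at h
    obtain ⟨m, rfl⟩ : ∃ m, q = m + 2 := ⟨q - 2, by omega⟩
    have hz2 : (⟨-1, 1⟩ : GaussianInt) ^ 2 = ((-2 : ℤ) : GaussianInt) * ⟨0, 1⟩ := by
      rw [pow_two]
      ext <;> simp
    refine Stormer_one hq hB h ?_ ?_ ?_ ?_ ?_
    · rw [hk, pow_succ, mul_comm (_ ^ (4 * k)), ← mul_assoc, pow_mul]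
      have h4 : (⟨-1, 1⟩ : GaussianInt) ^ 4 = ((-4 : ℤ) : GaussianInt) := by
        rw [show (4 : ℕ) = 2 * 2 from rfl, pow_mul, hz2, pow_two]
        ext <;> simp
      have h5 : (⟨1, 1⟩ : GaussianInt) * ⟨-1, 1⟩ = ((-2 : ℤ) : GaussianInt) := by
        ext <;> simp
      rw [h4, h5, ← Int.cast_pow, ← Int.cast_mul, Zsqrtd.im_intCast]
    · rw [pow_zero, mul_one]
    · rw [pow_one]
      simp
    · rw [hz2]
      simp
    · intro j hj
      obtain ⟨d, rfl⟩ := Nat.exists_eq_add_of_le hj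
      have h5 : (⟨1, 1⟩ : GaussianInt) * ⟨-1, 1⟩ ^ (3 + d) =
          ((4 : ℤ) : GaussianInt) * (⟨0, 1⟩ * ⟨-1, 1⟩ ^ d) := by
        have h6 : (⟨1, 1⟩ : GaussianInt) * ⟨-1, 1⟩ = ((-2 : ℤ) : GaussianInt) := by
          ext <;> simp
        rw [pow_add, show (3 : ℕ) = 1 + 2 from rfl, pow_add, hz2, pow_one, ← mul_assoc, ← mul_assoc,
          h6]
        push_cast
        ring
      rw [h5, Stormer_im_cast]
      exact dvd_mul_right _ _
  · have hAB : (⟨A, B⟩ : GaussianInt) = ((A - B : ℤ) : GaussianInt) + (B : GaussianInt) * ⟨1, 1⟩ := by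
      ext <;> simp
    rw [hAB, Stormer_exp] at h
    obtain ⟨m, rfl⟩ : ∃ m, q = m + 1 := ⟨q - 1, by omega⟩
    have hz2 : (⟨1, 1⟩ : GaussianInt) ^ 2 = ((2 : ℤ) : GaussianInt) * ⟨0, 1⟩ := by
      rw [pow_two]
      ext <;> simp
    refine Stormer_three hq hB h ?_ ?_ ?_ ?_
    · rw [← pow_succ', hk, show 4 * k + 3 + 1 = 4 * (k + 1) from by ring, pow_mul]
      have h4 : (⟨1, 1⟩ : GaussianInt) ^ 4 = ((-4 : ℤ) : GaussianInt) := by
        rw [show (4 : ℕ) = 2 * 2 from rfl, pow_mul, hz2, pow_two]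
        ext <;> simp
      rw [h4, ← Int.cast_pow, Zsqrtd.im_intCast]
    · rw [pow_zero, mul_one]
    · rw [pow_one, ← pow_two, hz2]
      simp
    · intro j hj
      obtain ⟨d, rfl⟩ := Nat.exists_eq_add_of_le hj
      rw [← pow_succ', show 2 + d + 1 = 2 + (d + 1) from by ring, pow_add, hz2, mul_assoc,
        Stormer_im_cast]
      exact dvd_mul_right _ _

private lemma Stormer_abs {q : ℕ} (hq : Odd q) (hq3 : 3 ≤ q) {A B X : ℤ} (hB : 2 ∣ B)
    (h : (⟨X, 1⟩ : GaussianInt) = ⟨1, 1⟩ * ⟨A, B⟩ ^ q) : X = 1 := by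
  have h1 : ((⟨1, 1⟩ : GaussianInt) * ⟨A, B⟩ ^ q).im = 1 := by rw [← h]
  have h2 := Stormer_main hq hq3 hB h1
  subst h2
  have h3 : (⟨A, 0⟩ : GaussianInt) ^ q = ((A ^ q : ℤ) : GaussianInt) := by
    have h4 : (⟨A, 0⟩ : GaussianInt) = (A : GaussianInt) := by
      ext <;> simp
    rw [h4, Int.cast_pow]
  rw [h3] at h
  have h5 := congrArg Zsqrtd.re h
  have h6 := congrArg Zsqrtd.im h
  simp at h5 h6
  have h7 : ((A : GaussianInt) ^ q).im = 0 := by rw [← Int.cast_pow, Zsqrtd.im_intCast]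
  rw [h7] at h5 h6
  linarith

theorem stormer {q : ℕ} (hq : q.Prime) (hq2 : q ≠ 2) {X v : ℤ} (hX : 1 < X) :
    X ^ 2 + 1 ≠ 2 * v ^ q := by
  intro h
  have hodd : Odd q := hq.odd_of_ne_two hq2
  have hq3 : 3 ≤ q := by
    have := hq.two_le
    omega
  obtain ⟨A, B, hAB, hv⟩ := gau_two hq hq2 h
  have hvodd : Odd v := by
    rw [← Int.not_even_iff_odd]
    rintro ⟨w, hw⟩
    have h4 : (4 : ℤ) ∣ v ^ q := by
      have h5 : v ^ 2 ∣ v ^ q := pow_dvd_pow v hq.two_le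
      refine dvd_trans ⟨w ^ 2, ?_⟩ h5
      rw [hw]
      ring
    obtain ⟨t, ht⟩ := h4
    rw [ht] at h
    have h6 : X ^ 2 % 4 = 0 ∨ X ^ 2 % 4 = 1 := by
      rcases Int.emod_two_eq_zero_or_one X with h7 | h7
      · left
        obtain ⟨y, hy⟩ := Int.dvd_of_emod_eq_zero h7
        rw [hy, show (2 * y) ^ 2 = 4 * (y ^ 2) from by ring]
        omega
      · right
        obtain ⟨y, hy⟩ : ∃ y, X = 2 * y + 1 := ⟨X / 2, by omega⟩
        rw [hy, show (2 * y + 1) ^ 2 = 4 * (y ^ 2 + y) + 1 from by ring]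
        omega
    omega
  rcases Int.even_or_odd B with hB | hB
  · have h1 := Stormer_abs hodd hq3 hB.two_dvd hAB
    omega
  · have hA : Even A := by
      by_contra hA
      have hA := Int.not_even_iff_odd.1 hA
      have h1 : Even (A ^ 2 + B ^ 2) := (hA.pow).add_odd (hB.pow)
      rw [hv] at h1
      exact (Int.not_even_iff_odd.2 hvodd) h1
    -- the symmetry
    have hstar : (⟨X, -1⟩ : GaussianInt) = ⟨1, -1⟩ * ⟨A, -B⟩ ^ q := by
      have h1 := congrArg star hAB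
      rw [star_mul', star_pow] at h1
      exact h1
    have hkey : ∃ s : ℤ, (s = 1 ∨ s = -1) ∧ ((s : GaussianInt) * ⟨0, 1⟩) ^ q = ⟨0, 1⟩ := by
      have hi4 : (⟨0, 1⟩ : GaussianInt) ^ 4 = 1 := by
        rw [show (4 : ℕ) = 2 * 2 from rfl, pow_mul, pow_two, pow_two]
        ext <;> simp
      obtain ⟨t, ht⟩ := hodd
      rcases Nat.even_or_odd t with ⟨r, hr⟩ | ⟨r, hr⟩
      · refine ⟨1, Or.inl rfl, ?_⟩
        rw [Int.cast_one, one_mul, ht, hr, show 2 * (r + r) + 1 = 4 * r + 1 from by ring, pow_add,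
          pow_mul, hi4, one_pow, one_mul, pow_one]
      · refine ⟨-1, Or.inr rfl, ?_⟩
        have hi4' : (((-1 : ℤ) : GaussianInt) * ⟨0, 1⟩) ^ 4 = 1 := by
          rw [mul_pow, hi4]
          push_cast
          norm_num
        rw [ht, hr, show 2 * (2 * r + 1) + 1 = 4 * r + 3 from by ring, pow_add, pow_mul, hi4',
          one_pow, one_mul]
        rw [show (3 : ℕ) = 1 + 1 + 1 from rfl, pow_succ, pow_succ, pow_one]
        ext <;> simp
    obtain ⟨s, -, hs⟩ := hkey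
    have hpow : (⟨s * B, s * A⟩ : GaussianInt) ^ q = ⟨0, 1⟩ * ⟨A, -B⟩ ^ q := by
      rw [← hs, ← mul_pow]
      congr 1
      ext <;> simp
    have hfin : (⟨-X, 1⟩ : GaussianInt) = ⟨1, 1⟩ * ⟨s * B, s * A⟩ ^ q := by
      rw [hpow, ← mul_assoc]
      have h1 : (⟨1, 1⟩ : GaussianInt) * ⟨0, 1⟩ = - ⟨1, -1⟩ := by
        ext <;> simp
      rw [h1, neg_mul, ← hstar]
      ext <;> simp
    have h1 := Stormer_abs hodd hq3 (dvd_mul_of_dvd_right hA.two_dvd s) hfin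
    omega

end Pool.Agent.NLE
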