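import Pool.Agent.NLE.Lebes
import Pool.Agent.NLE.Stormer
import Pool.Agent.NL.Defs

/-!
# NLE-Four: the length is not divisible by 4

PLAN.  `n = 2 m`, `m` even, `m ≥ 2`.  `rep z n = rep z m * (z^m + 1)` (`NL.rep_mul_eq`, `rep (z^m) 2`).
`gcd (rep z m) (z^m + 1) ∣ 2` (`z^m ≡ 1 mod rep z m`).  `z` even: `z^m + 1` is odd, coprime factors, so
`z^m + 1 = (z^(m/2))^2 + 1 = v^q`: `lebesgue`.  `z` odd: `z^m + 1 ≡ 2 mod 4`, so `z^m + 1 = 2 w`, `w` odd and
`w * (2 rep z m) = y^q` with `w` coprime to `2 rep z m` (an odd common prime would divide both): `w = v^q`: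
`stormer` with `X = z^(m/2) > 1`.
-/

namespace Pool.Agent.NLE

private theorem four_gcd {R X z : ℕ} (h : R * (z - 1) + 1 = X ^ 2) {d : ℕ} (h1 : d ∣ R)
    (h2 : d ∣ X ^ 2 + 1) : d ∣ 2 := by
  rw [← h] at h2
  have h3 : d ∣ R * (z - 1) := h1.mul_right _
  have h4 : R * (z - 1) + 1 + 1 = R * (z - 1) + 2 := by ring
  rw [h4] at h2
  exact (Nat.dvd_add_right h3).1 h2

theorem four_dvd {q : ℕ} (hq : q.Prime) (hq2 : q ≠ 2) {z n y : ℕ} (hz : 2 ≤ z) (hn : 0 < n)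
    (h4 : 4 ∣ n) : y ^ q ≠ NL.rep z n := by
  obtain ⟨k, rfl⟩ := h4
  have hk : 0 < k := by omega
  intro hy
  obtain ⟨X, hX⟩ : ∃ X, X = z ^ k := ⟨_, rfl⟩
  have hX1 : 1 < X := by
    rw [hX]
    exact Nat.one_lt_pow (by omega) (by omega)
  have hXZ : (1 : ℤ) < (X : ℤ) := by exact_mod_cast hX1
  have hz2 : z ^ (2 * k) = X ^ 2 := by rw [hX, ← pow_mul, mul_comm]
  obtain ⟨R, hR⟩ : ∃ R, R = NL.rep z (2 * k) := ⟨_, rfl⟩
  have hR1 : R * (z - 1) + 1 = X ^ 2 := by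
    rw [hR, NL.rep_mul (by omega), hz2]
  have h2 : NL.rep z (4 * k) = R * (X ^ 2 + 1) := by
    have e : 4 * k = 2 * k * 2 := by ring
    rw [e, NL.rep_mul_eq, hz2, ← hR]
    have e2 : NL.rep (X ^ 2) 2 = X ^ 2 + 1 := by
      rw [NL.rep_succ, NL.rep_one, pow_one, add_comm]
    rw [e2]
  rw [h2] at hy
  rcases Nat.even_or_odd z with hzE | hzO
  · have hXE : Even X := by rw [hX]; exact hzE.pow_of_ne_zero (by omega)
    have hodd : ¬ 2 ∣ X ^ 2 + 1 := by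
      have h5 : Even (X ^ 2) := hXE.pow_of_ne_zero (by omega)
      obtain ⟨c, hc⟩ := h5
      omega
    have hcop : Nat.Coprime (X ^ 2 + 1) R := by
      have h6 : Nat.gcd (X ^ 2 + 1) R ∣ 2 :=
        four_gcd hR1 (Nat.gcd_dvd_right _ _) (Nat.gcd_dvd_left _ _)
      rcases (Nat.dvd_prime Nat.prime_two).1 h6 with h7 | h7
      · exact h7
      · have h10 := Nat.gcd_dvd_left (X ^ 2 + 1) R
        rw [h7] at h10
        exact absurd h10 hodd
    have h8 : (X ^ 2 + 1) * R = y ^ q := by rw [hy, mul_comm]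
    obtain ⟨v, hv⟩ := exists_eq_pow_of_mul_eq_pow (a := X ^ 2 + 1) (b := R) (c := y) (k := q)
      (by rw [Nat.isUnit_iff]; exact hcop) h8
    refine lebesgue hq hq2 hXZ (v := (v : ℤ)) ?_
    exact_mod_cast hv
  · have hXO : Odd X := by rw [hX]; exact hzO.pow
    obtain ⟨c, hc⟩ := hXO
    obtain ⟨w, hw⟩ : ∃ w, w = 2 * (c * c + c) + 1 := ⟨_, rfl⟩
    have hw1 : X ^ 2 + 1 = 2 * w := by rw [hc, hw]; ring
    have hodd : ¬ 2 ∣ w := by omega
    have hcop1 : Nat.Coprime w R := by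
      have h6 : Nat.gcd w R ∣ 2 := by
        refine four_gcd hR1 (Nat.gcd_dvd_right _ _) ?_
        rw [hw1]
        exact (Nat.gcd_dvd_left _ _).mul_left _
      rcases (Nat.dvd_prime Nat.prime_two).1 h6 with h7 | h7
      · exact h7
      · have h10 := Nat.gcd_dvd_left w R
        rw [h7] at h10
        exact absurd h10 hodd
    have hcop2 : Nat.Coprime w 2 := ((Nat.Prime.coprime_iff_not_dvd Nat.prime_two).2 hodd).symm
    have hcop : Nat.Coprime w (2 * R) := hcop2.mul_right hcop1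
    have h8 : w * (2 * R) = y ^ q := by rw [hy, hw1]; ring
    obtain ⟨v, hv⟩ := exists_eq_pow_of_mul_eq_pow (a := w) (b := 2 * R) (c := y) (k := q)
      (by rw [Nat.isUnit_iff]; exact hcop) h8
    refine stormer hq hq2 hXZ (v := (v : ℤ)) ?_
    have h9 : X ^ 2 + 1 = 2 * v ^ q := by rw [hw1, hv]
    exact_mod_cast h9

end Pool.Agent.NLE
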