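import Pool.Agent.NLC.Reduce

/-!
# NLE-ReduceU: composite lengths not divisible by 4

PLAN.  As in `NLC/Reduce.lean` (copy private lemmas).  `b = minFac n`, `n1 = n / b`, `b ≤ n1` (`n` composite),
`n1 ≥ 3` (`n1 = 2` gives `n = 4`), `n = b n1 ≤ n1^2`.  If `b` is odd and `b ∣ z - 1`: second alternative.
If `b ∤ z - 1`: `b ∤ rep z n1` (order of `z` mod `b` divides `gcd (n1, b-1) = 1`), so
`gcd (rep z n1) (rep (z^n1) b) = gcd (rep z n1) b = 1` and both factors are `q`-th powers.  If `b = 2` and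
`z` is odd: `n1` is odd (`4 ∤ n`), `rep z n1` is odd (`n1` odd summands), again coprime.
-/

namespace Pool.Agent.NLE

open Finset

private theorem ru_isPow {m q : ℕ} (hm : m ≠ 0) (h : ∀ p, q ∣ m.factorization p) :
    ∃ w, m = w ^ q := by
  refine ⟨m.factorization.prod fun p k => p ^ (k / q), ?_⟩
  conv_lhs => rw [← Nat.prod_factorization_pow_eq_self hm]
  unfold Finsupp.prod
  rw [← Finset.prod_pow]
  refine Finset.prod_congr rfl fun p _ => ?_
  rw [← pow_mul, Nat.div_mul_cancel (h p)]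

private theorem ru_cast_one {l x : ℕ} (h : (x : ZMod l) = 1) (n : ℕ) :
    ((NL.rep x n : ℕ) : ZMod l) = n := by
  unfold NL.rep
  push_cast
  rw [h]
  simp

/-- `z^a ≡ 1` modulo a divisor of `rep z a` -/
private theorem ru_one {z a l : ℕ} (hz : 2 ≤ z) (hd : l ∣ NL.rep z a) :
    ((z : ZMod l)) ^ a = 1 := by
  have h1 : ((NL.rep z a : ℕ) : ZMod l) = 0 := (ZMod.natCast_eq_zero_iff _ _).2 hd
  have h2 := NL.rep_mul (by omega : 1 ≤ z) a
  have h3 := congrArg (Nat.cast (R := ZMod l)) h2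
  push_cast at h3
  rw [h1, zero_mul, zero_add] at h3
  exact h3.symm

private theorem ru_split {z n a c : ℕ} (hz : 2 ≤ z) (ha : 1 ≤ a) (hc : 1 ≤ c) (hn : n = a * c)
    (l : ℕ) : (NL.rep z n).factorization l =
      (NL.rep z a).factorization l + (NL.rep (z ^ a) c).factorization l := by
  rw [hn, NL.rep_mul_eq, Nat.factorization_mul (NL.rep_pos ha).ne' (NL.rep_pos hc).ne',
    Finsupp.add_apply]

/-- primes not dividing the cofactor -/
private theorem ru_away {q z n a c l : ℕ} (hz : 2 ≤ z) (ha : 1 ≤ a) (hc : 1 ≤ c) (hn : n = a * c)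
    (hv : q ∣ (NL.rep z n).factorization l) (hl : ¬ l ∣ c) :
    q ∣ (NL.rep z a).factorization l := by
  by_cases hd : l ∣ NL.rep z a
  · have h1 : ¬ l ∣ NL.rep (z ^ a) c := by
      intro h2
      have h3 : ((z ^ a : ℕ) : ZMod l) = 1 := by
        push_cast
        exact ru_one hz hd
      have h4 := (ZMod.natCast_eq_zero_iff _ _).2 h2
      rw [ru_cast_one h3, ZMod.natCast_eq_zero_iff] at h4
      exact hl h4
    rw [ru_split hz ha hc hn, Nat.factorization_eq_zero_of_not_dvd h1, add_zero] at hv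
    exact hv
  · rw [Nat.factorization_eq_zero_of_not_dvd hd]
    exact dvd_zero _

private theorem ru_fin {q z n a b c : ℕ} (hz : 2 ≤ z) (ha : 1 ≤ a) (hc : 1 ≤ c) (hn : n = a * c)
    (hv : ∀ l, q ∣ (NL.rep z n).factorization l) (hcb : ∀ l : ℕ, l.Prime → l ∣ c → l = b)
    (hb : q ∣ (NL.rep z a).factorization b) : ∃ u, u ^ q = NL.rep z a := by
  obtain ⟨w, hw⟩ := ru_isPow (NL.rep_pos (x := z) ha).ne' (q := q) (by
    intro l
    by_cases hp : l.Prime
    · by_cases hl : l ∣ c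
      · rw [hcb l hp hl]
        exact hb
      · exact ru_away hz ha hc hn (hv l) hl
    · rw [Nat.factorization_eq_zero_of_not_prime _ hp]
      exact dvd_zero _)
  exact ⟨w, hw.symm⟩

theorem comp_reduce_u {q z n y : ℕ} (hq : q.Prime) (hq3 : 3 ≤ q) (hz : 2 ≤ z) (hn : 2 < n)
    (hp : ¬ n.Prime) (h4 : ¬ 4 ∣ n) (h : y ^ q = NL.rep z n) :
    (∃ n1 u : ℕ, 3 ≤ n1 ∧ 2 * n1 ≤ n ∧ n ≤ n1 ^ 2 ∧ u ^ q = NL.rep z n1) ∨
      ∃ b : ℕ, b.Prime ∧ b ≠ 2 ∧ b ∣ z - 1 ∧ b ∣ n := by
  have hn0 : n ≠ 0 := by omega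
  have hv : ∀ l, q ∣ (NL.rep z n).factorization l := by
    intro l
    rw [← h, Nat.factorization_pow, Finsupp.smul_apply, smul_eq_mul]
    exact dvd_mul_right _ _
  set b := n.minFac with hbd
  have hb : b.Prime := Nat.minFac_prime (by omega)
  have hb2 : 2 ≤ b := hb.two_le
  have hbn : b ∣ n := Nat.minFac_dvd n
  have hmin : ∀ d : ℕ, 2 ≤ d → d ∣ n → b ≤ d := fun d hd hdn => Nat.minFac_le_of_dvd hd hdn
  haveI : Fact b.Prime := ⟨hb⟩
  have hbn' := hbn
  obtain ⟨a, ha⟩ := hbn'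
  have hna : n = a * b := by rw [ha, mul_comm]
  have ha0 : a ≠ 0 := by
    rintro rfl
    omega
  have ha1 : a ≠ 1 := by
    rintro rfl
    rw [mul_one] at ha
    rw [ha] at hp
    exact hp hb
  have hba : b ≤ a := hmin a (by omega) ⟨b, hna⟩
  have ha3 : 3 ≤ a := by
    by_contra hlt
    have ha2 : a = 2 := by omega
    have hb2' : b = 2 := by omega
    apply h4
    rw [hna, ha2, hb2']
  by_cases hbo : b ≠ 2 ∧ b ∣ z - 1
  · exact Or.inr ⟨b, hb, hbo.1, hbo.2, hbn⟩
  left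
  have hnd : ¬ b ∣ NL.rep z a := by
    intro hd
    by_cases hbz : b ∣ z - 1
    · have hb3 : b = 2 := by
        by_contra hb3
        exact hbo ⟨hb3, hbz⟩
      have hzc : (z : ZMod b) = 1 := by
        have h3 : ((z - 1 : ℕ) : ZMod b) = 0 := (ZMod.natCast_eq_zero_iff _ _).2 hbz
        rw [Nat.cast_sub (by omega : 1 ≤ z)] at h3
        push_cast at h3
        linear_combination h3
      have h5 := (ZMod.natCast_eq_zero_iff _ _).2 hd
      rw [ru_cast_one hzc, ZMod.natCast_eq_zero_iff] at h5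
      apply h4
      rw [hna]
      rw [hb3] at h5 ⊢
      obtain ⟨t, ht⟩ := h5
      exact ⟨t, by rw [ht]; ring⟩
    · have h3 := ru_one hz hd
      have hx0 : (z : ZMod b) ≠ 0 := by
        intro h4
        rw [h4, zero_pow ha0] at h3
        exact zero_ne_one h3
      have ho : orderOf (z : ZMod b) ∣ a := orderOf_dvd_of_pow_eq_one h3
      have ho2 : orderOf (z : ZMod b) ∣ b - 1 := ZMod.orderOf_dvd_card_sub_one hx0
      by_cases h1d : orderOf (z : ZMod b) = 1
      · rw [orderOf_eq_one_iff] at h1d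
        apply hbz
        rw [← ZMod.natCast_eq_zero_iff, Nat.cast_sub (by omega : 1 ≤ z), h1d]
        simp
      · have hd0 : orderOf (z : ZMod b) ≠ 0 := by
          intro h5
          rw [h5] at ho
          exact ha0 (Nat.eq_zero_of_zero_dvd ho)
        have h6 := hmin _ (by omega : 2 ≤ orderOf (z : ZMod b)) (ho.trans ⟨b, hna⟩)
        have h7 := Nat.le_of_dvd (by omega) ho2
        omega
  obtain ⟨u, hu⟩ := ru_fin (q := q) (b := b) hz (by omega : 1 ≤ a) (by omega : 1 ≤ b) hna hv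
    (fun l hl hlc => (Nat.prime_dvd_prime_iff_eq hl hb).1 hlc) (by
      rw [Nat.factorization_eq_zero_of_not_dvd hnd]
      exact dvd_zero _)
  refine ⟨a, u, ha3, ?_, ?_, hu⟩
  · rw [hna, mul_comm 2 a]
    exact Nat.mul_le_mul_left a hb2
  · rw [hna]
    calc a * b ≤ a * a := Nat.mul_le_mul_left a hba
      _ = a ^ 2 := by ring

end Pool.Agent.NLE
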