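import Pool.Agent.NLC.Final
import Pool.Agent.NLE.CaseB2
import Pool.Agent.NLE.Four
import Pool.Agent.NLE.ReduceU
import Pool.Agent.NLE.Five

/-!
# NLE-PairB: for each exponent the base is bounded
-/

namespace Pool.Agent.NLE

open Finset Pool.Agent.NLC

theorem pair_bounded {q : ℕ} (hq : q.Prime) (hq3 : 3 ≤ q) : ∃ X : ℕ, ∀ z n1 n2 u y : ℕ, 2 ≤ z →
    3 ≤ n1 → 2 * n1 ≤ n2 → n2 ≤ n1 ^ (q + 1) → u ^ q = NL.rep z n1 → y ^ q = NL.rep z n2 →
    z < X := by
  obtain ⟨X1, hX1⟩ := NL.fixed_one hq3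
  obtain ⟨X2, hX2⟩ := pair_same hq3
  obtain ⟨X3, N0, hX3⟩ := pair_large q hq hq3
  -- bounded lengths
  have hfix : ∀ n1 n2 : ℕ, ∃ Z : ℕ, 1 < n1 → n1 < n2 → n1 % q ≠ 1 → ∀ z u y : ℕ, Z ≤ z →
      u ^ q = NL.rep z n1 → y ^ q = NL.rep z n2 → False := by
    intro n1 n2
    by_cases h : 1 < n1 ∧ n1 < n2 ∧ n1 % q ≠ 1
    · obtain ⟨Z, hZ⟩ := pair_fixed (n1 := n1) (n2 := n2) hq h.1 h.2.1 h.2.2
      exact ⟨Z, fun _ _ _ => hZ⟩
    · exact ⟨0, fun h1 h2 h3 => absurd ⟨h1, h2, h3⟩ h⟩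
  choose Z hZ using hfix
  set M : ℕ := N0 ^ (q + 1) with hM
  set X4 : ℕ := ∑ n1 ∈ range (M + 1), ∑ n2 ∈ range (M + 1), Z n1 n2 with hX4
  refine ⟨X1 + X2 + X3 + X4 + 1, fun z n1 n u y hz hn1 hn12 hnq hu h => ?_⟩
  by_contra hcon
  have hn1q : n1 % q ≠ 1 := fun h1 => hX1 z u n1 (by omega) (by omega) h1 hu
  have hnq1 : n % q ≠ 1 := fun h1 => hX1 z y n (by omega) (by omega) h1 h
  by_cases hsame : n1 % q = n % q
  · have h3 : (n - n1) % q = 0 := Nat.sub_mod_eq_zero_of_mod_eq hsame.symm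
    obtain ⟨k, hk⟩ := Nat.dvd_of_mod_eq_zero h3
    exact hX2 z n1 n k u y (by omega) (by omega) hn12 (by omega) hu h
  · rcases Nat.lt_or_ge n1 N0 with hlt | hge
    · have h5 : n ≤ M := hnq.trans (Nat.pow_le_pow_left hlt.le _)
      have h4 : n1 ≤ M := by omega
      have h6 : Z n1 n ≤ X4 := by
        calc Z n1 n ≤ ∑ n2 ∈ range (M + 1), Z n1 n2 :=
              Finset.single_le_sum (f := fun n2 => Z n1 n2) (fun _ _ => Nat.zero_le _)
                (Finset.mem_range.2 (by omega))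
          _ ≤ X4 := Finset.single_le_sum (f := fun n1 => ∑ n2 ∈ range (M + 1), Z n1 n2)
                (fun _ _ => Nat.zero_le _) (Finset.mem_range.2 (by omega))
      exact hZ n1 n (by omega) (by omega) hn1q z u y (by omega) hu h
    · exact hX3 z n1 n u y (by omega) hge hn12 hnq hn1q hnq1 hsame hu h

/-- For each odd prime exponent the bases of the solutions of composite length are bounded; for
`q = 3` lengths `p ^ 3` are excluded. -/
theorem comp_bounded {q : ℕ} (hq : q.Prime) (hq3 : 3 ≤ q) : ∃ X : ℕ, ∀ z n y : ℕ, 2 ≤ z → 2 < n →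
    ¬ n.Prime → (q = 3 → ∀ p : ℕ, p.Prime → n ≠ p ^ 3) → y ^ q = NL.rep z n → z < X := by
  have hq2 : q ≠ 2 := by omega
  obtain ⟨X1, hX1⟩ := pair_bounded hq hq3
  have key : ∀ z n y n1 u : ℕ, 2 ≤ z → 3 ≤ n1 → 2 * n1 ≤ n → n ≤ n1 ^ 2 → u ^ q = NL.rep z n1 →
      y ^ q = NL.rep z n → z < X1 := by
    intro z n y n1 u hz h1 h2 h3 hu h
    refine hX1 z n1 n u y hz h1 h2 (h3.trans (Nat.pow_le_pow_right (by omega) (by omega))) hu h
  rcases Nat.lt_or_ge q 7 with h7 | h7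
  · -- q = 3 or q = 5
    obtain ⟨X2, hX2⟩ := five
    refine ⟨X1 + X2, fun z n y hz hn hp hex h => ?_⟩
    have h4 : ¬ 4 ∣ n := fun h4 => four_dvd hq hq2 hz (by omega) h4 h
    have h2k : ∀ k : ℕ, n ≠ 2 ^ k := by
      rintro k rfl
      rcases Nat.lt_or_ge k 2 with hk | hk
      · interval_cases k <;> omega
      · exact h4 ⟨2 ^ (k - 2), by rw [← pow_sub_mul_pow 2 hk]; ring⟩
    by_cases hpq : ∀ p : ℕ, p.Prime → n ≠ p ^ q
    · obtain ⟨n1, u, hn1, hn12, hnq, hu⟩ := comp_reduce hq hq3 hz hn hp h2k hpq h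
      have := hX1 z n1 n u y hz hn1 hn12 hnq hu h
      omega
    · push Not at hpq
      obtain ⟨p, hpp, hnp⟩ := hpq
      have hq5 : q = 5 := by
        have h5 : q ≠ 3 := fun h3 => hex h3 p hpp (by rw [hnp, h3])
        have h6 : q ≠ 4 := by rintro rfl; exact absurd hq (by norm_num)
        have h7' : q ≠ 6 := by rintro rfl; exact absurd hq (by norm_num)
        omega
      have hp2 : p ≠ 2 := by
        rintro rfl
        exact h2k q hnp
      rcases comp_reduce_u hq hq3 hz hn hp h4 h with ⟨n1, u, hn1, hn12, hnn, hu⟩ |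
        ⟨b, hb, hb2, hbz, hbn⟩
      · have := key z n y n1 u hz hn1 hn12 hnn hu h
        omega
      · have hbp : b = p := by
          rw [hnp] at hbn
          exact (Nat.prime_dvd_prime_iff_eq hb hpp).1 (hb.dvd_of_dvd_pow hbn)
        by_contra hcon
        rw [hbp] at hbz
        rw [hq5, hnp, hq5] at h
        exact hX2 z p y (by omega) hpp hp2 hbz h
  · obtain ⟨X2, hX2⟩ := caseB_fixed hq h7
    refine ⟨X1 + X2, fun z n y hz hn hp _ h => ?_⟩
    have h4 : ¬ 4 ∣ n := fun h4 => four_dvd hq hq2 hz (by omega) h4 h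
    rcases comp_reduce_u hq hq3 hz hn hp h4 h with ⟨n1, u, hn1, hn12, hnn, hu⟩ |
      ⟨b, hb, hb2, hbz, hbn⟩
    · have := key z n y n1 u hz hn1 hn12 hnn hu h
      omega
    · by_contra hcon
      exact hX2 b z n y (by omega) hb hb2 hbz (by omega) hbn h

end Pool.Agent.NLE
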