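import Pool.Agent.NLE.UFin
import Pool.Agent.NLE.PairB

/-!
# NLE-EFin: THEOREM E
-/

namespace Pool.Agent.NLE

open Finset

private theorem rep_of_eq {x y m n : ℕ} (hx : 2 ≤ x) (h : y ^ m * (x - 1) = x ^ n - 1) :
    y ^ m = NL.rep x n := by
  have h1 := NL.rep_mul (by omega : 1 ≤ x) n
  have h2 : y ^ m * (x - 1) = NL.rep x n * (x - 1) := by omega
  exact Nat.eq_of_mul_eq_mul_right (by omega) h2

/-- A natural number `m > 1` which is not a power of two has an odd prime factor. -/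
private theorem odd_prime_factor {m : ℕ} (hm : m ≠ 0) (h : ∀ k : ℕ, m ≠ 2 ^ k) :
    ∃ q : ℕ, q.Prime ∧ 3 ≤ q ∧ q ∣ m := by
  by_contra hcon
  push Not at hcon
  have h1 : ∀ p : ℕ, p.Prime → p ∣ m → p = 2 := by
    intro p hp hpm
    by_contra hp2
    have h2 := hp.two_le
    exact hcon p hp (by omega) hpm
  exact h _ (Nat.eq_prime_pow_of_unique_prime_dvd hm fun {p} hp hpm => h1 p hp hpm)

theorem comp_finite_all :
    {t : ℕ × ℕ × ℕ × ℕ | 1 < t.1 ∧ 1 < t.2.1 ∧ 1 < t.2.2.1 ∧ 2 < t.2.2.2 ∧ ¬ t.2.2.2.Prime ∧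
      (∀ k : ℕ, t.2.2.1 ≠ 2 ^ k) ∧ (∀ p : ℕ, p.Prime → t.2.2.2 ≠ p ^ 3) ∧
      t.2.1 ^ t.2.2.1 * (t.1 - 1) = t.1 ^ t.2.2.2 - 1}.Finite := by
  obtain ⟨q0, hq0⟩ := exponent_bounded
  have hX : ∀ q : ℕ, ∃ X : ℕ, q.Prime → 3 ≤ q → ∀ z n y : ℕ, 2 ≤ z → 2 < n →
      ¬ n.Prime → (q = 3 → ∀ p : ℕ, p.Prime → n ≠ p ^ 3) → y ^ q = NL.rep z n → z < X := by
    intro q
    by_cases h : q.Prime ∧ 3 ≤ q
    · obtain ⟨X, hX⟩ := comp_bounded h.1 h.2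
      exact ⟨X, fun _ _ => hX⟩
    · exact ⟨0, fun h1 h2 => absurd ⟨h1, h2⟩ h⟩
  choose X hX using hX
  have hfin : (⋃ q ∈ {q : ℕ | 3 ≤ q ∧ q ≤ q0}, ⋃ x ∈ {x : ℕ | 2 ≤ x ∧ x ≤ X q},
      ⋃ n ∈ {n : ℕ | ∃ y : ℕ, y ^ q = NL.rep x n},
      (fun w : ℕ × ℕ => (x, w.1, w.2, n)) '' (Set.Iic (x ^ n) ×ˢ Set.Iic (x ^ n))).Finite := by
    refine Set.Finite.biUnion ((Set.finite_Iic q0).subset fun x hx => hx.2) ?_
    intro q hq
    refine Set.Finite.biUnion ((Set.finite_Iic (X q)).subset fun x hx => hx.2) ?_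
    intro x hx
    refine Set.Finite.biUnion (NLG.fixed_base hq.1 hx.1) ?_
    intro n _
    exact ((Set.finite_Iic _).prod (Set.finite_Iic _)).image _
  refine hfin.subset ?_
  rintro ⟨x, y, m, n⟩ ⟨hx, hy, hm, hn, hp, h2, hpq, h⟩
  simp only at hx hy hm hn hp h2 hpq h
  obtain ⟨q, hq, hq3, hqm⟩ := odd_prime_factor (by omega) h2
  obtain ⟨k, rfl⟩ := hqm
  have hk : k ≠ 0 := by
    rintro rfl
    omega
  have hrep := rep_of_eq (by omega : 2 ≤ x) h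
  have hrep2 : (y ^ k) ^ q = NL.rep x n := by rw [← pow_mul, mul_comm k q, hrep]
  have hqq : q < q0 := by
    by_contra hcon
    exact hq0 q x n (y ^ k) hq (by omega) (by omega) hn hp hrep2
  have hxX := hX q hq hq3 x n (y ^ k) (by omega) hn hp (fun _ => hpq) hrep2
  have h3 := NL.rep_lt (x := x) (n := n) (by omega)
  have h1 : y ≤ y ^ (q * k) := Nat.le_self_pow (Nat.mul_ne_zero hq.ne_zero hk) y
  have h4 : q * k < y ^ (q * k) := Nat.lt_pow_self (by omega)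
  simp only [Set.mem_iUnion, Set.mem_image, Set.mem_prod, Set.mem_Iic]
  exact ⟨q, ⟨hq3, hqq.le⟩, x, ⟨by omega, hxX.le⟩, n, ⟨y ^ k, hrep2⟩, (y, q * k),
    ⟨by show y ≤ x ^ n; omega, by show q * k ≤ x ^ n; omega⟩, rfl⟩

end Pool.Agent.NLE
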