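import Pool.Agent.NLE.EAll

/-!
# NLE-EFull: THEOREM E without exception, from the case `q = 3`, `n = p ^ 3`
-/

namespace Pool.Agent.NLE

open Finset

/-- the remaining case: exponent 3, length the cube of a prime divisor of `z - 1` -/
def Cube : Prop := ∃ Z0 : ℕ, ∀ z p y : ℕ, Z0 ≤ z → p.Prime → p ≠ 2 → p ∣ z - 1 →
  y ^ 3 ≠ NL.rep z (p ^ 3)

private theorem comp_bounded_of (hc : Cube) {q : ℕ} (hq : q.Prime) (hq3 : 3 ≤ q) :
    ∃ X : ℕ, ∀ z n y : ℕ, 2 ≤ z → 2 < n → ¬ n.Prime → y ^ q = NL.rep z n → z < X := by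
  obtain ⟨Z0, hZ⟩ := hc
  obtain ⟨X1, h1⟩ := comp_bounded hq hq3
  obtain ⟨X2, h2⟩ := pair_bounded hq hq3
  refine ⟨X1 + X2 + Z0, fun z n y hz hn hp h => ?_⟩
  by_contra hcon
  by_cases hex : q = 3 → ∀ p : ℕ, p.Prime → n ≠ p ^ 3
  · have := h1 z n y hz hn hp hex h
    omega
  · push Not at hex
    obtain ⟨hq3', p, hpp, hnp⟩ := hex
    have h4 : ¬ 4 ∣ n := fun h4 => four_dvd hq (by omega) hz (by omega) h4 h
    have hp2 : p ≠ 2 := by
      rintro rfl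
      exact h4 ⟨2, by rw [hnp]; norm_num⟩
    rcases comp_reduce_u hq hq3 hz hn hp h4 h with ⟨n1, u, hn1, hn12, hnn, hu⟩ |
      ⟨b, hb, hb2, hbz, hbn⟩
    · have := h2 z n1 n u y hz hn1 hn12
        (hnn.trans (Nat.pow_le_pow_right (by omega) (by omega))) hu h
      omega
    · have hbp : b = p := by
        rw [hnp] at hbn
        exact (Nat.prime_dvd_prime_iff_eq hb hpp).1 (hb.dvd_of_dvd_pow hbn)
      rw [hbp] at hbz
      rw [hq3', hnp] at h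
      exact hZ z p y (by omega) hpp hp2 hbz h

private theorem rep_of_eq {x y m n : ℕ} (hx : 2 ≤ x) (h : y ^ m * (x - 1) = x ^ n - 1) :
    y ^ m = NL.rep x n := by
  have h1 := NL.rep_mul (by omega : 1 ≤ x) n
  have h2 : y ^ m * (x - 1) = NL.rep x n * (x - 1) := by omega
  exact Nat.eq_of_mul_eq_mul_right (by omega) h2

theorem comp_finite_of (hc : Cube) :
    {t : ℕ × ℕ × ℕ × ℕ | 1 < t.1 ∧ 1 < t.2.1 ∧ 1 < t.2.2.1 ∧ 2 < t.2.2.2 ∧ ¬ t.2.2.2.Prime ∧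
      t.2.1 ^ t.2.2.1 * (t.1 - 1) = t.1 ^ t.2.2.2 - 1}.Finite := by
  obtain ⟨q0, hq0⟩ := exponent_bounded
  have hX : ∀ q : ℕ, ∃ X : ℕ, q.Prime → 3 ≤ q → ∀ z n y : ℕ, 2 ≤ z → 2 < n →
      ¬ n.Prime → y ^ q = NL.rep z n → z < X := by
    intro q
    by_cases h : q.Prime ∧ 3 ≤ q
    · obtain ⟨X, hX⟩ := comp_bounded_of hc h.1 h.2
      exact ⟨X, fun _ _ => hX⟩
    · exact ⟨0, fun h1 h2 => absurd ⟨h1, h2⟩ h⟩
  choose X hX using hX
  have hfin : (⋃ q ∈ {q : ℕ | 3 ≤ q ∧ q ≤ q0}, ⋃ x ∈ {x : ℕ | 2 ≤ x ∧ x ≤ X q},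
      ⋃ n ∈ {n : ℕ | ∃ y : ℕ, y ^ q = NL.rep x n},
      (fun w : ℕ × ℕ => (x, w.1, w.2, n)) '' (Set.Iic (x ^ n) ×ˢ Set.Iic (x ^ n))).Finite := by
    refine Set.Finite.biUnion ((Set.finite_Iic q0).subset fun x hx => hx.2) ?_
    intro q hq
    refine Set.Finite.biUnion ((Set.finite_Iic (X q)).subset fun x hx => hx.2) ?_
    intro x hx
    refine Set.Finite.biUnion (NLG.fixed_base hq.1 hx.1) ?_
    intro n _
    exact ((Set.finite_Iic _).prod (Set.finite_Iic _)).image _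
  have hfin2 : ((fun w : ℕ × ℕ => ((7 : ℕ), w.1, w.2, (4 : ℕ))) ''
      (Set.Iic (7 ^ 4) ×ˢ Set.Iic (7 ^ 4))).Finite :=
    ((Set.finite_Iic _).prod (Set.finite_Iic _)).image _
  refine (hfin.union hfin2).subset ?_
  rintro ⟨x, y, m, n⟩ ⟨hx, hy, hm, hn, hp, h⟩
  simp only at hx hy hm hn hp h
  have hrep := rep_of_eq (by omega : 2 ≤ x) h
  have h3 := NL.rep_lt (x := x) (n := n) (by omega)
  obtain ⟨q, hq, hqm⟩ := Nat.exists_prime_and_dvd (show m ≠ 1 by omega)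
  obtain ⟨k, rfl⟩ := hqm
  have hk : k ≠ 0 := by
    rintro rfl
    omega
  have hrep2 : (y ^ k) ^ q = NL.rep x n := by rw [← pow_mul, mul_comm k q, hrep]
  have h1 : y ≤ y ^ (q * k) := Nat.le_self_pow (Nat.mul_ne_zero hq.ne_zero hk) y
  have h4 : q * k < y ^ (q * k) := Nat.lt_pow_self (by omega)
  rcases Nat.lt_or_ge q 3 with hq3 | hq3
  · right
    have hq2 : q = 2 := by
      have := hq.two_le
      omega
    rw [hq2] at hrep2
    rcases sq_all hx hn hrep2 with ⟨_, hn5⟩ | ⟨hx7, hn4⟩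
    · exact absurd (by rw [hn5]; norm_num) hp
    · subst hx7 hn4
      simp only [Set.mem_image, Set.mem_prod, Set.mem_Iic]
      exact ⟨(y, q * k), ⟨by show y ≤ 7 ^ 4; omega, by show q * k ≤ 7 ^ 4; omega⟩, rfl⟩
  · left
    have hqq : q < q0 := by
      by_contra hcon
      exact hq0 q x n (y ^ k) hq (by omega) (by omega) hn hp hrep2
    have hxX := hX q hq hq3 x n (y ^ k) (by omega) hn hp hrep2
    simp only [Set.mem_iUnion, Set.mem_image, Set.mem_prod, Set.mem_Iic]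
    exact ⟨q, ⟨hq3, hqq.le⟩, x, ⟨by omega, hxX.le⟩, n, ⟨y ^ k, hrep2⟩, (y, q * k),
      ⟨by show y ≤ x ^ n; omega, by show q * k ≤ x ^ n; omega⟩, rfl⟩

end Pool.Agent.NLE
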