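import Pool.Agent.NLE.EFull

/-!
# NLE-EInt: the integer form of THEOREM E
-/

namespace Pool.Agent.NLE

theorem comp_finite_int (hc : Cube) :
    {t : ℤ × ℤ × ℕ × ℕ | 1 < t.1 ∧ 1 < t.2.1 ∧ 1 < t.2.2.1 ∧ 2 < t.2.2.2 ∧ ¬ t.2.2.2.Prime ∧
      t.2.1 ^ t.2.2.1 * (t.1 - 1) = t.1 ^ t.2.2.2 - 1}.Finite := by
  refine ((comp_finite_of hc).image
    (fun w : ℕ × ℕ × ℕ × ℕ => (((w.1 : ℕ) : ℤ), ((w.2.1 : ℕ) : ℤ), w.2.2.1, w.2.2.2))).subset ?_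
  rintro ⟨x, y, m, n⟩ ⟨hx, hy, hm, hn, hp, h⟩
  simp only at hx hy hm hn hp h
  obtain ⟨a, rfl⟩ : ∃ a : ℕ, x = (a : ℤ) := ⟨x.toNat, by rw [Int.toNat_of_nonneg (by omega)]⟩
  obtain ⟨b, rfl⟩ : ∃ b : ℕ, y = (b : ℤ) := ⟨y.toNat, by rw [Int.toNat_of_nonneg (by omega)]⟩
  have ha : 1 < a := by exact_mod_cast hx
  have hb : 1 < b := by exact_mod_cast hy
  refine ⟨(a, b, m, n), ⟨ha, hb, hm, hn, hp, ?_⟩, rfl⟩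
  show b ^ m * (a - 1) = a ^ n - 1
  have h1 : 1 ≤ a ^ n := Nat.one_le_pow _ _ (by omega)
  zify [h1, ha.le]
  exact h

end Pool.Agent.NLE
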