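import Mathlib

/-!
# NLE-GauF: `X^2 + 1 = v^q` and `X^2 + 1 = 2 v^q` in the Gaussian integers

Bezout relations in the Euclidean domain `ℤ[i]`; all its units are `q`-th powers for odd `q`.
-/

namespace Pool.Agent.NLE

private lemma GauF_unit {q : ℕ} (hq : Odd q) {e : GaussianInt} (he : IsUnit e) :
    ∃ d : GaussianInt, d ^ q = e := by
  have h4 : e ^ 4 = 1 := by
    have hn : e.norm = 1 := (Zsqrtd.norm_eq_one_iff' (by norm_num) e).2 he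
    obtain ⟨a, b⟩ := e
    rw [Zsqrtd.norm_def] at hn
    have h1 : a * a + b * b = 1 := by
      have h2 : a * a - -1 * b * b = 1 := hn
      linarith
    have ha : a * a ≤ 1 := by nlinarith [mul_self_nonneg b]
    have hb : b * b ≤ 1 := by nlinarith [mul_self_nonneg a]
    have ha1 : a ≤ 1 := by nlinarith
    have ha2 : -1 ≤ a := by nlinarith
    have hb1 : b ≤ 1 := by nlinarith
    have hb2 : -1 ≤ b := by nlinarith
    interval_cases a <;> interval_cases b <;> first | omega | decide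
  obtain ⟨m, hm⟩ := hq
  rcases Nat.even_or_odd m with ⟨t, ht⟩ | ⟨t, ht⟩
  · refine ⟨e, ?_⟩
    have hqe : q = 4 * t + 1 := by omega
    rw [hqe, pow_succ, pow_mul, h4, one_pow, one_mul]
  · refine ⟨e ^ 3, ?_⟩
    have hqe : 3 * q = 4 * (3 * t + 2) + 1 := by omega
    rw [← pow_mul, hqe, pow_succ, pow_mul, h4, one_pow, one_mul]

private lemma GauF_core {q : ℕ} (hq : Odd q) {z : GaussianInt} {v : ℤ} (hn : z.norm = v ^ q)
    (hc : IsCoprime z (star z)) :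
    ∃ A B : ℤ, z = (⟨A, B⟩ : GaussianInt) ^ q ∧ A ^ 2 + B ^ 2 = v := by
  have h1 : z * star z = ((v : ℤ) : GaussianInt) ^ q := by
    rw [← Zsqrtd.norm_eq_mul_conj, hn]
    push_cast
    rfl
  obtain ⟨d, u, hd⟩ := exists_associated_pow_of_mul_eq_pow' hc h1
  obtain ⟨e, he⟩ := GauF_unit hq u.isUnit
  have hz : z = (d * e) ^ q := by
    rw [mul_pow, he, hd]
  generalize hw : d * e = w at hz
  obtain ⟨A, B⟩ := w
  refine ⟨A, B, hz, ?_⟩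
  have h2 : (⟨A, B⟩ : GaussianInt).norm ^ q = v ^ q := by
    rw [← hn, hz]
    exact (map_pow Zsqrtd.normMonoidHom _ q).symm
  have h3 := hq.strictMono_pow.injective h2
  rw [← h3, Zsqrtd.norm_def]
  ring

theorem gau_one {q : ℕ} (hq : q.Prime) (hq2 : q ≠ 2) {X v : ℤ} (h : X ^ 2 + 1 = v ^ q) :
    ∃ A B : ℤ, (⟨X, 1⟩ : GaussianInt) = ⟨A, B⟩ ^ q ∧ A ^ 2 + B ^ 2 = v := by
  have hodd : Odd q := hq.odd_of_ne_two hq2
  apply GauF_core hodd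
  · rw [Zsqrtd.norm_def, ← h]; ring
  · have hX : Even X := by
      by_contra hX
      rw [Int.not_even_iff_odd] at hX
      obtain ⟨t, ht⟩ := hX
      have hv : Even (v ^ q) := by
        rw [← h, ht]; exact ⟨2 * t ^ 2 + 2 * t + 1, by ring⟩
      rw [Int.even_pow' hq.ne_zero] at hv
      obtain ⟨s, hs⟩ := hv
      have h4 : (4 : ℤ) ∣ v ^ q := by
        have h5 : v ^ 2 ∣ v ^ q := pow_dvd_pow v hq.two_le
        exact dvd_trans ⟨s ^ 2, by rw [hs]; ring⟩ h5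
      rw [← h, ht] at h4
      obtain ⟨r, hr⟩ := h4
      have h6 : 4 * (t ^ 2 + t) + 2 = 4 * r := by linarith [hr]
      omega
    obtain ⟨t, ht⟩ := hX
    refine ⟨⟨X, -1⟩ + ⟨0, 2 * t ^ 2⟩, -⟨0, 2 * t ^ 2⟩, ?_⟩
    rw [ht]
    ext
    · simp only [Zsqrtd.re_add, Zsqrtd.re_mul, Zsqrtd.re_star, Zsqrtd.re_neg, Zsqrtd.im_add,
        Zsqrtd.im_mul, Zsqrtd.im_star, Zsqrtd.im_neg, Zsqrtd.re_one]
      ring
    · simp only [Zsqrtd.re_add, Zsqrtd.re_mul, Zsqrtd.re_star, Zsqrtd.re_neg, Zsqrtd.im_add,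
        Zsqrtd.im_mul, Zsqrtd.im_star, Zsqrtd.im_neg, Zsqrtd.im_one]
      ring

theorem gau_two {q : ℕ} (hq : q.Prime) (hq2 : q ≠ 2) {X v : ℤ} (h : X ^ 2 + 1 = 2 * v ^ q) :
    ∃ A B : ℤ, (⟨X, 1⟩ : GaussianInt) = ⟨1, 1⟩ * ⟨A, B⟩ ^ q ∧ A ^ 2 + B ^ 2 = v := by
  have hodd : Odd q := hq.odd_of_ne_two hq2
  have hX : Odd X := by
    by_contra hX
    rw [Int.not_odd_iff_even] at hX
    obtain ⟨t, ht⟩ := hX
    rw [ht] at h
    have h6 : 2 * (2 * t ^ 2) + 1 = 2 * v ^ q := by linarith [h]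
    omega
  obtain ⟨t, ht⟩ := hX
  have hv : 2 * (t ^ 2 + t) + 1 = v ^ q := by
    rw [ht] at h
    linarith [h]
  have hb : ∃ A B : ℤ, (⟨t + 1, -t⟩ : GaussianInt) = ⟨A, B⟩ ^ q ∧ A ^ 2 + B ^ 2 = v := by
    apply GauF_core hodd
    · rw [Zsqrtd.norm_def, ← hv]; ring
    · refine ⟨⟨t + 1, t⟩ - ⟨t ^ 2 + t, -(t ^ 2 + t)⟩, -⟨t ^ 2 + t, t ^ 2 + t⟩, ?_⟩
      ext
      · simp only [Zsqrtd.re_add, Zsqrtd.re_mul, Zsqrtd.re_star, Zsqrtd.re_neg, Zsqrtd.im_add,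
          Zsqrtd.im_mul, Zsqrtd.im_star, Zsqrtd.im_neg, Zsqrtd.re_one, Zsqrtd.re_sub, Zsqrtd.im_sub]
        ring
      · simp only [Zsqrtd.re_add, Zsqrtd.re_mul, Zsqrtd.re_star, Zsqrtd.re_neg, Zsqrtd.im_add,
          Zsqrtd.im_mul, Zsqrtd.im_star, Zsqrtd.im_neg, Zsqrtd.im_one, Zsqrtd.re_sub, Zsqrtd.im_sub]
        ring
  obtain ⟨A, B, hAB, hv2⟩ := hb
  refine ⟨A, B, ?_, hv2⟩
  rw [← hAB, ht]
  ext
  · simp only [Zsqrtd.re_mul]
    ring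
  · simp only [Zsqrtd.im_mul]
    ring

end Pool.Agent.NLE
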