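import Mathlib

/-!
# NLE-LDefs: entries of the interpolation matrix for three logarithms

`q log α₁ + log α₃ = ρ log α₂ + (tiny)`, `1 ≤ ρ ≤ q`.  Point `(r, s, t)`: `Z1 = ρ r + q s`, `Z3 = ρ t + s`,
`λ = α₁^r α₂^s α₃^t`; function `(a, b, l)`: `C(Z1, a) C(Z3, b) λ^l`.
-/

namespace Pool.Agent.NLE

/-- Entry: row `(a, b, l)`, column `(r, s, t)`. -/
noncomputable def ent3 (q rho : ℕ) (α₁ α₂ α₃ : ℝ) (a b l r s t : ℕ) : ℝ :=
  (((rho * r + q * s).choose a : ℕ) : ℝ) * (((rho * t + s).choose b : ℕ) : ℝ) *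
    (α₁ ^ r * α₂ ^ s * α₃ ^ t) ^ l

end Pool.Agent.NLE
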