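import Pool.Agent.NLE.LUp2
import Pool.Agent.GTT.DetLow
import Pool.Agent.GTT.Pick

/-!
# NLE-LTwo: two logarithms, with `L` depending only on `log x`

The interpolation determinant method with the parameters `R2 = ⌈120 L H2⌉₊`, `S2 = 1 + ⌈120 L H1⌉₊`,
`K = ⌈13000 L H1 H2⌉₊`: `pick` gives a nonzero determinant, `det_lower` and `det_upper2` (with `B = x`)
compare its absolute value from both sides.  Here `exp 1 * ((L + R2) + x S2) ≤ 338 x L H1 ≤ x K`, and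
`K log (3 (x+1)) ≤ K log (1000 x) ≤ K L / 8`.
-/

namespace Pool.Agent.NLE

open Pool.Agent.GTT (ent pick det_lower)

private theorem ltwo_num (N : ℕ) (hN1 : 1 ≤ N) (K : ℕ) (x L R S2 H1 H2 : ℝ)
    (hx : 0 ≤ x) (hL : 0 ≤ L) (_hR : 0 ≤ R) (hS : 0 ≤ S2)
    (hnum : Real.log (N : ℝ) + K * Real.log (3 * (x + 1)) +
      (Real.exp 1 + 1) * L * (R * H1 + S2 * (H2 + 1)) + 1 < ((N : ℝ) - 1) / 2)
    (hle : Real.exp (-(N * (L * (R * H1 + S2 * H2)))) ≤
      N.factorial * Real.exp (-((N : ℝ) * (N - 1) / 2)) *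
        ((3 * (x + 1)) ^ K *
          Real.exp (Real.exp 1 * L * (R * H1 + S2 * (H2 + 1)) + 1)) ^ N) : False := by
  have hN : (1 : ℝ) ≤ (N : ℝ) := by exact_mod_cast hN1
  have hB : 0 < 3 * (x + 1) := by positivity
  have hfac : (N.factorial : ℝ) ≤ (N : ℝ) ^ N := by
    exact_mod_cast Nat.factorial_le_pow N
  have hle2 : Real.exp (-(N * (L * (R * H1 + S2 * H2)))) ≤
      (N : ℝ) ^ N * Real.exp (-((N : ℝ) * (N - 1) / 2)) *
        ((3 * (x + 1)) ^ K *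
          Real.exp (Real.exp 1 * L * (R * H1 + S2 * (H2 + 1)) + 1)) ^ N := by
    refine hle.trans ?_
    refine mul_le_mul_of_nonneg_right ?_ (by positivity)
    exact mul_le_mul_of_nonneg_right hfac (Real.exp_pos _).le
  have hNpos : (0 : ℝ) < N := by linarith
  have hlog2 := Real.log_le_log (Real.exp_pos _) hle2
  rw [Real.log_exp, Real.log_mul (by positivity) (by positivity),
    Real.log_mul (by positivity) (by positivity), Real.log_pow, Real.log_pow, Real.log_exp,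
    Real.log_mul (by positivity) (by positivity), Real.log_pow, Real.log_exp] at hlog2
  generalize Real.log (3 * (x + 1)) = Y at hlog2 hnum
  generalize Real.log (N : ℝ) = X at hlog2 hnum
  have h5 : (N : ℝ) * (-(L * (R * H1 + S2 * H2))) ≤
      N * (X - (N - 1) / 2 + (K * Y + (Real.exp 1 * L * (R * H1 + S2 * (H2 + 1)) + 1))) := by
    have e1 : (N : ℝ) * (-(L * (R * H1 + S2 * H2))) = -(N * (L * (R * H1 + S2 * H2))) := by ring
    have e2 : (N : ℝ) * (X - (N - 1) / 2 +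
        (K * Y + (Real.exp 1 * L * (R * H1 + S2 * (H2 + 1)) + 1))) =
        N * X + -(N * (N - 1) / 2) +
          N * (K * Y + (Real.exp 1 * L * (R * H1 + S2 * (H2 + 1)) + 1)) := by ring
    rw [e1, e2]
    exact hlog2
  have h6 := le_of_mul_le_mul_left h5 hNpos
  have h7 : (L : ℝ) * (R * H1 + S2 * H2) ≤ L * (R * H1 + S2 * (H2 + 1)) := by
    refine mul_le_mul_of_nonneg_left ?_ (by positivity)
    nlinarith
  have h8 : (Real.exp 1 + 1) * L * (R * H1 + S2 * (H2 + 1)) =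
      Real.exp 1 * L * (R * H1 + S2 * (H2 + 1)) + L * (R * H1 + S2 * (H2 + 1)) := by ring
  rw [h8] at hnum
  linarith

private theorem ltwo_core (K L R2 S2 x a₁ b₁ a₂ b₂ : ℕ) (hK : 1 ≤ K) (hL : 1 ≤ L) (hS : 1 ≤ S2)
    (ha₁ : 1 ≤ a₁) (hb₁ : 1 ≤ b₁) (ha₂ : 1 ≤ a₂) (hb₂ : 1 ≤ b₂) (hne : a₁ ≠ b₁) (H1 H2 : ℝ)
    (hH1 : Real.log a₁ ≤ H1) (hH1' : Real.log b₁ ≤ H1) (hH2 : Real.log a₂ ≤ H2)
    (hH2' : Real.log b₂ ≤ H2) (hx : R2 ≤ x) (hKL : (K - 1) * L < R2 * S2)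
    (hx1 : (1 : ℝ) ≤ x) (hBK : Real.exp 1 * (((L + R2 : ℕ) : ℝ) + x * S2) ≤ (x : ℝ) * K)
    (hnum : Real.log (K * L) + K * Real.log (3 * ((x : ℝ) + 1)) +
      (Real.exp 1 + 1) * L * (((L + R2 : ℕ) : ℝ) * H1 + S2 * (H2 + 1)) + 1 <
        ((K : ℝ) * L - 1) / 2) :
    Real.exp (-((K : ℝ) * L)) / (L * S2) <
      |x * Real.log ((a₁ : ℝ) / b₁) - Real.log ((a₂ : ℝ) / b₂)| := by
  have ha₁' : (1 : ℝ) ≤ a₁ := by exact_mod_cast ha₁
  have hb₁' : (1 : ℝ) ≤ b₁ := by exact_mod_cast hb₁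
  have ha₂' : (1 : ℝ) ≤ a₂ := by exact_mod_cast ha₂
  have hb₂' : (1 : ℝ) ≤ b₂ := by exact_mod_cast hb₂
  have hK' : (1 : ℝ) ≤ K := by exact_mod_cast hK
  have hL' : (1 : ℝ) ≤ L := by exact_mod_cast hL
  have hS' : (1 : ℝ) ≤ S2 := by exact_mod_cast hS
  by_contra hcon
  rw [not_lt] at hcon
  have hα₁ : (0 : ℝ) < (a₁ : ℝ) / b₁ := by positivity
  have hα₂ : (0 : ℝ) < (a₂ : ℝ) / b₂ := by positivity
  have hα₁' : (a₁ : ℝ) / b₁ ≠ 1 := by
    intro h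
    rw [div_eq_one_iff_eq (by positivity)] at h
    exact hne (by exact_mod_cast h)
  have hlog : ∀ (u v H : ℝ), 1 ≤ u → 1 ≤ v → Real.log u ≤ H → Real.log v ≤ H →
      |Real.log (u / v)| ≤ H := by
    intro u v H hu hv h1 h2
    rw [Real.log_div (by positivity) (by positivity), abs_le]
    have h3 := Real.log_nonneg hu
    have h4 := Real.log_nonneg hv
    constructor <;> linarith
  obtain ⟨kk, ll, rr, ss, hk, hl, hr, hs, hdet⟩ :=
    pick K L R2 S2 x ((a₁ : ℝ) / b₁) ((a₂ : ℝ) / b₂) hα₁ hα₁' hα₂ hx hKL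
  have hlow := det_lower (K * L) L (L + R2) S2 x kk ll rr ss hl hr hs a₁ b₁ a₂ b₂ ha₁ hb₁ ha₂ hb₂
    H1 H2 hH1' hH2' hdet
  have hΛ : (L : ℝ) * S2 * |x * Real.log ((a₁ : ℝ) / b₁) - Real.log ((a₂ : ℝ) / b₂)| *
      Real.exp ((K * L : ℕ) : ℝ) ≤ 1 := by
    have h1 : (0 : ℝ) < L * S2 := by positivity
    rw [le_div_iff₀ h1] at hcon
    have h2 : (L : ℝ) * S2 * |x * Real.log ((a₁ : ℝ) / b₁) - Real.log ((a₂ : ℝ) / b₂)| ≤
        Real.exp (-((K : ℝ) * L)) := by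
      calc (L : ℝ) * S2 * |x * Real.log ((a₁ : ℝ) / b₁) - Real.log ((a₂ : ℝ) / b₂)|
          = |x * Real.log ((a₁ : ℝ) / b₁) - Real.log ((a₂ : ℝ) / b₂)| * (L * S2) := by ring
        _ ≤ _ := hcon
    calc (L : ℝ) * S2 * |x * Real.log ((a₁ : ℝ) / b₁) - Real.log ((a₂ : ℝ) / b₂)| *
        Real.exp ((K * L : ℕ) : ℝ)
        ≤ Real.exp (-((K : ℝ) * L)) * Real.exp ((K * L : ℕ) : ℝ) :=
          mul_le_mul_of_nonneg_right h2 (Real.exp_pos _).le
      _ = 1 := by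
          rw [← Real.exp_add, Nat.cast_mul, neg_add_cancel, Real.exp_zero]
  have hup := det_upper2 (K * L) K L (L + R2) S2 x kk ll rr ss hK hk hl hr hs ((a₁ : ℝ) / b₁)
    ((a₂ : ℝ) / b₂) hα₁ hα₂ H1 H2 x hx1 hBK (hlog _ _ _ ha₁' hb₁' hH1 hH1') (hlog _ _ _ ha₂' hb₂' hH2 hH2') hΛ
  have hle := hlow.trans hup
  have hN1 : 1 ≤ K * L := Nat.mul_pos hK hL
  have hNc : ((K * L : ℕ) : ℝ) = (K : ℝ) * L := by push_cast; ring
  rw [← hNc] at hnum
  exact ltwo_num (K * L) hN1 K x L ((L + R2 : ℕ) : ℝ) S2 H1 H2 (Nat.cast_nonneg _)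
    (Nat.cast_nonneg _) (Nat.cast_nonneg _) (Nat.cast_nonneg _) hnum hle

private theorem ltwo_monomials {l h g : ℝ} (hl : 1 ≤ l) (hh : 1 ≤ h) (hg : 1 ≤ g) :
    1 ≤ l * h * g ∧ l * h ≤ l * h * g ∧ l * g ≤ l * h * g ∧ h ≤ l * h * g ∧ g ≤ l * h * g ∧
      l ≤ l * h * g ∧ 1 ≤ l * h ∧ l ≤ l * h := by
  have h1 : 1 ≤ l * h := one_le_mul_of_one_le_of_one_le hl hh
  have h2 : l * h ≤ l * h * g := le_mul_of_one_le_right (by linarith) hg
  have h3 : l ≤ l * h := le_mul_of_one_le_right (by linarith) hh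
  have h4 : h ≤ l * h := le_mul_of_one_le_left (by linarith) hl
  have h5 : l * g ≤ l * h * g := mul_le_mul_of_nonneg_right h3 (by linarith)
  have h6 : g ≤ l * g := le_mul_of_one_le_left (by linarith) hl
  exact ⟨h1.trans h2, h2, h5, h4.trans h2, h6.trans h5, h3.trans h2, h1, h3⟩

private theorem ltwo_term3 {l h g R S : ℝ} (hl : 1 ≤ l) (hh : 1 ≤ h) (hg : 1 ≤ g)
    (hR : R ≤ 120 * (l * g) + 1) (hS : S ≤ 2 + 120 * (l * h)) :
    (Real.exp 1 + 1) * l * ((l + R) * h + S * (g + 1)) ≤ 1361 * (l * (l * h * g)) := by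
  obtain ⟨m1, m2, m3, m4, m5, m6, m7, m8⟩ := ltwo_monomials hl hh hg
  have h1 : (l + R) * h ≤ 122 * (l * h * g) := by
    calc (l + R) * h ≤ (l + (120 * (l * g) + 1)) * h := by
          have : (0 : ℝ) ≤ h := by linarith
          gcongr
      _ = l * h + 120 * (l * h * g) + h := by ring
      _ ≤ 122 * (l * h * g) := by linarith
  have h2 : S * (g + 1) ≤ 244 * (l * h * g) := by
    calc S * (g + 1) ≤ (2 + 120 * (l * h)) * (g + 1) := by
          have : (0 : ℝ) ≤ g + 1 := by linarith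
          gcongr
      _ = 2 * g + 2 + 120 * (l * h * g) + 120 * (l * h) := by ring
      _ ≤ 244 * (l * h * g) := by linarith
  have h3 : (l + R) * h + S * (g + 1) ≤ 366 * (l * h * g) := by linarith
  have he : Real.exp 1 + 1 ≤ 3.7183 := by
    have := Real.exp_one_lt_d9
    linarith
  have he0 : 0 ≤ Real.exp 1 + 1 := by positivity
  have hlP : 0 ≤ l * (l * h * g) := by positivity
  calc (Real.exp 1 + 1) * l * ((l + R) * h + S * (g + 1))
      ≤ (Real.exp 1 + 1) * l * (366 * (l * h * g)) := by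
        have : (0 : ℝ) ≤ (Real.exp 1 + 1) * l := by positivity
        gcongr
    _ = (Real.exp 1 + 1) * (366 * (l * (l * h * g))) := by ring
    _ ≤ 3.7183 * (366 * (l * (l * h * g))) := by gcongr
    _ ≤ 1361 * (l * (l * h * g)) := by linarith

private theorem ltwo_arg {l h g R S x K : ℝ} (hl : 1 ≤ l) (hh : 1 ≤ h) (hg : 1 ≤ g)
    (hR : R ≤ x) (hS : S ≤ 2 + 120 * (l * h)) (hK : 13000 * (l * h * g) ≤ K)
    (hx : 120 * (l * g) + 1 ≤ x) :
    Real.exp 1 * ((l + R) + x * S) ≤ x * K := by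
  obtain ⟨m1, m2, m3, m4, m5, m6, m7, m8⟩ := ltwo_monomials hl hh hg
  have hg' : l ≤ l * g := le_mul_of_one_le_right (by linarith) hg
  have hlx : l ≤ x := by linarith
  have hx0 : 0 < x := by linarith
  have h1 : x * S ≤ 122 * (x * (l * h)) := by
    calc x * S ≤ x * (2 + 120 * (l * h)) := by gcongr
      _ ≤ x * (122 * (l * h)) := by
        have : 2 + 120 * (l * h) ≤ 122 * (l * h) := by linarith
        gcongr
      _ = 122 * (x * (l * h)) := by ring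
  have hxx : x ≤ x * (l * h) := le_mul_of_one_le_right hx0.le m7
  have h2 : (l + R) + x * S ≤ 124 * (x * (l * h)) := by linarith
  have he : Real.exp 1 ≤ 2.7183 := by
    have := Real.exp_one_lt_d9
    linarith
  have hpos : 0 ≤ x * (l * h) := by positivity
  have h3 : l * h * 13000 ≤ K := by linarith
  calc Real.exp 1 * ((l + R) + x * S) ≤ Real.exp 1 * (124 * (x * (l * h))) := by
        have : 0 ≤ Real.exp 1 := (Real.exp_pos 1).le
        gcongr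
    _ ≤ 2.7183 * (124 * (x * (l * h))) := by gcongr
    _ ≤ x * (l * h * 13000) := by linarith
    _ ≤ x * K := by gcongr

private theorem ltwo_log {y : ℝ} (hy : 13000 ≤ y) : Real.log y ≤ y / 100 := by
  have h1 : Real.log (y / 1024) ≤ y / 1024 - 1 := Real.log_le_sub_one_of_pos (by positivity)
  have h2 : Real.log (y / 1024) = Real.log y - 10 * Real.log 2 := by
    rw [Real.log_div (by positivity) (by norm_num), show (1024 : ℝ) = 2 ^ 10 by norm_num,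
      Real.log_pow]
    norm_num
  have h3 := Real.log_two_lt_d9
  rw [h2] at h1
  linarith

theorem two_logs2 (L x a₁ b₁ a₂ b₂ : ℕ) (hL : 1 ≤ L)
    (ha₁ : 1 ≤ a₁) (hb₁ : 1 ≤ b₁) (ha₂ : 1 ≤ a₂) (hb₂ : 1 ≤ b₂) (hne : a₁ ≠ b₁) (H1 H2 : ℝ)
    (h1 : 1 ≤ H1) (h2 : 1 ≤ H2)
    (hH1 : Real.log a₁ ≤ H1) (hH1' : Real.log b₁ ≤ H1) (hH2 : Real.log a₂ ≤ H2)
    (hH2' : Real.log b₂ ≤ H2) (hx : 120 * L * H2 + 1 ≤ x)
    (hLL : 8 * Real.log (1000 * x) ≤ L) :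
    Real.exp (-(14000 * (L : ℝ) ^ 2 * H1 * H2)) ≤
      |x * Real.log ((a₁ : ℝ) / b₁) - Real.log ((a₂ : ℝ) / b₂)| := by
  have hl : (1 : ℝ) ≤ L := by exact_mod_cast hL
  obtain ⟨m1, m2, m3, m4, m5, m6, m7, m8⟩ := ltwo_monomials hl h1 h2
  obtain ⟨R2, hR2⟩ : ∃ R2 : ℕ, R2 = ⌈120 * ((L : ℝ) * H2)⌉₊ := ⟨_, rfl⟩
  obtain ⟨S2, hS2⟩ : ∃ S2 : ℕ, S2 = 1 + ⌈120 * ((L : ℝ) * H1)⌉₊ := ⟨_, rfl⟩
  obtain ⟨K, hKdef⟩ : ∃ K : ℕ, K = ⌈13000 * ((L : ℝ) * H1 * H2)⌉₊ := ⟨_, rfl⟩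
  have hx' : 120 * ((L : ℝ) * H2) + 1 ≤ x := by linarith
  have hR2l : 120 * ((L : ℝ) * H2) ≤ R2 := by
    rw [hR2]
    exact Nat.le_ceil _
  have hR2u : (R2 : ℝ) ≤ 120 * ((L : ℝ) * H2) + 1 := by
    rw [hR2]
    exact (Nat.ceil_lt_add_one (by positivity)).le
  have hS2l : 1 + 120 * ((L : ℝ) * H1) ≤ S2 := by
    rw [hS2]
    push_cast
    have := Nat.le_ceil (120 * ((L : ℝ) * H1))
    linarith
  have hS2u : (S2 : ℝ) ≤ 2 + 120 * ((L : ℝ) * H1) := by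
    rw [hS2]
    push_cast
    have := (Nat.ceil_lt_add_one (show 0 ≤ 120 * ((L : ℝ) * H1) by positivity)).le
    linarith
  have hKl : 13000 * ((L : ℝ) * H1 * H2) ≤ K := by
    rw [hKdef]
    exact Nat.le_ceil _
  have hKu : (K : ℝ) < 13000 * ((L : ℝ) * H1 * H2) + 1 := by
    rw [hKdef]
    exact Nat.ceil_lt_add_one (by positivity)
  have hK1 : 1 ≤ K := by
    have : (1 : ℝ) ≤ K := by linarith
    exact_mod_cast this
  have hS1 : 1 ≤ S2 := by omega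
  have hRx : R2 ≤ x := by
    have : (R2 : ℝ) ≤ x := hR2u.trans hx'
    exact_mod_cast this
  have hKL : (K - 1) * L < R2 * S2 := by
    have h3 : (((K - 1) * L : ℕ) : ℝ) < ((R2 * S2 : ℕ) : ℝ) := by
      push_cast [Nat.cast_sub hK1]
      have h4 : ((K : ℝ) - 1) * L < 13000 * ((L : ℝ) * H1 * H2) * L := by
        have h5 : (K : ℝ) - 1 < 13000 * ((L : ℝ) * H1 * H2) := by linarith
        have h6 : (0 : ℝ) < L := by linarith
        exact mul_lt_mul_of_pos_right h5 h6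
      have h7 : 14400 * ((L : ℝ) * H1 * H2) * L ≤ (R2 : ℝ) * S2 := by
        calc 14400 * ((L : ℝ) * H1 * H2) * L = (120 * ((L : ℝ) * H2)) * (120 * ((L : ℝ) * H1)) := by
              ring
          _ ≤ (R2 : ℝ) * S2 := by
              have h8 : 120 * ((L : ℝ) * H1) ≤ S2 := by linarith
              gcongr
      have h9 : 0 ≤ ((L : ℝ) * H1 * H2) * L := by positivity
      linarith
    exact_mod_cast h3
  have hKLb : 13000 * ((L : ℝ) * ((L : ℝ) * H1 * H2)) ≤ (K : ℝ) * L := by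
    calc 13000 * ((L : ℝ) * ((L : ℝ) * H1 * H2)) = 13000 * ((L : ℝ) * H1 * H2) * L := by ring
      _ ≤ (K : ℝ) * L := by gcongr
  have hQ1 : 1 ≤ (L : ℝ) * ((L : ℝ) * H1 * H2) := one_le_mul_of_one_le_of_one_le hl m1
  have hx1 : (1 : ℝ) ≤ x := by
    have : 0 ≤ (L : ℝ) * H2 := by positivity
    linarith
  have hBK : Real.exp 1 * (((L + R2 : ℕ) : ℝ) + x * S2) ≤ (x : ℝ) * K := by
    push_cast
    exact ltwo_arg hl h1 h2 (by exact_mod_cast hRx : (R2 : ℝ) ≤ x) hS2u hKl hx'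
  have hnum : Real.log (K * L) + K * Real.log (3 * ((x : ℝ) + 1)) +
      (Real.exp 1 + 1) * L * (((L + R2 : ℕ) : ℝ) * H1 + S2 * (H2 + 1)) + 1 <
        ((K : ℝ) * L - 1) / 2 := by
    push_cast
    have t3 := ltwo_term3 hl h1 h2 hR2u hS2u
    have t2 : Real.log (3 * ((x : ℝ) + 1)) ≤ L / 8 := by
      have h3 : 3 * ((x : ℝ) + 1) ≤ 1000 * x := by linarith
      have h4 : 0 < 3 * ((x : ℝ) + 1) := by positivity
      have h5 := Real.log_le_log h4 h3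
      linarith
    have t2' : (K : ℝ) * Real.log (3 * ((x : ℝ) + 1)) ≤ K * (L / 8) := by
      gcongr
    have t1 : Real.log ((K : ℝ) * L) ≤ (K : ℝ) * L / 100 := ltwo_log (by linarith)
    linarith
  have hcore := ltwo_core K L R2 S2 x a₁ b₁ a₂ b₂ hK1 hL hS1 ha₁ hb₁ ha₂ hb₂ hne H1 H2 hH1 hH1' hH2
    hH2' hRx hKL hx1 hBK hnum
  refine le_trans ?_ hcore.le
  have hLS : (L : ℝ) * S2 ≤ Real.exp (L + S2) := by
    rw [Real.exp_add]
    have h3 : (L : ℝ) ≤ Real.exp L := by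
      have := Real.add_one_le_exp (L : ℝ)
      linarith
    have h4 : (S2 : ℝ) ≤ Real.exp S2 := by
      have := Real.add_one_le_exp (S2 : ℝ)
      linarith
    gcongr
  have hLS0 : 0 < (L : ℝ) * S2 := by positivity
  rw [le_div_iff₀ hLS0]
  calc Real.exp (-(14000 * (L : ℝ) ^ 2 * H1 * H2)) * ((L : ℝ) * S2)
      ≤ Real.exp (-(14000 * (L : ℝ) ^ 2 * H1 * H2)) * Real.exp (L + S2) := by gcongr
    _ = Real.exp (-(14000 * (L : ℝ) ^ 2 * H1 * H2) + (L + S2)) := by rw [← Real.exp_add]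
    _ ≤ Real.exp (-((K : ℝ) * L)) := by
        apply Real.exp_le_exp.2
        have h3 : (K : ℝ) * L ≤ (13000 * ((L : ℝ) * H1 * H2) + 1) * L := by gcongr
        have h4 : (L : ℝ) * ((L : ℝ) * H1 * H2) = (L : ℝ) ^ 2 * H1 * H2 := by ring
        have h5 : (L : ℝ) * H1 * H2 ≤ (L : ℝ) * ((L : ℝ) * H1 * H2) :=
          le_mul_of_one_le_left (by positivity) hl
        have h6 : (13000 * ((L : ℝ) * H1 * H2) + 1) * L =
            13000 * ((L : ℝ) * ((L : ℝ) * H1 * H2)) + L := by ring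
        have h7 : 14000 * (L : ℝ) ^ 2 * H1 * H2 = 14000 * ((L : ℝ) * ((L : ℝ) * H1 * H2)) := by ring
        rw [h7]
        rw [h6] at h3
        linarith

end Pool.Agent.NLE
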