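import Pool.Agent.NLE.LSet
import Pool.Agent.NLE.LTwo

/-!
# NLE-LDeg: the degenerate case, by two logarithms

PLAN.  `c = b ρ - a q`, `|c| < g^30`, `1 ≤ b < g^20`.  `a ≥ 0` (`a q > b ρ - q`... `≥ 1 - q`), `a ≤ b` (`a q < b ρ + g^30
≤ b q + q`).  `a₁ = y^b`, `b₁ = x^(a + k b)`; if `c ≥ 0`: `a₂ = x^c`, `b₂ = (x-1)^b`, else `a₂ = 1`,
`b₂ = x^(-c) (x-1)^b`.  `q log (a₁/b₁) - log (a₂/b₂) = b (q log (y/x^k) - ρ log x + log (x-1))`
`= - b * (Sit.rel quantity)`, absolute value `≤ 2 b / x^n ≤ 2 g^20 exp (- n log 2)`.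
`a₁ ≠ b₁`: `y^b` is prime to `x` and `> 1` (`Sit.y_bd`; if `a + k b = 0` then `a₁ > 1 = b₁`).
`H1 = 2 κ g^21 * 2`, say (`log y ≤ (k+1) log x ≤ 2 κ g`; `(a + kb) log x ≤ 2 κ g^20 g`), `H2 = 2 g^31`, `L = g`
(`8 log (1000 q) ≤ 20 log (50 q) ≤ g`), `120 g * 2 g^31 + 1 ≤ g^200 ≤ q`.  `two_logs2`:
`exp (- 14000 g^2 * 4 κ g^21 * 2 g^31) ≤ 2 g^20 exp (- n log 2)`, but `n log 2 ≥ 2.7 κ g^60` and `g ≥ 1000`.
-/

namespace Pool.Agent.NLE

private theorem LDeg_a {q rho g b : ℕ} {a : ℤ} (hg : 1000 ≤ g) (hq : g ^ 30 < q) (h1 : 1 ≤ rho)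
    (h2 : rho ≤ q) (hb : 1 ≤ b) (h : |(b : ℤ) * rho - a * q| < (g : ℤ) ^ 30) : 0 ≤ a ∧ a ≤ b := by
  have hq' : (g : ℤ) ^ 30 < q := by exact_mod_cast hq
  obtain ⟨h3, h4⟩ := abs_lt.1 h
  have hb' : (1 : ℤ) ≤ b := by exact_mod_cast hb
  have h1' : (1 : ℤ) ≤ rho := by exact_mod_cast h1
  have h2' : (rho : ℤ) ≤ q := by exact_mod_cast h2
  have h5 : (1 : ℤ) ≤ b * rho := by nlinarith
  have h6 : (b : ℤ) * rho ≤ b * q := by nlinarith
  have hq0 : (0 : ℤ) < q := by nlinarith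
  constructor
  · by_contra hcon
    push Not at hcon
    have h7 : a * q ≤ -1 * q := by nlinarith
    linarith
  · by_contra hcon
    push Not at hcon
    have h7 : ((b : ℤ) + 1) * q ≤ a * q := by nlinarith
    linarith

private theorem LDeg_ne {x y m b : ℕ} (hx : 2 ≤ x) (hy : 1 < y) (hb : 1 ≤ b)
    (hc : Nat.Coprime y x) : y ^ b ≠ x ^ m := by
  intro h
  rcases Nat.eq_zero_or_pos m with hm | hm
  · rw [hm, pow_zero] at h
    have h1 : 1 < y ^ b := Nat.one_lt_pow (by omega) hy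
    omega
  · have h1 : x ∣ y ^ b := by
      rw [h]
      exact dvd_pow_self x (by omega)
    have h2 : Nat.Coprime (y ^ b) x := Nat.Coprime.pow_left b hc
    have h3 : x = 1 := Nat.Coprime.eq_one_of_dvd h2.symm h1
    omega

/-- the final inequality -/
private theorem LDeg_fin {g κ n : ℕ} (hg : 1000 ≤ g) (hκ : 1 ≤ κ) (hbig : 4 * κ * g ^ 60 ≤ n)
    (h : Real.exp (-(14000 * (g : ℝ) ^ 2 * (2 * κ * (g : ℝ) ^ 21) * (2 * (g : ℝ) ^ 31))) ≤
      2 * (g : ℝ) ^ 20 / (2 : ℝ) ^ n) : False := by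
  have hgR : (1000 : ℝ) ≤ g := by exact_mod_cast hg
  have hκR : (1 : ℝ) ≤ κ := by exact_mod_cast hκ
  have hbR : 4 * (κ : ℝ) * (g : ℝ) ^ 60 ≤ n := by exact_mod_cast hbig
  have hpos : (0 : ℝ) < 2 * (g : ℝ) ^ 20 / (2 : ℝ) ^ n := by positivity
  have h1 := Real.log_le_log (Real.exp_pos _) h
  rw [Real.log_exp, Real.log_div (by positivity) (by positivity), Real.log_pow] at h1
  have h2 : Real.log (2 * (g : ℝ) ^ 20) ≤ 2 * (g : ℝ) ^ 20 :=
    (Real.log_le_sub_one_of_pos (by positivity)).trans (by linarith)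
  have h3 : (0.69 : ℝ) ≤ Real.log 2 := by
    have := Real.log_two_gt_d9
    linarith
  have h4 : (0.69 : ℝ) * (4 * κ * (g : ℝ) ^ 60) ≤ n * Real.log 2 := by
    have h5 : (0 : ℝ) ≤ 4 * κ * (g : ℝ) ^ 60 := by positivity
    nlinarith
  have h6 : (g : ℝ) ^ 20 ≤ (g : ℝ) ^ 54 := pow_le_pow_right₀ (by linarith) (by norm_num)
  have h7 : (g : ℝ) ^ 60 = (g : ℝ) ^ 54 * (g : ℝ) ^ 6 := by rw [← pow_add]
  have h8 : (1000 : ℝ) ^ 6 ≤ (g : ℝ) ^ 6 := pow_le_pow_left₀ (by norm_num) hgR 6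
  have h9 : (0 : ℝ) < (g : ℝ) ^ 54 := by positivity
  have h10 : (14000 * (g : ℝ) ^ 2 * (2 * κ * (g : ℝ) ^ 21) * (2 * (g : ℝ) ^ 31)) =
      56000 * κ * (g : ℝ) ^ 54 := by ring
  rw [h10] at h1
  have h11 : (0.69 : ℝ) * (4 * κ * (g : ℝ) ^ 60) ≤ 56000 * κ * (g : ℝ) ^ 54 + 2 * (g : ℝ) ^ 54 := by
    linarith
  rw [h7] at h11
  have h12 : (κ : ℝ) * (g : ℝ) ^ 54 * (1000 : ℝ) ^ 6 ≤ κ * (g : ℝ) ^ 54 * (g : ℝ) ^ 6 :=
    mul_le_mul_of_nonneg_left h8 (by positivity)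
  have h13 : (g : ℝ) ^ 54 ≤ κ * (g : ℝ) ^ 54 := by nlinarith
  have h14 : (0 : ℝ) < κ * (g : ℝ) ^ 54 := by positivity
  norm_num at h12
  nlinarith

theorem part_deg {q n x y k rho κ g : ℕ} (S : Sit q n x y k rho κ g) {b : ℕ} {a : ℤ} (hb : 1 ≤ b)
    (hb2 : b < g ^ 20) (h : |(b : ℤ) * rho - a * q| < (g : ℤ) ^ 30) : False := by
  have hg := S.hg
  have hgq := S.hgq
  have hx := S.hx
  have hp1 : 1 ≤ g ^ 33 := Nat.one_le_pow _ _ (by omega)
  have hpq : g ^ 33 ≤ q := (Nat.pow_le_pow_right (by omega) (by norm_num)).trans hgq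
  have h30 : g ^ 30 < q := by
    have h1 : g ^ 33 = g ^ 30 * g ^ 3 := by rw [← pow_add]
    have h2 : 1000 ^ 3 ≤ g ^ 3 := Nat.pow_le_pow_left hg 3
    have h3 : 0 < g ^ 30 := Nat.pow_pos (by omega)
    nlinarith
  obtain ⟨ha0, hab⟩ := LDeg_a hg h30 S.h1 S.h2 hb h
  obtain ⟨A, rfl⟩ := Int.eq_ofNat_of_zero_le ha0
  have hAb : A ≤ b := by exact_mod_cast hab
  obtain ⟨hyx, hyx1, hcop⟩ := S.y_bd
  obtain ⟨hy1, hr0, hr1⟩ := S.rel
  have hxk : 1 ≤ x ^ k := Nat.one_le_pow _ _ (by omega)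
  have hy2 : 1 < y := by omega
  have hgR : (1000 : ℝ) ≤ g := by exact_mod_cast hg
  have hκ1 : 1 ≤ κ := by rw [S.hκ]; exact le_max_right _ _
  have hkκ : k ≤ κ := by rw [S.hκ]; exact le_max_left _ _
  have hκR : (1 : ℝ) ≤ κ := by exact_mod_cast hκ1
  have hkκR : (k : ℝ) + 1 ≤ 2 * κ := by
    have : (k : ℝ) ≤ κ := by exact_mod_cast hkκ
    linarith
  have hlx := S.hlx
  have hlx0 : 0 ≤ Real.log x := Real.log_natCast_nonneg x
  have hly : Real.log y ≤ (k + 1) * Real.log x := by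
    have h1 : (y : ℝ) ≤ (x : ℝ) ^ (k + 1) := by exact_mod_cast hyx1.le
    have h2 := Real.log_le_log (by exact_mod_cast (by omega : 0 < y)) h1
    rw [Real.log_pow] at h2
    push_cast at h2
    exact h2
  have hbR : (b : ℝ) ≤ (g : ℝ) ^ 20 := by exact_mod_cast hb2.le
  have hb0 : (0 : ℝ) ≤ b := Nat.cast_nonneg b
  have hAR : (A : ℝ) ≤ b := by exact_mod_cast hAb
  have hg20 : (0 : ℝ) ≤ (g : ℝ) ^ 20 := by positivity
  -- H1
  have hbk : (b : ℝ) * ((k + 1) * Real.log x) ≤ 2 * κ * (g : ℝ) ^ 21 := by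
    have h1 : ((k : ℝ) + 1) * Real.log x ≤ (2 * κ) * g :=
      mul_le_mul hkκR hlx hlx0 (by positivity)
    have h2 : (b : ℝ) * ((k + 1) * Real.log x) ≤ (g : ℝ) ^ 20 * ((2 * κ) * g) :=
      mul_le_mul hbR h1 (mul_nonneg (by positivity) hlx0) hg20
    calc (b : ℝ) * ((k + 1) * Real.log x) ≤ (g : ℝ) ^ 20 * ((2 * κ) * g) := h2
      _ = 2 * κ * (g : ℝ) ^ 21 := by ring
  have hH1 : Real.log ((y ^ b : ℕ) : ℝ) ≤ 2 * κ * (g : ℝ) ^ 21 := by
    rw [Nat.cast_pow, Real.log_pow]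
    exact (mul_le_mul_of_nonneg_left hly hb0).trans hbk
  have hH1' : Real.log ((x ^ (A + k * b) : ℕ) : ℝ) ≤ 2 * κ * (g : ℝ) ^ 21 := by
    rw [Nat.cast_pow, Real.log_pow]
    refine le_trans ?_ hbk
    have h1 : ((A + k * b : ℕ) : ℝ) ≤ b * (k + 1) := by
      push_cast
      linarith
    have h2 := mul_le_mul_of_nonneg_right h1 hlx0
    linarith
  -- the numbers `a₂`, `b₂`
  have hlx1 : Real.log ((x - 1 : ℕ) : ℝ) ≤ g := by
    have h1 : ((x - 1 : ℕ) : ℝ) ≤ x := by exact_mod_cast Nat.sub_le x 1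
    have h2 : (0 : ℝ) < ((x - 1 : ℕ) : ℝ) := by
      have : 0 < x - 1 := by omega
      exact_mod_cast this
    exact (Real.log_le_log h2 h1).trans hlx
  have hlx10 : 0 ≤ Real.log ((x - 1 : ℕ) : ℝ) := Real.log_natCast_nonneg _
  have hg31 : (g : ℝ) ^ 30 * g = (g : ℝ) ^ 31 := by ring
  have hb21 : (b : ℝ) * Real.log ((x - 1 : ℕ) : ℝ) ≤ (g : ℝ) ^ 31 := by
    have h1 : (b : ℝ) * Real.log ((x - 1 : ℕ) : ℝ) ≤ (g : ℝ) ^ 20 * g := mul_le_mul hbR hlx1 hlx10 hg20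
    have h2 : (g : ℝ) ^ 20 ≤ (g : ℝ) ^ 30 := pow_le_pow_right₀ (by linarith) (by norm_num)
    have h3 : (g : ℝ) ^ 20 * g ≤ (g : ℝ) ^ 30 * g := mul_le_mul_of_nonneg_right h2 (by linarith)
    linarith
  have hg0 : (0 : ℝ) ≤ (g : ℝ) ^ 31 := by positivity
  have key : ∃ a₂ b₂ : ℕ, 1 ≤ a₂ ∧ 1 ≤ b₂ ∧ Real.log a₂ ≤ 2 * (g : ℝ) ^ 31 ∧
      Real.log b₂ ≤ 2 * (g : ℝ) ^ 31 ∧ Real.log ((a₂ : ℝ) / b₂) =
        (((b : ℤ) * rho - A * q : ℤ) : ℝ) * Real.log x - b * Real.log ((x - 1 : ℕ) : ℝ) := by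
    have hx1 : 0 < x - 1 := by omega
    have hx1R : (0 : ℝ) < ((x - 1 : ℕ) : ℝ) := by exact_mod_cast hx1
    have hx0R : (0 : ℝ) < (x : ℝ) := by exact_mod_cast (by omega : 0 < x)
    set c : ℤ := (b : ℤ) * rho - A * q with hc
    have hcl : ∀ m : ℕ, ((m : ℕ) : ℤ) < (g : ℤ) ^ 30 → (m : ℝ) * Real.log x ≤ (g : ℝ) ^ 31 := by
      intro m hm
      have h1 : (m : ℝ) ≤ (g : ℝ) ^ 30 := by exact_mod_cast hm.le
      rw [← hg31]
      exact mul_le_mul h1 hlx hlx0 (by positivity)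
    rcases le_total 0 c with h0 | h0
    · obtain ⟨m, hm⟩ := Int.eq_ofNat_of_zero_le h0
      have hm30 : (m : ℤ) < (g : ℤ) ^ 30 := by
        have h1 := (abs_lt.1 h).2
        have h2 : c = (m : ℤ) := hm
        rw [← h2]
        exact h1
      refine ⟨x ^ m, (x - 1) ^ b, Nat.one_le_pow _ _ (by omega), Nat.one_le_pow _ _ hx1, ?_, ?_, ?_⟩
      · rw [Nat.cast_pow, Real.log_pow]
        have := hcl m hm30
        linarith
      · rw [Nat.cast_pow, Real.log_pow]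
        linarith
      · rw [hm, Nat.cast_pow, Nat.cast_pow, Real.log_div (by positivity) (by positivity), Real.log_pow,
          Real.log_pow]
        push_cast
        ring
    · obtain ⟨m, hm⟩ := Int.eq_ofNat_of_zero_le (neg_nonneg.2 h0)
      have hcm : c = -(m : ℤ) := by
        have h2 : -c = (m : ℤ) := hm
        omega
      have hm30 : (m : ℤ) < (g : ℤ) ^ 30 := by
        have h1 := (abs_lt.1 h).1
        have h3 : -(g : ℤ) ^ 30 < c := h1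
        omega
      refine ⟨1, x ^ m * (x - 1) ^ b, le_rfl, ?_, ?_, ?_, ?_⟩
      · exact Nat.mul_pos (Nat.pow_pos (by omega)) (Nat.pow_pos hx1)
      · rw [Nat.cast_one, Real.log_one]
        linarith
      · rw [Nat.cast_mul, Nat.cast_pow, Nat.cast_pow, Real.log_mul (by positivity) (by positivity),
          Real.log_pow, Real.log_pow]
        have := hcl m hm30
        linarith
      · rw [hcm, Nat.cast_one, Nat.cast_mul, Nat.cast_pow, Nat.cast_pow, one_div, Real.log_inv,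
          Real.log_mul (by positivity) (by positivity), Real.log_pow, Real.log_pow]
        push_cast
        ring
  obtain ⟨a₂, b₂, ha₂, hb₂, hH2, hH2', hlab⟩ := key
  have hne : y ^ b ≠ x ^ (A + k * b) := LDeg_ne hx hy2 hb hcop
  have hqR : (240 : ℝ) * (g : ℝ) ^ 32 + 1 ≤ q := by
    have h1 : (g : ℝ) ^ 33 ≤ q := by exact_mod_cast hpq
    have h2 : (g : ℝ) ^ 33 = g * (g : ℝ) ^ 32 := by ring
    have h3 : (1 : ℝ) ≤ (g : ℝ) ^ 32 := one_le_pow₀ (by linarith)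
    nlinarith
  have hq1 : (1 : ℝ) ≤ q := by
    have h3 : (0 : ℝ) ≤ (g : ℝ) ^ 32 := by positivity
    linarith
  have hLL : 8 * Real.log (1000 * (q : ℝ)) ≤ g := by
    have h1 := S.hlq
    have h2 : Real.log (1000 * (q : ℝ)) = Real.log 20 + Real.log (50 * q) := by
      rw [← Real.log_mul (by norm_num) (by positivity)]
      congr 1
      ring
    have h3 : Real.log 20 ≤ Real.log (50 * (q : ℝ)) := Real.log_le_log (by norm_num) (by linarith)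
    have h4 : 0 ≤ Real.log 20 := Real.log_nonneg (by norm_num)
    rw [h2]
    linarith
  have hT := two_logs2 g q (y ^ b) (x ^ (A + k * b)) a₂ b₂ (by omega) (Nat.one_le_pow _ _ (by omega))
    (Nat.one_le_pow _ _ (by omega)) ha₂ hb₂ hne (2 * κ * (g : ℝ) ^ 21) (2 * (g : ℝ) ^ 31)
    (by
      have h1 : (1 : ℝ) ≤ (g : ℝ) ^ 21 := one_le_pow₀ (by linarith)
      nlinarith)
    (by
      have h1 : (1 : ℝ) ≤ (g : ℝ) ^ 31 := one_le_pow₀ (by linarith)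
      linarith) hH1 hH1' hH2 hH2'
    (by
      have h1 : (120 : ℝ) * g * (2 * (g : ℝ) ^ 31) = 240 * (g : ℝ) ^ 32 := by ring
      rw [h1]
      exact hqR) hLL
  -- the linear form
  have hy0 : (0 : ℝ) < y := by exact_mod_cast (by omega : 0 < y)
  have hx0 : (0 : ℝ) < x := by exact_mod_cast (by omega : 0 < x)
  have hdiv : Real.log ((y : ℝ) / (x ^ k : ℕ)) = Real.log y - k * Real.log x := by
    rw [Real.log_div hy0.ne' (by positivity), Nat.cast_pow, Real.log_pow]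
  have hform : (q : ℝ) * Real.log (((y ^ b : ℕ) : ℝ) / ((x ^ (A + k * b) : ℕ) : ℝ)) -
      Real.log ((a₂ : ℝ) / b₂) = -(b * (rho * Real.log x - q * Real.log ((y : ℝ) / (x ^ k : ℕ)) -
        Real.log ((x - 1 : ℕ) : ℝ))) := by
    rw [hlab, hdiv, Nat.cast_pow, Nat.cast_pow, Real.log_div (by positivity) (by positivity),
      Real.log_pow, Real.log_pow]
    push_cast
    ring
  rw [hform, abs_neg, abs_of_nonneg (mul_nonneg hb0 hr0)] at hT
  have hT2 : (b : ℝ) * (rho * Real.log x - q * Real.log ((y : ℝ) / (x ^ k : ℕ)) -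
      Real.log ((x - 1 : ℕ) : ℝ)) ≤ 2 * (g : ℝ) ^ 20 / (2 : ℝ) ^ n := by
    have h1 : (2 : ℝ) / (x : ℝ) ^ n ≤ 2 / (2 : ℝ) ^ n := by
      refine div_le_div_of_nonneg_left (by norm_num) (by positivity) ?_
      exact pow_le_pow_left₀ (by norm_num) (by exact_mod_cast hx) n
    have h2 := mul_le_mul hbR (hr1.trans h1) hr0 hg20
    calc _ ≤ (g : ℝ) ^ 20 * (2 / (2 : ℝ) ^ n) := h2
      _ = 2 * (g : ℝ) ^ 20 / (2 : ℝ) ^ n := by ring
  exact LDeg_fin hg hκ1 S.hbig (hT.trans hT2)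

end Pool.Agent.NLE
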