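import Pool.Agent.NLE.LDefs

/-!
# NLE-LLow3: lower bound for a nonzero three-logarithm determinant

PLAN.  As `GTT.det_lower` (Pool/Agent/GTT/DetLow.lean): column `j` times `b₁^((L-1) rr j)` has integral entries
(`α₂`, `α₃` are naturals), so `∏_j b₁^((L-1) rr j) * det` is a nonzero integer, and the product is
`≤ exp (N L R1 H)`, `log b₁ ≤ H`.
-/

namespace Pool.Agent.NLE

private theorem LLow3_entry {L l r s t : ℕ} (hl : l < L) (c a₁ b₁ a₂ a₃ : ℝ) (hb₁ : b₁ ≠ 0) :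
    b₁ ^ ((L - 1) * r) * (c * ((a₁ / b₁) ^ r * a₂ ^ s * a₃ ^ t) ^ l) =
      c * (a₁ ^ (l * r) * b₁ ^ ((L - 1 - l) * r)) * (a₂ ^ (l * s) * a₃ ^ (l * t)) := by
  obtain ⟨m, hm⟩ : ∃ m, L - 1 = m + l := ⟨L - 1 - l, by omega⟩
  have h2 : L - 1 - l = m := by omega
  rw [h2, hm]
  have e1 : b₁ ^ ((m + l) * r) * ((a₁ / b₁) ^ r) ^ l = a₁ ^ (l * r) * b₁ ^ (m * r) := by
    have h3 : (a₁ / b₁) ^ (r * l) = a₁ ^ (l * r) / b₁ ^ (l * r) := by
      rw [div_pow, mul_comm r l]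
    rw [← pow_mul, h3, add_mul, pow_add]
    have h4 : b₁ ^ (l * r) ≠ 0 := pow_ne_zero _ hb₁
    field_simp
  have e2 : (a₂ ^ s) ^ l = a₂ ^ (l * s) := by rw [← pow_mul, mul_comm]
  have e3 : (a₃ ^ t) ^ l = a₃ ^ (l * t) := by rw [← pow_mul, mul_comm]
  rw [mul_pow, mul_pow, ← e1, ← e2, ← e3]
  ring

private theorem LLow3_col {L R r : ℕ} (hr : r < R) {b : ℕ} (hb : 1 ≤ b) {H : ℝ}
    (hH : Real.log b ≤ H) : (b : ℝ) ^ ((L - 1) * r) ≤ Real.exp (L * (R * H)) := by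
  have hb' : (1 : ℝ) ≤ b := by exact_mod_cast hb
  have h1 : 0 ≤ Real.log b := Real.log_nonneg hb'
  have h2 : (b : ℝ) = Real.exp (Real.log b) := (Real.exp_log (by linarith)).symm
  have h3 : (b : ℝ) ^ ((L - 1) * r) = Real.exp (((L - 1) * r : ℕ) * Real.log b) := by
    conv_lhs => rw [h2]
    rw [← Real.exp_nat_mul]
  rw [h3]
  refine Real.exp_le_exp.2 ?_
  have h4 : ((L - 1) * r : ℕ) ≤ L * R := Nat.mul_le_mul (Nat.sub_le _ _) hr.le
  have h5 : (((L - 1) * r : ℕ) : ℝ) ≤ (L : ℝ) * R := by exact_mod_cast h4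
  have h6 : (0 : ℝ) ≤ (L : ℝ) * R := by positivity
  calc (((L - 1) * r : ℕ) : ℝ) * Real.log b ≤ ((L : ℝ) * R) * H :=
        mul_le_mul h5 hH h1 h6
    _ = L * (R * H) := by ring

theorem det_lower3 (N L R1 q rho : ℕ) (aa cc ll rr ss tt : Fin N → ℕ)
    (hl : ∀ i, ll i < L) (hr : ∀ j, rr j < R1) (a₁ b₁ a₂ a₃ : ℕ) (hb₁ : 1 ≤ b₁)
    (H : ℝ) (hH : Real.log b₁ ≤ H)
    (hne : (Matrix.of fun i j : Fin N =>
      ent3 q rho ((a₁ : ℝ) / b₁) a₂ a₃ (aa i) (cc i) (ll i) (rr j) (ss j) (tt j)).det ≠ 0) :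
    Real.exp (-(N * (L * (R1 * H)))) ≤
      |(Matrix.of fun i j : Fin N =>
        ent3 q rho ((a₁ : ℝ) / b₁) a₂ a₃ (aa i) (cc i) (ll i) (rr j) (ss j) (tt j)).det| := by
  have hb₁0 : (b₁ : ℝ) ≠ 0 := by exact_mod_cast (by omega : b₁ ≠ 0)
  set M : Matrix (Fin N) (Fin N) ℝ := Matrix.of fun i j : Fin N =>
    ent3 q rho ((a₁ : ℝ) / b₁) a₂ a₃ (aa i) (cc i) (ll i) (rr j) (ss j) (tt j) with hM
  set D : Fin N → ℝ := fun j => (b₁ : ℝ) ^ ((L - 1) * rr j) with hD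
  let B : Matrix (Fin N) (Fin N) ℤ := Matrix.of fun i j =>
    ((((rho * rr j + q * ss j).choose (aa i) : ℕ) : ℤ) *
      (((rho * tt j + ss j).choose (cc i) : ℕ) : ℤ)) *
      ((a₁ : ℤ) ^ (ll i * rr j) * (b₁ : ℤ) ^ ((L - 1 - ll i) * rr j)) *
      ((a₂ : ℤ) ^ (ll i * ss j) * (a₃ : ℤ) ^ (ll i * tt j))
  have h1 : (∏ j, D j) * M.det = ((B.det : ℤ) : ℝ) := by
    rw [← Matrix.det_mul_row, Int.cast_det]
    congr 1
    ext i j
    have h2 := LLow3_entry (r := rr j) (s := ss j) (t := tt j) (hl i)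
      ((((rho * rr j + q * ss j).choose (aa i) : ℕ) : ℝ) *
        (((rho * tt j + ss j).choose (cc i) : ℕ) : ℝ)) a₁ b₁ a₂ a₃ hb₁0
    simp only [hD, hM, Matrix.of_apply, ent3, Matrix.map_apply, B]
    push_cast
    exact h2
  have hDpos : ∀ j, 0 < D j := fun j => by
    have h3 : (0 : ℝ) < b₁ := by exact_mod_cast hb₁
    simp only [hD]
    positivity
  have hprod : 0 < ∏ j, D j := Finset.prod_pos fun j _ => hDpos j
  have hB : B.det ≠ 0 := by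
    intro h0
    rw [h0, Int.cast_zero] at h1
    rcases mul_eq_zero.1 h1 with h2 | h2
    · exact hprod.ne' h2
    · exact hne h2
  have h5 : (1 : ℝ) ≤ (∏ j, D j) * |M.det| := by
    have h6 : (1 : ℝ) ≤ |((B.det : ℤ) : ℝ)| := by
      rw [← Int.cast_abs]
      exact_mod_cast Int.one_le_abs hB
    rw [← h1, abs_mul, abs_of_pos hprod] at h6
    exact h6
  have h7 : ∏ j, D j ≤ Real.exp (N * (L * (R1 * H))) := by
    calc ∏ j, D j ≤ ∏ _j : Fin N, Real.exp (L * (R1 * H)) :=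
          Finset.prod_le_prod (fun j _ => (hDpos j).le)
            (fun j _ => LLow3_col (hr j) hb₁ hH)
      _ = Real.exp (N * (L * (R1 * H))) := by
          rw [Finset.prod_const, Finset.card_univ, Fintype.card_fin, ← Real.exp_nat_mul]
  have h8 : (1 : ℝ) ≤ Real.exp (N * (L * (R1 * H))) * |M.det| :=
    h5.trans (mul_le_mul_of_nonneg_right h7 (abs_nonneg _))
  rw [Real.exp_neg]
  exact (inv_le_iff_one_le_mul₀ (Real.exp_pos _)).2 (by linarith)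

end Pool.Agent.NLE
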