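import Pool.Agent.NLE.Zero3
import Pool.Agent.GTT.Pick

/-!
# NLE-LPick: a nonzero interpolation determinant

PLAN.  As `GTT.pick` (Pool/Agent/GTT/Pick.lean; `exists_minor` there, copy it if it is private): the rows
`(a, b, l) ∈ Fin K × Fin K × Fin L ≃ Fin (D^2)` (`K^2 L = D^2`) are linearly independent on the columns
`(r, s, t) ∈ Fin (3R1) × Fin (3R2) × Fin (3R3)` by `zero_est3`, so `D^2` columns with a nonzero minor exist.
-/

namespace Pool.Agent.NLE

private theorem LPick_minor {N : ℕ} {C : Type*} [Fintype C] (M : Matrix (Fin N) C ℝ)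
    (h : LinearIndependent ℝ M.row) :
    ∃ c : Fin N → C, (Matrix.of fun i j : Fin N => M i (c j)).det ≠ 0 := by
  have h1 : M.rank = N := by
    rw [h.rank_matrix, Fintype.card_fin]
  rw [Matrix.rank_eq_finrank_span_cols] at h1
  obtain ⟨f, hf1, -, hf3⟩ := Submodule.exists_fun_fin_finrank_span_eq ℝ (Set.range M.col)
  choose g hg using hf1
  refine ⟨fun j => g (Fin.cast h1.symm j), ?_⟩
  have h2 : LinearIndependent ℝ
      (Matrix.of fun i j : Fin N => M i (g (Fin.cast h1.symm j))).col := by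
    have h3 : (Matrix.of fun i j : Fin N => M i (g (Fin.cast h1.symm j))).col =
        f ∘ Fin.cast h1.symm := by
      ext j i
      rw [Function.comp_apply, ← hg]
      rfl
    rw [h3]
    exact hf3.comp _ (Fin.cast_injective _)
  rw [Matrix.linearIndependent_cols_iff_isUnit, Matrix.isUnit_iff_isUnit_det] at h2
  exact h2.ne_zero

theorem pick3 {q rho R1 R2 R3 K L E D : ℕ} {α₁ α₂ α₃ : ℝ} (h1 : 0 < α₁) (h2 : 1 < α₂) (h3 : 0 < α₃)
    (hr1 : 1 ≤ rho) (hrq : rho ≤ q) (hR1 : 1 ≤ R1) (hR2 : 1 ≤ R2) (hR3 : 1 ≤ R3) (hK : 1 ≤ K)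
    (hL1 : 1 ≤ L) (hR1q : 3 * R1 ≤ q) (hL : L ≤ R2)
    (h12 : 8 * L * K < R1 * R2) (h13 : 8 * L * K < R1 * R3) (h23 : 8 * L * K < R2 * R3)
    (hE : ∀ b : ℕ, ∀ a : ℤ, 1 ≤ b → b < R1 → (E : ℤ) ≤ |(b : ℤ) * rho - a * q|)
    (hE2 : 8 * L * K * R1 < E * R3) (h123 : 32 * L ^ 2 * K ^ 2 < R1 * R2 * R3)
    (hD : K ^ 2 * L = D ^ 2) :
    ∃ aa cc ll rr ss tt : Fin (D ^ 2) → ℕ, (∀ i, aa i < K) ∧ (∀ i, cc i < K) ∧ (∀ i, ll i < L) ∧
      (∀ j, rr j < 3 * R1) ∧ (∀ j, ss j < 3 * R2) ∧ (∀ j, tt j < 3 * R3) ∧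
      (Matrix.of fun i j : Fin (D ^ 2) =>
        ent3 q rho α₁ α₂ α₃ (aa i) (cc i) (ll i) (rr j) (ss j) (tt j)).det ≠ 0 := by
  have hcard : Fintype.card (Fin K × Fin K × Fin L) = D ^ 2 := by
    rw [Fintype.card_prod, Fintype.card_prod, Fintype.card_fin, Fintype.card_fin, ← hD]
    ring
  let e : Fin K × Fin K × Fin L ≃ Fin (D ^ 2) := Fintype.equivFinOfCardEq hcard
  obtain ⟨c, hc⟩ := LPick_minor (N := D ^ 2) (C := Fin (3 * R1) × Fin (3 * R2) × Fin (3 * R3))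
    (Matrix.of fun i j => ent3 q rho α₁ α₂ α₃ (e.symm i).1 (e.symm i).2.1 (e.symm i).2.2
      j.1 j.2.1 j.2.2) (by
    rw [Fintype.linearIndependent_iff]
    intro g hg
    have h5 := zero_est3 h1 h2 h3 hr1 hrq hR1 hR2 hR3 hK hL1 hR1q hL h12 h13 h23 hE hE2 h123
      (fun a b l => if h : a < K ∧ b < K ∧ l < L then
        g (e (⟨a, h.1⟩, ⟨b, h.2.1⟩, ⟨l, h.2.2⟩)) else 0) (by
        intro r hr s hs t ht
        have h4 := congrFun hg (⟨r, hr⟩, ⟨s, hs⟩, ⟨t, ht⟩)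
        rw [Finset.sum_apply] at h4
        rw [← Equiv.sum_comp e, Fintype.sum_prod_type] at h4
        rw [Pi.zero_apply] at h4
        rw [← h4, Finset.sum_range]
        refine Finset.sum_congr rfl fun a _ => ?_
        rw [Fintype.sum_prod_type, Finset.sum_range]
        refine Finset.sum_congr rfl fun b _ => ?_
        rw [Finset.sum_range]
        refine Finset.sum_congr rfl fun l _ => ?_
        rw [dif_pos ⟨a.2, b.2, l.2⟩]
        simp only [Matrix.row, Matrix.of_apply, Equiv.symm_apply_apply, Pi.smul_apply,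
          smul_eq_mul])
    intro i
    have h6 := h5 (e.symm i).1 (e.symm i).1.2 (e.symm i).2.1 (e.symm i).2.1.2
      (e.symm i).2.2 (e.symm i).2.2.2
    rw [dif_pos ⟨(e.symm i).1.2, (e.symm i).2.1.2, (e.symm i).2.2.2⟩] at h6
    simpa only [Fin.eta, Prod.mk.eta, Equiv.apply_symm_apply] using h6)
  exact ⟨fun i => (e.symm i).1, fun i => (e.symm i).2.1, fun i => (e.symm i).2.2,
    fun j => (c j).1, fun j => (c j).2.1, fun j => (c j).2.2, fun i => (e.symm i).1.2,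
    fun i => (e.symm i).2.1.2, fun i => (e.symm i).2.2.2, fun j => (c j).1.2,
    fun j => (c j).2.1.2, fun j => (c j).2.2.2, hc⟩

end Pool.Agent.NLE
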