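import Mathlib

/-!
# NLE-LWt: the sum of the weights of distinct monomials in two variables

`LWt_w` is the weight `m1 + m3` if `b = 0`, else `D`.  For `d < D` the set `{i : w i ≤ d}` injects (by `ν`, `b = 0`)
into `{(m1, m3) : m1 + m3 ≤ d}`, so it has at most `(d+1)(d+2)/2` elements, and `w i` is at least the number of the
`d < D` with `d + 1 ≤ w i`.  So `∑ w i ≥ D N - D(D+1)(D+2)/6 ≥ N D/2` as `N = D^2`, `D ≥ 2` (`2 D^2 ≥ 3 D + 2`).
-/

namespace Pool.Agent.NLE

private def LWt_w (D : ℕ) (t : ℕ × ℕ × ℕ) : ℕ := if t.2.2 = 0 then t.1 + t.2.1 else D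

private lemma LWt_S (d : ℕ) : 2 * ∑ k ∈ Finset.range (d + 1), (k + 1) = (d + 1) * (d + 2) := by
  induction d with
  | zero => simp
  | succ d ih =>
    rw [Finset.sum_range_succ, mul_add, ih]
    ring

private lemma LWt_SS (D : ℕ) :
    6 * ∑ d ∈ Finset.range D, ∑ k ∈ Finset.range (d + 1), (k + 1) = D * (D + 1) * (D + 2) := by
  induction D with
  | zero => simp
  | succ D ih =>
    rw [Finset.sum_range_succ, mul_add, ih]
    have h := LWt_S D
    have h2 : 6 * ∑ k ∈ Finset.range (D + 1), (k + 1) = 3 * ((D + 1) * (D + 2)) := by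
      rw [← h]
      ring
    rw [h2]
    ring

private lemma LWt_card {ι : Type*} [Fintype ι] {D : ℕ} {ν : ι → ℕ × ℕ × ℕ} (hν : Function.Injective ν) {d : ℕ}
    (hd : d < D) :
    (Finset.univ.filter fun i => LWt_w D (ν i) ≤ d).card ≤ ∑ k ∈ Finset.range (d + 1), (k + 1) := by
  classical
  have h0 : ∀ i, LWt_w D (ν i) ≤ d → (ν i).2.2 = 0 ∧ (ν i).1 + (ν i).2.1 ≤ d := by
    intro i hi
    unfold LWt_w at hi
    split_ifs at hi with h
    · exact ⟨h, hi⟩
    · omega
  have h1 : (Finset.univ.filter fun i => LWt_w D (ν i) ≤ d).card ≤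
      ((Finset.range (d + 1)).biUnion fun k => Finset.HasAntidiagonal.antidiagonal k).card := by
    refine Finset.card_le_card_of_injOn (fun i => ((ν i).1, (ν i).2.1)) ?_ ?_
    · intro i hi
      have hi2 : LWt_w D (ν i) ≤ d := (Finset.mem_filter.1 (Finset.mem_coe.1 hi)).2
      have h2 := (h0 i hi2).2
      refine Finset.mem_coe.2 (Finset.mem_biUnion.2 ⟨(ν i).1 + (ν i).2.1, Finset.mem_range.2 (by omega), ?_⟩)
      exact Finset.HasAntidiagonal.mem_antidiagonal.2 rfl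
    · intro i hi j hj hij
      have hi2 : LWt_w D (ν i) ≤ d := (Finset.mem_filter.1 (Finset.mem_coe.1 hi)).2
      have hj2 : LWt_w D (ν j) ≤ d := (Finset.mem_filter.1 (Finset.mem_coe.1 hj)).2
      have h4 : ((ν i).1, (ν i).2.1) = ((ν j).1, (ν j).2.1) := hij
      have h3 : (ν i).1 = (ν j).1 ∧ (ν i).2.1 = (ν j).2.1 := by
        rw [Prod.mk.injEq] at h4
        exact h4
      refine hν (Prod.ext h3.1 (Prod.ext h3.2 ?_))
      rw [(h0 i hi2).1, (h0 j hj2).1]
  refine h1.trans (Finset.card_biUnion_le.trans (le_of_eq ?_))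
  exact Finset.sum_congr rfl fun k _ => Finset.Nat.card_antidiagonal k

private lemma LWt_one (D w : ℕ) : ((Finset.range D).filter fun d => ¬ w ≤ d).card ≤ w := by
  have h : ((Finset.range D).filter fun d => ¬ w ≤ d) ⊆ Finset.range w := by
    intro d hd
    have h1 := (Finset.mem_filter.1 hd).2
    exact Finset.mem_range.2 (by omega)
  exact (Finset.card_le_card h).trans (Finset.card_range w).le

private lemma LWt_main {ι : Type*} [Fintype ι] (D : ℕ) {ν : ι → ℕ × ℕ × ℕ} (hν : Function.Injective ν) :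
    D * Fintype.card ι ≤ ∑ i, LWt_w D (ν i) + ∑ d ∈ Finset.range D, ∑ k ∈ Finset.range (d + 1), (k + 1) := by
  classical
  have h1 : ∀ i, ∑ d ∈ Finset.range D, (if LWt_w D (ν i) ≤ d then 0 else 1) ≤ LWt_w D (ν i) := by
    intro i
    have h := LWt_one D (LWt_w D (ν i))
    rw [Finset.card_filter] at h
    refine le_trans (le_of_eq (Finset.sum_congr rfl fun d _ => ?_)) h
    by_cases hh : LWt_w D (ν i) ≤ d
    · rw [if_pos hh, if_neg (not_not.2 hh)]
    · rw [if_neg hh, if_pos hh]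
  have h2 : ∑ i, ∑ d ∈ Finset.range D, (if LWt_w D (ν i) ≤ d then 0 else 1) ≤ ∑ i, LWt_w D (ν i) :=
    Finset.sum_le_sum fun i _ => h1 i
  have h3 : ∑ i : ι, ∑ d ∈ Finset.range D, (if LWt_w D (ν i) ≤ d then 1 else 0) ≤
      ∑ d ∈ Finset.range D, ∑ k ∈ Finset.range (d + 1), (k + 1) := by
    rw [Finset.sum_comm]
    refine Finset.sum_le_sum fun d hd => ?_
    have h := LWt_card hν (Finset.mem_range.1 hd)
    rw [Finset.card_filter] at h
    exact h
  have h4 : ∑ i : ι, ∑ d ∈ Finset.range D, (if LWt_w D (ν i) ≤ d then 0 else 1) +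
      ∑ i : ι, ∑ d ∈ Finset.range D, (if LWt_w D (ν i) ≤ d then 1 else 0) = D * Fintype.card ι := by
    rw [← Finset.sum_add_distrib]
    have h5 : ∀ i : ι, (∑ d ∈ Finset.range D, (if LWt_w D (ν i) ≤ d then 0 else 1) +
        ∑ d ∈ Finset.range D, (if LWt_w D (ν i) ≤ d then 1 else 0)) = D := by
      intro i
      rw [← Finset.sum_add_distrib]
      have h6 : ∀ d ∈ Finset.range D, ((if LWt_w D (ν i) ≤ d then 0 else 1) +
          (if LWt_w D (ν i) ≤ d then 1 else 0)) = 1 := by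
        intro d _
        split_ifs <;> rfl
      rw [Finset.sum_congr rfl h6, Finset.sum_const, Finset.card_range, smul_eq_mul, mul_one]
    rw [Finset.sum_congr rfl fun i _ => h5 i, Finset.sum_const, Finset.card_univ, smul_eq_mul, mul_comm]
  omega

theorem weight2 (D : ℕ) (hD : 2 ≤ D) (ν : Fin (D ^ 2) → ℕ × ℕ × ℕ) (hν : Function.Injective ν) :
    ((D : ℝ) ^ 3 / 2) ≤ ∑ i, (if (ν i).2.2 = 0 then (((ν i).1 + (ν i).2.1 : ℕ) : ℝ) else D) := by
  have h1 : (∑ i, (if (ν i).2.2 = 0 then (((ν i).1 + (ν i).2.1 : ℕ) : ℝ) else D)) =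
      ((∑ i, LWt_w D (ν i) : ℕ) : ℝ) := by
    rw [Nat.cast_sum]
    refine Finset.sum_congr rfl fun i _ => ?_
    unfold LWt_w
    split_ifs <;> rfl
  rw [h1]
  have h2 := LWt_main D hν
  rw [Fintype.card_fin] at h2
  have h3 := LWt_SS D
  set A := ∑ i, LWt_w D (ν i)
  set Bn := ∑ d ∈ Finset.range D, ∑ k ∈ Finset.range (d + 1), (k + 1)
  have h2' : (D : ℝ) * (D : ℝ) ^ 2 ≤ (A : ℝ) + (Bn : ℝ) := by exact_mod_cast h2
  have h3' : 6 * (Bn : ℝ) = (D : ℝ) * (D + 1) * (D + 2) := by exact_mod_cast h3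
  have hD' : (2 : ℝ) ≤ D := by exact_mod_cast hD
  have h5 : 0 ≤ (D : ℝ) * ((D - 2) * (2 * D + 1)) :=
    mul_nonneg (by linarith) (mul_nonneg (by linarith) (by linarith))
  nlinarith [h5]

end Pool.Agent.NLE
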