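import Pool.Agent.NLE.LMaj
import Pool.Agent.NLE.LWt
import Pool.Agent.NLE.LDefs
import Pool.Agent.GTT.IDet

/-!
# NLE-LUp3: upper bound for the three-logarithm determinants

As `GTT.det_upper` (Pool/Agent/GTT/DetUp.lean), with `GTT.idet_bound` for `ι = ℕ × ℕ × ℕ`: the entries are
expanded in products of two power series (`maj2`, in `Z1 = ρ r + q s` and `Z3 = ρ t + s`) and the exponential
series in `s δ`, `δ = (ρ log α₂ - q log α₁ - log α₃) / ρ`.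
-/

namespace Pool.Agent.NLE

private theorem LUp3_exp (y : ℝ) :
    HasSum (fun b : ℕ => y ^ b / (b.factorial : ℝ)) (Real.exp y) := by
  rw [Real.exp_eq_exp_ℝ]
  exact NormedSpace.expSeries_div_hasSum_exp y

private theorem LUp3_mul {f g h : ℕ → ℝ} {x y z : ℝ} (hf : HasSum f x) (hg : HasSum g y)
    (hh : HasSum h z) :
    HasSum (fun ν : ℕ × ℕ × ℕ => f ν.1 * (g ν.2.1 * h ν.2.2)) (x * (y * z)) := by
  have h4 : HasSum (fun ν : ℕ × ℕ => g ν.1 * h ν.2) (y * z) :=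
    hg.mul hh (summable_mul_of_summable_norm hg.summable.norm hh.summable.norm)
  exact hf.mul h4 (summable_mul_of_summable_norm hf.summable.norm h4.summable.norm)

private theorem LUp3_ent {q rho : ℕ} (hrho : 1 ≤ rho) {α₁ α₂ α₃ : ℝ} (h1 : 0 < α₁) (h2 : 0 < α₂)
    (h3 : 0 < α₃) (k c l r s t : ℕ) :
    ((((rho * r + q * s : ℕ).choose k : ℕ) : ℝ) *
      Real.exp ((l : ℝ) * (Real.log α₁ / rho) * ((rho * r + q * s : ℕ) : ℝ))) *
    (((((rho * t + s : ℕ).choose c : ℕ) : ℝ) *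
      Real.exp ((l : ℝ) * (Real.log α₃ / rho) * ((rho * t + s : ℕ) : ℝ))) *
      Real.exp ((l : ℝ) * ((rho * Real.log α₂ - q * Real.log α₁ - Real.log α₃) / rho) * s)) =
    ent3 q rho α₁ α₂ α₃ k c l r s t := by
  have hr : (rho : ℝ) ≠ 0 := by
    have : rho ≠ 0 := by omega
    exact_mod_cast this
  have e1 : (α₁ ^ r * α₂ ^ s * α₃ ^ t) ^ l =
      Real.exp ((l : ℝ) * ((r : ℝ) * Real.log α₁ + (s : ℝ) * Real.log α₂ + (t : ℝ) * Real.log α₃)) := by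
    rw [Real.exp_nat_mul, Real.exp_add, Real.exp_add, Real.exp_nat_mul, Real.exp_nat_mul,
      Real.exp_nat_mul, Real.exp_log h1, Real.exp_log h2, Real.exp_log h3]
  have e2 : (l : ℝ) * ((r : ℝ) * Real.log α₁ + (s : ℝ) * Real.log α₂ + (t : ℝ) * Real.log α₃) =
      (l : ℝ) * (Real.log α₁ / rho) * ((rho * r + q * s : ℕ) : ℝ) +
        ((l : ℝ) * (Real.log α₃ / rho) * ((rho * t + s : ℕ) : ℝ) +
        (l : ℝ) * ((rho * Real.log α₂ - q * Real.log α₁ - Real.log α₃) / rho) * s) := by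
    push_cast
    field_simp
    ring
  unfold ent3
  rw [e1, e2, Real.exp_add, Real.exp_add]
  ring

theorem det_upper3 (D K L R1 R2 R3 q rho : ℕ) (hD : 2 ≤ D) (hK1 : 1 ≤ K) (hrho : 1 ≤ rho)
    (aa cc ll rr ss tt : Fin (D ^ 2) → ℕ)
    (ha : ∀ i, aa i < K) (hc : ∀ i, cc i < K) (hl : ∀ i, ll i < L) (hr : ∀ j, rr j < R1)
    (hs : ∀ j, ss j < R2) (ht : ∀ j, tt j < R3) (α₁ α₂ α₃ : ℝ) (h1 : 0 < α₁) (h2 : 0 < α₂)
    (h3 : 0 < α₃) (B X : ℝ) (hB : 1 ≤ B)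
    (hB1 : Real.exp 1 * ((rho : ℝ) * R1 + q * R2) ≤ B * K)
    (hB3 : Real.exp 1 * ((rho : ℝ) * R3 + R2) ≤ B * K)
    (hX : Real.exp 1 * L * (|Real.log α₁| * (((rho : ℝ) * R1 + q * R2) / rho) +
      |Real.log α₃| * (((rho : ℝ) * R3 + R2) / rho)) ≤ X)
    (hΛ : (L : ℝ) * R2 * |rho * Real.log α₂ - q * Real.log α₁ - Real.log α₃| * Real.exp D ≤ 1) :
    |(Matrix.of fun i j : Fin (D ^ 2) =>
      ent3 q rho α₁ α₂ α₃ (aa i) (cc i) (ll i) (rr j) (ss j) (tt j)).det| ≤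
      (D ^ 2).factorial * Real.exp (-((D : ℝ) ^ 3 / 2)) *
        ((3 * (B + 1)) ^ (2 * K) * Real.exp (X + 1)) ^ (D ^ 2) := by
  classical
  choose a hA using fun i => maj2 (aa i) ((ll i : ℝ) * (Real.log α₁ / rho))
  choose b hBB using fun i => maj2 (cc i) ((ll i : ℝ) * (Real.log α₃ / rho))
  set Λ : ℝ := rho * Real.log α₂ - q * Real.log α₁ - Real.log α₃ with hΛdef
  set δ : ℝ := Λ / rho with hδ
  set Z1 : ℝ := (rho : ℝ) * R1 + q * R2 with hZ1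
  set Z3 : ℝ := (rho : ℝ) * R3 + R2 with hZ3
  have hZ10 : 0 ≤ Z1 := by positivity
  have hZ30 : 0 ≤ Z3 := by positivity
  set G : ℝ := ((3 * (B + 1)) ^ (2 * K) * Real.exp (X + 1)) with hG
  have main := GTT.idet_bound (ι := ℕ × ℕ × ℕ) (D ^ 2)
    (fun i ν => a i ν.1 * (b i ν.2.1 * (((ll i : ℝ) * δ) ^ ν.2.2 / (ν.2.2.factorial : ℝ))))
    (fun ν j => ((rho * rr j + q * ss j : ℕ) : ℝ) ^ ν.1 *
      (((rho * tt j + ss j : ℕ) : ℝ) ^ ν.2.1 * (ss j : ℝ) ^ ν.2.2))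
    (fun ν => Z1 ^ ν.1 * (Z3 ^ ν.2.1 * (R2 : ℝ) ^ ν.2.2))
    (fun ν => if ν.2.2 = 0 then ((ν.1 + ν.2.1 : ℕ) : ℝ) else D)
    (Matrix.of fun i j : Fin (D ^ 2) =>
      ent3 q rho α₁ α₂ α₃ (aa i) (cc i) (ll i) (rr j) (ss j) (tt j)) ?_ ?_ (fun _ => G) ?_
    ((D : ℝ) ^ 3 / 2) (weight2 D hD)
  · rw [Finset.prod_const, Finset.card_univ, Fintype.card_fin] at main
    exact main
  · intro i j
    have hs1 := (hA i).1 (rho * rr j + q * ss j)
    have hs2 := (hBB i).1 (rho * tt j + ss j)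
    have hs3 := LUp3_exp (((ll i : ℝ) * δ) * ss j)
    have h5 := LUp3_mul hs1 hs2 hs3
    have h6 := LUp3_ent hrho h1 h2 h3 (q := q) (aa i) (cc i) (ll i) (rr j) (ss j) (tt j)
    show HasSum _ (ent3 q rho α₁ α₂ α₃ (aa i) (cc i) (ll i) (rr j) (ss j) (tt j))
    rw [← h6]
    have h7 : (fun ν : ℕ × ℕ × ℕ => a i ν.1 * (b i ν.2.1 *
        (((ll i : ℝ) * δ) ^ ν.2.2 / (ν.2.2.factorial : ℝ))) *
        (((rho * rr j + q * ss j : ℕ) : ℝ) ^ ν.1 *
          (((rho * tt j + ss j : ℕ) : ℝ) ^ ν.2.1 * (ss j : ℝ) ^ ν.2.2))) =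
        fun ν : ℕ × ℕ × ℕ => a i ν.1 * ((rho * rr j + q * ss j : ℕ) : ℝ) ^ ν.1 *
          (b i ν.2.1 * ((rho * tt j + ss j : ℕ) : ℝ) ^ ν.2.1 *
            ((((ll i : ℝ) * δ) * ss j) ^ ν.2.2 / (ν.2.2.factorial : ℝ))) := by
      funext ν
      rw [mul_pow ((ll i : ℝ) * δ)]
      ring
    show HasSum (fun ν : ℕ × ℕ × ℕ => a i ν.1 * (b i ν.2.1 *
        (((ll i : ℝ) * δ) ^ ν.2.2 / (ν.2.2.factorial : ℝ))) *
        (((rho * rr j + q * ss j : ℕ) : ℝ) ^ ν.1 *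
          (((rho * tt j + ss j : ℕ) : ℝ) ^ ν.2.1 * (ss j : ℝ) ^ ν.2.2))) _
    rw [h7]
    exact h5
  · intro ν j
    have e1 : (rr j : ℝ) ≤ R1 := by exact_mod_cast (hr j).le
    have e2 : (ss j : ℝ) ≤ R2 := by exact_mod_cast (hs j).le
    have e3 : (tt j : ℝ) ≤ R3 := by exact_mod_cast (ht j).le
    have e4 : (0 : ℝ) ≤ rho := Nat.cast_nonneg rho
    have e5 : (0 : ℝ) ≤ q := Nat.cast_nonneg q
    have h4 : ((rho * rr j + q * ss j : ℕ) : ℝ) ≤ Z1 := by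
      rw [hZ1]
      push_cast
      exact add_le_add (mul_le_mul_of_nonneg_left e1 e4) (mul_le_mul_of_nonneg_left e2 e5)
    have h5 : ((rho * tt j + ss j : ℕ) : ℝ) ≤ Z3 := by
      rw [hZ3]
      push_cast
      exact add_le_add (mul_le_mul_of_nonneg_left e3 e4) e2
    show |((rho * rr j + q * ss j : ℕ) : ℝ) ^ ν.1 *
      (((rho * tt j + ss j : ℕ) : ℝ) ^ ν.2.1 * (ss j : ℝ) ^ ν.2.2)| ≤
      Z1 ^ ν.1 * (Z3 ^ ν.2.1 * (R2 : ℝ) ^ ν.2.2)
    rw [abs_of_nonneg (by positivity)]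
    exact mul_le_mul (pow_le_pow_left₀ (Nat.cast_nonneg _) h4 _)
      (mul_le_mul (pow_le_pow_left₀ (Nat.cast_nonneg _) h5 _)
        (pow_le_pow_left₀ (Nat.cast_nonneg _) e2 _) (by positivity) (by positivity))
      (by positivity) (by positivity)
  · intro i F
    have hrho1 : (1 : ℝ) ≤ rho := by exact_mod_cast hrho
    have hrho0 : (0 : ℝ) < rho := by linarith
    have hlL : (ll i : ℝ) ≤ L := by exact_mod_cast (hl i).le
    have hl0 : (0 : ℝ) ≤ ll i := Nat.cast_nonneg _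
    set y : ℝ := (ll i : ℝ) * δ with hy
    have hδabs : |δ| ≤ |Λ| := by
      rw [hδ, abs_div, abs_of_pos hrho0]
      exact div_le_self (abs_nonneg _) hrho1
    have hyabs : |y| ≤ L * |Λ| := by
      rw [hy, abs_mul, abs_of_nonneg hl0]
      exact mul_le_mul hlL hδabs (abs_nonneg _) (Nat.cast_nonneg _)
    set u : ℝ := |y| * R2 * Real.exp D with hu
    have hu0 : 0 ≤ u := by positivity
    have hu1 : u ≤ 1 := by
      rw [hu]
      calc |y| * R2 * Real.exp D ≤ (L * |Λ|) * R2 * Real.exp D := by gcongr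
        _ = (L : ℝ) * R2 * |Λ| * Real.exp D := by ring
        _ ≤ 1 := hΛ
    set ρ1 : ℝ := Real.exp 1 * Z1 with hρ1
    set ρ3 : ℝ := Real.exp 1 * Z3 with hρ3
    have hρ10 : 0 ≤ ρ1 := by positivity
    have hρ30 : 0 ≤ ρ3 := by positivity
    obtain ⟨hsum1, hbd1⟩ := (hA i).2 ρ1 hρ10
    obtain ⟨hsum3, hbd3⟩ := (hBB i).2 ρ3 hρ30
    have hn1 := maj2_num (ha i).le hK1 hρ10 hB hB1
    have hn3 := maj2_num (hc i).le hK1 hρ30 hB hB3
    have hterm : ∀ ν : ℕ × ℕ × ℕ,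
        |a i ν.1 * (b i ν.2.1 * (y ^ ν.2.2 / (ν.2.2.factorial : ℝ)))| *
          (Z1 ^ ν.1 * (Z3 ^ ν.2.1 * (R2 : ℝ) ^ ν.2.2)) *
          Real.exp (if ν.2.2 = 0 then ((ν.1 + ν.2.1 : ℕ) : ℝ) else D) ≤
        (|a i ν.1| * ρ1 ^ ν.1) * ((|b i ν.2.1| * ρ3 ^ ν.2.1) *
          (u ^ ν.2.2 / (ν.2.2.factorial : ℝ))) := by
      intro ν
      have e1 : Real.exp (if ν.2.2 = 0 then ((ν.1 + ν.2.1 : ℕ) : ℝ) else D) ≤
          Real.exp 1 ^ ν.1 * Real.exp 1 ^ ν.2.1 * Real.exp D ^ ν.2.2 := by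
        rw [← Real.exp_nat_mul, ← Real.exp_nat_mul, ← Real.exp_nat_mul, ← Real.exp_add,
          ← Real.exp_add]
        apply Real.exp_le_exp.2
        split_ifs with h
        · rw [h]
          push_cast
          linarith
        · have e2 : (1 : ℝ) ≤ ν.2.2 := by exact_mod_cast Nat.one_le_iff_ne_zero.2 h
          have e3 : (0 : ℝ) ≤ ν.1 := Nat.cast_nonneg _
          have e4 : (0 : ℝ) ≤ ν.2.1 := Nat.cast_nonneg _
          have e5 : (0 : ℝ) ≤ D := Nat.cast_nonneg _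
          nlinarith
      calc |a i ν.1 * (b i ν.2.1 * (y ^ ν.2.2 / (ν.2.2.factorial : ℝ)))| *
            (Z1 ^ ν.1 * (Z3 ^ ν.2.1 * (R2 : ℝ) ^ ν.2.2)) *
            Real.exp (if ν.2.2 = 0 then ((ν.1 + ν.2.1 : ℕ) : ℝ) else D)
          ≤ |a i ν.1 * (b i ν.2.1 * (y ^ ν.2.2 / (ν.2.2.factorial : ℝ)))| *
            (Z1 ^ ν.1 * (Z3 ^ ν.2.1 * (R2 : ℝ) ^ ν.2.2)) *
            (Real.exp 1 ^ ν.1 * Real.exp 1 ^ ν.2.1 * Real.exp D ^ ν.2.2) :=
            mul_le_mul_of_nonneg_left e1 (by positivity)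
        _ = (|a i ν.1| * ρ1 ^ ν.1) * ((|b i ν.2.1| * ρ3 ^ ν.2.1) *
          (u ^ ν.2.2 / (ν.2.2.factorial : ℝ))) := by
            rw [abs_mul, abs_mul, abs_div, abs_pow, Nat.abs_cast, hρ1, hρ3, hu, mul_pow, mul_pow,
              mul_pow, mul_pow]
            ring
    have hF : F ⊆ F.image Prod.fst ×ˢ ((F.image Prod.snd).image Prod.fst ×ˢ
        (F.image Prod.snd).image Prod.snd) :=
      Finset.subset_product.trans (Finset.product_subset_product_right Finset.subset_product)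
    have hXX : |(ll i : ℝ) * (Real.log α₁ / rho)| * ρ1 +
        |(ll i : ℝ) * (Real.log α₃ / rho)| * ρ3 ≤ X := by
      rw [abs_mul, abs_mul, abs_div, abs_div, abs_of_nonneg hl0, abs_of_pos hrho0, hρ1, hρ3]
      have e1 : 0 ≤ |Real.log α₁| * (Z1 / rho) + |Real.log α₃| * (Z3 / rho) := by positivity
      calc (ll i : ℝ) * (|Real.log α₁| / rho) * (Real.exp 1 * Z1) +
            (ll i : ℝ) * (|Real.log α₃| / rho) * (Real.exp 1 * Z3)
          = Real.exp 1 * ll i * (|Real.log α₁| * (Z1 / rho) + |Real.log α₃| * (Z3 / rho)) := by ring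
        _ ≤ Real.exp 1 * L * (|Real.log α₁| * (Z1 / rho) + |Real.log α₃| * (Z3 / rho)) := by
            gcongr
        _ ≤ X := hX
    calc ∑ ν ∈ F, |a i ν.1 * (b i ν.2.1 * (y ^ ν.2.2 / (ν.2.2.factorial : ℝ)))| *
          (Z1 ^ ν.1 * (Z3 ^ ν.2.1 * (R2 : ℝ) ^ ν.2.2)) *
          Real.exp (if ν.2.2 = 0 then ((ν.1 + ν.2.1 : ℕ) : ℝ) else D)
        ≤ ∑ ν ∈ F, (|a i ν.1| * ρ1 ^ ν.1) * ((|b i ν.2.1| * ρ3 ^ ν.2.1) *
          (u ^ ν.2.2 / (ν.2.2.factorial : ℝ))) :=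
          Finset.sum_le_sum fun ν _ => hterm ν
      _ ≤ ∑ ν ∈ F.image Prod.fst ×ˢ ((F.image Prod.snd).image Prod.fst ×ˢ
            (F.image Prod.snd).image Prod.snd), (|a i ν.1| * ρ1 ^ ν.1) *
            ((|b i ν.2.1| * ρ3 ^ ν.2.1) * (u ^ ν.2.2 / (ν.2.2.factorial : ℝ))) :=
          Finset.sum_le_sum_of_subset_of_nonneg hF fun ν _ _ => by positivity
      _ = (∑ m ∈ F.image Prod.fst, |a i m| * ρ1 ^ m) *
          ((∑ m ∈ (F.image Prod.snd).image Prod.fst, |b i m| * ρ3 ^ m) *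
            ∑ b ∈ (F.image Prod.snd).image Prod.snd, u ^ b / (b.factorial : ℝ)) := by
          rw [Finset.sum_mul_sum (F.image Prod.snd |>.image Prod.fst), ← Finset.sum_product',
            Finset.sum_mul_sum, ← Finset.sum_product']
      _ ≤ ((ρ1 + aa i) ^ aa i / (aa i).factorial *
            Real.exp (|(ll i : ℝ) * (Real.log α₁ / rho)| * ρ1)) *
          (((ρ3 + cc i) ^ cc i / (cc i).factorial *
            Real.exp (|(ll i : ℝ) * (Real.log α₃ / rho)| * ρ3)) * Real.exp u) := by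
          refine mul_le_mul ?_ (mul_le_mul ?_
            (sum_le_hasSum _ (fun b _ => by positivity) (LUp3_exp u))
            (Finset.sum_nonneg fun b _ => by positivity) (by positivity))
            (by positivity) (by positivity)
          · exact (hsum1.sum_le_tsum _ (fun m _ => by positivity)).trans hbd1
          · exact (hsum3.sum_le_tsum _ (fun m _ => by positivity)).trans hbd3
      _ ≤ ((3 * (B + 1)) ^ K * Real.exp (|(ll i : ℝ) * (Real.log α₁ / rho)| * ρ1)) *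
          (((3 * (B + 1)) ^ K * Real.exp (|(ll i : ℝ) * (Real.log α₃ / rho)| * ρ3)) *
            Real.exp 1) := by
          gcongr
      _ = (3 * (B + 1)) ^ (2 * K) * Real.exp ((|(ll i : ℝ) * (Real.log α₁ / rho)| * ρ1 +
          |(ll i : ℝ) * (Real.log α₃ / rho)| * ρ3) + 1) := by
          rw [Real.exp_add, Real.exp_add, two_mul, pow_add]
          ring
      _ ≤ G := by
          rw [hG]
          have hB0 : 0 ≤ (3 * (B + 1)) ^ (2 * K) := by positivity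
          exact mul_le_mul_of_nonneg_left (Real.exp_le_exp.2 (by linarith)) hB0

end Pool.Agent.NLE
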