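import Pool.Agent.NLE.LSet
import Pool.Agent.NLE.LUp3
import Pool.Agent.NLE.LLow3
import Pool.Agent.NLE.LPick

/-!
# NLE-LNon: the non-degenerate case, by three logarithms

PLAN.  `L = g^4`, `K = κ g^25`, base boxes `R1 = g^20`, `R2 = R3 = κ g^20`, `E = g^30`, `D = κ g^27`, `K^2 L = D^2`.
`pick3`: `8 L K = 8 κ g^29 < R1 R2 = κ g^40`, `< κ^2 g^40`; `8 L K R1 = 8 κ g^49 < E R3 = κ g^50`;
`32 L^2 K^2 = 32 κ^2 g^58 < κ^2 g^60`; `3 g^20 ≤ g^200 ≤ q`; `g^4 ≤ κ g^20`.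
`α₁ = y/x^k` (`a₁ = y`, `b₁ = x^k`), `α₂ = x`, `α₃ = x - 1` (`≥ 1`).
`det_lower3` (boxes `3 R1`): `H = κ g ≥ k log x`: lower bound `exp (- D^2 g^4 3 g^20 κ g)`.
`det_upper3` (boxes `3 R1, 3 R2, 3 R3`), `B = q`: `exp 1 (ρ 3 g^20 + q 3 κ g^20) ≤ 17 q κ g^20 ≤ q K`.
`X = 40 κ g^25`: `0 ≤ log α₁ ≤ log x` (`Sit.y_bd`), `q log α₁ ≤ ρ log x` (`Sit.rel`), so
`log α₁ (ρ 3R1 + q 3R2)/ρ ≤ (3R1 + 3R2) log x`, `log (x-1) (ρ 3R3 + 3R2)/ρ ≤ (3R3 + 3R2) log x`; total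
`≤ exp 1 g^4 g (3 g^20 + 9 κ g^20) ≤ 33 κ g^25`.
`hΛ`: `g^4 3 κ g^20 (2/x^n) exp (κ g^27) ≤ 1`: `n log 2 ≥ 2.7 κ g^60`.
Compare: `D^3/2 ≤ D^2 log (D^2) + D^2 (2K log (3(q+1)) + 40 κ g^25 + 1) + D^2 3 κ g^25`; divide by `D^2`:
`κ g^27/2 ≤ 2 log (κ g^27) + κ g^26/10 + 44 κ g^25`: false (`log (3(q+1)) ≤ log (50 q) ≤ g/20`,
`(D^2)! ≤ (D^2)^(D^2)`, `log (κ g^27) ≤ κ + 27 g`).
-/

namespace Pool.Agent.NLE

private theorem LNon_mul {a b c : ℕ} (h : a < b) (hc : 0 < c) : a * c < b * c :=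
  Nat.mul_lt_mul_of_pos_right h hc

private theorem LNon_pow {g : ℕ} (hg : 1000 ≤ g) {m : ℕ} (hm : m ≠ 0) : 1000 ≤ g ^ m :=
  hg.trans (Nat.le_self_pow hm g)

private theorem LNon_nat {κ g : ℕ} (hg : 1000 ≤ g) (hκ : 1 ≤ κ) :
    g ^ 4 ≤ κ * g ^ 20 ∧
    8 * g ^ 4 * (κ * g ^ 25) < g ^ 20 * (κ * g ^ 20) ∧
    8 * g ^ 4 * (κ * g ^ 25) < κ * g ^ 20 * (κ * g ^ 20) ∧
    8 * g ^ 4 * (κ * g ^ 25) * g ^ 20 < g ^ 30 * (κ * g ^ 20) ∧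
    32 * (g ^ 4) ^ 2 * (κ * g ^ 25) ^ 2 < g ^ 20 * (κ * g ^ 20) * (κ * g ^ 20) ∧
    (κ * g ^ 25) ^ 2 * g ^ 4 = (κ * g ^ 27) ^ 2 := by
  have hg0 : 0 < g := by omega
  have hc : ∀ m : ℕ, 0 < g ^ m := fun m => Nat.pow_pos hg0
  refine ⟨?_, ?_, ?_, ?_, ?_, ?_⟩
  · have h1 : g ^ 4 ≤ g ^ 20 := Nat.pow_le_pow_right hg0 (by norm_num)
    have h2 : 1 * g ^ 20 ≤ κ * g ^ 20 := Nat.mul_le_mul_right _ hκ
    omega
  · have h1 := LNon_pow hg (m := 11) (by norm_num)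
    have h2 := LNon_mul (a := 8) (b := g ^ 11) (c := κ * g ^ 29) (by omega) (Nat.mul_pos hκ (hc 29))
    calc 8 * g ^ 4 * (κ * g ^ 25) = 8 * (κ * g ^ 29) := by ring
      _ < g ^ 11 * (κ * g ^ 29) := h2
      _ = g ^ 20 * (κ * g ^ 20) := by ring
  · have h1 := LNon_pow hg (m := 11) (by norm_num)
    have h3 : 1 * g ^ 11 ≤ κ * g ^ 11 := Nat.mul_le_mul_right _ hκ
    have h2 := LNon_mul (a := 8) (b := κ * g ^ 11) (c := κ * g ^ 29) (by omega) (Nat.mul_pos hκ (hc 29))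
    calc 8 * g ^ 4 * (κ * g ^ 25) = 8 * (κ * g ^ 29) := by ring
      _ < κ * g ^ 11 * (κ * g ^ 29) := h2
      _ = κ * g ^ 20 * (κ * g ^ 20) := by ring
  · have h2 := LNon_mul (a := 8) (b := g) (c := κ * g ^ 49) (by omega) (Nat.mul_pos hκ (hc 49))
    calc 8 * g ^ 4 * (κ * g ^ 25) * g ^ 20 = 8 * (κ * g ^ 49) := by ring
      _ < g * (κ * g ^ 49) := h2
      _ = g ^ 30 * (κ * g ^ 20) := by ring
  · have h1 := LNon_pow hg (m := 2) (by norm_num)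
    have h2 := LNon_mul (a := 32) (b := g ^ 2) (c := κ ^ 2 * g ^ 58) (by omega)
      (Nat.mul_pos (Nat.pow_pos hκ) (hc 58))
    calc 32 * (g ^ 4) ^ 2 * (κ * g ^ 25) ^ 2 = 32 * (κ ^ 2 * g ^ 58) := by ring
      _ < g ^ 2 * (κ ^ 2 * g ^ 58) := h2
      _ = g ^ 20 * (κ * g ^ 20) * (κ * g ^ 20) := by ring
  · ring

private theorem LNon_B {κ g q rho : ℕ} (hg : 1000 ≤ g) (hκ : 1 ≤ κ) (hq : 1 ≤ q) (hr : rho ≤ q) :
    Real.exp 1 * ((rho : ℝ) * ((3 * g ^ 20 : ℕ) : ℝ) + q * ((3 * (κ * g ^ 20) : ℕ) : ℝ)) ≤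
      (q : ℝ) * ((κ * g ^ 25 : ℕ) : ℝ) ∧
    Real.exp 1 * ((rho : ℝ) * ((3 * (κ * g ^ 20) : ℕ) : ℝ) + ((3 * (κ * g ^ 20) : ℕ) : ℝ)) ≤
      (q : ℝ) * ((κ * g ^ 25 : ℕ) : ℝ) := by
  have he := Real.exp_one_lt_d9
  have he0 := Real.exp_pos 1
  have hgR : (1000 : ℝ) ≤ g := by exact_mod_cast hg
  have hκR : (1 : ℝ) ≤ κ := by exact_mod_cast hκ
  have hqR : (1 : ℝ) ≤ q := by exact_mod_cast hq
  have hrR : (rho : ℝ) ≤ q := by exact_mod_cast hr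
  have hr0 : (0 : ℝ) ≤ rho := Nat.cast_nonneg _
  push_cast
  set A : ℝ := (g : ℝ) ^ 20 with hA
  have hA0 : 0 < A := by positivity
  have hA5 : (g : ℝ) ^ 25 = A * (g : ℝ) ^ 5 := by rw [hA]; ring
  have h5 : (1000 : ℝ) ≤ (g : ℝ) ^ 5 := by
    calc (1000 : ℝ) ≤ g := hgR
      _ = (g : ℝ) ^ 1 := (pow_one _).symm
      _ ≤ (g : ℝ) ^ 5 := pow_le_pow_right₀ (by linarith) (by norm_num)
  have hκA : A ≤ κ * A := by nlinarith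
  have hqκA : 0 < (q : ℝ) * (κ * A) := by positivity
  have hfin : Real.exp 1 * ((q : ℝ) * (6 * (κ * A))) ≤ (q : ℝ) * (κ * (A * (g : ℝ) ^ 5)) := by
    have h1 : Real.exp 1 * 6 ≤ (g : ℝ) ^ 5 := by linarith
    calc Real.exp 1 * ((q : ℝ) * (6 * (κ * A))) = (Real.exp 1 * 6) * ((q : ℝ) * (κ * A)) := by ring
      _ ≤ (g : ℝ) ^ 5 * ((q : ℝ) * (κ * A)) := mul_le_mul_of_nonneg_right h1 hqκA.le
      _ = (q : ℝ) * (κ * (A * (g : ℝ) ^ 5)) := by ring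
  rw [hA5]
  refine ⟨?_, ?_⟩
  · refine le_trans (mul_le_mul_of_nonneg_left ?_ he0.le) hfin
    calc (rho : ℝ) * (3 * A) + q * (3 * (κ * A)) ≤ q * (3 * (κ * A)) + q * (3 * (κ * A)) := by
          gcongr
      _ = (q : ℝ) * (6 * (κ * A)) := by ring
  · refine le_trans (mul_le_mul_of_nonneg_left ?_ he0.le) hfin
    have h1 : 0 ≤ 3 * ((κ : ℝ) * A) := by positivity
    have h2 : (rho : ℝ) * (3 * (κ * A)) ≤ q * (3 * (κ * A)) := mul_le_mul_of_nonneg_right hrR h1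
    have h3 : 1 * (3 * ((κ : ℝ) * A)) ≤ q * (3 * (κ * A)) := mul_le_mul_of_nonneg_right hqR h1
    linarith

private theorem LNon_X {κ g q rho : ℕ} (hκ : 1 ≤ κ) (h1 : 1 ≤ rho)
    {l1 l2 l3 : ℝ} (hl10 : 0 ≤ l1) (hl1 : l1 ≤ l2) (hq1 : q * l1 ≤ rho * l2) (hl30 : 0 ≤ l3)
    (hl3 : l3 ≤ l2) (hl2 : l2 ≤ g) :
    Real.exp 1 * ((g ^ 4 : ℕ) : ℝ) * (|l1| * (((rho : ℝ) * ((3 * g ^ 20 : ℕ) : ℝ) +
      q * ((3 * (κ * g ^ 20) : ℕ) : ℝ)) / rho) +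
      |l3| * (((rho : ℝ) * ((3 * (κ * g ^ 20) : ℕ) : ℝ) + ((3 * (κ * g ^ 20) : ℕ) : ℝ)) / rho)) ≤
      40 * κ * g ^ 25 := by
  have he := Real.exp_one_lt_d9
  have he0 := Real.exp_pos 1
  have hκR : (1 : ℝ) ≤ κ := by exact_mod_cast hκ
  have hrR : (1 : ℝ) ≤ rho := by exact_mod_cast h1
  have hr0 : (0 : ℝ) < rho := by linarith
  have hg0 : (0 : ℝ) ≤ g := Nat.cast_nonneg _
  rw [abs_of_nonneg hl10, abs_of_nonneg hl30]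
  push_cast
  set A : ℝ := (g : ℝ) ^ 20 with hA
  have hA0 : 0 ≤ A := by positivity
  have hκA : A ≤ κ * A := by nlinarith
  have hκA0 : 0 ≤ κ * A := by positivity
  have e1 : l1 * (((rho : ℝ) * (3 * A) + q * (3 * (κ * A))) / rho) ≤ l2 * (6 * (κ * A)) := by
    rw [mul_div_assoc', div_le_iff₀ hr0]
    have h3 : l1 * (rho * (3 * A)) ≤ l2 * (rho * (3 * (κ * A))) :=
      mul_le_mul hl1 (by gcongr) (by positivity) (by linarith)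
    have h4 : q * l1 * (3 * (κ * A)) ≤ rho * l2 * (3 * (κ * A)) :=
      mul_le_mul_of_nonneg_right hq1 (by positivity)
    nlinarith
  have e2 : l3 * (((rho : ℝ) * (3 * (κ * A)) + 3 * (κ * A)) / rho) ≤ l2 * (6 * (κ * A)) := by
    refine mul_le_mul hl3 ?_ (by positivity) (by linarith)
    rw [div_le_iff₀ hr0]
    have h3 : 0 ≤ 3 * ((κ : ℝ) * A) := by positivity
    nlinarith
  have e3 : l2 * (6 * (κ * A)) ≤ g * (6 * (κ * A)) := mul_le_mul_of_nonneg_right hl2 (by positivity)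
  have hAg : (g : ℝ) ^ 25 = A * (g : ℝ) ^ 4 * g := by rw [hA]; ring
  have h0 : 0 ≤ (g : ℝ) ^ 4 := by positivity
  calc Real.exp 1 * (g : ℝ) ^ 4 * (l1 * (((rho : ℝ) * (3 * A) + q * (3 * (κ * A))) / rho) +
        l3 * (((rho : ℝ) * (3 * (κ * A)) + 3 * (κ * A)) / rho))
      ≤ Real.exp 1 * (g : ℝ) ^ 4 * (g * (6 * (κ * A)) + g * (6 * (κ * A))) := by
        refine mul_le_mul_of_nonneg_left ?_ (by positivity)
        linarith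
    _ = (Real.exp 1 * 12) * (κ * (A * (g : ℝ) ^ 4 * g)) := by ring
    _ ≤ 40 * (κ * (A * (g : ℝ) ^ 4 * g)) := by
        refine mul_le_mul_of_nonneg_right ?_ (by positivity)
        linarith
    _ = 40 * κ * g ^ 25 := by rw [hAg]; ring

private theorem LNon_Lam {κ g n x : ℕ} (hg : 1000 ≤ g) (hκ : 1 ≤ κ) (hx : 2 ≤ x)
    (hbig : 4 * κ * g ^ 60 ≤ n) {Λ : ℝ} (h0 : 0 ≤ Λ) (hΛ : Λ ≤ 2 / (x : ℝ) ^ n) :
    ((g ^ 4 : ℕ) : ℝ) * ((3 * (κ * g ^ 20) : ℕ) : ℝ) * |Λ| * Real.exp ((κ * g ^ 27 : ℕ) : ℝ) ≤ 1 := by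
  have hgR : (1000 : ℝ) ≤ g := by exact_mod_cast hg
  have hκR : (1 : ℝ) ≤ κ := by exact_mod_cast hκ
  have hxR : (2 : ℝ) ≤ x := by exact_mod_cast hx
  have hnR : 4 * κ * (g : ℝ) ^ 60 ≤ n := by exact_mod_cast hbig
  rw [abs_of_nonneg h0]
  push_cast
  have h2 : Real.exp (n / 2) ≤ (x : ℝ) ^ n := by
    have h3 : (2 : ℝ) ^ n ≤ (x : ℝ) ^ n := pow_le_pow_left₀ (by norm_num) hxR n
    refine le_trans ?_ h3
    have h4 : (2 : ℝ) ^ n = Real.exp (n * Real.log 2) := by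
      rw [Real.exp_nat_mul, Real.exp_log (by norm_num)]
    rw [h4]
    refine Real.exp_le_exp.2 ?_
    have h5 := Real.log_two_gt_d9
    have h6 : (0 : ℝ) ≤ n := Nat.cast_nonneg _
    nlinarith
  have h3 : Λ ≤ 2 * Real.exp (-(n / 2)) := by
    refine hΛ.trans ?_
    rw [Real.exp_neg, ← div_eq_mul_inv]
    exact div_le_div_of_nonneg_left (by norm_num) (Real.exp_pos _) h2
  have h4 : 6 * (κ * (g : ℝ) ^ 24) ≤ Real.exp (6 * (κ * (g : ℝ) ^ 24)) := by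
    have h5 := Real.add_one_le_exp (6 * (κ * (g : ℝ) ^ 24))
    linarith
  have h6 : (g : ℝ) ^ 4 * (3 * (κ * (g : ℝ) ^ 20)) * Λ * Real.exp (κ * (g : ℝ) ^ 27) ≤
      (g : ℝ) ^ 4 * (3 * (κ * (g : ℝ) ^ 20)) * (2 * Real.exp (-(n / 2))) *
        Real.exp (κ * (g : ℝ) ^ 27) := by
    gcongr
  refine h6.trans ?_
  have h7 : (g : ℝ) ^ 4 * (3 * (κ * (g : ℝ) ^ 20)) * (2 * Real.exp (-(n / 2))) *
        Real.exp (κ * (g : ℝ) ^ 27) =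
      6 * (κ * (g : ℝ) ^ 24) * (Real.exp (-(n / 2)) * Real.exp (κ * (g : ℝ) ^ 27)) := by ring
  rw [h7]
  have h8 : 6 * (κ * (g : ℝ) ^ 24) * (Real.exp (-(n / 2)) * Real.exp (κ * (g : ℝ) ^ 27)) ≤
      Real.exp (6 * (κ * (g : ℝ) ^ 24)) * (Real.exp (-(n / 2)) * Real.exp (κ * (g : ℝ) ^ 27)) :=
    mul_le_mul_of_nonneg_right h4 (by positivity)
  refine h8.trans ?_
  rw [← Real.exp_add, ← Real.exp_add, Real.exp_le_one_iff]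
  have hp : ∀ m : ℕ, m ≤ 60 → κ * (g : ℝ) ^ m ≤ κ * (g : ℝ) ^ 60 := fun m hm =>
    mul_le_mul_of_nonneg_left (pow_le_pow_right₀ (by linarith) hm) (by linarith)
  have h9 : 1000 * (κ * (g : ℝ) ^ 27) ≤ κ * (g : ℝ) ^ 60 := by
    have h10 := hp 28 (by norm_num)
    have h11 : κ * (g : ℝ) ^ 28 = g * (κ * (g : ℝ) ^ 27) := by ring
    have h12 : 1000 * (κ * (g : ℝ) ^ 27) ≤ g * (κ * (g : ℝ) ^ 27) :=
      mul_le_mul_of_nonneg_right hgR (by positivity)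
    linarith
  have h13 : κ * (g : ℝ) ^ 24 ≤ κ * (g : ℝ) ^ 27 :=
    mul_le_mul_of_nonneg_left (pow_le_pow_right₀ (by linarith) (by norm_num)) (by linarith)
  have h14 : 0 ≤ κ * (g : ℝ) ^ 27 := by positivity
  linarith

private theorem LNon_fac (N : ℕ) : ((N.factorial : ℕ) : ℝ) ≤ Real.exp (N * Real.log N) := by
  rcases Nat.eq_zero_or_pos N with h | h
  · subst h
    simp
  · have h1 : ((N.factorial : ℕ) : ℝ) ≤ (N : ℝ) ^ N := by exact_mod_cast Nat.factorial_le_pow N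
    have h2 : (0 : ℝ) < N := by exact_mod_cast h
    have h3 : (N : ℝ) ^ N = Real.exp (N * Real.log N) := by
      rw [Real.exp_nat_mul, Real.exp_log h2]
    rw [← h3]
    exact h1

private theorem LNon_cmp {κ g q D K : ℕ} (hg : 1000 ≤ g) (hκ : 1 ≤ κ) (hq : 1 ≤ q)
    (hlq : 20 * Real.log (50 * q) ≤ g) (hD : D = κ * g ^ 27) (hK : K = κ * g ^ 25) {t H : ℝ}
    (hH : H = 3 * κ * (g : ℝ) ^ 25)
    (hlow : Real.exp (-(((D ^ 2 : ℕ) : ℝ) * H)) ≤ t)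
    (hup : t ≤ (((D ^ 2).factorial : ℕ) : ℝ) * Real.exp (-((D : ℝ) ^ 3 / 2)) *
        ((3 * ((q : ℝ) + 1)) ^ (2 * K) * Real.exp (40 * κ * g ^ 25 + 1)) ^ (D ^ 2)) : False := by
  have hgR : (1000 : ℝ) ≤ g := by exact_mod_cast hg
  have hκR : (1 : ℝ) ≤ κ := by exact_mod_cast hκ
  have hqR : (1 : ℝ) ≤ q := by exact_mod_cast hq
  have hDR : (D : ℝ) = κ * (g : ℝ) ^ 27 := by rw [hD]; push_cast; ring
  have hKR : (K : ℝ) = κ * (g : ℝ) ^ 25 := by rw [hK]; push_cast; ring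
  have hD0 : (0 : ℝ) < D := by rw [hDR]; positivity
  have hq3 : (0 : ℝ) < 3 * ((q : ℝ) + 1) := by positivity
  have hlq3 : Real.log (3 * ((q : ℝ) + 1)) ≤ g / 20 := by
    have h1 : Real.log (3 * ((q : ℝ) + 1)) ≤ Real.log (50 * q) := by
      apply Real.log_le_log hq3
      linarith
    linarith
  have hfac := LNon_fac (D ^ 2)
  have hpow : ((3 * ((q : ℝ) + 1)) ^ (2 * K) * Real.exp (40 * κ * g ^ 25 + 1)) ^ (D ^ 2) =
      Real.exp (((D ^ 2 : ℕ) : ℝ) * (((2 * K : ℕ) : ℝ) * Real.log (3 * ((q : ℝ) + 1)) +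
        (40 * κ * g ^ 25 + 1))) := by
    rw [Real.exp_nat_mul _ (D ^ 2), Real.exp_add (((2 * K : ℕ) : ℝ) * _), Real.exp_nat_mul _ (2 * K),
      Real.exp_log hq3]
  have h1 : t ≤ Real.exp (((D ^ 2 : ℕ) : ℝ) * Real.log ((D ^ 2 : ℕ) : ℝ) + -((D : ℝ) ^ 3 / 2) +
      ((D ^ 2 : ℕ) : ℝ) * (((2 * K : ℕ) : ℝ) * Real.log (3 * ((q : ℝ) + 1)) +
        (40 * κ * g ^ 25 + 1))) := by
    rw [Real.exp_add, Real.exp_add, ← hpow]
    refine hup.trans ?_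
    gcongr
  have h2 := Real.exp_le_exp.1 (hlow.trans h1)
  have hD2 : ((D ^ 2 : ℕ) : ℝ) = (D : ℝ) ^ 2 := by push_cast; ring
  rw [hD2, Real.log_pow, hH] at h2
  have h3 : (D : ℝ) / 2 ≤ 2 * Real.log D + (((2 * K : ℕ) : ℝ) * Real.log (3 * ((q : ℝ) + 1)) +
        (40 * κ * g ^ 25 + 1)) + 3 * κ * (g : ℝ) ^ 25 := by
    have h4 : (0 : ℝ) < (D : ℝ) ^ 2 := by positivity
    have h5 : (D : ℝ) ^ 2 * ((D : ℝ) / 2) ≤ (D : ℝ) ^ 2 * (2 * Real.log D +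
        (((2 * K : ℕ) : ℝ) * Real.log (3 * ((q : ℝ) + 1)) +
        (40 * κ * g ^ 25 + 1)) + 3 * κ * (g : ℝ) ^ 25) := by
      push_cast at h2 ⊢
      nlinarith
    exact le_of_mul_le_mul_left h5 h4
  have hK0 : (0 : ℝ) ≤ ((2 * K : ℕ) : ℝ) := Nat.cast_nonneg _
  have h6 : ((2 * K : ℕ) : ℝ) * Real.log (3 * ((q : ℝ) + 1)) ≤ ((2 * K : ℕ) : ℝ) * (g / 20) :=
    mul_le_mul_of_nonneg_left hlq3 hK0
  have h7 : ((2 * K : ℕ) : ℝ) * (g / 20) = κ * (g : ℝ) ^ 26 / 10 := by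
    push_cast
    rw [hKR]
    ring
  have h8 : Real.log D ≤ κ + 27 * g := by
    rw [hDR, Real.log_mul (by positivity) (by positivity), Real.log_pow]
    have h9 : Real.log (κ : ℝ) ≤ κ := (Real.log_le_sub_one_of_pos (by linarith)).trans (by linarith)
    have h10 : Real.log (g : ℝ) ≤ g := (Real.log_le_sub_one_of_pos (by linarith)).trans (by linarith)
    push_cast
    linarith
  have hp : ∀ m : ℕ, 1 ≤ m → κ * (g : ℝ) ≤ κ * (g : ℝ) ^ m := fun m hm =>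
    mul_le_mul_of_nonneg_left (by
      calc (g : ℝ) = (g : ℝ) ^ 1 := (pow_one _).symm
        _ ≤ (g : ℝ) ^ m := pow_le_pow_right₀ (by linarith) hm) (by linarith)
  have h11 := hp 25 (by norm_num)
  have h12 : (g : ℝ) ≤ κ * g := by nlinarith
  have h13 : (κ : ℝ) ≤ κ * g := by nlinarith
  have h14 : κ * (g : ℝ) ^ 26 = g * (κ * (g : ℝ) ^ 25) := by ring
  have h15 : κ * (g : ℝ) ^ 27 = g * (κ * (g : ℝ) ^ 26) := by ring
  have h16 : 0 < κ * (g : ℝ) ^ 25 := by positivity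
  have h17 : 1000 * (κ * (g : ℝ) ^ 25) ≤ κ * (g : ℝ) ^ 26 := by
    rw [h14]
    exact mul_le_mul_of_nonneg_right hgR h16.le
  have h18 : 1000 * (κ * (g : ℝ) ^ 26) ≤ κ * (g : ℝ) ^ 27 := by
    rw [h15]
    exact mul_le_mul_of_nonneg_right hgR (by positivity)
  have h19 : 40 * κ * (g : ℝ) ^ 25 = 40 * (κ * (g : ℝ) ^ 25) := by ring
  have h20 : 3 * κ * (g : ℝ) ^ 25 = 3 * (κ * (g : ℝ) ^ 25) := by ring
  rw [hDR, h19, h20] at h3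
  rw [hDR] at h8
  linarith

theorem part_non {q n x y k rho κ g : ℕ} (S : Sit q n x y k rho κ g)
    (h : ∀ b : ℕ, ∀ a : ℤ, 1 ≤ b → b < g ^ 20 → (g : ℤ) ^ 30 ≤ |(b : ℤ) * rho - a * q|) : False := by
  have hg := S.hg
  have hκ : 1 ≤ κ := by rw [S.hκ]; exact le_max_right _ _
  have hkκ : k ≤ κ := by rw [S.hκ]; exact le_max_left _ _
  have hx := S.hx
  have hg0 : 0 < g := by omega
  have hc : ∀ m : ℕ, 0 < g ^ m := fun m => Nat.pow_pos hg0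
  have hq3 : 3 * g ^ 20 ≤ q := by
    have h1 : g ^ 21 ≤ g ^ 200 := Nat.pow_le_pow_right hg0 (by norm_num)
    have h2 : 3 * g ^ 20 ≤ g * g ^ 20 := Nat.mul_le_mul_right _ (by omega)
    have h3 : g * g ^ 20 = g ^ 21 := by ring
    have h4 := S.hgq
    omega
  have hq1 : 1 ≤ q := by
    have := hc 20
    omega
  have hxR : (2 : ℝ) ≤ x := by exact_mod_cast hx
  have hx1N : 1 ≤ x - 1 := by omega
  have hx1 : (1 : ℝ) ≤ ((x - 1 : ℕ) : ℝ) := by exact_mod_cast hx1N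
  have hx1x : ((x - 1 : ℕ) : ℝ) ≤ x := by exact_mod_cast Nat.sub_le x 1
  obtain ⟨hy1, hrel0, hrel1⟩ := S.rel
  obtain ⟨hy2, hy3, -⟩ := S.y_bd
  have hyR : (0 : ℝ) < y := by exact_mod_cast hy1
  have hxk : (0 : ℝ) < ((x ^ k : ℕ) : ℝ) := by
    have : 0 < x ^ k := Nat.pow_pos (by omega)
    exact_mod_cast this
  have hα1 : (0 : ℝ) < (y : ℝ) / ((x ^ k : ℕ) : ℝ) := div_pos hyR hxk
  obtain ⟨n1, n2, n3, n4, n5, n6⟩ := LNon_nat hg hκ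
  obtain ⟨aa, cc, ll, rr, ss, tt, ha, hcc, hl, hr, hs, ht, hdet⟩ :=
    pick3 (q := q) (rho := rho) (R1 := g ^ 20) (R2 := κ * g ^ 20) (R3 := κ * g ^ 20)
      (K := κ * g ^ 25) (L := g ^ 4) (E := g ^ 30) (D := κ * g ^ 27)
      (α₁ := (y : ℝ) / ((x ^ k : ℕ) : ℝ)) (α₂ := (x : ℝ)) (α₃ := ((x - 1 : ℕ) : ℝ))
      hα1 (by linarith) (by linarith) S.h1 S.h2 (hc 20) (Nat.mul_pos hκ (hc 20))
      (Nat.mul_pos hκ (hc 20)) (Nat.mul_pos hκ (hc 25)) (hc 4) hq3 n1 n2 n2 n3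
      (by
        intro b a hb1 hb2
        have h1 := h b a hb1 hb2
        push_cast
        exact h1) n4 n5 n6
  have hlx0 : 0 ≤ Real.log x := Real.log_nonneg (by linarith)
  have hl1 : 0 ≤ Real.log ((y : ℝ) / ((x ^ k : ℕ) : ℝ)) := by
    apply Real.log_nonneg
    rw [one_le_div hxk]
    exact_mod_cast hy2.le
  have hl1x : Real.log ((y : ℝ) / ((x ^ k : ℕ) : ℝ)) ≤ Real.log x := by
    apply Real.log_le_log hα1
    rw [div_le_iff₀ hxk]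
    have h1 : y ≤ x * x ^ k := by
      rw [pow_succ, mul_comm] at hy3
      exact hy3.le
    exact_mod_cast h1
  have hl3 : 0 ≤ Real.log ((x - 1 : ℕ) : ℝ) := Real.log_nonneg hx1
  have hl3x : Real.log ((x - 1 : ℕ) : ℝ) ≤ Real.log x := Real.log_le_log (by linarith) hx1x
  have hH : Real.log ((x ^ k : ℕ) : ℝ) ≤ (κ : ℝ) * g := by
    rw [Nat.cast_pow, Real.log_pow]
    have h1 : (k : ℝ) ≤ κ := by exact_mod_cast hkκ
    exact mul_le_mul h1 S.hlx hlx0 (Nat.cast_nonneg _)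
  have hlow := det_lower3 ((κ * g ^ 27) ^ 2) (g ^ 4) (3 * g ^ 20) q rho aa cc ll rr ss tt hl hr
    y (x ^ k) x (x - 1) (Nat.pow_pos (by omega)) ((κ : ℝ) * g) hH hdet
  obtain ⟨hB1, hB3⟩ := LNon_B (rho := rho) hg hκ hq1 S.h2
  have hD2 : 2 ≤ κ * g ^ 27 := by
    have h1 := LNon_pow hg (m := 27) (by norm_num)
    have h2 : 1 * g ^ 27 ≤ κ * g ^ 27 := Nat.mul_le_mul_right _ hκ
    omega
  have hup := det_upper3 (κ * g ^ 27) (κ * g ^ 25) (g ^ 4) (3 * g ^ 20) (3 * (κ * g ^ 20))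
    (3 * (κ * g ^ 20)) q rho hD2 (Nat.mul_pos hκ (hc 25)) S.h1 aa cc ll rr ss tt ha hcc hl hr hs ht
    ((y : ℝ) / ((x ^ k : ℕ) : ℝ)) (x : ℝ) ((x - 1 : ℕ) : ℝ) hα1 (by linarith) (by linarith)
    (q : ℝ) (40 * κ * g ^ 25) (by exact_mod_cast hq1) hB1 hB3
    (LNon_X hκ S.h1 hl1 hl1x (by linarith) hl3 hl3x S.hlx)
    (LNon_Lam hg hκ hx S.hbig hrel0 hrel1)
  refine LNon_cmp (κ := κ) (g := g) (q := q) (D := κ * g ^ 27) (K := κ * g ^ 25)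
    (H := ((g ^ 4 : ℕ) : ℝ) * (((3 * g ^ 20 : ℕ) : ℝ) * ((κ : ℝ) * g))) hg hκ hq1 S.hlq rfl rfl ?_
    hlow hup
  push_cast
  ring

end Pool.Agent.NLE
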