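import Pool.Agent.NLE.LSet

/-!
# NLE-LPar: choice of the parameter `g`

`g` is the integer part of `q^(1/200)`, so that `log q` is at most `200 log (g + 1)`, which is `o(g)`;
`k = (n - 1) / q`, `ρ = n - q k`.
-/

namespace Pool.Agent.NLE

private theorem lpar_g0 (C : ℕ) : ∃ g0 : ℕ, 1000 ≤ g0 ∧ ∀ g : ℕ, g0 ≤ g →
    (200 * C + 4020 : ℝ) * Real.log (g + 1) ≤ g := by
  have hA : (0 : ℝ) < 200 * C + 4020 := by positivity
  have h := Real.isLittleO_log_id_atTop.bound (c := 1 / (2 * (200 * C + 4020 : ℝ)))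
    (by positivity)
  obtain ⟨a, ha⟩ := Filter.eventually_atTop.1 h
  refine ⟨⌈a⌉₊ + 1000, by omega, fun g hg => ?_⟩
  have h1 : (⌈a⌉₊ : ℝ) + 1000 ≤ g := by exact_mod_cast hg
  have h2 : a ≤ ⌈a⌉₊ := Nat.le_ceil a
  have h3 := ha (g + 1) (by linarith)
  have h4 : (0 : ℝ) ≤ ⌈a⌉₊ := Nat.cast_nonneg _
  have h5 : Real.log (g + 1) ≤ 1 / (2 * (200 * C + 4020 : ℝ)) * (g + 1) := by
    refine (le_abs_self _).trans ?_
    have h6 : ‖(id ((g : ℝ) + 1) : ℝ)‖ = g + 1 := by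
      rw [id, Real.norm_eq_abs, abs_of_nonneg (by linarith)]
    rw [h6, Real.norm_eq_abs] at h3
    exact h3
  calc (200 * C + 4020 : ℝ) * Real.log (g + 1)
      ≤ (200 * C + 4020) * (1 / (2 * (200 * C + 4020 : ℝ)) * (g + 1)) :=
        mul_le_mul_of_nonneg_left h5 hA.le
    _ = (g + 1) / 2 := by field_simp
    _ ≤ g := by linarith

private theorem lpar_find (q : ℕ) : ∃ g : ℕ, g ^ 200 ≤ q ∧ q < (g + 1) ^ 200 ∧
    ∀ m, m ^ 200 ≤ q → m ≤ g := by
  refine ⟨Nat.findGreatest (fun g => g ^ 200 ≤ q) q, ?_, ?_, ?_⟩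
  · exact Nat.findGreatest_spec (P := fun g => g ^ 200 ≤ q) (m := 0) (Nat.zero_le _)
      (by rw [zero_pow (by norm_num)]; exact Nat.zero_le _)
  · by_contra hc
    push Not at hc
    have h1 : Nat.findGreatest (fun g => g ^ 200 ≤ q) q + 1 ≤ q :=
      (Nat.le_self_pow (by norm_num) _).trans hc
    exact Nat.findGreatest_is_greatest (P := fun g => g ^ 200 ≤ q) (Nat.lt_succ_self _) h1 hc
  · intro m hm
    exact Nat.le_findGreatest ((Nat.le_self_pow (by norm_num) _).trans hm) hm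

private theorem lpar_big {q n g : ℕ} (hg : 1000 ≤ g) (hgq : g ^ 200 ≤ q) (hq : q ≤ 4 * n ^ 2)
    (hk : q * ((n - 1) / q) ≤ n) : 4 * max ((n - 1) / q) 1 * g ^ 60 ≤ n := by
  have h60 : 1 ≤ g ^ 60 := Nat.one_le_pow _ _ (by omega)
  have h80 : 64 < g ^ 80 := by
    have h1 : g ^ 1 ≤ g ^ 80 := Nat.pow_le_pow_right (by omega) (by norm_num)
    rw [pow_one] at h1
    omega
  have h140 : 4 ≤ g ^ 140 := by
    have h1 : g ^ 1 ≤ g ^ 140 := Nat.pow_le_pow_right (by omega) (by norm_num)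
    rw [pow_one] at h1
    omega
  rcases Nat.eq_zero_or_pos ((n - 1) / q) with h | h
  · rw [h, Nat.zero_max, mul_one]
    by_contra hc
    push Not at hc
    have h1 : n ^ 2 ≤ (4 * g ^ 60) ^ 2 := Nat.pow_le_pow_left hc.le 2
    have h2 : (4 * g ^ 60) ^ 2 = 16 * g ^ 120 := by ring
    have h3 : g ^ 200 = g ^ 80 * g ^ 120 := by rw [← pow_add]
    have h4 : 1 ≤ g ^ 120 := Nat.one_le_pow _ _ (by omega)
    have h5 : g ^ 80 * g ^ 120 ≤ 64 * g ^ 120 := by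
      rw [← h3]
      calc g ^ 200 ≤ q := hgq
        _ ≤ 4 * n ^ 2 := hq
        _ ≤ 4 * (4 * g ^ 60) ^ 2 := Nat.mul_le_mul_left 4 h1
        _ = 64 * g ^ 120 := by ring
    have h6 : 64 * g ^ 120 < g ^ 80 * g ^ 120 := Nat.mul_lt_mul_of_pos_right h80 h4
    omega
  · rw [max_eq_left h]
    calc 4 * ((n - 1) / q) * g ^ 60 = 4 * g ^ 60 * ((n - 1) / q) := by ring
      _ ≤ g ^ 140 * g ^ 60 * ((n - 1) / q) :=
        Nat.mul_le_mul_right _ (Nat.mul_le_mul_right _ h140)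
      _ = g ^ 200 * ((n - 1) / q) := by rw [← pow_add]
      _ ≤ q * ((n - 1) / q) := Nat.mul_le_mul_right _ hgq
      _ ≤ n := hk

theorem exists_sit (C : ℕ) : ∃ q0 : ℕ, ∀ q n x y : ℕ, q0 ≤ q → 2 ≤ x → x ≤ q ^ C → q ≤ 4 * n ^ 2 →
    y ^ q * (x - 1) = x ^ n - 1 → ∃ k rho κ g : ℕ, Sit q n x y k rho κ g := by
  obtain ⟨g0, hg0, hg⟩ := lpar_g0 C
  refine ⟨g0 ^ 200, fun q n x y hq hx hxq hqn heq => ?_⟩
  obtain ⟨g, h1, h2, h3⟩ := lpar_find q
  have h4 : g0 ≤ g := h3 g0 hq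
  have h5 := hg g h4
  have h6 : 1000 ≤ g := hg0.trans h4
  have hq1 : 1 ≤ q := (Nat.one_le_pow _ _ (by omega)).trans h1
  have hn1 : 1 ≤ n := by
    rcases Nat.eq_zero_or_pos n with h | h
    · rw [h] at hqn
      omega
    · exact h
  have hdm := Nat.div_add_mod (n - 1) q
  have hml := Nat.mod_lt (n - 1) hq1
  have hqR : (0 : ℝ) < q := by exact_mod_cast hq1
  have hg1 : (1000 : ℝ) ≤ g := by exact_mod_cast h6
  have hl0 : 0 ≤ Real.log ((g : ℝ) + 1) := Real.log_nonneg (by linarith)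
  have hlog : Real.log q ≤ 200 * Real.log (g + 1) := by
    have h7 : (q : ℝ) ≤ ((g : ℝ) + 1) ^ 200 := by exact_mod_cast h2.le
    have h8 := Real.log_le_log hqR h7
    rw [Real.log_pow] at h8
    exact_mod_cast h8
  have hC0 : (0 : ℝ) ≤ C := Nat.cast_nonneg _
  refine ⟨(n - 1) / q, (n - 1) % q + 1, max ((n - 1) / q) 1, g, ?_⟩
  refine ⟨h6, h1, hx, ?_, ?_, by omega, by omega, by omega, rfl, ?_, heq⟩
  · have h7 : (x : ℝ) ≤ (q : ℝ) ^ C := by exact_mod_cast hxq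
    have h8 := Real.log_le_log (by exact_mod_cast (by omega : 0 < x)) h7
    rw [Real.log_pow] at h8
    have h9 : (C : ℝ) * Real.log q ≤ C * (200 * Real.log (g + 1)) :=
      mul_le_mul_of_nonneg_left hlog hC0
    have h10 : (200 * C + 4020 : ℝ) * Real.log (g + 1) =
      C * (200 * Real.log (g + 1)) + 4020 * Real.log (g + 1) := by ring
    linarith
  · have h7 : Real.log (50 * q) = Real.log 50 + Real.log q :=
      Real.log_mul (by norm_num) hqR.ne'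
    have h8 : Real.log 50 ≤ Real.log (g + 1) := Real.log_le_log (by norm_num) (by linarith)
    have h9 : 0 ≤ (C : ℝ) * Real.log (g + 1) := mul_nonneg hC0 hl0
    have h10 : (200 * C + 4020 : ℝ) * Real.log (g + 1) =
      200 * (C * Real.log (g + 1)) + 4020 * Real.log (g + 1) := by ring
    rw [h7]
    linarith
  · exact lpar_big h6 h1 hqn (by omega)

end Pool.Agent.NLE
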