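import Pool.Agent.NLE.LDeg
import Pool.Agent.NLE.LNon
import Pool.Agent.NLE.LPar

/-!
# NLE-LFin: PART L, the exponent is bounded if the base is at most a power of it
-/

namespace Pool.Agent.NLE

theorem partL (C : ℕ) : ∃ q0 : ℕ, ∀ q n x y : ℕ, q0 ≤ q → 2 ≤ x → x ≤ q ^ C → q ≤ 4 * n ^ 2 →
    y ^ q * (x - 1) ≠ x ^ n - 1 := by
  obtain ⟨q0, h⟩ := exists_sit C
  refine ⟨q0, fun q n x y hq hx hxq hn heq => ?_⟩
  obtain ⟨k, rho, κ, g, S⟩ := h q n x y hq hx hxq hn heq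
  by_cases hd : ∃ b : ℕ, ∃ a : ℤ, 1 ≤ b ∧ b < g ^ 20 ∧ |(b : ℤ) * rho - a * q| < (g : ℤ) ^ 30
  · obtain ⟨b, a, h1, h2, h3⟩ := hd
    exact part_deg S h1 h2 h3
  · refine part_non S fun b a h1 h2 => ?_
    by_contra h3
    exact hd ⟨b, a, h1, h2, not_le.1 h3⟩

end Pool.Agent.NLE
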