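import Pool.Agent.GTT.Maj

/-!
# NLE-LMaj: power series of `z ↦ C(z,k) exp(ω z)`, sharper majorant

PLAN.  `maj2`: exactly the proof of `GTT.maj` (Pool/Agent/GTT/Maj.lean), but keep the denominator `k + 1` in the
induction step instead of discarding it: bound `(∏_{i<k} (ρ + i)) / k! ≤ (ρ + k)^k / k!`.
`maj2_num`: `(ρ+k)^k/k! ≤ (ρ+K)^k/k! = ((ρ+K)/K)^k * (K^k/k!) ≤ ((ρ+K)/K)^K * e^K ≤ ((B+1) e)^K`
(`K^k/k! ≤ exp K`: `Real.pow_div_factorial_le_exp`; `(ρ+K)/K ≥ 1`).
-/

namespace Pool.Agent.NLE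

private theorem lmaj_shift {a : ℕ → ℝ} {x s : ℝ} (h : HasSum (fun m => a m * x ^ m) s) :
    HasSum (fun m => (if m = 0 then 0 else a (m - 1)) * x ^ m) (x * s) := by
  have h1 : HasSum (fun m => (if m + 1 = 0 then 0 else a (m + 1 - 1)) * x ^ (m + 1)) (x * s) := by
    refine (h.mul_left x).congr_fun fun m => ?_
    rw [if_neg (Nat.succ_ne_zero m), Nat.add_sub_cancel, pow_succ]
    ring
  have h2 := HasSum.zero_add (f := fun m => (if m = 0 then 0 else a (m - 1)) * x ^ m) h1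
  rw [if_pos rfl, zero_mul, zero_add] at h2
  exact h2

private theorem lmaj_choose (z k : ℕ) :
    ((z.choose (k + 1) : ℕ) : ℝ) = ((z : ℝ) - k) * ((z.choose k : ℕ) : ℝ) / (k + 1) := by
  have h1 := Nat.choose_succ_right_eq z k
  rw [eq_div_iff (by positivity)]
  rcases le_total k z with h | h
  · have h2 : ((z.choose (k + 1) : ℕ) : ℝ) * ((k + 1 : ℕ) : ℝ) = ((z.choose k : ℕ) : ℝ) * ((z - k : ℕ) : ℝ) := by
      exact_mod_cast h1
    rw [Nat.cast_sub h] at h2
    push_cast at h2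
    rw [h2]
    ring
  · rcases eq_or_lt_of_le h with h' | h'
    · subst h'
      rw [Nat.choose_succ_self]
      simp
    · rw [Nat.choose_eq_zero_of_lt h', Nat.choose_eq_zero_of_lt (by omega)]
      simp

private theorem lmaj_zero (x : ℝ) (ω : ℝ) :
    HasSum (fun m : ℕ => ω ^ m / (m.factorial : ℝ) * x ^ m) (Real.exp (ω * x)) := by
  have h := NormedSpace.expSeries_div_hasSum_exp (ω * x)
  rw [← Real.exp_eq_exp_ℝ] at h
  refine h.congr_fun fun m => ?_
  rw [mul_pow]
  ring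

theorem maj2 (k : ℕ) (ω : ℝ) : ∃ a : ℕ → ℝ,
    (∀ z : ℕ, HasSum (fun m => a m * (z : ℝ) ^ m) (((z.choose k : ℕ) : ℝ) * Real.exp (ω * z))) ∧
    ∀ ρ : ℝ, 0 ≤ ρ → Summable (fun m => |a m| * ρ ^ m) ∧
      ∑' m, |a m| * ρ ^ m ≤ (ρ + k) ^ k / k.factorial * Real.exp (|ω| * ρ) := by
  induction k with
  | zero =>
    refine ⟨fun m => ω ^ m / (m.factorial : ℝ), fun z => ?_, fun ρ hρ => ?_⟩
    · rw [Nat.choose_zero_right, Nat.cast_one, one_mul]
      exact lmaj_zero z ω
    · have h1 : (fun m : ℕ => |ω ^ m / (m.factorial : ℝ)| * ρ ^ m) =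
          fun m : ℕ => |ω| ^ m / (m.factorial : ℝ) * ρ ^ m := by
        funext m
        rw [abs_div, abs_pow, abs_of_nonneg (show (0 : ℝ) ≤ (m.factorial : ℝ) from Nat.cast_nonneg _)]
      have h2 := lmaj_zero ρ |ω|
      rw [h1]
      refine ⟨h2.summable, ?_⟩
      rw [h2.tsum_eq, pow_zero, Nat.factorial_zero, Nat.cast_one, div_one, one_mul]
  | succ k ih =>
    obtain ⟨a, ha, hρ⟩ := ih
    refine ⟨fun m => ((if m = 0 then 0 else a (m - 1)) - k * a m) / (k + 1), fun z => ?_, fun ρ h0 => ?_⟩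
    · have h1 := ((lmaj_shift (ha z)).sub ((ha z).mul_left (k : ℝ))).div_const ((k : ℝ) + 1)
      rw [lmaj_choose]
      have h2 : (((z : ℝ) * (((z.choose k : ℕ) : ℝ) * Real.exp (ω * z)) -
          (k : ℝ) * (((z.choose k : ℕ) : ℝ) * Real.exp (ω * z))) / ((k : ℝ) + 1)) =
          ((z : ℝ) - k) * ((z.choose k : ℕ) : ℝ) / (k + 1) * Real.exp (ω * z) := by ring
      rw [h2] at h1
      refine h1.congr_fun fun m => ?_
      ring
    · obtain ⟨hs, ht⟩ := hρ ρ h0
      have hk1 : (0 : ℝ) < (k : ℝ) + 1 := by positivity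
      have hs0 : 0 ≤ ∑' m, |a m| * ρ ^ m := tsum_nonneg fun m => by positivity
      have h1 := lmaj_shift hs.hasSum
      have h2 := (h1.add (hs.hasSum.mul_left (k : ℝ))).div_const ((k : ℝ) + 1)
      have h3 : ∀ m : ℕ, |((if m = 0 then 0 else a (m - 1)) - k * a m) / (k + 1)| * ρ ^ m ≤
          ((if m = 0 then 0 else |a (m - 1)|) * ρ ^ m + k * (|a m| * ρ ^ m)) / ((k : ℝ) + 1) := by
        intro m
        have e2 : |((if m = 0 then 0 else a (m - 1)) - k * a m)| ≤
            (if m = 0 then 0 else |a (m - 1)|) + k * |a m| := by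
          refine (abs_sub _ _).trans ?_
          rw [abs_mul, abs_of_nonneg (show (0 : ℝ) ≤ k from Nat.cast_nonneg k)]
          split_ifs
          · rw [abs_zero]
          · exact le_rfl
        have e3 : 0 ≤ ρ ^ m := by positivity
        rw [abs_div, abs_of_pos hk1, le_div_iff₀ hk1]
        have e4 : |((if m = 0 then 0 else a (m - 1)) - k * a m)| / ((k : ℝ) + 1) * ρ ^ m * ((k : ℝ) + 1) =
            |((if m = 0 then 0 else a (m - 1)) - k * a m)| * ρ ^ m := by
          field_simp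
        rw [e4]
        calc _ ≤ ((if m = 0 then 0 else |a (m - 1)|) + k * |a m|) * ρ ^ m :=
              mul_le_mul_of_nonneg_right e2 e3
          _ = _ := by ring
      have h4 : Summable (fun m : ℕ => |((if m = 0 then 0 else a (m - 1)) - k * a m) / (k + 1)| * ρ ^ m) :=
        Summable.of_nonneg_of_le (fun m => by positivity) h3 h2.summable
      refine ⟨h4, ?_⟩
      have h5 := h4.tsum_le_tsum h3 h2.summable
      rw [h2.tsum_eq] at h5
      refine h5.trans ?_
      have h6 : (ρ * ∑' m, |a m| * ρ ^ m + k * ∑' m, |a m| * ρ ^ m) / ((k : ℝ) + 1) =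
          (ρ + k) / ((k : ℝ) + 1) * ∑' m, |a m| * ρ ^ m := by ring
      rw [h6]
      have hk0 : (0 : ℝ) ≤ ρ + k := by positivity
      have hf : (((k + 1).factorial : ℕ) : ℝ) = ((k : ℝ) + 1) * (k.factorial : ℝ) := by
        rw [Nat.factorial_succ]
        push_cast
        ring
      have hfk : (0 : ℝ) < (k.factorial : ℝ) := by exact_mod_cast Nat.factorial_pos k
      calc (ρ + k) / ((k : ℝ) + 1) * ∑' m, |a m| * ρ ^ m
          ≤ (ρ + k) / ((k : ℝ) + 1) * ((ρ + k) ^ k / k.factorial * Real.exp (|ω| * ρ)) :=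
            mul_le_mul_of_nonneg_left ht (by positivity)
        _ = (ρ + k) ^ (k + 1) / ((k + 1).factorial : ℝ) * Real.exp (|ω| * ρ) := by
            rw [hf]
            field_simp
            try ring
        _ ≤ (ρ + ((k + 1 : ℕ) : ℝ)) ^ (k + 1) / ((k + 1).factorial : ℝ) * Real.exp (|ω| * ρ) := by
            refine mul_le_mul_of_nonneg_right ?_ (Real.exp_pos _).le
            refine div_le_div_of_nonneg_right ?_ (Nat.cast_nonneg _)
            refine pow_le_pow_left₀ hk0 ?_ _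
            push_cast
            linarith

theorem maj2_num {k K : ℕ} {ρ B : ℝ} (hk : k ≤ K) (hK : 1 ≤ K) (hρ : 0 ≤ ρ) (hB : 1 ≤ B)
    (h : ρ ≤ B * K) : (ρ + k) ^ k / k.factorial ≤ (3 * (B + 1)) ^ K := by
  have hkK : (k : ℝ) ≤ K := by exact_mod_cast hk
  have hK1 : (1 : ℝ) ≤ K := by exact_mod_cast hK
  have hfk : (0 : ℝ) < (k.factorial : ℝ) := by exact_mod_cast Nat.factorial_pos k
  have h1 : (ρ + k) ^ k ≤ ((B + 1) * K) ^ k := by
    refine pow_le_pow_left₀ (by positivity) ?_ _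
    linarith
  have h2 : (K : ℝ) ^ k / (k.factorial : ℝ) ≤ Real.exp K :=
    Real.pow_div_factorial_le_exp (K : ℝ) (by positivity) k
  have h3 : Real.exp (K : ℝ) ≤ 3 ^ K := by
    have h4 : Real.exp (K : ℝ) = Real.exp 1 ^ K := by
      rw [← Real.exp_nat_mul, mul_one]
    rw [h4]
    refine pow_le_pow_left₀ (Real.exp_pos 1).le ?_ _
    have := Real.exp_one_lt_d9
    linarith
  have h5 : (B + 1) ^ k ≤ (B + 1) ^ K := pow_le_pow_right₀ (by linarith) hk
  calc (ρ + k) ^ k / k.factorial ≤ ((B + 1) * K) ^ k / k.factorial :=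
        div_le_div_of_nonneg_right h1 hfk.le
    _ = (B + 1) ^ k * ((K : ℝ) ^ k / k.factorial) := by
        rw [mul_pow, mul_div_assoc]
    _ ≤ (B + 1) ^ K * 3 ^ K :=
        mul_le_mul h5 (h2.trans h3) (by positivity) (by positivity)
    _ = (3 * (B + 1)) ^ K := by
        rw [mul_pow]
        ring

end Pool.Agent.NLE
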