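import Mathlib

/-!
# NLE-LSet: the situation in Part L

`y^q (x-1) = x^n - 1`, `n = q k + ρ`, `1 ≤ ρ ≤ q`, `κ = max k 1`, `g` a small parameter (`g^200 ≤ q`).
-/

namespace Pool.Agent.NLE

/-- A solution with a large exponent and a base which is not too large. -/
structure Sit (q n x y k rho κ g : ℕ) : Prop where
  hg : 1000 ≤ g
  hgq : g ^ 200 ≤ q
  hx : 2 ≤ x
  hlx : Real.log x ≤ g
  hlq : 20 * Real.log (50 * q) ≤ g
  hn : n = q * k + rho
  h1 : 1 ≤ rho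
  h2 : rho ≤ q
  hκ : κ = max k 1
  hbig : 4 * κ * g ^ 60 ≤ n
  heq : y ^ q * (x - 1) = x ^ n - 1

private theorem LSet_q1 {q n x y k rho κ g : ℕ} (S : Sit q n x y k rho κ g) : 1 ≤ q := by
  have hg := S.hg
  have h1 : 1 ≤ g ^ 200 := Nat.one_le_pow _ _ (by omega)
  exact h1.trans S.hgq

private theorem LSet_n2 {q n x y k rho κ g : ℕ} (S : Sit q n x y k rho κ g) : 2 ≤ n := by
  have hg := S.hg
  have h1 : 1 ≤ g ^ 60 := Nat.one_le_pow _ _ (by omega)
  have hk : 1 ≤ κ := by rw [S.hκ]; exact le_max_right _ _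
  have hb := S.hbig
  have h2 : 4 * 1 * 1 ≤ 4 * κ * g ^ 60 := Nat.mul_le_mul (Nat.mul_le_mul le_rfl hk) h1
  omega

private theorem LSet_y1 {q n x y k rho κ g : ℕ} (S : Sit q n x y k rho κ g) : 1 ≤ y := by
  have hq := LSet_q1 S
  have hn := LSet_n2 S
  have hx := S.hx
  rcases Nat.eq_zero_or_pos y with h | h
  · exfalso
    have he := S.heq
    rw [h, zero_pow (by omega), zero_mul] at he
    have h2 : 2 ^ 1 ≤ x ^ n := (Nat.pow_le_pow_left hx 1).trans (Nat.pow_le_pow_right (by omega) (by omega))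
    omega
  · exact h

private theorem LSet_xn {q n x y k rho κ g : ℕ} (S : Sit q n x y k rho κ g) : 2 ≤ x ^ n := by
  have hn := LSet_n2 S
  have hx := S.hx
  have h2 : 2 ^ 1 ≤ x ^ n := (Nat.pow_le_pow_left hx 1).trans (Nat.pow_le_pow_right (by omega) (by omega))
  omega

/-- PLAN: `y ≥ 1`; `(y/x^k)^q (x-1) = x^ρ (1 - x^(-n))` (divide `heq`, cast to `ℝ`, by `x^(qk)`); logarithm;
`0 ≤ - log (1 - x^(-n)) ≤ 2 x^(-n)` (`x^(-n) ≤ 1/2`). -/
theorem Sit.rel {q n x y k rho κ g : ℕ} (S : Sit q n x y k rho κ g) :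
    1 ≤ y ∧ 0 ≤ rho * Real.log x - q * Real.log ((y : ℝ) / (x ^ k : ℕ)) - Real.log ((x - 1 : ℕ) : ℝ) ∧
      rho * Real.log x - q * Real.log ((y : ℝ) / (x ^ k : ℕ)) - Real.log ((x - 1 : ℕ) : ℝ) ≤
        2 / (x : ℝ) ^ n := by
  have hq := LSet_q1 S
  have hn := LSet_n2 S
  have hy := LSet_y1 S
  have hx := S.hx
  have hxn := LSet_xn S
  have he : (y : ℝ) ^ q * ((x - 1 : ℕ) : ℝ) = (x : ℝ) ^ n - 1 := by
    have h : ((y ^ q * (x - 1) : ℕ) : ℝ) = ((x ^ n - 1 : ℕ) : ℝ) := by rw [S.heq]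
    rw [Nat.cast_mul, Nat.cast_pow, Nat.cast_sub (by omega : 1 ≤ x ^ n), Nat.cast_pow, Nat.cast_one] at h
    exact h
  have hy0 : (0 : ℝ) < (y : ℝ) := by exact_mod_cast hy
  have hx0 : (0 : ℝ) < (x : ℝ) := by positivity
  have hx1 : (0 : ℝ) < ((x - 1 : ℕ) : ℝ) := by
    have : 0 < x - 1 := by omega
    exact_mod_cast this
  have hxnR : (2 : ℝ) ≤ (x : ℝ) ^ n := by exact_mod_cast hxn
  have hlog : (q : ℝ) * Real.log y + Real.log ((x - 1 : ℕ) : ℝ) = Real.log ((x : ℝ) ^ n - 1) := by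
    rw [← he, Real.log_mul (by positivity) hx1.ne', Real.log_pow]
  have hdiv : Real.log ((y : ℝ) / (x ^ k : ℕ)) = Real.log y - k * Real.log x := by
    rw [Real.log_div hy0.ne' (by positivity), Nat.cast_pow, Real.log_pow]
  have hnR : (n : ℝ) = q * k + rho := by
    have h := congrArg (fun t : ℕ => (t : ℝ)) S.hn
    simpa using h
  have hmain : rho * Real.log x - q * Real.log ((y : ℝ) / (x ^ k : ℕ)) - Real.log ((x - 1 : ℕ) : ℝ) =
      Real.log ((x : ℝ) ^ n) - Real.log ((x : ℝ) ^ n - 1) := by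
    rw [hdiv, ← hlog, Real.log_pow, hnR]
    ring
  rw [hmain]
  refine ⟨hy, ?_, ?_⟩
  · have h := Real.log_le_log (by linarith : (0 : ℝ) < (x : ℝ) ^ n - 1) (by linarith : (x : ℝ) ^ n - 1 ≤ (x : ℝ) ^ n)
    linarith
  · rw [← Real.log_div (by positivity) (by linarith)]
    have h := Real.log_le_sub_one_of_pos (div_pos (by linarith : (0 : ℝ) < (x : ℝ) ^ n) (by linarith : (0 : ℝ) < (x : ℝ) ^ n - 1))
    refine h.trans ?_
    have hne : (x : ℝ) ^ n - 1 ≠ 0 := by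
      intro h0
      linarith
    rw [div_sub_one hne, div_le_div_iff₀ (by linarith) (by linarith)]
    nlinarith

/-- PLAN: `y^q = rep x n` is larger than `x^(n-1) ≥ x^(qk)`, and smaller than `x^n ≤ x^(q(k+1))`. -/
theorem Sit.y_bd {q n x y k rho κ g : ℕ} (S : Sit q n x y k rho κ g) :
    x ^ k < y ∧ y < x ^ (k + 1) ∧ Nat.Coprime y x := by
  have hq := LSet_q1 S
  have hn := LSet_n2 S
  have hy := LSet_y1 S
  have hx := S.hx
  have hxn := LSet_xn S
  have he := S.heq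
  have he1 : y ^ q * (x - 1) + 1 = x ^ n := by omega
  refine ⟨?_, ?_, ?_⟩
  · by_contra hcon
    push Not at hcon
    have h1 : y ^ q ≤ (x ^ k) ^ q := Nat.pow_le_pow_left hcon q
    have h2 : (x ^ k) ^ q = x ^ (q * k) := by rw [← pow_mul, mul_comm]
    rw [h2] at h1
    rcases Nat.eq_zero_or_pos k with hk | hk
    · rw [hk, mul_zero, pow_zero] at h1
      have h3 : y ^ q * (x - 1) ≤ 1 * (x - 1) := Nat.mul_le_mul_right _ h1
      have h4 : x ^ 2 ≤ x ^ n := Nat.pow_le_pow_right (by omega) hn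
      have h5 : x * 2 ≤ x ^ 2 := by rw [pow_two]; exact Nat.mul_le_mul_left _ hx
      omega
    · have h3 : y ^ q * (x - 1) ≤ x ^ (q * k) * (x - 1) := Nat.mul_le_mul_right _ h1
      have h4 : x ^ (q * k + 1) ≤ x ^ n := Nat.pow_le_pow_right (by omega) (by rw [S.hn]; have := S.h1; omega)
      have h5 : x ^ (q * k) * (x - 1) + x ^ (q * k) = x ^ (q * k + 1) := by
        obtain ⟨z, rfl⟩ : ∃ z, x = z + 1 := ⟨x - 1, by omega⟩
        rw [Nat.add_sub_cancel, pow_succ]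
        ring
      have h6 : 2 ^ 1 ≤ x ^ (q * k) :=
        (Nat.pow_le_pow_left hx 1).trans (Nat.pow_le_pow_right (by omega) (Nat.mul_pos hq hk))
      omega
  · by_contra hcon
    push Not at hcon
    have h1 : (x ^ (k + 1)) ^ q ≤ y ^ q := Nat.pow_le_pow_left hcon q
    have h2 : (x ^ (k + 1)) ^ q = x ^ (q * (k + 1)) := by rw [← pow_mul, mul_comm]
    rw [h2] at h1
    have h3 : x ^ n ≤ x ^ (q * (k + 1)) := Nat.pow_le_pow_right (by omega) (by
      rw [S.hn, Nat.mul_succ]; have := S.h2; omega)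
    have h4 : y ^ q * 1 ≤ y ^ q * (x - 1) := Nat.mul_le_mul_left _ (by omega)
    omega
  · rw [← Nat.isCoprime_iff_coprime]
    obtain ⟨z, rfl⟩ : ∃ z, x = z + 1 := ⟨x - 1, by omega⟩
    obtain ⟨r, rfl⟩ : ∃ r, q = r + 1 := ⟨q - 1, by omega⟩
    obtain ⟨m, rfl⟩ : ∃ m, n = m + 1 := ⟨n - 1, by omega⟩
    rw [Nat.add_sub_cancel] at he1
    have h := congrArg (fun t : ℕ => (t : ℤ)) he1
    push_cast at h
    refine ⟨-((y : ℤ) ^ r * z), ((z : ℤ) + 1) ^ m, ?_⟩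
    push_cast
    rw [pow_succ, pow_succ] at h
    linarith

end Pool.Agent.NLE
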