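import Pool.Agent.NLE.GauF

/-!
# NLE-Lebes: Lebesgue's theorem `X^2 + 1 ≠ v^q`

PLAN.  `gau_one`: `X + i = (A + B i)^q`.  Imaginary part: `1 = ∑_j C(q,2j+1) (-1)^j A^(q-1-2j) B^(2j+1)`, so
`B ∣ 1`, `B = ±1`.  `X` even (mod 4), `v` odd, so `A` is even.  mod 4: `±1 = (-1)^((q-1)/2)` exactly, and
the remaining terms give `∑_{i ≥ 1} C(q,2i) (-1)^i A^(2i) = 0` (`C(q, q-2i) = C(q, 2i)`).  If `A ≠ 0`: the term
`i = 1` is `- C(q,2) A^2`, and for `i ≥ 2` `v_2(C(q,2i) A^(2i)) > v_2(C(q,2) A^2)`: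
`C(q,2i) * i (2i-1) = C(q,2) C(q-2,2i-2)`, so `v_2(C(q,2i)) ≥ v_2(C(q,2)) - v_2(i)`, `2i - 2 > v_2(i)`.
So `A = 0`, `X = 0` (`X ∣`: `A ∣ X` since `q` is odd).
-/

namespace Pool.Agent.NLE

private lemma Lebes_pow {A a : ℤ} (hA : A = 2 * a) (t : ℕ) :
    ∃ u w : ℤ, Odd u ∧ Odd w ∧
      (⟨1, A⟩ : GaussianInt) ^ (2 ^ (t + 1)) = ⟨1 + 2 ^ t * A ^ 2 * u, 2 ^ (t + 1) * A * w⟩ := by
  induction t with
  | zero =>
    refine ⟨-1, 1, by decide, by decide, ?_⟩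
    rw [zero_add, pow_one, pow_two]
    ext
    · simp only [Zsqrtd.re_mul]; ring
    · simp only [Zsqrtd.im_mul]; ring
  | succ t ih =>
    obtain ⟨u, w, hu, hw, h⟩ := ih
    refine ⟨u + 2 ^ (t + 1) * a ^ 2 * u ^ 2 - 2 ^ (t + 1) * w ^ 2, (1 + 2 ^ t * A ^ 2 * u) * w,
      ?_, ?_, ?_⟩
    · obtain ⟨k, hk⟩ := hu
      refine ⟨k + 2 ^ t * a ^ 2 * u ^ 2 - 2 ^ t * w ^ 2, ?_⟩
      nth_rewrite 1 [hk]
      ring
    · apply Odd.mul _ hw
      refine ⟨2 ^ t * (2 * a ^ 2) * u, ?_⟩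
      rw [hA]; ring
    · rw [pow_succ 2 (t + 1), pow_mul, h, pow_two]
      ext
      · simp only [Zsqrtd.re_mul]
        rw [hA]; ring
      · simp only [Zsqrtd.im_mul]; ring

private lemma Lebes_re {A : ℤ} (hA : Even A) (hA0 : A ≠ 0) {q : ℕ} (hq : Odd q) (hq1 : q ≠ 1) :
    ((⟨1, A⟩ : GaussianInt) ^ q).re ≠ 1 ∧ ((⟨1, A⟩ : GaussianInt) ^ q).re ≠ -1 := by
  obtain ⟨a, ha⟩ := hA
  have hA2 : A = 2 * a := by omega
  obtain ⟨r, hr⟩ := hq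
  obtain ⟨k, m, hm, hkm⟩ := Nat.exists_eq_two_pow_mul_odd (n := q - 1) (by omega)
  have hk0 : k ≠ 0 := by
    rintro rfl
    rw [pow_zero, one_mul] at hkm
    obtain ⟨j, hj⟩ := hm
    omega
  obtain ⟨t, rfl⟩ := Nat.exists_eq_succ_of_ne_zero hk0
  obtain ⟨u, w, hu, hw, h⟩ := Lebes_pow hA2 t
  have hqe : q = 2 ^ (t + 1) * m + 1 := by
    have : q - 1 + 1 = q := by omega
    rw [← this, hkm]
  obtain ⟨e, he⟩ := Polynomial.powAddExpansion (1 : GaussianInt)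
    (⟨2 ^ t * A ^ 2 * u, 2 ^ (t + 1) * A * w⟩ : GaussianInt) m
  have hz : (⟨1 + 2 ^ t * A ^ 2 * u, 2 ^ (t + 1) * A * w⟩ : GaussianInt)
      = 1 + ⟨2 ^ t * A ^ 2 * u, 2 ^ (t + 1) * A * w⟩ := by
    ext
    · simp only [Zsqrtd.re_add, Zsqrtd.re_one]
    · simp only [Zsqrtd.im_add, Zsqrtd.im_one, zero_add]
  have hz2 : (⟨2 ^ t * A ^ 2 * u, 2 ^ (t + 1) * A * w⟩ : GaussianInt) ^ 2
      = ((2 ^ (t + 1) * A ^ 2 : ℤ) : GaussianInt) *
        ⟨2 ^ (t + 1) * a ^ 2 * u ^ 2 - 2 ^ (t + 1) * w ^ 2, 2 ^ (t + 1) * A * u * w⟩ := by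
    rw [pow_two]
    ext
    · simp only [Zsqrtd.re_mul, Zsqrtd.re_intCast, Zsqrtd.im_intCast]
      rw [hA2]; ring
    · simp only [Zsqrtd.im_mul, Zsqrtd.re_intCast, Zsqrtd.im_intCast]
      ring
  have hre : ∃ f : ℤ, ((⟨1, A⟩ : GaussianInt) ^ q).re
      = 1 + (m : ℤ) * (2 ^ t * A ^ 2 * u) + (2 ^ (t + 1) * A ^ 2) * f := by
    rw [hqe, pow_succ, pow_mul, h, hz, he, one_pow, one_pow, mul_one, hz2]
    refine ⟨((e * ⟨2 ^ (t + 1) * a ^ 2 * u ^ 2 - 2 ^ (t + 1) * w ^ 2, 2 ^ (t + 1) * A * u * w⟩) *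
      (⟨1, A⟩ : GaussianInt)).re - m * w, ?_⟩
    simp only [Zsqrtd.re_mul, Zsqrtd.im_mul, Zsqrtd.re_add, Zsqrtd.im_add, Zsqrtd.re_one,
      Zsqrtd.im_one, Zsqrtd.re_intCast, Zsqrtd.im_intCast, Zsqrtd.re_natCast, Zsqrtd.im_natCast]
    ring
  obtain ⟨f, hf⟩ := hre
  constructor
  · intro h1
    rw [h1] at hf
    have h2 : (2 ^ t * A ^ 2) * ((m : ℤ) * u + 2 * f) = 0 := by
      linear_combination -hf
    rcases mul_eq_zero.1 h2 with h3 | h3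
    · rcases mul_eq_zero.1 h3 with h4 | h4
      · exact absurd h4 (pow_ne_zero _ two_ne_zero)
      · exact hA0 (pow_eq_zero_iff (two_ne_zero) |>.1 h4)
    · obtain ⟨x, hx⟩ := (by exact_mod_cast hm : Odd (m : ℤ)).mul hu
      omega
  · intro h1
    rw [h1] at hf
    have h2 : (-2 : ℤ) = 4 * ((m : ℤ) * (2 ^ t * a ^ 2 * u) + (2 ^ (t + 1) * a ^ 2) * f) := by
      rw [hA2] at hf
      linear_combination hf
    omega

private lemma Lebes_im (A B : ℤ) (n : ℕ) : B ∣ ((⟨A, B⟩ : GaussianInt) ^ n).im := by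
  induction n with
  | zero => simp
  | succ n ih =>
    rw [pow_succ, Zsqrtd.im_mul]
    exact dvd_add (Dvd.intro_left _ rfl) (Dvd.dvd.mul_right ih _)

theorem lebesgue {q : ℕ} (hq : q.Prime) (hq2 : q ≠ 2) {X v : ℤ} (hX : 1 < X) : X ^ 2 + 1 ≠ v ^ q := by
  intro h
  obtain ⟨A, B, hAB, hv⟩ := gau_one hq hq2 h
  have hodd : Odd q := hq.odd_of_ne_two hq2
  have hB1 : B ∣ 1 := by
    have h1 := Lebes_im A B q
    rw [← hAB] at h1
    exact h1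
  have hB2 : B * B = 1 := by
    rcases Int.isUnit_iff.1 (isUnit_of_dvd_one hB1) with h1 | h1 <;> rw [h1] <;> norm_num
  have hAe : Even A := by
    by_contra hA
    rw [Int.not_even_iff_odd] at hA
    obtain ⟨k, hk⟩ := hA
    have hv2 : v = 2 * (2 * k ^ 2 + 2 * k + 1) := by
      rw [← hv, hk, pow_two B, hB2]; ring
    have h4 : (4 : ℤ) ∣ v ^ q := by
      have h5 : v ^ 2 ∣ v ^ q := pow_dvd_pow v hq.two_le
      refine dvd_trans ⟨(2 * k ^ 2 + 2 * k + 1) ^ 2, ?_⟩ h5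
      rw [hv2]; ring
    rw [← h] at h4
    obtain ⟨j, hj⟩ := h4
    rcases Int.even_or_odd X with ⟨c, hc⟩ | ⟨c, hc⟩
    · have h6 : 4 * c ^ 2 + 1 = 4 * j := by rw [← hj, hc]; ring
      omega
    · have h6 : 4 * (c ^ 2 + c) + 2 = 4 * j := by rw [← hj, hc]; ring
      omega
  have hfac : (⟨A, B⟩ : GaussianInt) = ⟨0, B⟩ * ⟨1, -(A * B)⟩ := by
    ext
    · simp only [Zsqrtd.re_mul]
      linear_combination (-A) * hB2
    · simp only [Zsqrtd.im_mul]; ring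
  obtain ⟨r, hr⟩ := hodd
  have hi2 : (⟨0, B⟩ : GaussianInt) ^ 2 = -1 := by
    rw [pow_two]
    ext
    · simp only [Zsqrtd.re_mul, Zsqrtd.re_neg, Zsqrtd.re_one]
      linear_combination (-1) * hB2
    · simp only [Zsqrtd.im_mul, Zsqrtd.im_neg, Zsqrtd.im_one]; ring
  have hiq : (⟨0, B⟩ : GaussianInt) ^ q = (-1) ^ r * ⟨0, B⟩ := by
    rw [hr, pow_succ, pow_mul, hi2]
  rw [hfac, mul_pow, hiq] at hAB
  have hA0 : A ≠ 0 := by
    rintro rfl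
    have h1 := congrArg Zsqrtd.re hAB
    have h2 : (⟨1, -(0 * B)⟩ : GaussianInt) = 1 := by
      ext <;> simp
    rw [h2, one_pow, mul_one] at h1
    rcases neg_one_pow_eq_or GaussianInt r with h3 | h3
    · rw [h3, one_mul] at h1
      simp only at h1
      omega
    · rw [h3, neg_mul, one_mul] at h1
      simp only [Zsqrtd.re_neg] at h1
      omega
  have hP : ((⟨1, -(A * B)⟩ : GaussianInt) ^ q).re ∣ 1 := by
    have h1 := congrArg Zsqrtd.im hAB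
    rcases neg_one_pow_eq_or GaussianInt r with h3 | h3
    · rw [h3, one_mul] at h1
      simp only [Zsqrtd.im_mul] at h1
      exact ⟨B, by linear_combination h1⟩
    · rw [h3, neg_mul, one_mul, neg_mul] at h1
      simp only [Zsqrtd.im_mul, Zsqrtd.im_neg] at h1
      exact ⟨-B, by linear_combination h1⟩
  have hne : -(A * B) ≠ 0 := by
    intro h1
    rcases mul_eq_zero.1 (neg_eq_zero.1 h1) with h2 | h2
    · exact hA0 h2
    · rw [h2] at hB2; simp at hB2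
  obtain ⟨h1, h2⟩ := Lebes_re (A := -(A * B)) (hAe.mul_right B).neg hne ⟨r, hr⟩
    hq.one_lt.ne'
  rcases Int.isUnit_iff.1 (isUnit_of_dvd_one hP) with h3 | h3
  · exact h1 h3
  · exact h2 h3

end Pool.Agent.NLE
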