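import Pool.Agent.NLC.Siegel
import Pool.Agent.NLC.Elim
import Pool.Agent.NLC.NNz
import Pool.Agent.NLC.NBd
import Pool.Agent.NLC.Roth
import Pool.Agent.NLE.ValsU
import Pool.Agent.NLE.ArithU

/-!
# NLE-MainU: two q-th power repunits to the same large base, uniformly in the exponent
-/

namespace Pool.Agent.NLE

open Pool.Agent.NLC

open Finset Polynomial
open Pool.Agent.NLG (KZ kap)

private theorem const_le {q : ℕ} (hq : 3 ≤ q) : 16 * ((2 * q) ^ 800) ^ 2 + 16 ≤ q ^ 3210 := by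
  have h1 : 2 * q ≤ q ^ 2 := by nlinarith
  have h2 : ((2 * q) ^ 800) ^ 2 ≤ q ^ 3200 := by
    rw [← pow_mul]
    calc (2 * q) ^ (800 * 2) ≤ (q ^ 2) ^ (800 * 2) := Nat.pow_le_pow_left h1 _
      _ = q ^ 3200 := by rw [← pow_mul]
  have h3 : 32 ≤ q ^ 10 := by
    calc 32 ≤ 3 ^ 10 := by norm_num
      _ ≤ q ^ 10 := Nat.pow_le_pow_left hq _
  have h4 : 1 ≤ q ^ 3200 := Nat.one_le_pow _ _ (by omega)
  calc 16 * ((2 * q) ^ 800) ^ 2 + 16 ≤ 16 * q ^ 3200 + 16 * q ^ 3200 := by omega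
    _ = 32 * q ^ 3200 := by ring
    _ ≤ q ^ 10 * q ^ 3200 := Nat.mul_le_mul_right _ h3
    _ = q ^ 3210 := by rw [← pow_add]

theorem main_par_u : ∃ C : ℕ, ∀ (p : Par) (n2 : ℕ), Good p n2 →
    14080 ≤ p.n → n2 ≤ 2 ^ p.n → ∀ z t : ℕ, p.q ^ C ≤ z →
    (t : ℤ) ^ p.q * ((z : ℤ) - 1) ^ p.h ≠ ((z : ℤ) ^ n2 - 1) * ((z : ℤ) ^ p.n - 1) ^ (p.h - 1) := by
  obtain ⟨C, hZ2⟩ := arith_u
  refine ⟨max C 3210, fun p n2 hg hN hn2 z t hz ht => ?_⟩
  have hq3 : 3 ≤ p.q := by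
    have h1 := hg.h2
    have h2 := hg.hq
    omega
  have hzZ1 : 16 * ((2 * p.q) ^ 800) ^ 2 + 16 ≤ z :=
    ((const_le hq3).trans (Nat.pow_le_pow_right (by omega) (le_max_right _ _))).trans hz
  have hzZ2 : p.q ^ C ≤ z := (Nat.pow_le_pow_right (by omega) (le_max_left _ _)).trans hz
  have hz2 : 2 ≤ z := by omega
  have hR1 : 1 ≤ p.R := by
    rw [hg.hR]
    have := hg.h60
    omega
  have hB1 : 1 ≤ p.B := by
    rw [hg.hB]
    omega
  have hhq := hg.hq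
  have hh2 := hg.h2
  have hU : 2 * (p.R * (p.B + p.L)) ≤ p.P * p.B := by
    rw [hg.hP]
    have h1 : p.B + p.L ≤ 2 * p.B := by
      rw [hg.hB]
      omega
    calc 2 * (p.R * (p.B + p.L)) ≤ 2 * (p.R * (2 * p.B)) := by gcongr
      _ = 4 * p.R * p.B := by ring
  obtain ⟨A, hA1, hA2, hA3⟩ := siegel p (by omega) (by omega) (by omega) hg.hn hR1 hB1 hU
  have hv := vals_u p n2 hg z t hzZ1 ht A hA2 hA3
  have hzi : (2 : ℤ) ≤ (z : ℤ) := by exact_mod_cast hz2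
  have ht0 : (t : ℤ) ≠ 0 := by
    intro h0
    rw [h0, zero_pow (by omega), zero_mul] at ht
    have h3 : ∀ k : ℕ, 1 ≤ k → (z : ℤ) ^ k - 1 ≠ 0 := by
      intro k hk h4
      have h5 : (z : ℤ) ≤ (z : ℤ) ^ k := le_self_pow₀ (by omega) (by omega)
      omega
    have hn2' : 1 ≤ n2 := by
      have := hg.h60
      omega
    exact (mul_ne_zero (h3 n2 hn2') (pow_ne_zero _ (h3 p.n hg.hn))) ht.symm
  have hm := elim p (by omega) hg.hn hB1 A hzi ht0 (T := p.R / 2) (fun l₁ l₂ hl =>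
    hv l₁ l₂ (by omega))
  have hD2 : 1 ≤ 2 * (p.B + p.L) := by omega
  obtain ⟨K, hK1, hK2, hK3⟩ := roth (NN_ne_zero p (by omega) hhq A hA1)
    (D1 := p.P + p.S + p.n * (2 * p.B + p.L) + 2) (D2 := 2 * (p.B + p.L)) (by omega) hD2
    (natDegree_NN p hg.hn A) (natDegree_coeff_NN p A)
    (nrm_NN p (by omega) (by omega) hg.hn A hA2) hzi hg.hn hm
  exact absurd hK3 (not_le.2 (hZ2 p n2 hg hN hn2 z (by exact_mod_cast hzZ2) K hK1 hK2))

/-- PROP P: two `q`-th power repunits, lengths in different classes, none of them `1` modulo `q`. -/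
theorem pair_large_u : ∃ C : ℕ, ∀ q : ℕ, q.Prime → 3 ≤ q → ∀ z n1 n2 u y : ℕ,
    q ^ C ≤ z → 14080 ≤ n1 → 2 * n1 ≤ n2 → n2 ≤ 2 ^ n1 → n1 % q ≠ 1 → n2 % q ≠ 1 →
    n1 % q ≠ n2 % q → u ^ q = NL.rep z n1 → y ^ q = NL.rep z n2 → False := by
  obtain ⟨C, h⟩ := main_par_u
  refine ⟨C, fun q hq hq3 z n1 n2 u y hz hN hn hn2 h1 h2 h12 hu hy => ?_⟩
  have h60 : 60 ≤ n1 := by omega
  -- s with (n2 - 1) + s (n1 - 1) = 0 mod q
  haveI : Fact q.Prime := ⟨hq⟩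
  have hn1q : ((n1 : ℕ) : ZMod q) - 1 ≠ 0 := by
    intro h0
    apply h1
    have h3 : ((n1 : ℕ) : ZMod q) = ((1 : ℕ) : ZMod q) := by
      rw [Nat.cast_one]
      exact sub_eq_zero.1 h0
    rw [ZMod.natCast_eq_natCast_iff'] at h3
    rwa [Nat.mod_eq_of_lt (by omega : 1 < q)] at h3
  have hn2q : ((n2 : ℕ) : ZMod q) - 1 ≠ 0 := by
    intro h0
    apply h2
    have h3 : ((n2 : ℕ) : ZMod q) = ((1 : ℕ) : ZMod q) := by
      rw [Nat.cast_one]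
      exact sub_eq_zero.1 h0
    rw [ZMod.natCast_eq_natCast_iff'] at h3
    rwa [Nat.mod_eq_of_lt (by omega : 1 < q)] at h3
  set s : ℕ := (-(((n2 : ℕ) : ZMod q) - 1) / (((n1 : ℕ) : ZMod q) - 1)).val with hs
  have hscast : ((s : ℕ) : ZMod q) = -(((n2 : ℕ) : ZMod q) - 1) / (((n1 : ℕ) : ZMod q) - 1) := by
    rw [hs, ZMod.natCast_zmod_val]
  have hsq : s < q := ZMod.val_lt _
  have hs0 : s ≠ 0 := by
    intro h0
    rw [h0, Nat.cast_zero] at hscast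
    have := div_ne_zero (neg_ne_zero.2 hn2q) hn1q
    exact this hscast.symm
  have hs1 : s ≠ q - 1 := by
    intro h0
    have h3 : ((s : ℕ) : ZMod q) = -1 := by
      rw [h0, Nat.cast_sub (by omega), Nat.cast_one, ZMod.natCast_self, zero_sub]
    rw [h3] at hscast
    have h4 := (div_eq_iff hn1q).1 hscast.symm
    apply h12
    have h5 : ((n1 : ℕ) : ZMod q) = ((n2 : ℕ) : ZMod q) := by linear_combination h4
    exact (ZMod.natCast_eq_natCast_iff' n1 n2 q).1 h5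
  have hdvd : q ∣ (n2 - 1) + s * (n1 - 1) := by
    rw [← ZMod.natCast_eq_zero_iff]
    push_cast
    rw [Nat.cast_sub (by omega), Nat.cast_sub (by omega), hscast]
    field_simp
    push_cast
    ring
  obtain ⟨J, hJ⟩ := hdvd
  let R := n2 / 60
  let P := 4 * R
  let L := (P + J + R) / n1
  let p : Par := ⟨q, s + 1, J, n1, P, R, L + 1, L⟩
  have hg : Good p n2 := by
    refine ⟨?_, ?_, ?_, hn, by omega, ?_, rfl, rfl, rfl, rfl⟩
    · show 2 ≤ s + 1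
      omega
    · show s + 1 < q
      omega
    · show 1 ≤ n1
      omega
    · show q * J + (s + 1) = n2 + (s + 1 - 1) * n1
      rw [← hJ, Nat.add_sub_cancel]
      have e1 : s * n1 = s * (n1 - 1) + s := by
        obtain ⟨m1, hm1⟩ : ∃ m, n1 = m + 1 := ⟨n1 - 1, by omega⟩
        rw [hm1, Nat.add_sub_cancel]
        ring
      omega
  refine h p n2 hg hN hn2 z (y * u ^ s) hz ?_
  have hu' := NL.rep_mul_int z n1
  have hy' := NL.rep_mul_int z n2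
  rw [← hu] at hu'
  rw [← hy] at hy'
  have e1 : ((y * u ^ s : ℕ) : ℤ) ^ q * ((z : ℤ) - 1) ^ (s + 1) =
      (((y ^ q : ℕ) : ℤ) * ((z : ℤ) - 1)) * (((u ^ q : ℕ) : ℤ) * ((z : ℤ) - 1)) ^ s := by
    push_cast
    rw [mul_pow, mul_pow, pow_succ, ← pow_mul, ← pow_mul, mul_comm s q]
    ring
  have e2 : s + 1 - 1 = s := by omega
  show ((y * u ^ s : ℕ) : ℤ) ^ q * ((z : ℤ) - 1) ^ (s + 1) =
    ((z : ℤ) ^ n2 - 1) * ((z : ℤ) ^ n1 - 1) ^ (s + 1 - 1)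
  rw [e1, e2, hu', hy']

end Pool.Agent.NLE
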