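import Mathlib

/-!
# NLE-RungeE: effective Runge theorem for `T ^ q = F(W)`, `F` monic of degree divisible by `q`

Put `f(t) = t^(qJ) F(1/t) = 1 + f_1 t + ...` and rescale: `f(q^2 t) = 1 + q^2 φ(t)`, `φ ∈ ℤ[t]`.  The equation
`(1 + q r)^q = 1 + q^2 φ` is `r + A(r) = φ` with `A(r) = ∑_{j ≥ 2} binom(q, j) q^(j-2) r^j`, which is solved modulo
`t^(J+1)` by the iteration `r ↦ φ - A(r)` in `ℤ[t]`.  Coefficients are bounded by majorants (`RungeE_M`), evaluated at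
`ρ = 1 / (8 q^2 (H+1))`.  The truncation `a` of `1 + q r` gives the integer `b = Y^J a(1/Y)`, `Y = q^2 W`, and
`c = f(q^2 t) - a^q` is divisible by `t^(J+1)`, `Y^(qJ) c(1/Y) = (q^(2J) T)^q - b^q`.  If this is `0` then `Y` divides the leading
coefficient of `c`; otherwise it is at least `b^(q-1)` in absolute value.
-/

namespace Pool.Agent.NLE

open Polynomial

/-! ### majorants -/

/-- `P` is a majorant of `p` -/
private def RungeE_M (p : ℤ[X]) (P : ℚ[X]) : Prop := ∀ i, |(p.coeff i : ℚ)| ≤ P.coeff i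

private theorem RungeE_M_nn {p : ℤ[X]} {P : ℚ[X]} (h : RungeE_M p P) (i : ℕ) : 0 ≤ P.coeff i :=
  (abs_nonneg _).trans (h i)

private theorem RungeE_M_add {p p' : ℤ[X]} {P P' : ℚ[X]} (h : RungeE_M p P) (h' : RungeE_M p' P') :
    RungeE_M (p + p') (P + P') := by
  intro i
  rw [coeff_add, coeff_add, Int.cast_add]
  exact (abs_add_le _ _).trans (add_le_add (h i) (h' i))

private theorem RungeE_M_sub {p p' : ℤ[X]} {P P' : ℚ[X]} (h : RungeE_M p P) (h' : RungeE_M p' P') :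
    RungeE_M (p - p') (P + P') := by
  intro i
  rw [coeff_sub, coeff_add, Int.cast_sub]
  exact (abs_sub _ _).trans (add_le_add (h i) (h' i))

private theorem RungeE_M_mul {p p' : ℤ[X]} {P P' : ℚ[X]} (h : RungeE_M p P) (h' : RungeE_M p' P') :
    RungeE_M (p * p') (P * P') := by
  intro i
  rw [coeff_mul, coeff_mul, Int.cast_sum]
  refine (Finset.abs_sum_le_sum_abs _ _).trans (Finset.sum_le_sum fun x _ => ?_)
  rw [Int.cast_mul, abs_mul]
  exact mul_le_mul (h _) (h' _) (abs_nonneg _) (RungeE_M_nn h _)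

private theorem RungeE_M_nat (n : ℕ) : RungeE_M (n : ℤ[X]) (n : ℚ[X]) := by
  intro i
  rw [coeff_natCast_ite, coeff_natCast_ite]
  split_ifs with h
  · simp
  · simp

private theorem RungeE_M_one : RungeE_M 1 1 := by
  have h := RungeE_M_nat 1
  rwa [Nat.cast_one, Nat.cast_one] at h

private theorem RungeE_M_zero : RungeE_M 0 0 := by
  have h := RungeE_M_nat 0
  rwa [Nat.cast_zero, Nat.cast_zero] at h

private theorem RungeE_M_pow {p : ℤ[X]} {P : ℚ[X]} (h : RungeE_M p P) (n : ℕ) : RungeE_M (p ^ n) (P ^ n) := by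
  induction n with
  | zero =>
    rw [pow_zero, pow_zero]
    exact RungeE_M_one
  | succ n ih =>
    rw [pow_succ, pow_succ]
    exact RungeE_M_mul ih h

private theorem RungeE_M_sum {n : ℕ} {p : ℕ → ℤ[X]} {P : ℕ → ℚ[X]} (h : ∀ i < n, RungeE_M (p i) (P i)) :
    RungeE_M (∑ i ∈ Finset.range n, p i) (∑ i ∈ Finset.range n, P i) := by
  induction n with
  | zero =>
    rw [Finset.sum_range_zero, Finset.sum_range_zero]
    exact RungeE_M_zero
  | succ n ih =>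
    rw [Finset.sum_range_succ, Finset.sum_range_succ]
    exact RungeE_M_add (ih fun i hi => h i (hi.trans (Nat.lt_succ_self n))) (h n (Nat.lt_succ_self n))

private theorem RungeE_M_mon {a : ℤ} {A : ℚ} (h : |(a : ℚ)| ≤ A) (k : ℕ) :
    RungeE_M (C a * X ^ k) (C A * X ^ k) := by
  intro i
  rw [coeff_C_mul_X_pow, coeff_C_mul_X_pow]
  split_ifs with hi
  · exact h
  · simp

/-! ### evaluation -/

/-- evaluation of integral polynomials at rational numbers -/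
private noncomputable def RungeE_E (t : ℚ) : ℤ[X] →+* ℚ := eval₂RingHom (Int.castRingHom ℚ) t

private theorem RungeE_E_sum (t : ℚ) {p : ℤ[X]} {n : ℕ} (hn : p.natDegree < n) :
    RungeE_E t p = ∑ i ∈ Finset.range n, (p.coeff i : ℚ) * t ^ i :=
  eval₂_eq_sum_range' (Int.castRingHom ℚ) hn t

private theorem RungeE_E_mon (t : ℚ) (a : ℤ) (k : ℕ) : RungeE_E t (C a * X ^ k) = a * t ^ k := by
  unfold RungeE_E
  rw [map_mul, map_pow, coe_eval₂RingHom, eval₂_C, eval₂_X]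
  rfl

private theorem RungeE_E_le {p : ℤ[X]} {P : ℚ[X]} (h : RungeE_M p P) {m : ℕ} (hm : X ^ m ∣ p) {t ρ : ℚ}
    (ht : 0 ≤ t) (htρ : t ≤ ρ) : |RungeE_E t p| * ρ ^ m ≤ t ^ m * P.eval ρ := by
  set N := max p.natDegree P.natDegree + 1 with hN
  have h1 : p.natDegree < N := by omega
  have h2 : P.natDegree < N := by omega
  have hρ : 0 ≤ ρ := ht.trans htρ
  rw [RungeE_E_sum t h1, eval_eq_sum_range' h2, Finset.mul_sum]
  have h3 := Finset.abs_sum_le_sum_abs (fun i => (p.coeff i : ℚ) * t ^ i) (Finset.range N)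
  refine (mul_le_mul_of_nonneg_right h3 (pow_nonneg hρ m)).trans ?_
  rw [Finset.sum_mul]
  refine Finset.sum_le_sum fun i _ => ?_
  by_cases him : i < m
  · have h4 := X_pow_dvd_iff.1 hm i him
    rw [h4]
    simp only [Int.cast_zero, zero_mul, abs_zero]
    exact mul_nonneg (pow_nonneg ht m) (mul_nonneg (RungeE_M_nn h i) (pow_nonneg hρ i))
  · push Not at him
    rw [abs_mul, abs_of_nonneg (pow_nonneg ht i)]
    have h5 : t ^ i * ρ ^ m ≤ t ^ m * ρ ^ i := by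
      obtain ⟨j, rfl⟩ := Nat.exists_eq_add_of_le him
      have h6 : t ^ j ≤ ρ ^ j := pow_le_pow_left₀ ht htρ j
      calc t ^ (m + j) * ρ ^ m = t ^ m * t ^ j * ρ ^ m := by rw [pow_add]
        _ ≤ t ^ m * ρ ^ j * ρ ^ m := mul_le_mul_of_nonneg_right (mul_le_mul_of_nonneg_left h6 (pow_nonneg ht m))
            (pow_nonneg hρ m)
        _ = t ^ m * ρ ^ (m + j) := by rw [pow_add]; ring
    calc |(p.coeff i : ℚ)| * t ^ i * ρ ^ m = |(p.coeff i : ℚ)| * (t ^ i * ρ ^ m) := by ring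
      _ ≤ P.coeff i * (t ^ m * ρ ^ i) :=
          mul_le_mul (h i) h5 (mul_nonneg (pow_nonneg ht i) (pow_nonneg hρ m)) (RungeE_M_nn h i)
      _ = t ^ m * (P.coeff i * ρ ^ i) := by ring

private theorem RungeE_coef {p : ℤ[X]} {P : ℚ[X]} (h : RungeE_M p P) {ρ : ℚ} (hρ : 0 ≤ ρ) (i : ℕ) :
    |(p.coeff i : ℚ)| * ρ ^ i ≤ P.eval ρ := by
  set N := max i P.natDegree + 1 with hN
  have h1 : i ∈ Finset.range N := Finset.mem_range.2 (by omega)
  have h2 : P.natDegree < N := by omega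
  rw [eval_eq_sum_range' h2]
  refine (mul_le_mul_of_nonneg_right (h i) (pow_nonneg hρ i)).trans ?_
  exact Finset.single_le_sum (f := fun i => P.coeff i * ρ ^ i)
    (fun j _ => mul_nonneg (RungeE_M_nn h j) (pow_nonneg hρ j)) h1

/-! ### the function `A` -/

private def RungeE_A {R : Type} [CommRing R] (q : ℕ) (x : R) : R :=
  ∑ i ∈ Finset.range (q - 1), (q.choose (i + 2) : R) * (q : R) ^ i * x ^ (i + 2)

private theorem RungeE_A_id {R : Type} [CommRing R] {q : ℕ} (hq : 2 ≤ q) (x : R) :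
    (1 + (q : R) * x) ^ q = 1 + (q : R) ^ 2 * x + (q : R) ^ 2 * RungeE_A q x := by
  obtain ⟨m, rfl⟩ := Nat.exists_eq_add_of_le' hq
  unfold RungeE_A
  rw [add_comm 1, add_pow, Finset.sum_range_succ', Finset.sum_range_succ', Finset.mul_sum]
  have h1 : m + 2 - 1 = m + 1 := rfl
  rw [h1]
  have h2 : ∀ i ∈ Finset.range (m + 1), (((m + 2 : ℕ) : R) * x) ^ (i + 1 + 1) * 1 ^ (m + 2 - (i + 1 + 1)) *
      ((m + 2).choose (i + 1 + 1) : R) = ((m + 2 : ℕ) : R) ^ 2 * (((m + 2).choose (i + 2) : R) *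
      ((m + 2 : ℕ) : R) ^ i * x ^ (i + 2)) := fun i _ => by
    rw [one_pow, mul_one]
    ring
  rw [Finset.sum_congr rfl h2]
  simp only [zero_add, pow_one, one_pow, mul_one, Nat.choose_one_right, pow_zero, Nat.choose_zero_right, Nat.cast_one]
  ring

private theorem RungeE_A_map {R S : Type} [CommRing R] [CommRing S] (f : R →+* S) (q : ℕ) (x : R) :
    f (RungeE_A q x) = RungeE_A q (f x) := by
  unfold RungeE_A
  rw [map_sum]
  refine Finset.sum_congr rfl fun i _ => ?_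
  rw [map_mul, map_mul, map_pow, map_pow, map_natCast, map_natCast]

private theorem RungeE_A_M {p : ℤ[X]} {P : ℚ[X]} (h : RungeE_M p P) (q : ℕ) :
    RungeE_M (RungeE_A q p) (RungeE_A q P) :=
  RungeE_M_sum fun i _ => RungeE_M_mul (RungeE_M_mul (RungeE_M_nat _) (RungeE_M_pow (RungeE_M_nat _) i))
    (RungeE_M_pow h _)

private theorem RungeE_A_mono (q : ℕ) {x y : ℚ} (hx : 0 ≤ x) (hxy : x ≤ y) :
    0 ≤ RungeE_A q x ∧ RungeE_A q x ≤ RungeE_A q y := by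
  unfold RungeE_A
  constructor
  · exact Finset.sum_nonneg fun i _ => by positivity
  · refine Finset.sum_le_sum fun i _ => ?_
    exact mul_le_mul_of_nonneg_left (pow_le_pow_left₀ hx hxy _) (by positivity)

private theorem RungeE_A_dvd (q : ℕ) {p : ℤ[X]} (h : X ∣ p) : X ∣ RungeE_A q p := by
  unfold RungeE_A
  exact Finset.dvd_sum fun i _ => ((h.trans (dvd_pow_self p (by omega)))).mul_left _

private theorem RungeE_A_sub (q : ℕ) {k : ℕ} {p p' : ℤ[X]} (h : X ∣ p) (h' : X ∣ p') (hd : X ^ k ∣ p - p') :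
    X ^ (k + 1) ∣ RungeE_A q p - RungeE_A q p' := by
  unfold RungeE_A
  rw [← Finset.sum_sub_distrib]
  refine Finset.dvd_sum fun i _ => ?_
  rw [← mul_sub]
  refine Dvd.dvd.mul_left ?_ _
  have h1 : p ^ (i + 2) - p' ^ (i + 2) = (p ^ (i + 1) - p' ^ (i + 1)) * p + (p - p') * p' ^ (i + 1) := by ring
  rw [h1, pow_succ]
  refine dvd_add (mul_dvd_mul (hd.trans (sub_dvd_pow_sub_pow _ _ _)) h) (mul_dvd_mul hd ?_)
  exact h'.trans (dvd_pow_self p' (by omega))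

/-! ### the iteration -/

private noncomputable def RungeE_r (q : ℕ) (φ : ℤ[X]) : ℕ → ℤ[X]
  | 0 => 0
  | k + 1 => φ - RungeE_A q (RungeE_r q φ k)

private noncomputable def RungeE_R (q : ℕ) (Φ : ℚ[X]) : ℕ → ℚ[X]
  | 0 => 0
  | k + 1 => Φ + RungeE_A q (RungeE_R q Φ k)

private theorem RungeE_r_M {φ : ℤ[X]} {Φ : ℚ[X]} (h : RungeE_M φ Φ) (q k : ℕ) :
    RungeE_M (RungeE_r q φ k) (RungeE_R q Φ k) := by
  induction k with
  | zero => exact RungeE_M_zero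
  | succ k ih => exact RungeE_M_sub h (RungeE_A_M ih q)

private theorem RungeE_r_dvd {φ : ℤ[X]} (h : X ∣ φ) (q k : ℕ) : X ∣ RungeE_r q φ k := by
  cases k with
  | zero => exact dvd_zero _
  | succ k =>
    induction k with
    | zero => exact dvd_sub h (RungeE_A_dvd q (dvd_zero _))
    | succ k ih => exact dvd_sub h (RungeE_A_dvd q ih)

private theorem RungeE_r_sub {φ : ℤ[X]} (h : X ∣ φ) (q k : ℕ) :
    X ^ (k + 1) ∣ RungeE_r q φ (k + 1) - RungeE_r q φ k := by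
  induction k with
  | zero =>
    rw [zero_add, pow_one]
    exact dvd_sub (RungeE_r_dvd h q 1) (RungeE_r_dvd h q 0)
  | succ k ih =>
    have h1 : RungeE_r q φ (k + 1 + 1) - RungeE_r q φ (k + 1) =
        -(RungeE_A q (RungeE_r q φ (k + 1)) - RungeE_A q (RungeE_r q φ k)) := by
      show (φ - RungeE_A q (RungeE_r q φ (k + 1))) - (φ - RungeE_A q (RungeE_r q φ k)) = _
      ring
    rw [h1, dvd_neg]
    exact RungeE_A_sub q (RungeE_r_dvd h q _) (RungeE_r_dvd h q _) ih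

private theorem RungeE_R_eval {Φ : ℚ[X]} {q : ℕ} {ρ δ : ℚ} (h0 : 0 ≤ Φ.eval ρ) (hδ : 0 ≤ δ)
    (h : Φ.eval ρ + RungeE_A q δ ≤ δ) (k : ℕ) :
    0 ≤ (RungeE_R q Φ k).eval ρ ∧ (RungeE_R q Φ k).eval ρ ≤ δ := by
  induction k with
  | zero =>
    have h1 : (RungeE_R q Φ 0).eval ρ = 0 := eval_zero
    rw [h1]
    exact ⟨le_rfl, hδ⟩
  | succ k ih =>
    have h1 : (RungeE_R q Φ (k + 1)).eval ρ = Φ.eval ρ + RungeE_A q ((RungeE_R q Φ k).eval ρ) := by
      have h2 := RungeE_A_map (evalRingHom ρ) q (RungeE_R q Φ k)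
      rw [coe_evalRingHom] at h2
      rw [← h2]
      exact eval_add
    rw [h1]
    have h2 := RungeE_A_mono q ih.1 ih.2
    exact ⟨add_nonneg h0 h2.1, (add_le_add le_rfl h2.2).trans h⟩

/-! ### numerical bounds -/

private theorem RungeE_B1 {q : ℕ} (hq : 2 ≤ q) : (1 + 1 / (4 * (q : ℚ))) ^ q ≤ 4 / 3 := by
  have hq0 : (0 : ℚ) < q := by exact_mod_cast (by omega : 0 < q)
  set x : ℚ := 1 / (4 * (q : ℚ)) with hx
  have hx0 : 0 < x := by positivity
  have hqx : (q : ℚ) * x = 1 / 4 := by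
    rw [hx]
    field_simp
  have hx1 : x ≤ 1 / 4 := by
    have h1 : (1 : ℚ) ≤ q := by exact_mod_cast (by omega : 1 ≤ q)
    nlinarith
  have h1 : 1 + (q : ℚ) * (-x) ≤ (1 + -x) ^ q := one_add_mul_le_pow (by linarith) q
  have h2 : (1 + x) ^ q * (1 + -x) ^ q ≤ 1 := by
    rw [← mul_pow]
    refine pow_le_one₀ ?_ ?_
    · nlinarith
    · nlinarith
  have h3 : (3 / 4 : ℚ) ≤ (1 + -x) ^ q := by
    refine le_trans ?_ h1
    rw [mul_neg, hqx]
    norm_num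
  have h4 : 0 < (1 + x) ^ q := by positivity
  nlinarith

private theorem RungeE_B2 {q : ℕ} (hq : 2 ≤ q) :
    RungeE_A q (1 / (4 * (q : ℚ) ^ 2)) ≤ 1 / (12 * (q : ℚ) ^ 2) := by
  have hq0 : (0 : ℚ) < q := by exact_mod_cast (by omega : 0 < q)
  have h1 := RungeE_A_id hq (1 / (4 * (q : ℚ) ^ 2))
  have h2 : (q : ℚ) * (1 / (4 * (q : ℚ) ^ 2)) = 1 / (4 * (q : ℚ)) := by
    field_simp
  have h3 : (q : ℚ) ^ 2 * (1 / (4 * (q : ℚ) ^ 2)) = 1 / 4 := by
    field_simp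
  rw [h2, h3] at h1
  have h4 := RungeE_B1 hq
  rw [h1] at h4
  rw [le_div_iff₀ (by positivity)]
  linarith

private theorem RungeE_B3 {q : ℕ} (hq : 2 ≤ q) {α : ℚ} (hα : 1 - 1 / (4 * (q : ℚ)) ≤ α) :
    1 / 2 ≤ α ^ (q - 1) := by
  have hq0 : (0 : ℚ) < q := by exact_mod_cast (by omega : 0 < q)
  set x : ℚ := 1 / (4 * (q : ℚ)) with hx
  have hx0 : 0 < x := by positivity
  have hqx : (q : ℚ) * x = 1 / 4 := by
    rw [hx]
    field_simp
  have hx1 : x ≤ 1 / 4 := by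
    have h1 : (1 : ℚ) ≤ q := by exact_mod_cast (by omega : 1 ≤ q)
    nlinarith
  have h1 : 1 + ((q - 1 : ℕ) : ℚ) * (-x) ≤ (1 + -x) ^ (q - 1) := one_add_mul_le_pow (by linarith) _
  have h2 : ((q - 1 : ℕ) : ℚ) ≤ q := by exact_mod_cast Nat.sub_le q 1
  have h3 : (1 + -x) ^ (q - 1) ≤ α ^ (q - 1) := pow_le_pow_left₀ (by linarith) (by linarith) _
  nlinarith

private theorem RungeE_gap {q : ℕ} (hq : 1 ≤ q) {x b : ℤ} (hx : 0 ≤ x) (hb : 0 < b) (hne : x ^ q ≠ b ^ q) :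
    b ^ (q - 1) ≤ |x ^ q - b ^ q| := by
  obtain ⟨m, rfl⟩ := Nat.exists_eq_add_of_le' hq
  have h0 : m + 1 - 1 = m := rfl
  rw [h0]
  rcases lt_trichotomy x b with h | h | h
  · have h1 : x ^ m ≤ b ^ m := pow_le_pow_left₀ hx h.le m
    have h2 : x ^ (m + 1) ≤ (b - 1) * b ^ m := by
      rw [pow_succ, mul_comm]
      exact mul_le_mul (by omega) h1 (pow_nonneg hx m) (by omega)
    have h3 : b ^ (m + 1) = b * b ^ m := by ring
    rw [abs_sub_comm]
    refine le_trans ?_ (le_abs_self _)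
    rw [h3]
    linarith
  · exact absurd (by rw [h]) hne
  · have h1 : b ^ m ≤ x ^ m := pow_le_pow_left₀ hb.le h.le m
    have h2 : (b + 1) * b ^ m ≤ x ^ (m + 1) := by
      rw [pow_succ, mul_comm (x ^ m)]
      exact mul_le_mul (by omega) h1 (pow_nonneg hb.le m) hx
    have h3 : b ^ (m + 1) = b * b ^ m := by ring
    refine le_trans ?_ (le_abs_self _)
    rw [h3]
    linarith

/-! ### the polynomial `f` -/

private noncomputable def RungeE_phi (q n : ℕ) (F : ℤ[X]) : ℤ[X] :=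
  ∑ i ∈ Finset.range n, C (F.coeff (n - (i + 1)) * ((q : ℤ) ^ 2) ^ i) * X ^ (i + 1)

private noncomputable def RungeE_Phi (q n H : ℕ) : ℚ[X] :=
  ∑ i ∈ Finset.range n, C ((H : ℚ) * ((q : ℚ) ^ 2) ^ i) * X ^ (i + 1)

private theorem RungeE_phi_M (q n : ℕ) {H : ℕ} {F : ℤ[X]} (hH : ∀ i, |F.coeff i| ≤ H) :
    RungeE_M (RungeE_phi q n F) (RungeE_Phi q n H) := by
  refine RungeE_M_sum fun i _ => RungeE_M_mon ?_ _
  rw [Int.cast_mul, abs_mul, Int.cast_pow, Int.cast_pow, Int.cast_natCast, abs_of_nonneg (by positivity : (0 : ℚ) ≤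
    ((q : ℚ) ^ 2) ^ i)]
  refine mul_le_mul_of_nonneg_right ?_ (by positivity)
  exact_mod_cast hH _

private theorem RungeE_phi_dvd (q n : ℕ) (F : ℤ[X]) : X ∣ RungeE_phi q n F :=
  Finset.dvd_sum fun i _ => (dvd_pow_self X (by omega)).mul_left _

private theorem RungeE_phi_deg (q n : ℕ) (F : ℤ[X]) : (RungeE_phi q n F).natDegree ≤ n := by
  refine natDegree_sum_le_of_forall_le _ _ fun i hi => ?_
  refine (natDegree_C_mul_X_pow_le _ _).trans ?_
  have := Finset.mem_range.1 hi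
  omega

private theorem RungeE_Phi_eval {q : ℕ} (hq : 2 ≤ q) (n H : ℕ) :
    0 ≤ (RungeE_Phi q n H).eval (1 / (8 * (q : ℚ) ^ 2 * ((H : ℚ) + 1))) ∧
      (RungeE_Phi q n H).eval (1 / (8 * (q : ℚ) ^ 2 * ((H : ℚ) + 1))) ≤ 1 / (6 * (q : ℚ) ^ 2) := by
  have hq0 : (0 : ℚ) < q := by exact_mod_cast (by omega : 0 < q)
  set ρ : ℚ := 1 / (8 * (q : ℚ) ^ 2 * ((H : ℚ) + 1)) with hρ
  set s : ℚ := 1 / (8 * ((H : ℚ) + 1)) with hs
  have hρ0 : 0 < ρ := by positivity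
  have hs0 : 0 < s := by positivity
  have hs1 : s ≤ 1 / 8 := by
    rw [hs]
    apply one_div_le_one_div_of_le (by norm_num)
    have : (0 : ℚ) ≤ H := Nat.cast_nonneg H
    linarith
  have hsρ : (q : ℚ) ^ 2 * ρ = s := by
    rw [hρ, hs]
    field_simp
  have h1 : (RungeE_Phi q n H).eval ρ = (H : ℚ) * ρ * ∑ i ∈ Finset.range n, s ^ i := by
    unfold RungeE_Phi
    rw [eval_finsetSum, Finset.mul_sum]
    refine Finset.sum_congr rfl fun i _ => ?_
    rw [eval_mul, eval_C, eval_pow, eval_X, ← hsρ, mul_pow]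
    ring
  have h2 : (∑ i ∈ Finset.range n, s ^ i) * (1 - s) = 1 - s ^ n := geom_sum_mul_neg s n
  have h3 : 0 ≤ ∑ i ∈ Finset.range n, s ^ i := Finset.sum_nonneg fun i _ => by positivity
  have h4 : 0 < s ^ n := by positivity
  have h5 : ∑ i ∈ Finset.range n, s ^ i ≤ 8 / 7 := by nlinarith
  have h6 : (H : ℚ) * ρ ≤ 1 / (8 * (q : ℚ) ^ 2) := by
    rw [hρ, mul_one_div, div_le_div_iff₀ (by positivity) (by positivity)]
    have : (0 : ℚ) ≤ H := Nat.cast_nonneg H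
    nlinarith [sq_nonneg (q : ℚ)]
  rw [h1]
  refine ⟨by positivity, ?_⟩
  calc (H : ℚ) * ρ * ∑ i ∈ Finset.range n, s ^ i ≤ 1 / (8 * (q : ℚ) ^ 2) * (8 / 7) :=
        mul_le_mul h6 h5 h3 (by positivity)
    _ = 1 / (7 * (q : ℚ) ^ 2) := by
        field_simp
    _ ≤ 1 / (6 * (q : ℚ) ^ 2) := by
        apply one_div_le_one_div_of_le (by positivity)
        nlinarith [sq_nonneg (q : ℚ)]

private theorem RungeE_ev {q : ℕ} (hq : 2 ≤ q) {n : ℕ} {F : ℤ[X]} (hm : F.Monic) (hd : F.natDegree = n) {w : ℚ}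
    (hw : w ≠ 0) : w ^ n * RungeE_E (1 / ((q : ℚ) ^ 2 * w)) (1 + (q : ℤ[X]) ^ 2 * RungeE_phi q n F) =
      RungeE_E w F := by
  have hq0 : (q : ℚ) ≠ 0 := by exact_mod_cast (by omega : q ≠ 0)
  have h1 : RungeE_E w F = w ^ n + ∑ i ∈ Finset.range n, (F.coeff (n - (i + 1)) : ℚ) * w ^ (n - (i + 1)) := by
    rw [RungeE_E_sum w (n := n + 1) (by omega), Finset.sum_range_succ]
    have h2 : F.coeff n = 1 := by
      rw [← hd]
      exact hm.coeff_natDegree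
    rw [h2, Int.cast_one, one_mul, add_comm]
    congr 1
    rw [← Finset.sum_range_reflect]
    refine Finset.sum_congr rfl fun i _ => ?_
    have h3 : n - 1 - i = n - (i + 1) := by omega
    rw [h3]
  have h2 : RungeE_E (1 / ((q : ℚ) ^ 2 * w)) (RungeE_phi q n F) = ∑ i ∈ Finset.range n,
      (F.coeff (n - (i + 1)) : ℚ) * ((q : ℚ) ^ 2) ^ i * (1 / ((q : ℚ) ^ 2 * w)) ^ (i + 1) := by
    unfold RungeE_phi
    rw [map_sum]
    refine Finset.sum_congr rfl fun i _ => ?_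
    rw [RungeE_E_mon]
    push_cast
    ring
  rw [map_add, map_one, map_mul, map_pow, map_natCast, h2, h1, mul_add, mul_one, Finset.mul_sum, Finset.mul_sum]
  congr 1
  refine Finset.sum_congr rfl fun i hi => ?_
  have h3 : i + 1 ≤ n := Finset.mem_range.1 hi
  obtain ⟨m, rfl⟩ := Nat.exists_eq_add_of_le h3
  have h4 : i + 1 + m - (i + 1) = m := by omega
  rw [h4, div_pow, one_pow, mul_pow, pow_add w (i + 1) m, pow_succ ((q : ℚ) ^ 2) i]
  field_simp

/-! ### truncation -/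

private noncomputable def RungeE_tr (u : ℤ[X]) (J : ℕ) : ℤ[X] :=
  ∑ i ∈ Finset.range (J + 1), C (u.coeff i) * X ^ i

private theorem RungeE_tr_coeff (u : ℤ[X]) (J i : ℕ) :
    (RungeE_tr u J).coeff i = if i < J + 1 then u.coeff i else 0 := by
  unfold RungeE_tr
  rw [finsetSum_coeff]
  simp only [coeff_C_mul_X_pow]
  rw [Finset.sum_ite_eq]
  simp only [Finset.mem_range]

private theorem RungeE_tr_M {u : ℤ[X]} {U : ℚ[X]} (h : RungeE_M u U) (J : ℕ) : RungeE_M (RungeE_tr u J) U := by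
  intro i
  rw [RungeE_tr_coeff]
  split_ifs with hi
  · exact h i
  · rw [Int.cast_zero, abs_zero]
    exact RungeE_M_nn h i

private theorem RungeE_tr_dvd (u : ℤ[X]) (J : ℕ) : X ^ (J + 1) ∣ u - RungeE_tr u J := by
  rw [X_pow_dvd_iff]
  intro i hi
  rw [coeff_sub, RungeE_tr_coeff, if_pos hi, sub_self]

private theorem RungeE_tr_deg (u : ℤ[X]) (J : ℕ) : (RungeE_tr u J).natDegree ≤ J := by
  refine natDegree_sum_le_of_forall_le _ _ fun i hi => ?_
  refine (natDegree_C_mul_X_pow_le _ _).trans ?_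
  have := Finset.mem_range.1 hi
  omega

private theorem RungeE_tr_ev (u : ℤ[X]) (J : ℕ) {y : ℚ} (hy : y ≠ 0) :
    y ^ J * RungeE_E (1 / y) (RungeE_tr u J) = ∑ i ∈ Finset.range (J + 1), (u.coeff i : ℚ) * y ^ (J - i) := by
  unfold RungeE_tr
  rw [map_sum, Finset.mul_sum]
  refine Finset.sum_congr rfl fun i hi => ?_
  have h3 : i ≤ J := by
    have := Finset.mem_range.1 hi
    omega
  obtain ⟨m, rfl⟩ := Nat.exists_eq_add_of_le h3
  have h4 : i + m - i = m := by omega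
  rw [RungeE_E_mon, h4, div_pow, one_pow, pow_add]
  field_simp

private theorem RungeE_root {p : ℤ[X]} {y : ℕ} (hy : 0 < y) (h : RungeE_E (1 / (y : ℚ)) p = 0) :
    (y : ℤ) ∣ p.leadingCoeff := by
  have hy0 : (y : ℚ) ≠ 0 := by exact_mod_cast hy.ne'
  rw [RungeE_E_sum _ (Nat.lt_succ_self p.natDegree)] at h
  have h1 : ∑ i ∈ Finset.range (p.natDegree + 1), p.coeff i * (y : ℤ) ^ (p.natDegree - i) = 0 := by
    have h2 : (y : ℚ) ^ p.natDegree * ∑ i ∈ Finset.range (p.natDegree + 1), (p.coeff i : ℚ) * (1 / (y : ℚ)) ^ i =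
        ∑ i ∈ Finset.range (p.natDegree + 1), (p.coeff i : ℚ) * (y : ℚ) ^ (p.natDegree - i) := by
      rw [Finset.mul_sum]
      refine Finset.sum_congr rfl fun i hi => ?_
      have h3 : i ≤ p.natDegree := by
        have := Finset.mem_range.1 hi
        omega
      obtain ⟨m, hm⟩ := Nat.exists_eq_add_of_le h3
      have h4 : p.natDegree - i = m := by omega
      rw [h4, hm, div_pow, one_pow, pow_add]
      field_simp
    rw [h, mul_zero] at h2
    exact_mod_cast h2.symm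
  rw [Finset.sum_range_succ, Nat.sub_self, pow_zero, mul_one] at h1
  have h2 : (y : ℤ) ∣ ∑ i ∈ Finset.range p.natDegree, p.coeff i * (y : ℤ) ^ (p.natDegree - i) := by
    refine Finset.dvd_sum fun i hi => Dvd.dvd.mul_left (dvd_pow_self _ ?_) _
    have := Finset.mem_range.1 hi
    omega
  have h3 : (y : ℤ) ∣ p.coeff p.natDegree := (dvd_add_right h2).1 (by rw [h1]; exact dvd_zero _)
  exact h3

/-! ### the theorem -/

private theorem RungeE_N {q J m : ℕ} (hq : 2 ≤ q) (hm : 1 ≤ m) :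
    8 * m ≤ (16 * m) ^ (q * (J + 1)) ∧ 3 * (8 * m) ^ (q * J) ≤ (16 * m) ^ (q * (J + 1)) ∧
      6 * (8 * m) ^ (J + 1) ≤ (16 * m) ^ (q * (J + 1)) := by
  refine ⟨?_, ?_, ?_⟩
  · have h1 : 1 ≤ q * (J + 1) := by nlinarith
    calc 8 * m ≤ 16 * m := by omega
      _ = (16 * m) ^ 1 := (pow_one _).symm
      _ ≤ (16 * m) ^ (q * (J + 1)) := Nat.pow_le_pow_right (by omega) h1
  · have h1 : q * (J + 1) = q * J + q := by ring
    rw [h1, pow_add, mul_comm 3]
    refine Nat.mul_le_mul (Nat.pow_le_pow_left (by omega) _) ?_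
    calc 3 ≤ (16 * m) ^ 1 := by
          rw [pow_one]
          omega
      _ ≤ (16 * m) ^ q := Nat.pow_le_pow_right (by omega) (by omega)
  · have h1 : (16 * m) ^ (2 * (J + 1)) ≤ (16 * m) ^ (q * (J + 1)) :=
      Nat.pow_le_pow_right (by omega) (Nat.mul_le_mul_right _ hq)
    refine le_trans ?_ h1
    have h2 : (16 * m) ^ (2 * (J + 1)) = (16 * m) ^ (J + 1) * (16 * m) ^ (J + 1) := by
      rw [two_mul, pow_add]
    rw [h2]
    refine Nat.mul_le_mul ?_ (Nat.pow_le_pow_left (by omega) _)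
    calc 6 ≤ (16 * m) ^ 1 := by
          rw [pow_one]
          omega
      _ ≤ (16 * m) ^ (J + 1) := Nat.pow_le_pow_right (by omega) (by omega)

/-- the data: an approximate root -/
private theorem RungeE_data {q J H : ℕ} (hq : 2 ≤ q) {F : ℤ[X]} (hm : F.Monic) (hd : F.natDegree = q * J)
    (hF : ∀ G : ℚ[X], G ^ q ≠ F.map (Int.castRingHom ℚ)) (hH : ∀ i, |F.coeff i| ≤ H) :
    ∃ (u c : ℤ[X]) (U P : ℚ[X]), RungeE_M u U ∧ RungeE_M c P ∧
      U.eval (1 / (8 * (q : ℚ) ^ 2 * ((H : ℚ) + 1))) ≤ 1 / (4 * (q : ℚ)) ∧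
      P.eval (1 / (8 * (q : ℚ) ^ 2 * ((H : ℚ) + 1))) ≤ 3 ∧ X ^ (J + 1) ∣ c ∧ c.natDegree ≤ q * J ∧ c ≠ 0 ∧
      ∀ w : ℚ, w ≠ 0 → w ^ (q * J) * RungeE_E (1 / ((q : ℚ) ^ 2 * w)) c = RungeE_E w F -
        (w ^ J * (1 + RungeE_E (1 / ((q : ℚ) ^ 2 * w)) (RungeE_tr u J))) ^ q := by
  have hq0 : (0 : ℚ) < q := by exact_mod_cast (by omega : 0 < q)
  set ρ : ℚ := 1 / (8 * (q : ℚ) ^ 2 * ((H : ℚ) + 1)) with hρ
  have hρ0 : 0 < ρ := by positivity
  set φ := RungeE_phi q (q * J) F with hφ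
  set Φ := RungeE_Phi q (q * J) H with hΦ
  set r := RungeE_r q φ J with hr
  set R := RungeE_R q Φ J with hR
  obtain ⟨hΦ0, hΦ1⟩ := RungeE_Phi_eval hq (q * J) H
  rw [← hρ, ← hΦ] at hΦ0 hΦ1
  have hδ : Φ.eval ρ + RungeE_A q (1 / (4 * (q : ℚ) ^ 2)) ≤ 1 / (4 * (q : ℚ) ^ 2) := by
    have h1 := RungeE_B2 hq
    have h2 : (1 : ℚ) / (6 * (q : ℚ) ^ 2) + 1 / (12 * (q : ℚ) ^ 2) = 1 / (4 * (q : ℚ) ^ 2) := by
      field_simp
      norm_num
    linarith
  obtain ⟨hR0, hR1⟩ := RungeE_R_eval hΦ0 (by positivity) hδ J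
  rw [← hR] at hR0 hR1
  have hφM : RungeE_M φ Φ := RungeE_phi_M q (q * J) hH
  have hrM : RungeE_M r R := RungeE_r_M hφM q J
  have hXφ : X ∣ φ := RungeE_phi_dvd q (q * J) F
  have huM : RungeE_M ((q : ℤ[X]) * r) ((q : ℚ[X]) * R) := RungeE_M_mul (RungeE_M_nat q) hrM
  have hUe : ((q : ℚ[X]) * R).eval ρ ≤ 1 / (4 * (q : ℚ)) := by
    rw [eval_mul, eval_natCast]
    calc (q : ℚ) * R.eval ρ ≤ q * (1 / (4 * (q : ℚ) ^ 2)) := mul_le_mul_of_nonneg_left hR1 hq0.le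
      _ = 1 / (4 * (q : ℚ)) := by field_simp
  set u : ℤ[X] := (q : ℤ[X]) * r with hu
  set U : ℚ[X] := (q : ℚ[X]) * R with hU
  have hU0 : 0 ≤ U.eval ρ := by
    rw [hU, eval_mul, eval_natCast]
    exact mul_nonneg hq0.le hR0
  have hcM : RungeE_M ((1 + (q : ℤ[X]) ^ 2 * φ) - (1 + RungeE_tr u J) ^ q)
      ((1 + (q : ℚ[X]) ^ 2 * Φ) + (1 + U) ^ q) :=
    RungeE_M_sub (RungeE_M_add RungeE_M_one (RungeE_M_mul (RungeE_M_pow (RungeE_M_nat q) 2) hφM))
      (RungeE_M_pow (RungeE_M_add RungeE_M_one (RungeE_tr_M huM J)) q)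
  have hev : ∀ w : ℚ, w ≠ 0 → w ^ (q * J) * RungeE_E (1 / ((q : ℚ) ^ 2 * w))
      ((1 + (q : ℤ[X]) ^ 2 * φ) - (1 + RungeE_tr u J) ^ q) = RungeE_E w F -
        (w ^ J * (1 + RungeE_E (1 / ((q : ℚ) ^ 2 * w)) (RungeE_tr u J))) ^ q := fun w hw => by
    rw [map_sub, mul_sub, RungeE_ev hq hm hd hw, map_pow, map_add, map_one, mul_pow, ← pow_mul, mul_comm J q]
  refine ⟨u, (1 + (q : ℤ[X]) ^ 2 * φ) - (1 + RungeE_tr u J) ^ q, U, (1 + (q : ℚ[X]) ^ 2 * Φ) + (1 + U) ^ q,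
    huM, hcM, hUe, ?_, ?_, ?_, ?_, hev⟩
  · have h1 : ((1 + (q : ℚ[X]) ^ 2 * Φ) + (1 + U) ^ q).eval ρ = (1 + (q : ℚ) ^ 2 * Φ.eval ρ) + (1 + U.eval ρ) ^ q := by
      simp only [eval_add, eval_mul, eval_pow, eval_one, eval_natCast]
    rw [h1]
    have h2 : (1 + U.eval ρ) ^ q ≤ 4 / 3 :=
      (pow_le_pow_left₀ (by linarith) (by linarith) q).trans (RungeE_B1 hq)
    have h3 : (q : ℚ) ^ 2 * Φ.eval ρ ≤ 1 / 6 := by
      calc (q : ℚ) ^ 2 * Φ.eval ρ ≤ (q : ℚ) ^ 2 * (1 / (6 * (q : ℚ) ^ 2)) :=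
            mul_le_mul_of_nonneg_left hΦ1 (by positivity)
        _ = 1 / 6 := by field_simp
    linarith
  · have h1 : (1 + (q : ℤ[X]) ^ 2 * φ) - (1 + RungeE_tr u J) ^ q =
        (q : ℤ[X]) ^ 2 * (RungeE_r q φ (J + 1) - RungeE_r q φ J) + ((1 + u) ^ q - (1 + RungeE_tr u J) ^ q) := by
      have h2 : RungeE_r q φ (J + 1) = φ - RungeE_A q r := rfl
      rw [h2, hu, RungeE_A_id hq r]
      ring
    rw [h1]
    refine dvd_add ((RungeE_r_sub hXφ q J).mul_left _) ?_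
    refine (RungeE_tr_dvd u J).trans ?_
    have h2 : u - RungeE_tr u J = (1 + u) - (1 + RungeE_tr u J) := by ring
    rw [h2]
    exact sub_dvd_pow_sub_pow _ _ _
  · refine (natDegree_sub_le _ _).trans (max_le ?_ ?_)
    · refine (natDegree_add_le _ _).trans (max_le ?_ ?_)
      · rw [natDegree_one]
        exact Nat.zero_le _
      · have h1 : (q : ℤ[X]) ^ 2 = C ((q : ℤ) ^ 2) := by
          rw [C_pow]
          simp
        rw [h1]
        exact (natDegree_C_mul_le _ _).trans (RungeE_phi_deg q (q * J) F)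
    · refine natDegree_pow_le.trans (Nat.mul_le_mul_left q ?_)
      refine (natDegree_add_le _ _).trans (max_le ?_ (RungeE_tr_deg u J))
      rw [natDegree_one]
      exact Nat.zero_le _
  · intro hc
    -- the `q`-th root
    set G : ℚ[X] := X ^ J + ∑ i ∈ Finset.range (J + 1), C ((u.coeff i : ℚ) / ((q : ℚ) ^ 2) ^ i) * X ^ (J - i) with hG
    apply hF G
    refine eq_of_infinite_eval_eq _ _ ?_
    refine Set.infinite_of_injective_forall_mem (f := fun k : ℕ => ((k : ℚ) + 1)) (fun a b hab => ?_) fun k => ?_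
    · have h1 : (a : ℚ) + 1 = (b : ℚ) + 1 := hab
      have h2 : (a : ℚ) = b := by linarith
      exact_mod_cast h2
    · show (G ^ q).eval ((k : ℚ) + 1) = (F.map (Int.castRingHom ℚ)).eval ((k : ℚ) + 1)
      set w : ℚ := (k : ℚ) + 1 with hw
      have hw0 : w ≠ 0 := by positivity
      have h1 := hev w hw0
      rw [hc, map_zero, mul_zero] at h1
      have h2 : G.eval w = w ^ J * (1 + RungeE_E (1 / ((q : ℚ) ^ 2 * w)) (RungeE_tr u J)) := by
        have h3 : RungeE_E (1 / ((q : ℚ) ^ 2 * w)) (RungeE_tr u J) =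
            ∑ i ∈ Finset.range (J + 1), (u.coeff i : ℚ) * (1 / ((q : ℚ) ^ 2 * w)) ^ i := by
          unfold RungeE_tr
          rw [map_sum]
          exact Finset.sum_congr rfl fun i _ => RungeE_E_mon _ _ _
        rw [hG, eval_add, eval_pow, eval_X, eval_finsetSum, h3, mul_add, mul_one, Finset.mul_sum]
        congr 1
        refine Finset.sum_congr rfl fun i hi => ?_
        have h4 : i ≤ J := by
          have := Finset.mem_range.1 hi
          omega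
        obtain ⟨m, hm'⟩ := Nat.exists_eq_add_of_le h4
        have h5 : J - i = m := by omega
        rw [eval_mul, eval_C, eval_pow, eval_X, h5, hm', div_pow, one_pow, mul_pow, pow_add]
        field_simp
      rw [eval_pow, h2, ← sub_eq_zero.1 h1.symm, eval_map]
      rfl

theorem runge_eff {q J H W T : ℕ} (hq : 2 ≤ q) {F : ℤ[X]} (hm : F.Monic) (hd : F.natDegree = q * J)
    (hF : ∀ G : ℚ[X], G ^ q ≠ F.map (Int.castRingHom ℚ)) (hH : ∀ i, |F.coeff i| ≤ H)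
    (h : (T : ℤ) ^ q = F.eval (W : ℤ)) : W ≤ (16 * q ^ 2 * (H + 1)) ^ (q * (J + 1)) := by
  obtain ⟨u, c, U, P, huM, hcM, hU, hP, hXc, hdc, hc0, hev⟩ := RungeE_data hq hm hd hF hH
  have hq0 : (0 : ℚ) < q := by exact_mod_cast (by omega : 0 < q)
  have hqn : 1 ≤ q ^ 2 := Nat.one_le_pow _ _ (by omega)
  set m : ℕ := q ^ 2 * (H + 1) with hmd
  have hm1 : 1 ≤ m := Nat.mul_pos hqn (Nat.succ_pos H)
  have hB : 16 * q ^ 2 * (H + 1) = 16 * m := by rw [hmd]; ring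
  rw [hB]
  obtain ⟨hN1, hN2, hN3⟩ := RungeE_N (J := J) hq hm1
  by_contra hW
  push Not at hW
  set y : ℕ := q ^ 2 * W with hy
  have hWy : W ≤ y := Nat.le_mul_of_pos_left W hqn
  have hy8 : 8 * m ≤ y := hN1.trans (hW.le.trans hWy)
  have hy0 : 0 < y := by omega
  have hW0 : 0 < W := by omega
  have hρ : (1 : ℚ) / (8 * (q : ℚ) ^ 2 * ((H : ℚ) + 1)) = 1 / ((8 * m : ℕ) : ℚ) := by
    rw [hmd]
    push_cast
    ring
  rw [hρ] at hU hP
  set ρ : ℚ := 1 / ((8 * m : ℕ) : ℚ) with hρd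
  have hm0 : (0 : ℚ) < ((8 * m : ℕ) : ℚ) := by exact_mod_cast (by omega : 0 < 8 * m)
  have hρ0 : 0 < ρ := by positivity
  have hyQ : (0 : ℚ) < (y : ℚ) := by exact_mod_cast hy0
  have hWQ : (0 : ℚ) < (W : ℚ) := by exact_mod_cast hW0
  have hyW : (q : ℚ) ^ 2 * (W : ℚ) = (y : ℚ) := by
    rw [hy]
    push_cast
    ring
  have htρ : 1 / (y : ℚ) ≤ ρ := one_div_le_one_div_of_le hm0 (by exact_mod_cast hy8)
  have ht0 : 0 ≤ 1 / (y : ℚ) := by positivity
  -- the integer `b`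
  set b : ℤ := (y : ℤ) ^ J + ∑ i ∈ Finset.range (J + 1), u.coeff i * (y : ℤ) ^ (J - i) with hb
  set α : ℚ := 1 + RungeE_E (1 / (y : ℚ)) (RungeE_tr u J) with hα
  have hbα : (b : ℚ) = (y : ℚ) ^ J * α := by
    rw [hα, mul_add, mul_one, RungeE_tr_ev u J hyQ.ne', hb]
    push_cast
    rfl
  have hα1 : 1 - 1 / (4 * (q : ℚ)) ≤ α := by
    have h1 := RungeE_E_le (RungeE_tr_M huM J) (m := 0) (by rw [pow_zero]; exact one_dvd _) ht0 htρ
    rw [pow_zero, pow_zero, mul_one, one_mul] at h1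
    have h2 := (abs_le.1 (h1.trans hU)).1
    rw [hα]
    linarith
  have hq4 : 1 / (4 * (q : ℚ)) ≤ 1 / 8 := by
    apply one_div_le_one_div_of_le (by norm_num)
    have : (2 : ℚ) ≤ q := by exact_mod_cast hq
    linarith
  have hα0 : 0 < α := by linarith
  have hb0 : 0 < b := by
    have h1 : (0 : ℚ) < b := by
      rw [hbα]
      positivity
    exact_mod_cast h1
  -- the main identity
  have hmain : (y : ℚ) ^ (q * J) * RungeE_E (1 / (y : ℚ)) c =
      ((((q ^ 2) ^ J * T : ℕ) : ℤ) ^ q - b ^ q : ℤ) := by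
    have h1 := hev W hWQ.ne'
    rw [hyW, ← hα] at h1
    have h2 : RungeE_E (W : ℚ) F = (T : ℚ) ^ q := by
      have h3 : ((F.eval (W : ℤ) : ℤ) : ℚ) = RungeE_E (W : ℚ) F := by
        have h4 := hom_eval₂ F (RingHom.id ℤ) (Int.castRingHom ℚ) (W : ℤ)
        rw [eval₂_id, RingHom.comp_id] at h4
        have h5 : (Int.castRingHom ℚ) (W : ℤ) = (W : ℚ) := by simp
        rw [h5] at h4
        exact h4
      rw [← h3, ← h]
      push_cast
      rfl
    rw [h2] at h1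
    have h3 : (y : ℚ) ^ (q * J) = (((q : ℚ) ^ 2) ^ J) ^ q * (W : ℚ) ^ (q * J) := by
      rw [← hyW, mul_pow, mul_comm q J, pow_mul ((q : ℚ) ^ 2)]
    rw [h3, mul_assoc, h1]
    push_cast
    rw [hbα, ← hyW, mul_pow ((q : ℚ) ^ 2) (W : ℚ) J]
    ring_nf
  by_cases hΔ : (((q ^ 2) ^ J * T : ℕ) : ℤ) ^ q = b ^ q
  · -- `c` has a root
    rw [hΔ, sub_self, Int.cast_zero] at hmain
    have h1 : RungeE_E (1 / (y : ℚ)) c = 0 := (mul_eq_zero.1 hmain).resolve_left (by positivity)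
    have h2 := RungeE_root hy0 h1
    have h3 : c.leadingCoeff ≠ 0 := leadingCoeff_ne_zero.2 hc0
    have h4 : (y : ℤ) ≤ |c.leadingCoeff| := Int.le_of_dvd (abs_pos.2 h3) ((dvd_abs _ _).2 h2)
    have h5 := RungeE_coef hcM hρ0.le c.natDegree
    have h6 : |(c.coeff c.natDegree : ℚ)| ≤ 3 * ((8 * m : ℕ) : ℚ) ^ (q * J) := by
      have h7 : |(c.coeff c.natDegree : ℚ)| * ρ ^ c.natDegree ≤ 3 := h5.trans hP
      rw [hρd, one_div, inv_pow, ← div_eq_mul_inv, div_le_iff₀ (by positivity)] at h7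
      refine h7.trans (mul_le_mul_of_nonneg_left ?_ (by norm_num))
      refine pow_le_pow_right₀ ?_ hdc
      exact_mod_cast (by omega : 1 ≤ 8 * m)
    have h7 : (y : ℚ) ≤ 3 * ((8 * m : ℕ) : ℚ) ^ (q * J) := by
      refine le_trans ?_ h6
      have h8 : ((y : ℤ) : ℚ) ≤ ((|c.leadingCoeff| : ℤ) : ℚ) := by exact_mod_cast h4
      rw [Int.cast_abs] at h8
      exact_mod_cast h8
    have h8 : y ≤ 3 * (8 * m) ^ (q * J) := by exact_mod_cast h7
    omega
  · have h1 := RungeE_gap (by omega : 1 ≤ q) (Int.natCast_nonneg _) hb0 hΔ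
    have h2 : (b : ℚ) ^ (q - 1) ≤ (y : ℚ) ^ (q * J) * |RungeE_E (1 / (y : ℚ)) c| := by
      have h3 : ((b ^ (q - 1) : ℤ) : ℚ) ≤ ((|(((q ^ 2) ^ J * T : ℕ) : ℤ) ^ q - b ^ q| : ℤ) : ℚ) := by
        exact_mod_cast h1
      rw [Int.cast_abs, ← hmain, abs_mul, abs_of_nonneg (by positivity : (0 : ℚ) ≤ (y : ℚ) ^ (q * J)), Int.cast_pow] at h3
      exact h3
    have h3 := RungeE_E_le hcM hXc ht0 htρ
    have h4 : |RungeE_E (1 / (y : ℚ)) c| * (y : ℚ) ^ (J + 1) ≤ 3 * ((8 * m : ℕ) : ℚ) ^ (J + 1) := by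
      have h5 : |RungeE_E (1 / (y : ℚ)) c| * ρ ^ (J + 1) ≤ (1 / (y : ℚ)) ^ (J + 1) * 3 :=
        h3.trans (mul_le_mul_of_nonneg_left hP (by positivity))
      have h6 : ρ * ((8 * m : ℕ) : ℚ) = 1 := by
        rw [hρd]
        exact one_div_mul_cancel hm0.ne'
      have h7 : 1 / (y : ℚ) * (y : ℚ) = 1 := one_div_mul_cancel hyQ.ne'
      have h8 : ρ ^ (J + 1) * ((8 * m : ℕ) : ℚ) ^ (J + 1) = 1 := by rw [← mul_pow, h6, one_pow]
      have h9 : (1 / (y : ℚ)) ^ (J + 1) * (y : ℚ) ^ (J + 1) = 1 := by rw [← mul_pow, h7, one_pow]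
      calc |RungeE_E (1 / (y : ℚ)) c| * (y : ℚ) ^ (J + 1)
          = |RungeE_E (1 / (y : ℚ)) c| * ρ ^ (J + 1) * (((8 * m : ℕ) : ℚ) ^ (J + 1) * (y : ℚ) ^ (J + 1)) := by
            rw [mul_assoc, ← mul_assoc (ρ ^ (J + 1)), h8, one_mul]
        _ ≤ (1 / (y : ℚ)) ^ (J + 1) * 3 * (((8 * m : ℕ) : ℚ) ^ (J + 1) * (y : ℚ) ^ (J + 1)) :=
            mul_le_mul_of_nonneg_right h5 (by positivity)
        _ = 3 * ((8 * m : ℕ) : ℚ) ^ (J + 1) * ((1 / (y : ℚ)) ^ (J + 1) * (y : ℚ) ^ (J + 1)) := by ring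
        _ = 3 * ((8 * m : ℕ) : ℚ) ^ (J + 1) := by rw [h9, mul_one]
    have h5 : 1 / 2 * (y : ℚ) ^ (J * (q - 1)) ≤ (b : ℚ) ^ (q - 1) := by
      rw [hbα, mul_pow, ← pow_mul, mul_comm (1 / 2 : ℚ)]
      exact mul_le_mul_of_nonneg_left (RungeE_B3 hq hα1) (by positivity)
    have h6 : (y : ℚ) ≤ 6 * ((8 * m : ℕ) : ℚ) ^ (J + 1) := by
      have h7 : 1 / 2 * (y : ℚ) ^ (J * (q - 1)) * (y : ℚ) ^ (J + 1) ≤
          (y : ℚ) ^ (q * J) * (3 * ((8 * m : ℕ) : ℚ) ^ (J + 1)) := by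
        calc 1 / 2 * (y : ℚ) ^ (J * (q - 1)) * (y : ℚ) ^ (J + 1)
            ≤ (y : ℚ) ^ (q * J) * |RungeE_E (1 / (y : ℚ)) c| * (y : ℚ) ^ (J + 1) :=
              mul_le_mul_of_nonneg_right (h5.trans h2) (by positivity)
          _ = (y : ℚ) ^ (q * J) * (|RungeE_E (1 / (y : ℚ)) c| * (y : ℚ) ^ (J + 1)) := by ring
          _ ≤ _ := mul_le_mul_of_nonneg_left h4 (by positivity)
      have h8 : (y : ℚ) ^ (J * (q - 1)) * (y : ℚ) ^ (J + 1) = (y : ℚ) ^ (q * J) * y := by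
        rw [← pow_add, ← pow_succ]
        congr 1
        obtain ⟨s, rfl⟩ := Nat.exists_eq_add_of_le' hq
        have h9 : s + 2 - 1 = s + 1 := rfl
        rw [h9]
        ring
      have h9 : (y : ℚ) ^ (q * J) * y ≤ (y : ℚ) ^ (q * J) * (6 * ((8 * m : ℕ) : ℚ) ^ (J + 1)) := by
        rw [← h8]
        linarith
      exact le_of_mul_le_mul_left h9 (by positivity)
    have h7 : y ≤ 6 * (8 * m) ^ (J + 1) := by exact_mod_cast h6
    omega

end Pool.Agent.NLE
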