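import Pool.Agent.NLC.Same
import Pool.Agent.NL.Pade

/-!
# NLE-SameU: `NLC.pair_same` uniformly in `q`

PLAN.  Copy `Pool/Agent/NLC/Same.lean` (private lemmas, proof of `pair_same`), but with the explicit
constant of the Padé approximants: `NL.pade_exists` proves its statement with `C = 16 * q ^ 2`
(`Pool/Agent/NL/Pade.lean`, line `refine ⟨16 * (q : ℝ) ^ 2, ...`); copy that proof here as
`pade_explicit` (private lemmas of Pade.lean too, if needed).  All thresholds for `z` in `pair_same` are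
polynomials in `D = max C 4 = 16 q ^ 2`, so `q ^ C ≤ z` with an absolute `C` suffices (`q ≥ 3`).
-/

namespace Pool.Agent.NLE

open Finset

section

open NL

private theorem SameU_choose_ne_zero (N : ℕ) (r : ℚ) (hr : -1 < r) :
    Ring.choose ((N : ℚ) + r) N ≠ 0 := by
  rw [Ring.choose_eq_smul, ← Polynomial.aeval_eq_smeval, ← Polynomial.eval_map_algebraMap,
    descPochhammer_map]
  have h : 0 < (descPochhammer ℚ N).eval ((N : ℚ) + r) := descPochhammer_pos (by linarith)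
  have hf : ((N.factorial : ℚ))⁻¹ ≠ 0 := inv_ne_zero (by exact_mod_cast N.factorial_ne_zero)
  exact smul_ne_zero hf h.ne'

private theorem SameU_PA_natDegree (ν : ℚ) (N : ℕ) : (PA ν N).natDegree ≤ N := by
  unfold PA
  refine Polynomial.natDegree_sum_le_of_forall_le _ _ fun k hk => ?_
  exact (Polynomial.natDegree_monomial_le _).trans (Nat.le_of_lt_succ (mem_range.1 hk))

private theorem SameU_aeval_eq (P : Polynomial ℚ) (N : ℕ) (hP : P.natDegree ≤ N) (z : ℝ) :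
    Polynomial.aeval z P = ∑ k ∈ range (N + 1), ((P.coeff k : ℚ) : ℝ) * z ^ k := by
  rw [Polynomial.aeval_eq_sum_range' (Nat.lt_succ_of_le hP)]
  refine sum_congr rfl fun k _ => ?_
  rw [Rat.smul_def]

private theorem SameU_exists_int (q : ℕ) (hq : 2 ≤ q) (s : ℚ) (hs : s = 1 ∨ s = -1) :
    ∃ a : ℕ → ℕ → ℤ, (∀ N x : ℕ, 2 ≤ x →
      (a N x : ℝ) = (q : ℝ) ^ (2 * N) * (x : ℝ) ^ N *
        Polynomial.aeval (1 / (x : ℝ)) (PA (s / q) N)) ∧
      ∀ N x : ℕ, 2 ≤ x → |(a N x : ℝ)| ≤ (q : ℝ) ^ (2 * N) * 8 ^ (N + 1) * ((N : ℝ) + 1) *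
        (x : ℝ) ^ N := by
  choose m hm using fun N k => PA_coeff_integral q (by omega) s hs N k
  have hmR : ∀ N k, (m N k : ℝ) = (q : ℝ) ^ (2 * N) * (((PA (s / q) N).coeff k : ℚ) : ℝ) := by
    intro N k
    have := hm N k
    have h2 := congrArg (fun t : ℚ => (t : ℝ)) this
    push_cast at h2
    exact h2.symm
  refine ⟨fun N x => ∑ k ∈ range (N + 1), m N k * (x : ℤ) ^ (N - k), ?_, ?_⟩
  · intro N x hx
    have hx0 : (x : ℝ) ≠ 0 := by positivity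
    rw [SameU_aeval_eq _ N (SameU_PA_natDegree _ _)]
    push_cast
    rw [mul_sum]
    refine sum_congr rfl fun k hk => ?_
    have hk' : k ≤ N := Nat.le_of_lt_succ (mem_range.1 hk)
    rw [hmR]
    have : (x : ℝ) ^ N = (x : ℝ) ^ (N - k) * (x : ℝ) ^ k := by
      rw [← pow_add, Nat.sub_add_cancel hk']
    rw [this, one_div, inv_pow]
    field_simp
  · intro N x hx
    have hx1 : (1 : ℝ) ≤ x := by exact_mod_cast (by omega : 1 ≤ x)
    push_cast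
    refine (abs_sum_le_sum_abs _ _).trans ?_
    have hterm : ∀ k ∈ range (N + 1), |(m N k : ℝ) * (x : ℝ) ^ (N - k)| ≤
        (q : ℝ) ^ (2 * N) * 8 ^ (N + 1) * (x : ℝ) ^ N := by
      intro k hk
      rw [hmR, abs_mul, abs_mul, abs_of_nonneg (by positivity : (0 : ℝ) ≤ (q : ℝ) ^ (2 * N)),
        abs_of_nonneg (by positivity : (0 : ℝ) ≤ (x : ℝ) ^ (N - k))]
      have h1 : |(((PA (s / q) N).coeff k : ℚ) : ℝ)| ≤ 8 ^ (N + 1) := by
        exact_mod_cast PA_coeff_le q hq s hs N k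
      have h2 : (x : ℝ) ^ (N - k) ≤ (x : ℝ) ^ N := pow_le_pow_right₀ hx1 (Nat.sub_le _ _)
      gcongr
    refine (sum_le_sum hterm).trans ?_
    rw [sum_const, card_range, nsmul_eq_mul]
    push_cast
    apply le_of_eq
    ring

theorem pade_explicit (q : ℕ) (hq : 2 ≤ q) : ∃ a b : ℕ → ℕ → ℤ,
    (∀ N x : ℕ, 2 ≤ x → |(b N x : ℝ)| ≤ (16 * (q : ℝ) ^ 2) ^ (N + 1) * (x : ℝ) ^ N ∧
      |(a N x : ℝ) - (1 - 1 / (x : ℝ)) ^ ((1 : ℝ) / q) * (b N x : ℝ)| ≤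
        (16 * (q : ℝ) ^ 2) ^ (N + 1) / (x : ℝ) ^ (N + 1)) ∧
    ∀ N x : ℕ, 2 ≤ x → a N x * b (N + 1) x ≠ a (N + 1) x * b N x := by
  obtain ⟨a, ha, -⟩ := SameU_exists_int q hq 1 (Or.inl rfl)
  obtain ⟨b, hb, hb'⟩ := SameU_exists_int q hq (-1) (Or.inr rfl)
  have hneg : ((-1 : ℚ) / q) = -((1 : ℚ) / q) := by ring
  rw [hneg] at hb
  have hq1 : (1 : ℝ) ≤ q := by exact_mod_cast (by omega : 1 ≤ q)
  have hq2 : (1 : ℝ) ≤ (q : ℝ) ^ 2 := one_le_pow₀ hq1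
  have hqpow : ∀ N : ℕ, (q : ℝ) ^ (2 * N) * 8 ^ (N + 1) * (2 : ℝ) ^ (N + 1) ≤
      (16 * (q : ℝ) ^ 2) ^ (N + 1) := by
    intro N
    rw [mul_pow, ← pow_mul, show (16 : ℝ) = 8 * 2 by norm_num, mul_pow]
    have : (q : ℝ) ^ (2 * N) ≤ (q : ℝ) ^ (2 * (N + 1)) := pow_le_pow_right₀ hq1 (by omega)
    calc (q : ℝ) ^ (2 * N) * 8 ^ (N + 1) * (2 : ℝ) ^ (N + 1)
        ≤ (q : ℝ) ^ (2 * (N + 1)) * 8 ^ (N + 1) * (2 : ℝ) ^ (N + 1) := by gcongr
      _ = 8 ^ (N + 1) * 2 ^ (N + 1) * (q : ℝ) ^ (2 * (N + 1)) := by ring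
  have hN2 : ∀ N : ℕ, ((N : ℝ) + 1) ≤ 2 ^ N := by
    intro N
    exact_mod_cast Nat.lt_two_pow_self
  refine ⟨a, b, ?_, ?_⟩
  · intro N x hx
    have hx0 : (0 : ℝ) < x := by positivity
    constructor
    · refine (hb' N x hx).trans ?_
      have h1 : ((N : ℝ) + 1) ≤ 2 ^ (N + 1) :=
        (hN2 N).trans (pow_le_pow_right₀ (by norm_num) (Nat.le_succ _))
      calc (q : ℝ) ^ (2 * N) * 8 ^ (N + 1) * ((N : ℝ) + 1) * (x : ℝ) ^ N
          ≤ (q : ℝ) ^ (2 * N) * 8 ^ (N + 1) * (2 : ℝ) ^ (N + 1) * (x : ℝ) ^ N := by gcongr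
        _ ≤ (16 * (q : ℝ) ^ 2) ^ (N + 1) * (x : ℝ) ^ N := by
            gcongr
            exact hqpow N
    · rw [ha N x hx, hb N x hx]
      have hz : (0 : ℝ) < 1 / (x : ℝ) := by positivity
      have hz2 : (1 : ℝ) / x ≤ 1 / 2 := by
        apply one_div_le_one_div_of_le (by norm_num)
        exact_mod_cast hx
      have hrem := remainder_le q hq N (1 / (x : ℝ)) hz hz2
      have heq : (q : ℝ) ^ (2 * N) * (x : ℝ) ^ N *
            Polynomial.aeval (1 / (x : ℝ)) (PA ((1 : ℚ) / q) N) -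
          (1 - 1 / (x : ℝ)) ^ ((1 : ℝ) / q) * ((q : ℝ) ^ (2 * N) * (x : ℝ) ^ N *
            Polynomial.aeval (1 / (x : ℝ)) (PA (-((1 : ℚ) / q)) N)) =
          (q : ℝ) ^ (2 * N) * (x : ℝ) ^ N *
          (Polynomial.aeval (1 / (x : ℝ)) (PA ((1 : ℚ) / q) N) -
          (1 - 1 / (x : ℝ)) ^ ((1 : ℝ) / q) *
            Polynomial.aeval (1 / (x : ℝ)) (PA (-((1 : ℚ) / q)) N)) := by ring
      rw [heq, abs_mul, abs_of_nonneg (by positivity : (0 : ℝ) ≤ (q : ℝ) ^ (2 * N) * (x : ℝ) ^ N)]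
      have h1 : 2 * ((N : ℝ) + 1) ≤ 2 ^ (N + 1) := by
        have := hN2 N
        rw [pow_succ]
        linarith
      calc (q : ℝ) ^ (2 * N) * (x : ℝ) ^ N * |Polynomial.aeval (1 / (x : ℝ)) (PA ((1 : ℚ) / q) N) -
            (1 - 1 / (x : ℝ)) ^ ((1 : ℝ) / q) *
            Polynomial.aeval (1 / (x : ℝ)) (PA (-((1 : ℚ) / q)) N)|
          ≤ (q : ℝ) ^ (2 * N) * (x : ℝ) ^ N *
            (2 * (N + 1) * 8 ^ (N + 1) * (1 / (x : ℝ)) ^ (2 * N + 1)) := by gcongr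
        _ = (q : ℝ) ^ (2 * N) * 8 ^ (N + 1) * (2 * ((N : ℝ) + 1)) / (x : ℝ) ^ (N + 1) := by
            rw [one_div, inv_pow, show 2 * N + 1 = N + (N + 1) by ring, pow_add (x : ℝ) N (N + 1)]
            field_simp
        _ ≤ (q : ℝ) ^ (2 * N) * 8 ^ (N + 1) * 2 ^ (N + 1) / (x : ℝ) ^ (N + 1) := by gcongr
        _ ≤ (16 * (q : ℝ) ^ 2) ^ (N + 1) / (x : ℝ) ^ (N + 1) := by
            gcongr
            exact hqpow N
  · intro N x hx hcon
    have hx0 : (x : ℝ) ≠ 0 := by positivity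
    have hcR : (a N x : ℝ) * (b (N + 1) x : ℝ) = (a (N + 1) x : ℝ) * (b N x : ℝ) := by
      exact_mod_cast hcon
    rw [ha N x hx, hb (N + 1) x hx, ha (N + 1) x hx, hb N x hx] at hcR
    have hw := congrArg (Polynomial.aeval (1 / (x : ℝ))) (pade_wronskian ((1 : ℚ) / q) N)
    rw [map_sub, map_mul, map_mul, Polynomial.aeval_monomial] at hw
    have hq0 : (q : ℝ) ≠ 0 := by positivity
    have hpos : (q : ℝ) ^ (2 * N) * (x : ℝ) ^ N * ((q : ℝ) ^ (2 * (N + 1)) * (x : ℝ) ^ (N + 1)) ≠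
        0 := by positivity
    have hzero : Polynomial.aeval (1 / (x : ℝ)) (PA ((1 : ℚ) / q) N) *
          Polynomial.aeval (1 / (x : ℝ)) (PA (-((1 : ℚ) / q)) (N + 1)) -
        Polynomial.aeval (1 / (x : ℝ)) (PA ((1 : ℚ) / q) (N + 1)) *
          Polynomial.aeval (1 / (x : ℝ)) (PA (-((1 : ℚ) / q)) N) = 0 := by
      apply mul_left_cancel₀ hpos
      rw [mul_zero]
      linear_combination hcR
    rw [hzero] at hw
    have hq1' : (0 : ℚ) < (1 : ℚ) / q := by positivity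
    have hq2' : (1 : ℚ) / q < 1 := by
      rw [div_lt_one (by positivity)]
      exact_mod_cast (by omega : 1 < q)
    have hc1 := SameU_choose_ne_zero N ((1 : ℚ) / q) (by linarith)
    have hc2 : Ring.choose ((N : ℚ) - (1 : ℚ) / q) N ≠ 0 := by
      rw [sub_eq_add_neg]
      exact SameU_choose_ne_zero N (-((1 : ℚ) / q)) (by linarith)
    have hne : (-(Ring.choose ((N : ℚ) + (1 : ℚ) / q) N * Ring.choose ((N : ℚ) - (1 : ℚ) / q) N *
        (-2 * ((1 : ℚ) / q) / (N + 1)))) ≠ 0 := by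
      refine neg_ne_zero.2 (mul_ne_zero (mul_ne_zero hc1 hc2) ?_)
      refine div_ne_zero ?_ (by positivity)
      exact mul_ne_zero (by norm_num) hq1'.ne'
    have hne' : (algebraMap ℚ ℝ) (-(Ring.choose ((N : ℚ) + (1 : ℚ) / q) N *
        Ring.choose ((N : ℚ) - (1 : ℚ) / q) N * (-2 * ((1 : ℚ) / q) / (N + 1)))) ≠ 0 := by
      intro h
      exact hne ((map_eq_zero _).1 h)
    exact (mul_ne_zero hne' (pow_ne_zero _ (by positivity))) hw.symm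

end

private theorem SameU_rep {q x n y : ℕ} (h : y ^ q = NL.rep x n) :
    (y : ℝ) ^ q * ((x : ℝ) - 1) = (x : ℝ) ^ n - 1 := by
  have h1 := NL.rep_mul_int x n
  rw [← h] at h1
  have h2 : (((y ^ q : ℕ) : ℤ) : ℝ) * (((x : ℤ) : ℝ) - 1) = ((x : ℤ) : ℝ) ^ n - 1 := by
    exact_mod_cast h1
  push_cast at h2
  exact h2

/-- The real estimate for one index `N`. -/
private theorem SameU_zero {q x n1 n2 k N : ℕ} {D : ℝ} (hq : 3 ≤ q) (hx : 2 ≤ x) (hn1 : 1 ≤ n1)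
    (hk : n2 = n1 + q * k) {y1 y2 : ℕ} (h1 : y1 ^ q = NL.rep x n1) (h2 : y2 ^ q = NL.rep x n2)
    (hD : 4 ≤ D)
    (hi : 16 * D ^ (3 * N + 3) * (x : ℝ) ^ n2 ≤ x * ((x : ℝ) ^ n1) ^ (3 * N + 3))
    (hii : 64 * D ^ (3 * N + 3) * ((x : ℝ) ^ n1) ^ (3 * N) ≤ ((x : ℝ) ^ n2) ^ 2) {a b : ℤ}
    (hb : |(b : ℝ)| ≤ D ^ (N + 1) * ((x : ℝ) ^ n1) ^ N)
    (hab : |(a : ℝ) - (1 - 1 / ((x : ℝ) ^ n1)) ^ ((1 : ℝ) / q) * (b : ℝ)| ≤
        D ^ (N + 1) / ((x : ℝ) ^ n1) ^ (N + 1)) : a * y2 = b * (y1 * (x : ℤ) ^ k) := by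
  have hX2 : (2 : ℝ) ≤ x := by exact_mod_cast hx
  have hD0 : (0 : ℝ) < D := by linarith
  have hq0 : q ≠ 0 := by omega
  set X1 : ℝ := (x : ℝ) ^ n1 with hX1
  set X2 : ℝ := (x : ℝ) ^ n2 with hX2'
  have hX1p : 0 < X1 := by positivity
  have hX2p : 0 < X2 := by positivity
  have hX12 : 2 ≤ X1 := by
    have : (x : ℝ) ^ 1 ≤ X1 := pow_le_pow_right₀ (by linarith) hn1
    rw [pow_one] at this
    linarith
  have hX22 : 2 ≤ X2 := by
    have : (x : ℝ) ^ 1 ≤ X2 := pow_le_pow_right₀ (by linarith) (by omega)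
    rw [pow_one] at this
    linarith
  set g1 : ℝ := (1 - 1 / X1) ^ ((1 : ℝ) / q) with hg1
  set g2 : ℝ := (1 - 1 / X2) ^ ((1 : ℝ) / q) with hg2
  have hi1 : 1 / X1 ≤ 1 / 2 := one_div_le_one_div_of_le (by norm_num) hX12
  have hi2 : 1 / X2 ≤ 1 / 2 := one_div_le_one_div_of_le (by norm_num) hX22
  have hi1p : 0 < 1 / X1 := by positivity
  have hi2p : 0 < 1 / X2 := by positivity
  have hb1 : 0 ≤ 1 - 1 / X1 := by linarith
  have hb2 : 0 ≤ 1 - 1 / X2 := by linarith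
  have hg10 : 0 ≤ g1 := Real.rpow_nonneg hb1 _
  have hg20 : 0 ≤ g2 := Real.rpow_nonneg hb2 _
  have hinv : (1 : ℝ) / q = (q : ℝ)⁻¹ := one_div _
  have hg1q : g1 ^ q = 1 - 1 / X1 := by rw [hg1, hinv, Real.rpow_inv_natCast_pow hb1 hq0]
  have hg2q : g2 ^ q = 1 - 1 / X2 := by rw [hg2, hinv, Real.rpow_inv_natCast_pow hb2 hq0]
  have hg1le : g1 ≤ 1 := by
    refine le_of_pow_le_pow_left₀ hq0 zero_le_one ?_
    rw [hg1q, one_pow]
    linarith
  have hg2le : g2 ≤ 1 := by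
    refine le_of_pow_le_pow_left₀ hq0 zero_le_one ?_
    rw [hg2q, one_pow]
    linarith
  have hg2ge : 1 - 1 / X2 ≤ g2 := by
    refine le_of_pow_le_pow_left₀ hq0 hg20 ?_
    rw [hg2q]
    exact pow_le_of_le_one hb2 (by linarith) hq0
  have hy1 : (0 : ℝ) ≤ y1 := Nat.cast_nonneg y1
  have hy2 : (0 : ℝ) ≤ y2 := Nat.cast_nonneg y2
  have hr1 := SameU_rep h1
  have hr2 := SameU_rep h2
  have hxm : (0 : ℝ) < (x : ℝ) - 1 := by linarith
  have hXk : X2 = X1 * ((x : ℝ) ^ k) ^ q := by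
    rw [hX2', hk, pow_add, hX1, ← pow_mul, mul_comm q k]
  -- the two products agree
  have heq : (y2 : ℝ) * g1 = y1 * (x : ℝ) ^ k * g2 := by
    have h3 : ((y2 : ℝ) * g1) ^ q = ((y1 : ℝ) * (x : ℝ) ^ k * g2) ^ q := by
      have e1 : ((y2 : ℝ) * g1) ^ q * ((x : ℝ) - 1) = (X2 - 1) * (1 - 1 / X1) := by
        rw [mul_pow, hg1q, ← hr2]; ring
      have e2 : ((y1 : ℝ) * (x : ℝ) ^ k * g2) ^ q * ((x : ℝ) - 1) =
          (X1 - 1) * ((x : ℝ) ^ k) ^ q * (1 - 1 / X2) := by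
        rw [mul_pow, mul_pow, hg2q, ← hr1]; ring
      have e3 : (X2 - 1) * (1 - 1 / X1) = (X1 - 1) * ((x : ℝ) ^ k) ^ q * (1 - 1 / X2) := by
        have e4 : ((x : ℝ) ^ k) ^ q = X2 / X1 := by rw [hXk]; field_simp
        rw [e4]
        field_simp
      have e5 : ((y2 : ℝ) * g1) ^ q * ((x : ℝ) - 1) =
          ((y1 : ℝ) * (x : ℝ) ^ k * g2) ^ q * ((x : ℝ) - 1) := by rw [e1, e2, e3]
      exact mul_right_cancel₀ hxm.ne' e5
    exact (pow_left_inj₀ (mul_nonneg hy2 hg10) (by positivity) hq0).1 h3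
  set Y : ℝ := (y1 : ℝ) * (x : ℝ) ^ k with hY
  have hY0 : 0 ≤ Y := by positivity
  have hY2 : Y ≤ 2 * y2 := by
    have h3 : (1 / 2 : ℝ) ≤ g2 := by linarith
    have h4 : Y * (1 / 2) ≤ Y * g2 := mul_le_mul_of_nonneg_left h3 hY0
    have h5 : (y2 : ℝ) * g1 ≤ y2 * 1 := mul_le_mul_of_nonneg_left hg1le hy2
    linarith
  have hdiff : |(y2 : ℝ) * g1 - Y| ≤ 2 * y2 / X2 := by
    have h3 : (y2 : ℝ) * g1 - Y = -(Y * (1 - g2)) := by rw [heq]; ring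
    rw [h3, abs_neg, abs_of_nonneg (mul_nonneg hY0 (by linarith))]
    have h4 : Y * (1 - g2) ≤ (2 * y2) * (1 / X2) :=
      mul_le_mul hY2 (by linarith) (by linarith) (by linarith)
    rw [mul_one_div] at h4
    exact h4
  -- size of `y2`
  have hcube' : (y2 : ℝ) ^ 3 * x < 2 * X2 := by
    have h3 : (y2 : ℝ) ^ q * x < 2 * X2 := by
      have h4 : (y2 : ℝ) ^ q * x ≤ (y2 : ℝ) ^ q * (2 * ((x : ℝ) - 1)) :=
        mul_le_mul_of_nonneg_left (by linarith) (by positivity)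
      have h5 : (y2 : ℝ) ^ q * (2 * ((x : ℝ) - 1)) = 2 * (X2 - 1) := by
        rw [mul_left_comm, hr2]
      linarith
    rcases Nat.eq_zero_or_pos y2 with h0 | h0
    · rw [h0]
      simpa using hX2p
    · have h4 : (1 : ℝ) ≤ y2 := by exact_mod_cast h0
      exact lt_of_le_of_lt (mul_le_mul_of_nonneg_right (pow_le_pow_right₀ h4 hq) (by linarith)) h3
  have hcube : (y2 : ℝ) ^ 3 < X2 := by
    have h3 : (y2 : ℝ) ^ q < X2 := by
      have h4 : (y2 : ℝ) ^ q * 1 ≤ (y2 : ℝ) ^ q * ((x : ℝ) - 1) :=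
        mul_le_mul_of_nonneg_left (by linarith) (by positivity)
      rw [hr2] at h4
      linarith
    rcases Nat.eq_zero_or_pos y2 with h0 | h0
    · rw [h0]
      simpa using hX2p
    · have h4 : (1 : ℝ) ≤ y2 := by exact_mod_cast h0
      exact lt_of_le_of_lt (pow_le_pow_right₀ h4 hq) h3
  have hA : 2 * D ^ (N + 1) * y2 < X1 ^ (N + 1) := by
    refine lt_of_pow_lt_pow_left₀ 3 (by positivity) ?_
    have h3 : (2 * D ^ (N + 1) * (y2 : ℝ)) ^ 3 = 8 * D ^ (3 * N + 3) * (y2 : ℝ) ^ 3 := by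
      have e1 : 3 * N + 3 = (N + 1) * 3 := by ring
      rw [mul_pow, mul_pow, e1, pow_mul]
      norm_num
    have h4 : (X1 ^ (N + 1)) ^ 3 = X1 ^ (3 * N + 3) := by
      rw [← pow_mul]; congr 1; ring
    rw [h3, h4]
    have hx0 : (0 : ℝ) < x := by linarith
    refine lt_of_mul_lt_mul_left ?_ hx0.le
    refine lt_of_lt_of_le ?_ hi
    have h5 : 8 * D ^ (3 * N + 3) * ((y2 : ℝ) ^ 3 * x) < 8 * D ^ (3 * N + 3) * (2 * X2) :=
      mul_lt_mul_of_pos_left hcube' (by positivity)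
    linarith
  have hB : 4 * D ^ (N + 1) * X1 ^ N * y2 < X2 := by
    refine lt_of_pow_lt_pow_left₀ 3 (by positivity) ?_
    have h3 : (4 * D ^ (N + 1) * X1 ^ N * (y2 : ℝ)) ^ 3 =
        64 * D ^ (3 * N + 3) * X1 ^ (3 * N) * (y2 : ℝ) ^ 3 := by
      have e1 : 3 * N + 3 = (N + 1) * 3 := by ring
      have e2 : 3 * N = N * 3 := by ring
      rw [mul_pow, mul_pow, mul_pow, e1, e2, pow_mul, pow_mul]
      norm_num
    rw [h3]
    have h5 : 64 * D ^ (3 * N + 3) * X1 ^ (3 * N) * (y2 : ℝ) ^ 3 < X2 ^ 2 * X2 := by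
      refine lt_of_lt_of_le (mul_lt_mul_of_pos_left hcube (by positivity)) ?_
      exact mul_le_mul_of_nonneg_right hii hX2p.le
    calc _ < X2 ^ 2 * X2 := h5
      _ = X2 ^ 3 := by ring
  have hT1 : |(y2 : ℝ) * ((a : ℝ) - g1 * b)| < 1 / 2 := by
    rw [abs_mul, abs_of_nonneg hy2]
    have h3 : (y2 : ℝ) * |(a : ℝ) - g1 * b| ≤ y2 * (D ^ (N + 1) / X1 ^ (N + 1)) :=
      mul_le_mul_of_nonneg_left hab hy2
    have h4 : (y2 : ℝ) * (D ^ (N + 1) / X1 ^ (N + 1)) = (D ^ (N + 1) * y2) / X1 ^ (N + 1) := by ring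
    have h5 : (D ^ (N + 1) * y2) / X1 ^ (N + 1) < 1 / 2 := by
      rw [div_lt_iff₀ (by positivity)]
      linarith
    linarith
  have hT2 : |(b : ℝ) * ((y2 : ℝ) * g1 - Y)| < 1 / 2 := by
    rw [abs_mul]
    have h3 : |(b : ℝ)| * |(y2 : ℝ) * g1 - Y| ≤ (D ^ (N + 1) * X1 ^ N) * (2 * y2 / X2) :=
      mul_le_mul hb hdiff (abs_nonneg _) (by positivity)
    have h4 : (D ^ (N + 1) * X1 ^ N) * (2 * y2 / X2) = (2 * D ^ (N + 1) * X1 ^ N * y2) / X2 := by ring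
    have h5 : (2 * D ^ (N + 1) * X1 ^ N * y2) / X2 < 1 / 2 := by
      rw [div_lt_iff₀ hX2p]
      linarith
    linarith
  have hDl : |((a * y2 - b * (y1 * (x : ℤ) ^ k) : ℤ) : ℝ)| < 1 := by
    push_cast
    have h3 : (a : ℝ) * y2 - b * (y1 * (x : ℝ) ^ k) =
        (y2 : ℝ) * ((a : ℝ) - g1 * b) + (b : ℝ) * ((y2 : ℝ) * g1 - Y) := by
      rw [hY]; ring
    rw [h3]
    have h4 := abs_add_le ((y2 : ℝ) * ((a : ℝ) - g1 * b)) ((b : ℝ) * ((y2 : ℝ) * g1 - Y))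
    linarith
  have hD2 : |a * y2 - b * (y1 * (x : ℤ) ^ k)| < 1 := by exact_mod_cast hDl
  have hD3 := Int.abs_lt_one_iff.1 hD2
  linarith

/-- The choice of the index. -/
private theorem SameU_range {D : ℝ} (hD4 : 4 ≤ D) {x n1 n2 : ℕ} (hx : D ^ 18 ≤ x) (hn1 : 1 ≤ n1)
    (hn2 : 2 * n1 ≤ n2) : ∃ N0 : ℕ, ∀ N : ℕ, N0 ≤ N → N ≤ N0 + 1 →
      16 * D ^ (3 * N + 3) * (x : ℝ) ^ n2 ≤ x * ((x : ℝ) ^ n1) ^ (3 * N + 3) ∧
      64 * D ^ (3 * N + 3) * ((x : ℝ) ^ n1) ^ (3 * N) ≤ ((x : ℝ) ^ n2) ^ 2 := by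
  have hD0 : 0 < D := by linarith
  have hD1 : 1 ≤ D := by linarith
  have h16 : (16 : ℝ) ≤ D ^ 2 := by nlinarith
  have h64 : (64 : ℝ) ≤ D ^ 3 := by
    have : (4 : ℝ) ^ 3 ≤ D ^ 3 := pow_le_pow_left₀ (by norm_num) hD4 3
    linarith
  have hx2 : (2 : ℝ) ≤ x := by
    have h1 : D ^ 1 ≤ D ^ 18 := pow_le_pow_right₀ hD1 (by norm_num)
    rw [pow_one] at h1
    linarith
  have hx1 : (1 : ℝ) ≤ x := by linarith
  rcases Nat.lt_or_ge n2 (12 * n1) with hlt | hge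
  · set N0 : ℕ := (n2 - 1) / (3 * n1) with hN0
    have hN03 : N0 ≤ 3 := by
      have h1 : N0 < 4 := by
        rw [hN0, Nat.div_lt_iff_lt_mul (by omega)]
        omega
      omega
    have hlow : 3 * n1 * N0 ≤ n2 - 1 := Nat.mul_div_le _ _
    have hupp : n2 - 1 < 3 * n1 * (N0 + 1) := Nat.lt_mul_div_succ _ (by omega)
    have hkey : 3 * n1 * (N0 + 1) + 1 ≤ 2 * n2 := by
      rcases Nat.lt_or_ge n2 (3 * n1) with h1 | h1
      · have h2 : N0 = 0 := by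
          rw [hN0]
          exact Nat.div_eq_of_lt (by omega)
        rw [h2]
        omega
      · rw [mul_add, mul_one]
        omega
    refine ⟨N0, fun N h1 h2 => ⟨?_, ?_⟩⟩
    · refine mul_le_mul ?_ ?_ (by positivity) (by positivity)
      · calc 16 * D ^ (3 * N + 3) ≤ D ^ 2 * D ^ (3 * N + 3) :=
              mul_le_mul_of_nonneg_right h16 (by positivity)
          _ = D ^ (2 + (3 * N + 3)) := (pow_add _ _ _).symm
          _ ≤ D ^ 18 := pow_le_pow_right₀ hD1 (by omega)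
          _ ≤ _ := hx
      · rw [← pow_mul]
        refine pow_le_pow_right₀ hx1 ?_
        have h3 : 3 * n1 * (N0 + 1) ≤ n1 * (3 * N + 3) := by nlinarith
        omega
    · have h3 : 64 * D ^ (3 * N + 3) ≤ x := by
        calc 64 * D ^ (3 * N + 3) ≤ D ^ 3 * D ^ (3 * N + 3) :=
              mul_le_mul_of_nonneg_right h64 (by positivity)
          _ = D ^ (3 + (3 * N + 3)) := (pow_add _ _ _).symm
          _ ≤ D ^ 18 := pow_le_pow_right₀ hD1 (by omega)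
          _ ≤ _ := hx
      have h4 : 64 * D ^ (3 * N + 3) * ((x : ℝ) ^ n1) ^ (3 * N) ≤ x * ((x : ℝ) ^ n1) ^ (3 * N) :=
        mul_le_mul_of_nonneg_right h3 (by positivity)
      refine h4.trans ?_
      have h5 : (x : ℝ) * ((x : ℝ) ^ n1) ^ (3 * N) = (x : ℝ) ^ (1 + n1 * (3 * N)) := by
        rw [pow_add, pow_one, ← pow_mul]
      rw [h5, ← pow_mul]
      refine pow_le_pow_right₀ hx1 ?_
      have h6 : n1 * (3 * N) ≤ 3 * n1 * (N0 + 1) := by nlinarith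
      omega
  · set X1 : ℝ := (x : ℝ) ^ n1 with hX1
    have hX1D : D ^ 9 ≤ X1 := by
      calc D ^ 9 ≤ D ^ 18 := pow_le_pow_right₀ hD1 (by norm_num)
        _ ≤ x := hx
        _ = (x : ℝ) ^ 1 := (pow_one _).symm
        _ ≤ _ := pow_le_pow_right₀ hx1 hn1
    have hX10 : 0 < X1 := by positivity
    set N0 : ℕ := n2 / (2 * n1) with hN0
    have hN06 : 6 ≤ N0 := by
      rw [hN0, Nat.le_div_iff_mul_le (by omega)]
      omega
    have hlow : 2 * n1 * N0 ≤ n2 := Nat.mul_div_le _ _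
    have hupp : n2 < 2 * n1 * (N0 + 1) := Nat.lt_mul_div_succ _ (by omega)
    have hXlow : X1 ^ (2 * N0) ≤ (x : ℝ) ^ n2 := by
      rw [hX1, ← pow_mul]
      exact pow_le_pow_right₀ hx1 (by nlinarith)
    have hXupp : (x : ℝ) ^ n2 ≤ X1 ^ (2 * N0 + 2) := by
      rw [hX1, ← pow_mul]
      exact pow_le_pow_right₀ hx1 (by nlinarith)
    have hpowX : ∀ e : ℕ, D ^ (9 * e) ≤ X1 ^ e := fun e => by
      rw [pow_mul]
      exact pow_le_pow_left₀ (by positivity) hX1D e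
    refine ⟨N0, fun N h1 h2 => ⟨?_, ?_⟩⟩
    · have e1 : X1 ^ (3 * N + 3) = X1 ^ (3 * N + 1 - 2 * N0) * X1 ^ (2 * N0 + 2) := by
        rw [← pow_add]; congr 1; omega
      have e2 : 16 * D ^ (3 * N + 3) * (x : ℝ) ^ n2 ≤ X1 ^ (3 * N + 3) := by
        rw [e1]
        refine mul_le_mul ?_ hXupp (by positivity) (by positivity)
        calc 16 * D ^ (3 * N + 3) ≤ D ^ 2 * D ^ (3 * N + 3) :=
              mul_le_mul_of_nonneg_right h16 (by positivity)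
          _ = D ^ (2 + (3 * N + 3)) := (pow_add _ _ _).symm
          _ ≤ D ^ (9 * (3 * N + 1 - 2 * N0)) := pow_le_pow_right₀ hD1 (by omega)
          _ ≤ _ := hpowX _
      refine e2.trans ?_
      have h3 : 1 * X1 ^ (3 * N + 3) ≤ x * X1 ^ (3 * N + 3) :=
        mul_le_mul_of_nonneg_right hx1 (by positivity)
      linarith
    · have e1 : X1 ^ (4 * N0) ≤ ((x : ℝ) ^ n2) ^ 2 := by
        have e2 : X1 ^ (4 * N0) = (X1 ^ (2 * N0)) ^ 2 := by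
          rw [← pow_mul X1 (2 * N0) 2]; congr 1; ring
        rw [e2]
        exact pow_le_pow_left₀ (by positivity) hXlow 2
      refine le_trans ?_ e1
      have e3 : X1 ^ (4 * N0) = X1 ^ (4 * N0 - 3 * N) * X1 ^ (3 * N) := by
        rw [← pow_add]; congr 1; omega
      rw [e3]
      refine mul_le_mul_of_nonneg_right ?_ (by positivity)
      calc 64 * D ^ (3 * N + 3) ≤ D ^ 3 * D ^ (3 * N + 3) :=
            mul_le_mul_of_nonneg_right h64 (by positivity)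
        _ = D ^ (3 + (3 * N + 3)) := (pow_add _ _ _).symm
        _ ≤ D ^ (9 * (4 * N0 - 3 * N)) := pow_le_pow_right₀ hD1 (by omega)
        _ ≤ _ := hpowX _

theorem pair_same_u : ∃ C : ℕ, ∀ q : ℕ, 3 ≤ q → ∀ z n1 n2 k u y : ℕ, q ^ C ≤ z → 1 ≤ n1 →
    2 * n1 ≤ n2 → n2 = n1 + q * k → u ^ q = NL.rep z n1 → y ^ q = NL.rep z n2 → False := by
  refine ⟨90, fun q hq z n1 n2 k u y hz hn1 hn2 hk hu hy => ?_⟩
  obtain ⟨a, b, hab, hind⟩ := pade_explicit q (by omega)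
  have hq3 : (3 : ℝ) ≤ q := by exact_mod_cast hq
  set D : ℝ := 16 * (q : ℝ) ^ 2 with hD
  have hD4 : 4 ≤ D := by
    rw [hD]
    nlinarith
  have hD0 : 0 < D := by linarith
  have hD1 : 1 ≤ D := by linarith
  have hDq : D ≤ (q : ℝ) ^ 5 := by
    have h1 : (16 : ℝ) ≤ (q : ℝ) ^ 3 := by
      have h2 : (3 : ℝ) ^ 3 ≤ (q : ℝ) ^ 3 := pow_le_pow_left₀ (by norm_num) hq3 3
      linarith
    calc D = 16 * (q : ℝ) ^ 2 := hD
      _ ≤ (q : ℝ) ^ 3 * (q : ℝ) ^ 2 := mul_le_mul_of_nonneg_right h1 (by positivity)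
      _ = (q : ℝ) ^ 5 := by ring
  have hzD : D ^ 18 ≤ (z : ℝ) := by
    have h1 : D ^ 18 ≤ ((q : ℝ) ^ 5) ^ 18 := pow_le_pow_left₀ hD0.le hDq 18
    have h2 : ((q : ℝ) ^ 5) ^ 18 = (q : ℝ) ^ 90 := by rw [← pow_mul]
    have h3 : (q : ℝ) ^ 90 ≤ (z : ℝ) := by exact_mod_cast hz
    linarith
  have hz2 : 2 ≤ z := by
    have h1 : D ^ 1 ≤ D ^ 18 := pow_le_pow_right₀ hD1 (by norm_num)
    rw [pow_one] at h1
    have h2 : (2 : ℝ) ≤ z := by linarith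
    exact_mod_cast h2
  obtain ⟨N0, hN0⟩ := SameU_range hD4 hzD hn1 hn2
  set X1 : ℝ := (z : ℝ) ^ n1 with hX1
  have hX10 : 0 < X1 := by
    have : (0 : ℝ) < z := by exact_mod_cast (by omega : 0 < z)
    positivity
  have hxn : 2 ≤ z ^ n1 := by
    calc 2 ≤ z := hz2
      _ = z ^ 1 := (pow_one z).symm
      _ ≤ z ^ n1 := Nat.pow_le_pow_right (by omega) hn1
  have hcast : ((z ^ n1 : ℕ) : ℝ) = X1 := by rw [hX1]; push_cast; rfl
  have hb : ∀ N : ℕ, |(b N (z ^ n1) : ℝ)| ≤ D ^ (N + 1) * X1 ^ N := fun N => by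
    have h1 := (hab N (z ^ n1) hxn).1
    rw [hcast] at h1
    exact h1
  have ha : ∀ N : ℕ, |(a N (z ^ n1) : ℝ) - (1 - 1 / X1) ^ ((1 : ℝ) / q) * (b N (z ^ n1) : ℝ)| ≤
      D ^ (N + 1) / X1 ^ (N + 1) := fun N => by
    have h1 := (hab N (z ^ n1) hxn).2
    rw [hcast] at h1
    exact h1
  have e0 := SameU_zero (N := N0) hq hz2 hn1 hk hu hy hD4 (hN0 _ le_rfl (by omega)).1
    (hN0 _ le_rfl (by omega)).2 (hb _) (ha _)
  have e1 := SameU_zero (N := N0 + 1) hq hz2 hn1 hk hu hy hD4 (hN0 _ (by omega) le_rfl).1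
    (hN0 _ (by omega) le_rfl).2 (hb _) (ha _)
  have hy0 : (y : ℤ) ≠ 0 := by
    intro h0
    have h1 : y = 0 := by exact_mod_cast h0
    have h2 := NL.rep_pos (x := z) (n := n2) (by omega)
    rw [← hy, h1, zero_pow (by omega)] at h2
    exact lt_irrefl _ h2
  apply hind N0 (z ^ n1) hxn
  have h3 : (y : ℤ) * (a N0 (z ^ n1) * b (N0 + 1) (z ^ n1)) =
      y * (a (N0 + 1) (z ^ n1) * b N0 (z ^ n1)) := by
    linear_combination (b (N0 + 1) (z ^ n1)) * e0 - (b N0 (z ^ n1)) * e1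
  exact mul_left_cancel₀ hy0 h3

end Pool.Agent.NLE
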