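import Pool.Agent.NL.Defs

/-!
# NLE-SmallU: two q-th power repunits force `q < 4 n1 n2` (elementary)

PLAN.  Let `q ≥ 4 n1 n2`.  `A = y ^ (n1-1)`, `B = u ^ (n2-1)`, so `A^q = rep(z,n2)^(n1-1)`,
`B^q = rep(z,n1)^(n2-1)`.  (1) `A < B`: `rep(z,n2)^(n1-1) < rep(z,n1)^(n2-1)` for `2 ≤ n1 < n2`, `z ≥ 2`: by
induction on `b = n2 - 1 ≥ a = n1 - 1`, `r_a = rep z (a+1)`: `r_{b+1} = z r_b + 1`, claim `r_b^a ≤ r_a^b`
(equality at `b = a`) gives `r_{b+1}^a = r_b^a (z + 1/r_b)^a < r_a r_a^b`, because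
`(z + 1/r_a)^a < r_a`: `(z + 1/r_a)^a = z^a (1 + 1/(z r_a))^a`, `a/(z r_a) ≤ 1/(2z)` (`r_a ≥ 2^a ≥ 2a`.. ok
for `a ≥ 1` as `r_a ≥ 2^(a+1) - 1`), `(1+e)^a ≤ 1/(1 - a e) < 1 + 1/z`, `r_a ≥ z^a + z^(a-1)`.
(2) `B^q (z-1)^(n2-n1) ≤ A^q z^(n2-n1)`: `(z^n1-1)^(n2-1) (z-1)^(n1-1) (z-1)^(n2-n1) ≤
(z^n2-1)^(n1-1) (z-1)^(n2-1) z^(n2-n1)`, i.e. `(1 - z^(-n1))^(n2-1) ≤ (1 - z^(-n2))^(n1-1)`, true since
`z^(-n2) ≤ z^(-n1)` and `n1 ≤ n2`.  Hence `B/A ≤ (z/(z-1))^((n2-n1)/q) ≤ 1 + 4 n2/(q z)`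
(`(1 + 4 n2/(qz))^q ≥ 1 + 4 n2/z + ... ≥ (z/(z-1))^(n2-n1)`: use `log (z/(z-1)) ≤ 1/(z-1) ≤ 2/z` and
`q log (1 + x) ≥ q x/2` for `0 ≤ x = 4 n2/(qz) ≤ 1`).
(3) `1 ≤ B - A ≤ 4 n2 A/(q z)` so `A ≥ q z/(4 n2) ≥ n1 z ≥ z`; but `A^q = rep(z,n2)^(n1-1) < z^(n2 n1) ≤ z^q`:
contradiction.
-/

namespace Pool.Agent.NLE

private theorem SmallU_bern {x : ℝ} (hx : 1 ≤ x) (m : ℕ) :
    x ^ m * (x - (m + 1)) ≤ (x - 1) ^ (m + 1) := by
  induction m with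
  | zero => simp
  | succ m ih =>
    have h0 : 0 ≤ x ^ m := by positivity
    have h1 : (x - 1) * (x ^ m * (x - (m + 1))) ≤ (x - 1) * (x - 1) ^ (m + 1) :=
      mul_le_mul_of_nonneg_left ih (by linarith)
    have h2 : x ^ (m + 1) * (x - (((m + 1 : ℕ) : ℝ) + 1)) =
        (x - 1) * (x ^ m * (x - (m + 1))) - x ^ m * (m + 1) := by
      push_cast
      ring
    have h3 : (x - 1) ^ (m + 1 + 1) = (x - 1) * (x - 1) ^ (m + 1) := by ring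
    rw [h2, h3]
    have h4 : 0 ≤ x ^ m * ((m : ℝ) + 1) := by positivity
    linarith

private theorem SmallU_geom {z : ℕ} (hz : 2 ≤ z) (n : ℕ) :
    (NL.rep z n : ℝ) * ((z : ℝ) - 1) = (z : ℝ) ^ n - 1 := by
  obtain ⟨w, rfl⟩ := Nat.exists_eq_add_of_le' (show 1 ≤ z by omega)
  have h1 := geom_sum_mul_add w n
  have h2 : (NL.rep (w + 1) n : ℝ) * (w : ℝ) + 1 = ((w : ℝ) + 1) ^ n := by
    unfold NL.rep
    exact_mod_cast h1
  push_cast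
  linarith

private theorem SmallU_low (z n : ℕ) : z ^ n ≤ NL.rep z (n + 1) := by
  unfold NL.rep
  rw [Finset.sum_range_succ]
  exact Nat.le_add_left _ _

private theorem SmallU_low2 (z n : ℕ) : z ^ n * (z + 1) ≤ NL.rep z (n + 2) := by
  unfold NL.rep
  rw [Finset.sum_range_succ, Finset.sum_range_succ]
  have h : z ^ n * (z + 1) = z ^ n + z ^ (n + 1) := by ring
  rw [h]
  omega

/-- `n1 = a + 2`, `n2 = a + 3 + d` -/
private theorem SmallU_i {z a d : ℕ} (hz : 2 ≤ z) (ha : a + 2 ≤ z) :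
    (NL.rep z (a + 3 + d) : ℝ) ^ (a + 1) < (NL.rep z (a + 2) : ℝ) ^ (a + 2 + d) := by
  have hZ : (2 : ℝ) ≤ z := by exact_mod_cast hz
  have haZ : (a : ℝ) + 2 ≤ z := by exact_mod_cast ha
  have hZ1 : (0 : ℝ) < (z : ℝ) - 1 := by linarith
  have hpos : (0 : ℝ) < ((z : ℝ) - 1) ^ (a + 1) := by positivity
  have g2 := SmallU_geom hz (a + 3 + d)
  have hR2 : (0 : ℝ) ≤ (NL.rep z (a + 3 + d) : ℝ) := by positivity
  have e1 : (NL.rep z (a + 3 + d) : ℝ) ^ (a + 1) * ((z : ℝ) - 1) ^ (a + 1) <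
      ((z : ℝ) ^ (a + 3 + d)) ^ (a + 1) := by
    rw [← mul_pow]
    refine pow_lt_pow_left₀ ?_ (mul_nonneg hR2 hZ1.le) (by omega)
    rw [g2]
    linarith
  have l1 : (z : ℝ) ^ a * ((z : ℝ) + 1) ≤ (NL.rep z (a + 2) : ℝ) := by
    exact_mod_cast SmallU_low2 z a
  have e2 : ((z : ℝ) ^ a * ((z : ℝ) + 1)) ^ (a + 2 + d) ≤ (NL.rep z (a + 2) : ℝ) ^ (a + 2 + d) :=
    pow_le_pow_left₀ (by positivity) l1 _
  have e3 : ((z : ℝ) ^ (a + 3 + d)) ^ (a + 1) ≤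
      ((z : ℝ) ^ a * ((z : ℝ) + 1)) ^ (a + 2 + d) * ((z : ℝ) - 1) ^ (a + 1) := by
    have b1 := SmallU_bern (x := (z : ℝ) ^ 2) (by nlinarith) a
    have b2 : ((z : ℝ) ^ 2 - 1) ^ (a + 1) = ((z : ℝ) + 1) ^ (a + 1) * ((z : ℝ) - 1) ^ (a + 1) := by
      rw [← mul_pow]
      congr 1
      ring
    have b3 : (z : ℝ) ^ d ≤ ((z : ℝ) + 1) ^ d := pow_le_pow_left₀ (by positivity) (by linarith) _
    have b4 : (z : ℝ) ^ 3 ≤ ((z : ℝ) ^ 2 - (a + 1)) * ((z : ℝ) + 1) := by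
      nlinarith
    have b5 : ((z : ℝ) ^ 2) ^ a * (z : ℝ) ^ 3 ≤ ((z : ℝ) ^ 2 - 1) ^ (a + 1) * ((z : ℝ) + 1) := by
      calc ((z : ℝ) ^ 2) ^ a * (z : ℝ) ^ 3 ≤
          ((z : ℝ) ^ 2) ^ a * (((z : ℝ) ^ 2 - (a + 1)) * ((z : ℝ) + 1)) :=
            mul_le_mul_of_nonneg_left b4 (by positivity)
        _ = (((z : ℝ) ^ 2) ^ a * ((z : ℝ) ^ 2 - (a + 1))) * ((z : ℝ) + 1) := by ring
        _ ≤ ((z : ℝ) ^ 2 - 1) ^ (a + 1) * ((z : ℝ) + 1) :=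
            mul_le_mul_of_nonneg_right b1 (by positivity)
    have b6 : ((z : ℝ) ^ (a + 3 + d)) ^ (a + 1) =
        ((z : ℝ) ^ a) ^ (a + 2 + d) * (((z : ℝ) ^ 2) ^ a * (z : ℝ) ^ 3 * (z : ℝ) ^ d) := by
      rw [← pow_mul, ← pow_mul, ← pow_mul, ← pow_add, ← pow_add, ← pow_add]
      congr 1
      ring
    have b7 : ((z : ℝ) ^ a * ((z : ℝ) + 1)) ^ (a + 2 + d) * ((z : ℝ) - 1) ^ (a + 1) =
        ((z : ℝ) ^ a) ^ (a + 2 + d) *
          (((z : ℝ) ^ 2 - 1) ^ (a + 1) * ((z : ℝ) + 1) * ((z : ℝ) + 1) ^ d) := by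
      rw [b2, mul_pow]
      ring
    rw [b6, b7]
    refine mul_le_mul_of_nonneg_left ?_ (by positivity)
    exact mul_le_mul b5 b3 (by positivity)
      (mul_nonneg (pow_nonneg (by nlinarith) _) (by positivity))
  have e4 : (NL.rep z (a + 3 + d) : ℝ) ^ (a + 1) * ((z : ℝ) - 1) ^ (a + 1) <
      (NL.rep z (a + 2) : ℝ) ^ (a + 2 + d) * ((z : ℝ) - 1) ^ (a + 1) :=
    e1.trans_le (e3.trans (mul_le_mul_of_nonneg_right e2 hpos.le))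
  exact lt_of_mul_lt_mul_right e4 hpos.le

private theorem SmallU_ii {z a d : ℕ} (hz : 2 ≤ z) :
    (NL.rep z (a + 2) : ℝ) ^ (a + 2 + d) * ((z : ℝ) - ((a + 2 + d : ℕ) : ℝ)) <
      z * (NL.rep z (a + 3 + d) : ℝ) ^ (a + 1) := by
  have hZ : (2 : ℝ) ≤ z := by exact_mod_cast hz
  have hZ1 : (0 : ℝ) < (z : ℝ) - 1 := by linarith
  have g1 := SmallU_geom hz (a + 2)
  have hR1 : (0 : ℝ) ≤ (NL.rep z (a + 2) : ℝ) := by positivity
  have e1 : (NL.rep z (a + 2) : ℝ) ^ (a + 2 + d) * ((z : ℝ) - 1) ^ (a + 2 + d) <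
      ((z : ℝ) ^ (a + 2)) ^ (a + 2 + d) := by
    rw [← mul_pow]
    refine pow_lt_pow_left₀ ?_ (mul_nonneg hR1 hZ1.le) (by omega)
    rw [g1]
    linarith
  have b1 := SmallU_bern (x := (z : ℝ)) (by linarith) (a + 1 + d)
  have b2 : (z : ℝ) ^ (a + 1 + d) * ((z : ℝ) - ((a + 2 + d : ℕ) : ℝ)) ≤
      ((z : ℝ) - 1) ^ (a + 2 + d) := by
    have h1 : (((a + 1 + d : ℕ) : ℝ) + 1) = ((a + 2 + d : ℕ) : ℝ) := by
      push_cast
      ring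
    have h2 : a + 1 + d + 1 = a + 2 + d := by ring
    rw [h1, h2] at b1
    exact b1
  have e2 : (NL.rep z (a + 2) : ℝ) ^ (a + 2 + d) *
      ((z : ℝ) ^ (a + 1 + d) * ((z : ℝ) - ((a + 2 + d : ℕ) : ℝ))) <
        ((z : ℝ) ^ (a + 2)) ^ (a + 2 + d) :=
    (mul_le_mul_of_nonneg_left b2 (by positivity)).trans_lt e1
  have l1 : (z : ℝ) ^ (a + 2 + d) ≤ (NL.rep z (a + 3 + d) : ℝ) := by
    have h1 := SmallU_low z (a + 2 + d)
    have h2 : a + 2 + d + 1 = a + 3 + d := by ring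
    rw [h2] at h1
    exact_mod_cast h1
  have e3 : ((z : ℝ) ^ (a + 2 + d)) ^ (a + 1) ≤ (NL.rep z (a + 3 + d) : ℝ) ^ (a + 1) :=
    pow_le_pow_left₀ (by positivity) l1 _
  have hzp : (0 : ℝ) < (z : ℝ) ^ (a + 1 + d) := by positivity
  have e4 : ((z : ℝ) ^ (a + 2)) ^ (a + 2 + d) =
      (z : ℝ) ^ (a + 1 + d) * (z * ((z : ℝ) ^ (a + 2 + d)) ^ (a + 1)) := by
    rw [← pow_mul, ← pow_mul, ← pow_succ', ← pow_add]
    congr 1
    ring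
  have e5 : (z : ℝ) ^ (a + 1 + d) * ((NL.rep z (a + 2) : ℝ) ^ (a + 2 + d) *
      ((z : ℝ) - ((a + 2 + d : ℕ) : ℝ))) <
      (z : ℝ) ^ (a + 1 + d) * (z * (NL.rep z (a + 3 + d) : ℝ) ^ (a + 1)) := by
    have h1 : (z : ℝ) ^ (a + 1 + d) * ((NL.rep z (a + 2) : ℝ) ^ (a + 2 + d) *
      ((z : ℝ) - ((a + 2 + d : ℕ) : ℝ))) = (NL.rep z (a + 2) : ℝ) ^ (a + 2 + d) *
      ((z : ℝ) ^ (a + 1 + d) * ((z : ℝ) - ((a + 2 + d : ℕ) : ℝ))) := by ring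
    rw [h1]
    refine e2.trans_le ?_
    rw [e4]
    exact mul_le_mul_of_nonneg_left (mul_le_mul_of_nonneg_left e3 (by positivity)) hzp.le
  exact lt_of_mul_lt_mul_left e5 hzp.le

theorem small_u {q z n1 n2 u y : ℕ} (hz : 2 ≤ z) (h1 : 2 ≤ n1) (h12 : n1 < n2)
    (hu : u ^ q = NL.rep z n1) (hy : y ^ q = NL.rep z n2) : q < 4 * n1 * n2 := by
  by_contra hq
  have hq : 4 * n1 * n2 ≤ q := not_lt.1 hq
  obtain ⟨a, rfl⟩ := Nat.exists_eq_add_of_le' h1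
  obtain ⟨d, rfl⟩ := Nat.exists_eq_add_of_le' (show a + 3 ≤ n2 by omega)
  have hn2 : d + (a + 3) = a + 3 + d := by ring
  rw [hn2] at hq hy h12
  have hq0 : 0 < q := lt_of_lt_of_le (by positivity) hq
  -- `z` is large
  have hrep : NL.rep z (a + 2) < z ^ (a + 2) := by
    unfold NL.rep
    exact Nat.geomSum_lt hz (fun k hk => Finset.mem_range.1 hk)
  have hrep2 : NL.rep z (a + 3 + d) < z ^ (a + 3 + d) := by
    unfold NL.rep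
    exact Nat.geomSum_lt hz (fun k hk => Finset.mem_range.1 hk)
  have hu2 : 2 ≤ u := by
    by_contra h
    have h2 : u ≤ 1 := by omega
    have h3 : u ^ q ≤ 1 := Nat.pow_le_one_iff hq0.ne' |>.2 h2
    have h4 := SmallU_low2 z a
    have h5 : 1 ≤ z ^ a := Nat.one_le_pow _ _ (by omega)
    have h6 : 1 * (z + 1) ≤ z ^ a * (z + 1) := Nat.mul_le_mul_right _ h5
    omega
  have hzl : 2 ^ (4 * (a + 3 + d)) < z := by
    have h2 : (2 ^ (4 * (a + 3 + d))) ^ (a + 2) < z ^ (a + 2) := by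
      calc (2 ^ (4 * (a + 3 + d))) ^ (a + 2) = 2 ^ (4 * (a + 2) * (a + 3 + d)) := by
            rw [← pow_mul]
            congr 1
            ring
        _ ≤ 2 ^ q := Nat.pow_le_pow_right (by norm_num) hq
        _ ≤ u ^ q := Nat.pow_le_pow_left hu2 q
        _ = NL.rep z (a + 2) := hu
        _ < z ^ (a + 2) := hrep
    exact lt_of_pow_lt_pow_left₀ _ (Nat.zero_le _) h2
  have hz4 : 4 * (a + 3 + d) < z := (Nat.lt_two_pow_self).trans hzl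
  have i1 := SmallU_i (z := z) (a := a) (d := d) hz (by omega)
  have i2 := SmallU_ii (z := z) (a := a) (d := d) hz
  -- the two numbers
  have hA : (y ^ (a + 1)) ^ q = NL.rep z (a + 3 + d) ^ (a + 1) := by
    rw [← hy, ← pow_mul, ← pow_mul, mul_comm]
  have hB : (u ^ (a + 2 + d)) ^ q = NL.rep z (a + 2) ^ (a + 2 + d) := by
    rw [← hu, ← pow_mul, ← pow_mul, mul_comm]
  have hAB : (y ^ (a + 1)) ^ q < (u ^ (a + 2 + d)) ^ q := by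
    rw [hA, hB]
    exact_mod_cast i1
  have hAB' : y ^ (a + 1) < u ^ (a + 2 + d) := lt_of_pow_lt_pow_left₀ q (Nat.zero_le _) hAB
  have hAz : y ^ (a + 1) ≤ z := by
    have h2 : (y ^ (a + 1)) ^ q ≤ z ^ q := by
      rw [hA]
      calc NL.rep z (a + 3 + d) ^ (a + 1) ≤ (z ^ (a + 3 + d)) ^ (a + 1) :=
            Nat.pow_le_pow_left hrep2.le _
        _ = z ^ ((a + 3 + d) * (a + 1)) := by rw [← pow_mul]
        _ ≤ z ^ q := by
            refine Nat.pow_le_pow_right (by omega) (le_trans ?_ hq)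
            nlinarith
    exact (Nat.pow_le_pow_iff_left hq0.ne').1 h2
  obtain ⟨A, hAdef⟩ : ∃ A, A = y ^ (a + 1) := ⟨_, rfl⟩
  rw [← hAdef] at hA hAB' hAz
  have hBq : (A + 1) ^ q ≤ NL.rep z (a + 2) ^ (a + 2 + d) := by
    rw [← hB]
    exact Nat.pow_le_pow_left hAB' q
  obtain ⟨q', rfl⟩ := Nat.exists_eq_add_of_le' (show 1 ≤ q by omega)
  have hbin : A ^ (q' + 1) + (q' + 1) * A ^ q' ≤ (A + 1) ^ (q' + 1) := by
    have key : ∀ m : ℕ, A ^ (m + 1) + (m + 1) * A ^ m ≤ (A + 1) ^ (m + 1) := by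
      intro m
      induction m with
      | zero => simp
      | succ m ih =>
        calc A ^ (m + 1 + 1) + (m + 1 + 1) * A ^ (m + 1)
            ≤ (A ^ (m + 1) + (m + 1) * A ^ m) * (A + 1) := by
              have : (A ^ (m + 1) + (m + 1) * A ^ m) * (A + 1) =
                A ^ (m + 1 + 1) + (m + 1 + 1) * A ^ (m + 1) + (m + 1) * A ^ m := by ring
              rw [this]
              exact Nat.le_add_right _ _
          _ ≤ (A + 1) ^ (m + 1) * (A + 1) := Nat.mul_le_mul_right _ ih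
          _ = (A + 1) ^ (m + 1 + 1) := by ring
    exact key q'
  -- real numbers
  obtain ⟨P, hP⟩ : ∃ P : ℝ, P = (NL.rep z (a + 3 + d) : ℝ) ^ (a + 1) := ⟨_, rfl⟩
  obtain ⟨R, hR⟩ : ∃ R : ℝ, R = (NL.rep z (a + 2) : ℝ) ^ (a + 2 + d) := ⟨_, rfl⟩
  obtain ⟨m, hm⟩ : ∃ m : ℝ, m = ((a + 2 + d : ℕ) : ℝ) := ⟨_, rfl⟩
  rw [← hP, ← hR, ← hm] at i2
  have hPA : (A : ℝ) ^ (q' + 1) = P := by
    rw [hP]
    exact_mod_cast hA
  have hP0 : 0 < P := by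
    rw [hP]
    have h3 := SmallU_low z (a + 2 + d)
    have h4 : a + 2 + d + 1 = a + 3 + d := by ring
    rw [h4] at h3
    have h5 : 1 ≤ z ^ (a + 2 + d) := Nat.one_le_pow _ _ (by omega)
    have h6 : 0 < NL.rep z (a + 3 + d) := by omega
    have h7 : (0 : ℝ) < (NL.rep z (a + 3 + d) : ℝ) := by exact_mod_cast h6
    positivity
  have hR1 : (A : ℝ) ^ (q' + 1) + ((q' : ℝ) + 1) * (A : ℝ) ^ q' ≤ R := by
    rw [hR]
    exact_mod_cast hbin.trans hBq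
  have hAZ : (A : ℝ) ≤ z := by exact_mod_cast hAz
  have hRz : P * ((z : ℝ) + (q' + 1)) ≤ R * z := by
    have h3 : (0 : ℝ) ≤ (A : ℝ) ^ q' := by positivity
    have h4 : ((A : ℝ) ^ (q' + 1) + ((q' : ℝ) + 1) * (A : ℝ) ^ q') * z ≤ R * z :=
      mul_le_mul_of_nonneg_right hR1 (by positivity)
    have h5 : P * ((z : ℝ) + (q' + 1)) =
        ((A : ℝ) ^ (q' + 1)) * z + ((q' : ℝ) + 1) * (A : ℝ) ^ q' * A := by
      rw [← hPA]
      ring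
    have h6 : ((q' : ℝ) + 1) * (A : ℝ) ^ q' * A ≤ ((q' : ℝ) + 1) * (A : ℝ) ^ q' * z :=
      mul_le_mul_of_nonneg_left hAZ (by positivity)
    linarith
  have hmz : 4 * m < z := by
    rw [hm]
    have h3 : 4 * (a + 2 + d) < z := by omega
    exact_mod_cast h3
  have hmq : 8 * m ≤ (q' : ℝ) + 1 := by
    rw [hm]
    have h3 : 8 * (a + 2 + d) ≤ q' + 1 := by nlinarith
    exact_mod_cast h3
  have hm0 : 0 < m := by
    rw [hm]
    positivity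
  have hzm : 0 < (z : ℝ) - m := by linarith
  have f1 : P * ((z : ℝ) + (q' + 1)) * ((z : ℝ) - m) < z * P * z := by
    calc P * ((z : ℝ) + (q' + 1)) * ((z : ℝ) - m) ≤ R * z * ((z : ℝ) - m) :=
          mul_le_mul_of_nonneg_right hRz hzm.le
      _ = R * ((z : ℝ) - m) * z := by ring
      _ < z * P * z := mul_lt_mul_of_pos_right i2 (by linarith)
  have f2 : P * (((z : ℝ) + (q' + 1)) * ((z : ℝ) - m)) < P * (z * z) := by
    linarith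
  have f3 : ((z : ℝ) + (q' + 1)) * ((z : ℝ) - m) < z * z := lt_of_mul_lt_mul_left f2 hP0.le
  nlinarith

end Pool.Agent.NLE
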