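import Pool.Agent.NL.Two

/-!
# NLE-SqOdd: square repunits with an odd number of digits

PLAN.  `n = 2 k + 1`, `X = x^k`, `x X^2 - (x-1) y^2 = 1`, so `X = PX x j` (`NL.pell_sol`), `j ≥ 1` (`X > 1 = PX x 0`).
`k = 1`: `x^2 < x^2 + x + 1 < (x+1)^2`.  So `k ≥ 2`.  `NL.two_odd`: every prime factor of `x` is `< 5`.  `x` is
odd: `PX x j ≡ ± (2j+1) mod x` (`NL.PX_mod_sq`, or induction: `PX x j ≡ (-1)^j (2j+1) mod x`) is odd if `x` is
even, but `x^k` is even.  So `x = 3^a`, `a ≥ 1`, `X` a power of 3.  If a prime `p ≥ 5` divides `2j+1`: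
`i = (p-1)/2`, `PX x i ∣ PX x j` (`NL.PX_dvd`), so `PX x i` is a power of 3, but `PX x i ≡ ±p mod 3`, so
`PX x i = 1`, contradicting `NL.PX_mono`.  So `2j+1 = 3^c`, `c ≥ 1` and `PX x 1 = 4 x - 3 = 3 (4 3^(a-1) - 1)`
divides a power of 3: `a = 1`, `x = 3`.  If `c ≥ 2` then `PX 3 4 = 8721 = 27 * 17 * 19` divides a power of 3:
no.  So `j = 1`, `X = 9 = 3^k`, `k = 2`, `n = 5`.
-/

namespace Pool.Agent.NLE

open NL

private theorem SqOdd_PX_odd (x : ℤ) (j : ℕ) : PX x j % 2 = 1 := by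
  induction j using Nat.twoStepInduction with
  | zero => rfl
  | one =>
    have : PX x 1 = 4 * x - 3 := rfl
    rw [this]; omega
  | more j ih1 ih2 =>
    have h1 : PX x (j + 2) = (4 * x - 2) * PX x (j + 1) - PX x j := rfl
    have h2 : PX x (j + 2) = 2 * ((2 * x - 1) * PX x (j + 1)) - PX x j := by rw [h1]; ring
    omega

private theorem SqOdd_PX_mod (x : ℤ) (j : ℕ) : x ∣ PX x j - (-1) ^ j * (2 * j + 1) := by
  induction j using Nat.twoStepInduction with
  | zero => simp [PX]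
  | one => exact ⟨4, by simp only [PX]; push_cast; ring⟩
  | more j ih1 ih2 =>
    obtain ⟨a, ha⟩ := ih1
    obtain ⟨b, hb⟩ := ih2
    have h1 : PX x (j + 2) = (4 * x - 2) * PX x (j + 1) - PX x j := rfl
    refine ⟨(4 * x - 2) * b - a + 4 * (-1) ^ (j + 1) * (2 * j + 3), ?_⟩
    rw [h1]
    push_cast at ha hb ⊢
    have e1 : ((-1 : ℤ)) ^ (j + 1) = - (-1) ^ j := by ring
    have e2 : ((-1 : ℤ)) ^ (j + 2) = (-1) ^ j := by ring
    rw [e1] at hb ⊢
    rw [e2]
    linear_combination (4 * x - 2) * hb - ha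

private theorem SqOdd_PX_gt {x : ℤ} (hx : 2 ≤ x) (i : ℕ) : 1 < PX x (i + 1) := by
  induction i with
  | zero => exact PX_mono hx 0
  | succ i ih => exact ih.trans (PX_mono hx (i + 1))

/-- a positive integer dividing a power of three and not divisible by three is one -/
private theorem SqOdd_one {m : ℤ} {e : ℕ} (hm : 0 < m) (h : m ∣ 3 ^ e) (h3 : ¬ (3 : ℤ) ∣ m) : m = 1 := by
  have h1 : m.toNat ∣ 3 ^ e := by
    have : ((m.toNat : ℕ) : ℤ) = m := Int.toNat_of_nonneg hm.le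
    have h2 : ((m.toNat : ℕ) : ℤ) ∣ ((3 ^ e : ℕ) : ℤ) := by rw [this]; exact_mod_cast h
    exact_mod_cast h2
  obtain ⟨b, _, hb⟩ := (Nat.dvd_prime_pow Nat.prime_three).1 h1
  have h2 : m = 3 ^ b := by
    have : ((m.toNat : ℕ) : ℤ) = m := Int.toNat_of_nonneg hm.le
    rw [← this, hb]; push_cast; rfl
  rcases Nat.eq_zero_or_pos b with h0 | h0
  · rw [h2, h0]; rfl
  · exfalso
    apply h3
    rw [h2]
    exact dvd_pow_self _ (by omega)

theorem sq_odd {x y n : ℕ} (hx : 1 < x) (hn : n % 2 = 1) (hn1 : 1 < n) (h : y ^ 2 = NL.rep x n) :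
    x = 3 ∧ n = 5 := by
  have hsmall : ∀ p : ℕ, p.Prime → p ∣ x → p < 5 := fun p hp hpx => two_odd hx hn hn1 h hp hpx
  obtain ⟨k, rfl⟩ : ∃ k, n = 2 * k + 1 := ⟨n / 2, by omega⟩
  have hk : 1 ≤ k := by omega
  have hy : 0 < y := by
    rcases Nat.eq_zero_or_pos y with h0 | h0
    · exfalso
      have h1 := rep_pos (x := x) (n := 2 * k + 1) (by omega)
      rw [← h, h0] at h1
      simp at h1
    · exact h0
  have hrep := rep_mul_int x (2 * k + 1)
  rw [← h] at hrep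
  push_cast at hrep
  have heq : (x : ℤ) * ((x : ℤ) ^ k) ^ 2 - ((x : ℤ) - 1) * (y : ℤ) ^ 2 = 1 := by
    have h1 : (x : ℤ) * ((x : ℤ) ^ k) ^ 2 = (x : ℤ) ^ (2 * k + 1) := by
      rw [← pow_mul, pow_succ, mul_comm k 2]; ring
    rw [h1]
    linear_combination -hrep
  have hx2 : (2 : ℤ) ≤ x := by exact_mod_cast hx
  obtain ⟨j, hj⟩ := pell_sol hx2 (X := (x : ℤ) ^ k) (y := (y : ℤ)) (by positivity)
    (by exact_mod_cast hy) heq
  -- `x` is odd
  have hxodd : x % 2 = 1 := by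
    by_contra hc
    have h1 : 2 ∣ x := by omega
    have h2 : (2 : ℤ) ∣ (x : ℤ) ^ k := by
      have : (2 : ℤ) ∣ x := by exact_mod_cast h1
      exact this.trans (dvd_pow_self _ (by omega))
    rw [hj] at h2
    have h3 := SqOdd_PX_odd (x : ℤ) j
    omega
  -- `x` is a power of three
  have hx3 : ∃ a, x = 3 ^ a := by
    have h1 : ∀ p : ℕ, p.Prime → p ∣ x → p = 3 := by
      intro p hp hpx
      have h2 := hsmall p hp hpx
      have h3 := hp.two_le
      interval_cases p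
      · exfalso; omega
      · rfl
      · exact absurd hp (by norm_num)
    exact ⟨_, Nat.eq_prime_pow_of_unique_prime_dvd (by omega) (fun {d} hd hdx => h1 d hd hdx)⟩
  obtain ⟨a, ha⟩ := hx3
  have ha1 : 1 ≤ a := by
    by_contra hc
    have : a = 0 := by omega
    rw [this] at ha
    omega
  have h3x : (3 : ℤ) ∣ x := by
    rw [ha]
    push_cast
    exact dvd_pow_self _ (by omega)
  have hpow : (x : ℤ) ^ k = 3 ^ (a * k) := by
    rw [ha]; push_cast; rw [← pow_mul]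
  have sgn : ∀ (e : ℕ) (a b : ℤ), a ∣ (-1) ^ e * b → a ∣ b := by
    intro e a b hab
    rcases neg_one_pow_eq_or ℤ e with h1 | h1
    · rwa [h1, one_mul] at hab
    · rw [h1] at hab
      have : a ∣ -b := by simpa using hab
      exact (dvd_neg).1 this
  -- 3 divides `2 j + 1`
  have mod3 : ∀ i : ℕ, (3 : ℤ) ∣ PX x i → (3 : ℤ) ∣ 2 * (i : ℤ) + 1 := by
    intro i hi
    have h1 := h3x.trans (SqOdd_PX_mod (x : ℤ) i)
    exact sgn _ _ _ ((dvd_sub_right hi).1 h1)
  have h3j : (3 : ℤ) ∣ 2 * (j : ℤ) + 1 := by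
    apply mod3
    rw [← hj]
    exact h3x.trans (dvd_pow_self _ (by omega))
  have h3jN : 3 ∣ 2 * j + 1 := by exact_mod_cast h3j
  -- divisors of `2 j + 1`
  have key : ∀ i : ℕ, (2 * i + 1) ∣ 2 * j + 1 → PX x i ∣ 3 ^ (a * k) := by
    intro i hi
    obtain ⟨m, hm⟩ := hi
    have hmodd : m % 2 = 1 := by
      by_contra hc
      have : m % 2 = 0 := by omega
      have h1 : ((2 * i + 1) * m) % 2 = 0 := by rw [Nat.mul_mod, this]; simp
      omega
    obtain ⟨k', hk'⟩ : ∃ k', m = 2 * k' + 1 := ⟨m / 2, by omega⟩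
    have hjj : j = (2 * i + 1) * k' + i := by
      rw [hk'] at hm
      have : 2 * j + 1 = 2 * ((2 * i + 1) * k' + i) + 1 := by rw [hm]; ring
      omega
    rw [← hpow, hj, hjj]
    exact PX_dvd _ _ _
  have h2j : ∀ p : ℕ, p.Prime → p ∣ 2 * j + 1 → p = 3 := by
    intro p hp hpj
    by_contra hp3
    have hp2 : p ≠ 2 := by
      rintro rfl
      omega
    have hp5 : 5 ≤ p := by
      have h1 := hp.two_le
      by_contra hc
      push Not at hc
      interval_cases p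
      · exact hp2 rfl
      · exact hp3 rfl
      · exact absurd hp (by norm_num)
    have hpodd : p % 2 = 1 := by
      rcases hp.eq_two_or_odd with h1 | h1
      · exact absurd h1 hp2
      · exact h1
    obtain ⟨i, hi⟩ : ∃ i, p = 2 * i + 1 := ⟨p / 2, by omega⟩
    have h1 := key i (hi ▸ hpj)
    obtain ⟨i', hi'⟩ : ∃ i', i = i' + 1 := ⟨i - 1, by omega⟩
    have h2 : 1 < PX x i := by rw [hi']; exact SqOdd_PX_gt hx2 i'
    have h3 : ¬ (3 : ℤ) ∣ PX x i := by
      intro hc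
      have h4 := mod3 i hc
      have h5 : 3 ∣ p := by
        rw [hi]
        exact_mod_cast h4
      exact hp3 ((Nat.prime_dvd_prime_iff_eq Nat.prime_three hp).1 h5).symm
    have h4 := SqOdd_one (by omega) h1 h3
    omega
  have hc : ∃ c, 2 * j + 1 = 3 ^ c :=
    ⟨_, Nat.eq_prime_pow_of_unique_prime_dvd (by omega) (fun {d} hd hdx => h2j d hd hdx)⟩
  obtain ⟨c, hc⟩ := hc
  -- `x = 3`
  have hxx : x = 3 := by
    have h1 := key 1 (by simpa using h3jN)
    have h2 : PX (x : ℤ) 1 = 4 * x - 3 := rfl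
    rw [h2] at h1
    obtain ⟨b, hb⟩ : ∃ b, a = b + 1 := ⟨a - 1, by omega⟩
    rcases Nat.eq_zero_or_pos b with h0 | h0
    · rw [ha, hb, h0]; norm_num
    · exfalso
      have h3 : (4 * (x : ℤ) - 3) = 3 * (4 * 3 ^ b - 1) := by
        rw [ha, hb]; push_cast; ring
      have h4 : (4 * (3 : ℤ) ^ b - 1) ∣ 3 ^ (a * k) := by
        rw [h3] at h1
        exact (Dvd.intro_left 3 rfl).trans h1
      have h5 : (3 : ℤ) ∣ 3 ^ b := dvd_pow_self _ (by omega)
      have h6 : (0 : ℤ) < 3 ^ b := by positivity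
      have h7 := SqOdd_one (by omega) h4 (by omega)
      omega
  subst hxx
  -- `j = 1`
  have hj1 : j = 1 := by
    rcases Nat.lt_or_ge c 2 with hc2 | hc2
    · interval_cases c
      · omega
      · omega
    · exfalso
      have h9 : 9 ∣ 2 * j + 1 := by
        rw [hc]
        have : (9 : ℕ) = 3 ^ 2 := by norm_num
        rw [this]
        exact pow_dvd_pow 3 hc2
      have h1 := key 4 (by simpa using h9)
      have h2 : PX ((3 : ℕ) : ℤ) 4 = 17 * 513 := by
        simp only [PX]; norm_num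
      rw [h2] at h1
      have h3 : (17 : ℤ) ∣ 3 ^ (a * k) := (Dvd.intro _ rfl).trans h1
      have h4 : (17 : ℕ) ∣ 3 ^ (a * k) := by exact_mod_cast h3
      have h5 := (Nat.Prime.dvd_of_dvd_pow (by norm_num) h4)
      omega
  rw [hj1] at hj
  have h9 : PX ((3 : ℕ) : ℤ) 1 = 9 := by simp only [PX]; norm_num
  rw [h9] at hj
  have h10 : (3 : ℕ) ^ k = 3 ^ 2 := by
    have : ((3 ^ k : ℕ) : ℤ) = 9 := by push_cast; exact_mod_cast hj
    have h11 : (3 : ℕ) ^ k = 9 := by exact_mod_cast this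
    rw [h11]; norm_num
  have h11 := Nat.pow_right_injective (le_refl 3 |>.trans' (by norm_num)) h10
  refine ⟨rfl, ?_⟩
  have : k = 2 := h11
  omega

end Pool.Agent.NLE
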