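import Mathlib

/-!
# NLE-SqQuart: Fermat descent for `a^4 - b^4 = c^2` and two consequences

PLAN.  (1) `a^4 - b^4 = c^2`, `b ≠ 0` implies `c = 0`.  WLOG `a, b > 0` coprime (divide by the gcd), minimal `a`.
(A) `a, b` both odd: `(a^2 - b^2)/2 * (a^2 + b^2)/2 = (c/2)^2`, the factors are coprime:
`a^2 - b^2 = 2 r^2`, `a^2 + b^2 = 2 s^2`, so `a^2 = s^2 + r^2`, `b^2 = s^2 - r^2`, `s^4 - r^4 = (ab)^2`, `s < a`,
`r ≠ 0` unless `c = 0`.  (B) `a` odd, `b` even: primitive Pythagorean triple `c^2 + (b^2)^2 = (a^2)^2`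
(Mathlib `PythagoreanTriple.coprime_classification`): `b^2 = 2 m n`, `a^2 = m^2 + n^2`: `{m, n} = {q^2, 2 p^2}`,
`a^2 = q^4 + 4 p^4`, again a primitive triple `(q^2, 2 p^2, a)`: `p^2 = e f`, `e = g^2`, `f = h^2`, coprime,
`q^2 = g^4 - h^4`, `g < a`, `h ≠ 0` unless `b = 0`, `q ≠ 0`.  (`a` even, `b` odd is impossible modulo 4.)
(2) `X^4 + 1 = 2 v^2`: `v^4 - X^4 = ((X^4 - 1)/2)^2` (`X` odd), so `X^4 = 1` (`X ≠ 0`).
(3) `s^4 - 1 = 2 b^2`: `s` odd, `(s^2 - 1)/... `: `b^2 = (s^2-1) * ((s^2+1)/2)`, coprime factors (`(s^2+1)/2` is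
odd, gcd divides 2), so `s^2 - 1` is a square: `s^2 = 1`, `b = 0`.
-/

namespace Pool.Agent.NLE

private theorem sqQuart_odd {x : ℤ} (hx : x % 2 = 1) : IsCoprime x 2 :=
  ⟨1, -(x / 2), by omega⟩

private theorem sqQuart_sq {m n y : ℤ} (hm : 0 < m) (hc : IsCoprime m n) (h : m * n = y ^ 2) :
    ∃ g : ℤ, m = g ^ 2 := by
  obtain ⟨g, hg | hg⟩ := Int.sq_of_gcd_eq_one (Int.isCoprime_iff_gcd_eq_one.1 hc) h
  · exact ⟨g, hg⟩
  · exfalso
    have h1 : 0 ≤ g ^ 2 := sq_nonneg g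
    linarith

private theorem sqQuart_even {h : ℤ} {A : ℤ} (hh : h ^ 2 = 2 * A) : ∃ k, h = 2 * k := by
  have h1 : Even (h ^ 2) := ⟨A, by rw [hh]; ring⟩
  obtain ⟨k, hk⟩ := (Int.even_pow.1 h1).1
  exact ⟨k, by rw [hk]; ring⟩

private theorem sqQuart_inner {A B h g : ℤ} (hA : 0 < A) (hB : 0 < B) (hc : IsCoprime A B)
    (hA2 : A % 2 = 0) (hB2 : B % 2 = 1) (hh : h ^ 2 = 2 * A * B) (hg : g ^ 2 = A ^ 2 + B ^ 2) :
    ∃ q p : ℤ, IsCoprime q p ∧ q % 2 = 1 ∧ p ≠ 0 ∧ q ^ 4 + 4 * p ^ 4 = g ^ 2 := by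
  obtain ⟨a, ha⟩ : ∃ a, A = 2 * a := ⟨A / 2, by omega⟩
  obtain ⟨k, hk⟩ := sqQuart_even (A := A * B) (by rw [hh]; ring)
  have ha0 : 0 < a := by omega
  have hca : IsCoprime a B := by
    rw [ha] at hc
    exact hc.of_mul_left_right
  have hkk : a * B = k ^ 2 := by
    rw [hk, ha] at hh
    have h1 : 4 * (a * B) = 4 * k ^ 2 := by linear_combination -hh
    linarith
  obtain ⟨p, hp⟩ := sqQuart_sq ha0 hca hkk
  obtain ⟨q, hq⟩ := sqQuart_sq hB hca.symm (by rw [mul_comm]; exact hkk)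
  refine ⟨q, p, ?_, ?_, ?_, ?_⟩
  · rw [hp, hq] at hca
    have h1 : IsCoprime p (q ^ 2) := (IsCoprime.pow_left_iff (by norm_num)).1 hca
    exact ((IsCoprime.pow_right_iff (by norm_num)).1 h1).symm
  · rcases Int.emod_two_eq_zero_or_one q with h1 | h1
    · exfalso
      obtain ⟨e, he⟩ : ∃ e, q = 2 * e := ⟨q / 2, by omega⟩
      have h2 : B = 2 * (2 * e ^ 2) := by rw [hq, he]; ring
      obtain ⟨K, hK⟩ : ∃ K, K = 2 * e ^ 2 := ⟨_, rfl⟩
      rw [← hK] at h2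
      omega
    · exact h1
  · rintro rfl
    rw [hp] at ha0
    norm_num at ha0
  · rw [hg, ha, hp, hq]
    ring

private theorem sqQuart_main (N : ℕ) : ∀ x y z : ℤ, z.natAbs ≤ N → IsCoprime x y → x % 2 = 1 →
    y ≠ 0 → x ^ 4 + 4 * y ^ 4 = z ^ 2 → False := by
  induction N using Nat.strong_induction_on with
  | _ N ih =>
    intro x y z hz hc hx hy h
    have hy2 : 0 < y ^ 2 := by positivity
    have hz0 : 0 < |z| := by
      rw [abs_pos]
      rintro rfl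
      have h1 : 0 ≤ x ^ 4 := by positivity
      have h2 : 0 < y ^ 4 := by positivity
      linarith
    have ht : PythagoreanTriple (x ^ 2) (2 * y ^ 2) |z| := by
      show x ^ 2 * x ^ 2 + 2 * y ^ 2 * (2 * y ^ 2) = |z| * |z|
      rw [abs_mul_abs_self]
      linear_combination h
    have hcop : IsCoprime (x ^ 2) (2 * y ^ 2) :=
      IsCoprime.mul_right (sqQuart_odd hx).pow_left hc.pow
    have hx2 : x ^ 2 % 2 = 1 := by
      rw [pow_two, Int.mul_emod, hx]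
      norm_num
    obtain ⟨m, n, h1, h2, h3, h4, h5, h6⟩ := ht.coprime_classification'
      (Int.isCoprime_iff_gcd_eq_one.1 hcop) hx2 hz0
    have hmn : m * n = y ^ 2 := by linarith
    have hm : 0 < m := by
      rcases h6.lt_or_eq with h7 | h7
      · exact h7
      · exfalso
        rw [← h7, zero_mul] at hmn
        linarith
    have hn : 0 < n := by
      have h7 : 0 < m * n := by rw [hmn]; exact hy2
      exact (mul_pos_iff_of_pos_left hm).1 h7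
    have hcmn : IsCoprime m n := Int.isCoprime_iff_gcd_eq_one.2 h4
    obtain ⟨g, hg⟩ := sqQuart_sq hm hcmn hmn
    obtain ⟨k, hk⟩ := sqQuart_sq hn hcmn.symm (by rw [mul_comm]; exact hmn)
    have ht2 : PythagoreanTriple x (k ^ 2) (g ^ 2) := by
      show x * x + k ^ 2 * k ^ 2 = g ^ 2 * g ^ 2
      rw [← hk, ← hg]
      linear_combination h1
    have hcx : IsCoprime x (k ^ 2) := by
      rw [← hk]
      have h7 : IsCoprime (m ^ 2 + n * (-n)) n := (hcmn.pow_left).add_mul_left_left (-n)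
      have h8 : m ^ 2 + n * (-n) = x ^ 2 := by rw [h1]; ring
      rw [h8] at h7
      exact (IsCoprime.pow_left_iff (by norm_num)).1 h7
    have hg0 : 0 < g ^ 2 := by rw [← hg]; exact hm
    obtain ⟨M, M', k1, k2, k3, k4, k5, k6⟩ := ht2.coprime_classification'
      (Int.isCoprime_iff_gcd_eq_one.1 hcx) hx hg0
    have hMM : 0 < M * M' := by
      have h7 : 0 < k ^ 2 := by rw [← hk]; exact hn
      rw [k2] at h7
      linarith
    have hM : 0 < M := by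
      rcases k6.lt_or_eq with h7 | h7
      · exact h7
      · exfalso
        rw [← h7, zero_mul] at hMM
        exact lt_irrefl _ hMM
    have hM' : 0 < M' := (mul_pos_iff_of_pos_left hM).1 hMM
    have hcM : IsCoprime M M' := Int.isCoprime_iff_gcd_eq_one.2 k4
    obtain ⟨q, p, hqp, hq2, hp0, hqg⟩ : ∃ q p : ℤ, IsCoprime q p ∧ q % 2 = 1 ∧ p ≠ 0 ∧
        q ^ 4 + 4 * p ^ 4 = g ^ 2 := by
      rcases k5 with ⟨h7, h8⟩ | ⟨h7, h8⟩
      · exact sqQuart_inner hM hM' hcM h7 h8 k2 k3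
      · exact sqQuart_inner hM' hM hcM.symm h8 h7 (by rw [k2]; ring) (by rw [k3]; ring)
    have hlt : g.natAbs < z.natAbs := by
      have h7 : (g.natAbs : ℤ) ≤ g ^ 2 := Int.natAbs_le_self_sq g
      have h8 : (z.natAbs : ℤ) = m ^ 2 + n ^ 2 := by rw [Int.natCast_natAbs]; exact h3
      have h9 : m ≤ m ^ 2 := by nlinarith
      have h10 : 0 < n ^ 2 := by positivity
      have h11 : (g.natAbs : ℤ) < (z.natAbs : ℤ) := by
        rw [h8]
        rw [← hg] at h7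
        linarith
      exact_mod_cast h11
    exact ih g.natAbs (lt_of_lt_of_le hlt hz) q p g le_rfl hqp hq2 hp0 hqg

private theorem sqQuart_gen {x y z : ℤ} (hx : x ≠ 0) (hy : y ≠ 0)
    (h : x ^ 4 + 4 * y ^ 4 = z ^ 2) : False := by
  have hpos : 0 < Int.gcd x y := Int.gcd_pos_of_ne_zero_left y hx
  obtain ⟨x1, y1, h1, hx1, hy1⟩ := Int.exists_gcd_one hpos
  obtain ⟨d, hd⟩ : ∃ d : ℤ, d = (Int.gcd x y : ℤ) := ⟨_, rfl⟩
  have hd0 : d ≠ 0 := by
    rw [hd]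
    exact_mod_cast hpos.ne'
  rw [← hd] at hx1 hy1
  have hdz : (d ^ 2) ^ 2 ∣ z ^ 2 := by
    refine ⟨x1 ^ 4 + 4 * y1 ^ 4, ?_⟩
    rw [← h, hx1, hy1]
    ring
  obtain ⟨z1, hz1⟩ := (Int.pow_dvd_pow_iff (by norm_num)).1 hdz
  have h2 : x1 ^ 4 + 4 * y1 ^ 4 = z1 ^ 2 := by
    refine mul_left_cancel₀ (pow_ne_zero 4 hd0) ?_
    rw [hx1, hy1, hz1] at h
    linear_combination h
  have hx10 : x1 ≠ 0 := by
    rintro rfl
    rw [zero_mul] at hx1
    exact hx hx1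
  have hy10 : y1 ≠ 0 := by
    rintro rfl
    rw [zero_mul] at hy1
    exact hy hy1
  have hc : IsCoprime x1 y1 := Int.isCoprime_iff_gcd_eq_one.2 h1
  rcases Int.emod_two_eq_zero_or_one x1 with h3 | h3
  · obtain ⟨x2, hx2⟩ : ∃ x2, x1 = 2 * x2 := ⟨x1 / 2, by omega⟩
    obtain ⟨z2, hz2⟩ := sqQuart_even (h := z1) (A := 8 * x2 ^ 4 + 2 * y1 ^ 4) (by
      rw [← h2, hx2]
      ring)
    have h4 : y1 ^ 4 + 4 * x2 ^ 4 = z2 ^ 2 := by
      rw [hx2, hz2] at h2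
      linarith
    have h5 : y1 % 2 = 1 := by
      rcases Int.emod_two_eq_zero_or_one y1 with h5 | h5
      · exfalso
        obtain ⟨y2, hy2⟩ : ∃ y2, y1 = 2 * y2 := ⟨y1 / 2, by omega⟩
        obtain ⟨u, v, huv⟩ := hc
        rw [hx2, hy2] at huv
        obtain ⟨K, hK⟩ : ∃ K, K = u * x2 + v * y2 := ⟨_, rfl⟩
        have h6 : 2 * K = 1 := by rw [hK, ← huv]; ring
        omega
      · exact h5
    have h6 : IsCoprime y1 x2 := by
      rw [hx2] at hc
      exact hc.of_mul_left_right.symm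
    have h7 : x2 ≠ 0 := by
      rintro rfl
      rw [mul_zero] at hx2
      exact hx10 hx2
    exact sqQuart_main _ y1 x2 z2 le_rfl h6 h5 h7 h4
  · exact sqQuart_main _ x1 y1 z1 le_rfl hc h3 hy10 h2

theorem four_sub_four {a b c : ℤ} (hb : b ≠ 0) (h : a ^ 4 - b ^ 4 = c ^ 2) : c = 0 := by
  by_contra hc
  have ha : a ≠ 0 := by
    rintro rfl
    have h1 : 0 < b ^ 4 := by positivity
    have h2 : 0 < c ^ 2 := by positivity
    norm_num at h
    linarith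
  refine sqQuart_gen (x := c) (y := a * b) (z := a ^ 4 + b ^ 4) hc (mul_ne_zero ha hb) ?_
  have h1 : c ^ 4 = (a ^ 4 - b ^ 4) ^ 2 := by rw [h]; ring
  rw [h1]
  ring

theorem quart_one {X v : ℤ} (h : X ^ 4 + 1 = 2 * v ^ 2) : X ^ 2 = 1 := by
  have hX : X ≠ 0 := by
    rintro rfl
    obtain ⟨K, hK⟩ : ∃ K, K = v ^ 2 := ⟨_, rfl⟩
    rw [← hK] at h
    norm_num at h
    omega
  have h1 : v ^ 4 - X ^ 4 = (v ^ 2 - 1) ^ 2 := by linear_combination -h
  have h2 := four_sub_four hX h1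
  have h3 : v ^ 2 = 1 := by linarith
  have h4 : (X ^ 2) ^ 2 = 1 := by
    rw [h3] at h
    linear_combination h
  have h5 : 0 ≤ X ^ 2 := sq_nonneg X
  nlinarith

theorem quart_two {s b : ℤ} (h : s ^ 4 - 1 = 2 * b ^ 2) : b = 0 := by
  have hs : s % 2 = 1 := by
    rcases Int.emod_two_eq_zero_or_one s with h1 | h1
    · exfalso
      obtain ⟨e, he⟩ : ∃ e, s = 2 * e := ⟨s / 2, by omega⟩
      obtain ⟨K, hK⟩ : ∃ K, K = 8 * e ^ 4 - b ^ 2 := ⟨_, rfl⟩
      have h2 : 2 * K = 1 := by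
        rw [hK]
        rw [he] at h
        linear_combination h
      omega
    · exact h1
  obtain ⟨j, hj⟩ : ∃ j, s = 2 * j + 1 := ⟨s / 2, by omega⟩
  obtain ⟨w, hw⟩ : ∃ w, w = 2 * (j ^ 2 + j) + 1 := ⟨_, rfl⟩
  have h1 : s ^ 2 + 1 = 2 * w := by rw [hj, hw]; ring
  have h2 : (s ^ 2 - 1) * w = b ^ 2 := by
    have h3 : 2 * ((s ^ 2 - 1) * w) = 2 * b ^ 2 := by
      rw [← h, mul_left_comm, ← h1]
      ring
    linarith
  have hw2 : w % 2 = 1 := by
    obtain ⟨K, hK⟩ : ∃ K, K = j ^ 2 + j := ⟨_, rfl⟩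
    rw [← hK] at hw
    omega
  have h3 : IsCoprime (s ^ 2 - 1) w := by
    obtain ⟨u, v, huv⟩ := sqQuart_odd hw2
    have h4 : s ^ 2 - 1 = 2 * w - 2 := by linarith
    rw [h4]
    refine ⟨-v, u + 2 * v, ?_⟩
    linear_combination huv
  have hs0 : 1 ≤ s ^ 2 := by
    have h4 : s ≠ 0 := by omega
    have h5 : 0 < s ^ 2 := by positivity
    linarith
  have h4 : s ^ 2 - 1 = 0 := by
    obtain ⟨e, he | he⟩ := Int.sq_of_gcd_eq_one (Int.isCoprime_iff_gcd_eq_one.1 h3) h2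
    · have h5 : (|s| - |e|) * (|s| + |e|) = 1 := by
        have h6 : |s| ^ 2 = s ^ 2 := sq_abs s
        have h7 : |e| ^ 2 = e ^ 2 := sq_abs e
        have h8 : (|s| - |e|) * (|s| + |e|) = |s| ^ 2 - |e| ^ 2 := by ring
        rw [h8, h6, h7]
        linarith
      have h6 : 0 ≤ |s| := abs_nonneg s
      have h7 : 0 ≤ |e| := abs_nonneg e
      have h8 : |s| + |e| = 1 := by
        rcases Int.isUnit_iff.1 (IsUnit.of_mul_eq_one_right _ h5) with h9 | h9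
        · exact h9
        · exfalso
          linarith
      rw [h8, mul_one] at h5
      have h9 : |e| = 0 := by linarith
      have h10 : e = 0 := abs_eq_zero.1 h9
      rw [he, h10]
      norm_num
    · have h5 : 0 ≤ e ^ 2 := sq_nonneg e
      linarith
  rw [h4, zero_mul] at h2
  exact pow_eq_zero_iff (two_ne_zero) |>.1 h2.symm

end Pool.Agent.NLE
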