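import Pool.Agent.NLE.MainU
import Pool.Agent.NLE.OneU
import Pool.Agent.NLE.SmallU
import Pool.Agent.NLE.CaseB2
import Pool.Agent.NLE.Four
import Pool.Agent.NLE.ReduceU
import Pool.Agent.NLE.LFin

/-!
# NLE-UFin: composite lengths force a bounded exponent
-/

namespace Pool.Agent.NLE

private theorem sq_le_two_pow {n : ℕ} (hn : 4 ≤ n) : n ^ 2 ≤ 2 ^ n := by
  induction n, hn using Nat.le_induction with
  | base => norm_num
  | succ n hn ih =>
    have h1 : (n + 1) ^ 2 ≤ 2 * n ^ 2 := by nlinarith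
    calc (n + 1) ^ 2 ≤ 2 * n ^ 2 := h1
      _ ≤ 2 * 2 ^ n := Nat.mul_le_mul_left _ ih
      _ = 2 ^ (n + 1) := by ring

/-- PART U. -/
theorem partU : ∃ C q1 : ℕ, ∀ q z n y : ℕ, q.Prime → q1 ≤ q → 2 ≤ z → 2 < n → ¬ n.Prime →
    y ^ q = NL.rep z n → z ≤ q ^ C ∧ q ≤ 4 * n ^ 2 := by
  obtain ⟨C1, h1⟩ := pair_large_u
  obtain ⟨C2, h2⟩ := pair_same_u
  refine ⟨C1 + C2 + 100, 40 + 4 * 14080 ^ 3, fun q z n y hq hq1 hz hn hp h => ?_⟩
  have hq40 : 40 ≤ q := by omega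
  have hq3 : 3 ≤ q := by omega
  have hq0 : 0 < q := by omega
  have h4 : ¬ 4 ∣ n := fun h4 => four_dvd hq (by omega) hz (by omega) h4 h
  rcases comp_reduce_u hq hq3 hz hn hp h4 h with ⟨n1, u, hn1, hn12, hnn, hu⟩ | ⟨b, hb, hb2, hbz, hbn⟩
  · have hlt : q < 4 * n1 * n := small_u hz (by omega) (by omega) hu h
    have hn1n : n1 ≤ n := by omega
    have hq4 : q ≤ 4 * n ^ 2 := by
      have : 4 * n1 * n ≤ 4 * n ^ 2 := by
        rw [pow_two, ← mul_assoc]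
        exact Nat.mul_le_mul_right _ (Nat.mul_le_mul_left _ hn1n)
      omega
    refine ⟨?_, hq4⟩
    have hbig : 14080 ≤ n1 := by
      by_contra hcon
      have h5 : n1 ≤ 14080 := by omega
      have h6 : 4 * n1 * n ≤ 4 * 14080 ^ 3 := by
        calc 4 * n1 * n ≤ 4 * n1 * n1 ^ 2 := Nat.mul_le_mul_left _ hnn
          _ = 4 * n1 ^ 3 := by ring
          _ ≤ 4 * 14080 ^ 3 := Nat.mul_le_mul_left _ (Nat.pow_le_pow_left h5 3)
      omega
    by_contra hcon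
    rw [not_le] at hcon
    have hpw : ∀ c : ℕ, c ≤ C1 + C2 + 100 → q ^ c ≤ z := fun c hc =>
      (Nat.pow_le_pow_right hq0 hc).trans hcon.le
    have ha : n1 % q ≠ 1 := fun h5 => fixed_one_u hq3 (hpw 100 (by omega)) (by omega) h5 hu
    have hb : n % q ≠ 1 := fun h5 => fixed_one_u hq3 (hpw 100 (by omega)) (by omega) h5 h
    by_cases hs : n1 % q = n % q
    · obtain ⟨k, hk⟩ := Nat.dvd_of_mod_eq_zero (Nat.sub_mod_eq_zero_of_mod_eq hs.symm)
      exact h2 q hq3 z n1 n k u y (hpw C2 (by omega)) (by omega) hn12 (by omega) hu h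
    · exact h1 q hq hq3 z n1 n u y (hpw C1 (by omega)) hbig hn12
        (hnn.trans (sq_le_two_pow (by omega))) ha hb hs hu h
  · exact absurd h (caseB_large hq hq40 hb hb2 hz hbz (by omega) hbn)

/-- The exponent is bounded. -/
theorem exponent_bounded : ∃ q0 : ℕ, ∀ q z n y : ℕ, q.Prime → q0 ≤ q → 2 ≤ z → 2 < n →
    ¬ n.Prime → y ^ q ≠ NL.rep z n := by
  obtain ⟨C, q1, hU⟩ := partU
  obtain ⟨q0, hL⟩ := partL C
  refine ⟨max q0 q1, fun q z n y hq hq0 hz hn hp h => ?_⟩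
  obtain ⟨h1, h2⟩ := hU q z n y hq ((le_max_right _ _).trans hq0) hz hn hp h
  refine hL q n z y ((le_max_left _ _).trans hq0) hz h1 h2 ?_
  rw [h]
  have h3 := NL.rep_mul (by omega : 1 ≤ z) n
  omega

end Pool.Agent.NLE
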