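import Pool.Agent.NLE.ZRes

/-!
# NLE-ZApp: the polynomial of a combination of the entries

PLAN. `bp a = C (1 / a!) * descPochhammer ℝ a` has degree `≤ a` and takes the value `x.choose a` at the natural
number `x`. `F = ∑ a < K, ∑ b < K, ∑ l < L, C (c a b l • (A_a * B_b)) * X ^ l` with `A_a = (bp a)(U - M V)`
(`(bp a).aeval (C X - C (C M) * X)`, degrees `≤ a` in `V` and in `U`; for `degU` apply `swap`) and
`B_b = (bp b)(V)` (`(bp b).map C`, degree `≤ b` in `V` and `0` in `U`).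
If `F = 0` then for `l < L` and all natural `x, y` (take `U = x + M y`, `V = y`)
`∑ a < K, ∑ b < K, c a b l * x.choose a * y.choose b = 0`; and `∑ a < K, e a * x.choose a = 0` for all natural `x`
implies `e a = 0` for `a < K` (triangular: strong induction on `a`, `x = a`). Apply it twice.
-/

namespace Pool.Agent.NLE.Zer

open Polynomial

/-- the binomial polynomial -/
private noncomputable def ZApp_bp (a : ℕ) : ℝ[X] := C ((a.factorial : ℝ)⁻¹) * descPochhammer ℝ a

private theorem ZApp_bp_deg (a : ℕ) : (ZApp_bp a).natDegree ≤ a := by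
  unfold ZApp_bp
  refine (natDegree_C_mul_le _ _).trans ?_
  rw [descPochhammer_natDegree]

private theorem ZApp_bp_eval (a x : ℕ) : (ZApp_bp a).eval (x : ℝ) = ((x.choose a : ℕ) : ℝ) := by
  unfold ZApp_bp
  rw [eval_mul, eval_C, descPochhammer_eval_eq_descFactorial, Nat.descFactorial_eq_factorial_mul_choose,
    Nat.cast_mul, ← mul_assoc, inv_mul_cancel₀, one_mul]
  exact_mod_cast (Nat.factorial_ne_zero a)

private theorem ZApp_deg_aeval (p : ℝ[X]) (t : P2) (d : ℕ) (ht : t.natDegree ≤ d) :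
    (aeval t p).natDegree ≤ p.natDegree * d := by
  rw [aeval_eq_sum_range]
  refine natDegree_sum_le_of_forall_le _ _ ?_
  intro i hi
  refine (natDegree_smul_le _ _).trans ?_
  refine natDegree_pow_le.trans ?_
  exact Nat.mul_le_mul (by simpa [Nat.lt_succ_iff] using Finset.mem_range.1 hi) ht

private theorem ZApp_swap_aeval (p : ℝ[X]) (t : P2) :
    Bivariate.swap (aeval t p) = aeval (Bivariate.swap t) p := by
  rw [aeval_eq_sum_range, aeval_eq_sum_range, map_sum]
  refine Finset.sum_congr rfl fun i _ => ?_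
  rw [map_smul, map_pow]

private theorem ZApp_ev_aeval (p : ℝ[X]) (t : P2) (a b : ℝ) :
    ev2 a b (aeval t p) = p.eval (ev2 a b t) := by
  rw [aeval_eq_sum_range, eval_eq_sum_range, map_sum]
  refine Finset.sum_congr rfl fun i _ => ?_
  rw [Algebra.smul_def, map_mul, map_pow]
  congr 1
  have h : (algebraMap ℝ P2) (p.coeff i) = C (C (p.coeff i)) := rfl
  rw [h]
  simp [ev2]

/-- `U - M V` -/
private noncomputable def ZApp_t (M : ℕ) : P2 := C X - C (C (M : ℝ)) * X

private theorem ZApp_t_deg (M : ℕ) : (ZApp_t M).natDegree ≤ 1 := by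
  unfold ZApp_t
  refine (natDegree_sub_le _ _).trans (max_le ?_ ?_)
  · rw [natDegree_C]
    exact Nat.zero_le _
  · exact (natDegree_C_mul_le _ _).trans natDegree_X_le

private theorem ZApp_t_degU (M : ℕ) : (Bivariate.swap (ZApp_t M)).natDegree ≤ 1 := by
  unfold ZApp_t
  rw [map_sub, map_mul, Bivariate.swap_X, Bivariate.swap_Y, Bivariate.swap_C_C, ← C_mul]
  refine (natDegree_sub_le _ _).trans (max_le natDegree_X_le ?_)
  rw [natDegree_C]
  exact Nat.zero_le _

private theorem ZApp_t_ev (M : ℕ) (a b : ℝ) : ev2 a b (ZApp_t M) = a - M * b := by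
  unfold ZApp_t ev2
  simp

private noncomputable def ZApp_A (M a : ℕ) : P2 := aeval (ZApp_t M) (ZApp_bp a)

private noncomputable def ZApp_B (b : ℕ) : P2 := aeval (X : P2) (ZApp_bp b)

private theorem ZApp_A_deg (M a : ℕ) : (ZApp_A M a).natDegree ≤ a := by
  refine (ZApp_deg_aeval _ _ 1 (ZApp_t_deg M)).trans ?_
  rw [mul_one]
  exact ZApp_bp_deg a

private theorem ZApp_A_degU (M a : ℕ) : (Bivariate.swap (ZApp_A M a)).natDegree ≤ a := by
  unfold ZApp_A
  rw [ZApp_swap_aeval]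
  refine (ZApp_deg_aeval _ _ 1 (ZApp_t_degU M)).trans ?_
  rw [mul_one]
  exact ZApp_bp_deg a

private theorem ZApp_B_deg (b : ℕ) : (ZApp_B b).natDegree ≤ b := by
  refine (ZApp_deg_aeval _ _ 1 natDegree_X_le).trans ?_
  rw [mul_one]
  exact ZApp_bp_deg b

private theorem ZApp_B_degU (b : ℕ) : (Bivariate.swap (ZApp_B b)).natDegree ≤ 0 := by
  unfold ZApp_B
  rw [ZApp_swap_aeval, Bivariate.swap_Y]
  refine (ZApp_deg_aeval _ _ 0 (by rw [natDegree_C])).trans ?_
  rw [mul_zero]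

private theorem ZApp_A_ev (M a x y : ℕ) :
    ev2 ((x + M * y : ℕ) : ℝ) (y : ℝ) (ZApp_A M a) = ((x.choose a : ℕ) : ℝ) := by
  unfold ZApp_A
  rw [ZApp_ev_aeval, ZApp_t_ev]
  have h : ((x + M * y : ℕ) : ℝ) - M * (y : ℝ) = (x : ℝ) := by push_cast; ring
  rw [h, ZApp_bp_eval]

private theorem ZApp_B_ev (b y : ℕ) (u : ℝ) :
    ev2 u (y : ℝ) (ZApp_B b) = ((y.choose b : ℕ) : ℝ) := by
  unfold ZApp_B
  rw [ZApp_ev_aeval]
  have h : ev2 u (y : ℝ) (X : P2) = (y : ℝ) := by
    unfold ev2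
    simp
  rw [h, ZApp_bp_eval]

/-- the coefficient of `Y ^ l` -/
private noncomputable def ZApp_G (K M : ℕ) (c : ℕ → ℕ → ℕ → ℝ) (l : ℕ) : P2 :=
  ∑ a ∈ Finset.range K, ∑ b ∈ Finset.range K, C (C (c a b l)) * (ZApp_A M a * ZApp_B b)

private theorem ZApp_G_deg (K M : ℕ) (c : ℕ → ℕ → ℕ → ℝ) (l : ℕ) :
    (ZApp_G K M c l).natDegree ≤ 2 * K := by
  unfold ZApp_G
  refine natDegree_sum_le_of_forall_le _ _ fun a ha => ?_
  refine natDegree_sum_le_of_forall_le _ _ fun b hb => ?_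
  refine (natDegree_C_mul_le _ _).trans (natDegree_mul_le.trans ?_)
  have h1 := ZApp_A_deg M a
  have h2 := ZApp_B_deg b
  have h3 := Finset.mem_range.1 ha
  have h4 := Finset.mem_range.1 hb
  omega

private theorem ZApp_G_degU (K M : ℕ) (c : ℕ → ℕ → ℕ → ℝ) (l : ℕ) :
    degU (ZApp_G K M c l) ≤ K := by
  unfold degU ZApp_G
  rw [map_sum]
  refine natDegree_sum_le_of_forall_le _ _ fun a ha => ?_
  rw [map_sum]
  refine natDegree_sum_le_of_forall_le _ _ fun b hb => ?_
  rw [map_mul, map_mul, Bivariate.swap_C_C]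
  refine (natDegree_C_mul_le _ _).trans (natDegree_mul_le.trans ?_)
  have h1 := ZApp_A_degU M a
  have h2 := ZApp_B_degU b
  have h3 := Finset.mem_range.1 ha
  omega

private theorem ZApp_G_ev (K M : ℕ) (c : ℕ → ℕ → ℕ → ℝ) (l x y : ℕ) :
    ev2 ((x + M * y : ℕ) : ℝ) (y : ℝ) (ZApp_G K M c l) =
      ∑ a ∈ Finset.range K, ∑ b ∈ Finset.range K,
        c a b l * ((x.choose a : ℕ) : ℝ) * ((y.choose b : ℕ) : ℝ) := by
  unfold ZApp_G
  rw [map_sum]
  refine Finset.sum_congr rfl fun a _ => ?_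
  rw [map_sum]
  refine Finset.sum_congr rfl fun b _ => ?_
  rw [map_mul, map_mul, ZApp_A_ev, ZApp_B_ev, ← mul_assoc]
  congr 2
  unfold ev2
  simp

private theorem ZApp_tri (K : ℕ) (e : ℕ → ℝ)
    (h : ∀ x : ℕ, ∑ a ∈ Finset.range K, e a * ((x.choose a : ℕ) : ℝ) = 0) :
    ∀ a < K, e a = 0 := by
  intro a
  induction a using Nat.strong_induction_on with
  | _ a ih =>
    intro ha
    have h1 := h a
    rw [Finset.sum_eq_single a] at h1
    · rw [Nat.choose_self, Nat.cast_one, mul_one] at h1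
      exact h1
    · intro b hb hba
      rcases lt_or_gt_of_ne hba with h2 | h2
      · rw [ih b h2 (Finset.mem_range.1 hb), zero_mul]
      · rw [Nat.choose_eq_zero_of_lt h2, Nat.cast_zero, mul_zero]
    · intro h2
      exact absurd (Finset.mem_range.2 ha) h2

/-- the polynomial -/
private noncomputable def ZApp_F (K L M : ℕ) (c : ℕ → ℕ → ℕ → ℝ) : P3 :=
  ∑ l ∈ Finset.range L, C (ZApp_G K M c l) * X ^ l

private theorem ZApp_F_coeff (K L M : ℕ) (c : ℕ → ℕ → ℕ → ℝ) (i : ℕ) :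
    (ZApp_F K L M c).coeff i = if i < L then ZApp_G K M c i else 0 := by
  unfold ZApp_F
  rw [finsetSum_coeff]
  simp only [coeff_C_mul_X_pow]
  rw [Finset.sum_ite_eq]
  simp only [Finset.mem_range]

theorem exists_poly (K L M : ℕ) (hL : 1 ≤ L) (c : ℕ → ℕ → ℕ → ℝ) :
    ∃ F : P3, F.natDegree < L ∧ (∀ i, (F.coeff i).natDegree ≤ 2 * K) ∧ (∀ i, degU (F.coeff i) ≤ K) ∧
      (∀ (Z1 Z3 : ℕ) (z : ℝ), ev3 ((Z1 + M * Z3 : ℕ) : ℝ) (Z3 : ℝ) z F =
        ∑ a ∈ Finset.range K, ∑ b ∈ Finset.range K, ∑ l ∈ Finset.range L,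
          c a b l * ((Z1.choose a : ℕ) : ℝ) * ((Z3.choose b : ℕ) : ℝ) * z ^ l) ∧
      (F = 0 → ∀ a < K, ∀ b < K, ∀ l < L, c a b l = 0) := by
  refine ⟨ZApp_F K L M c, ?_, ?_, ?_, ?_, ?_⟩
  · have h1 : (ZApp_F K L M c).natDegree ≤ L - 1 := by
      unfold ZApp_F
      refine natDegree_sum_le_of_forall_le _ _ fun l hl => ?_
      refine (natDegree_C_mul_X_pow_le _ _).trans ?_
      have := Finset.mem_range.1 hl
      omega
    omega
  · intro i
    rw [ZApp_F_coeff]
    split_ifs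
    · exact ZApp_G_deg K M c i
    · rw [natDegree_zero]
      exact Nat.zero_le _
  · intro i
    rw [ZApp_F_coeff]
    split_ifs
    · exact ZApp_G_degU K M c i
    · unfold degU
      rw [map_zero, natDegree_zero]
      exact Nat.zero_le _
  · intro Z1 Z3 z
    have h1 : ev3 ((Z1 + M * Z3 : ℕ) : ℝ) (Z3 : ℝ) z (ZApp_F K L M c) =
        ∑ l ∈ Finset.range L, (∑ a ∈ Finset.range K, ∑ b ∈ Finset.range K,
          c a b l * ((Z1.choose a : ℕ) : ℝ) * ((Z3.choose b : ℕ) : ℝ)) * z ^ l := by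
      unfold ev3 ZApp_F
      rw [map_sum]
      refine Finset.sum_congr rfl fun l _ => ?_
      rw [map_mul, map_pow, coe_eval₂RingHom, eval₂_C, eval₂_X, ZApp_G_ev]
    rw [h1]
    simp only [Finset.sum_mul]
    rw [Finset.sum_comm]
    refine Finset.sum_congr rfl fun a _ => ?_
    rw [Finset.sum_comm]
  · intro hF a ha b hb l hl
    have hG : ZApp_G K M c l = 0 := by
      have h1 := ZApp_F_coeff K L M c l
      rw [hF, coeff_zero, if_pos hl] at h1
      exact h1.symm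
    have h2 : ∀ x y : ℕ, ∑ a ∈ Finset.range K, (∑ b ∈ Finset.range K,
        c a b l * ((y.choose b : ℕ) : ℝ)) * ((x.choose a : ℕ) : ℝ) = 0 := by
      intro x y
      have h3 := ZApp_G_ev K M c l x y
      rw [hG, map_zero] at h3
      rw [h3]
      refine Finset.sum_congr rfl fun a _ => ?_
      rw [Finset.sum_mul]
      refine Finset.sum_congr rfl fun b _ => ?_
      ring
    have h4 : ∀ y : ℕ, ∑ b ∈ Finset.range K, c a b l * ((y.choose b : ℕ) : ℝ) = 0 :=
      fun y => ZApp_tri K _ (fun x => h2 x y) a ha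
    exact ZApp_tri K _ h4 b hb

end Pool.Agent.NLE.Zer
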