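import Pool.Agent.NLE.ZDefs

/-!
# NLE-ZCop: a combination without a common factor, and the counting of divisors

PLAN `exists_comb`. Let `T` be a finite set of irreducible divisors of `f` such that every irreducible divisor of
`f` is associated to an element of `T` (`UniqueFactorizationMonoid.factors`). For `h ∈ T` the set
`{c : ι → ℝ | h ∣ ∑ b ∈ S, c b • G b}` is a subspace, different from `⊤` (take `c = Pi.single b 1` with
`¬ h ∣ G b`). A finite union of proper subspaces is not everything
(`Subspace.biUnion_ne_univ_of_top_notMem`, ground field infinite). If `c` is outside of the union and `d` is a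
non-unit dividing `f` and the combination, an irreducible factor of `d` gives a contradiction
(`WfDvdMonoid.exists_irreducible_factor`).

PLAN `count_div`. Choose for every value `v ∈ S.image val` a `b ∈ S` with `val b = v`; the corresponding `H b` are
pairwise not associated primes dividing `f`, so their product divides `f` (`Multiset.prod_primes_dvd`), and
`d` of the product is the sum of the `d (H b) ≥ 1`.
-/

namespace Pool.Agent.NLE.Zer

open Polynomial

theorem exists_comb {B : Type*} [CommRing B] [IsDomain B] [UniqueFactorizationMonoid B] [Algebra ℝ B]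
    {ι : Type*} [DecidableEq ι] (S : Finset ι) (G : ι → B) (f : B) (hf : f ≠ 0)
    (hS : ∀ h : B, Irreducible h → h ∣ f → ∃ b ∈ S, ¬ h ∣ G b) :
    ∃ c : ι → ℝ, IsRelPrime f (∑ b ∈ S, c b • G b) := by
  classical
  let L : (ι → ℝ) →ₗ[ℝ] B :=
    { toFun := fun c => ∑ b ∈ S, c b • G b
      map_add' := by
        intro x y
        simp only [Pi.add_apply, add_smul, Finset.sum_add_distrib]
      map_smul' := by
        intro r x
        simp only [Pi.smul_apply, smul_eq_mul, mul_smul, Finset.smul_sum, RingHom.id_apply] }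
  let W : B → Submodule ℝ (ι → ℝ) := fun h =>
    ((Ideal.span {h} : Ideal B).restrictScalars ℝ).comap L
  have hWmem : ∀ (h : B) (c : ι → ℝ), c ∈ W h ↔ h ∣ ∑ b ∈ S, c b • G b := by
    intro h c
    simp only [W, Submodule.mem_comap, Submodule.restrictScalars_mem, Ideal.mem_span_singleton]
    rfl
  let T : Finset (Submodule ℝ (ι → ℝ)) :=
    ((UniqueFactorizationMonoid.factors f).toFinset.image W)
  have hT : ⊤ ∉ T := by
    intro htop
    rw [Finset.mem_image] at htop
    obtain ⟨h, hh, hW⟩ := htop
    rw [Multiset.mem_toFinset] at hh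
    have hirr := UniqueFactorizationMonoid.irreducible_of_factor h hh
    have hdvd := UniqueFactorizationMonoid.dvd_of_mem_factors hh
    obtain ⟨b, hb, hnb⟩ := hS h hirr hdvd
    apply hnb
    have hmem : (Pi.single b (1 : ℝ) : ι → ℝ) ∈ W h := by
      rw [hW]
      exact Submodule.mem_top
    rw [hWmem] at hmem
    have hsum : ∑ b' ∈ S, (Pi.single b (1 : ℝ) : ι → ℝ) b' • G b' = G b := by
      rw [Finset.sum_eq_single b]
      · rw [Pi.single_eq_same, one_smul]
      · intro b' _ hne
        rw [Pi.single_eq_of_ne hne, zero_smul]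
      · intro h'
        exact absurd hb h'
    rwa [hsum] at hmem
  have hne := Subspace.biUnion_ne_univ_of_top_notMem hT
  rw [Set.ne_univ_iff_exists_notMem] at hne
  obtain ⟨c, hc⟩ := hne
  refine ⟨c, ?_⟩
  intro d hdf hdc
  by_contra hunit
  have hd0 : d ≠ 0 := by
    rintro rfl
    exact hf (zero_dvd_iff.mp hdf)
  obtain ⟨p, hp, hpd⟩ := WfDvdMonoid.exists_irreducible_factor hunit hd0
  obtain ⟨q, hq, hassoc⟩ := UniqueFactorizationMonoid.exists_mem_factors_of_dvd hf hp (hpd.trans hdf)
  apply hc
  simp only [Set.mem_iUnion]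
  refine ⟨W q, Finset.mem_image.mpr ⟨q, Multiset.mem_toFinset.mpr hq, rfl⟩, ?_⟩
  rw [SetLike.mem_coe, hWmem]
  exact hassoc.symm.dvd.trans (hpd.trans hdc)

private theorem zcop_sum {B : Type*} [CommRing B] [IsDomain B] (d : B → ℕ)
    (hd : ∀ a b : B, a ≠ 0 → b ≠ 0 → d (a * b) = d a + d b) {ι : Type*} [DecidableEq ι] (H : ι → B)
    (V : Finset ι) : ∀ f : B, f ≠ 0 → (∀ b ∈ V, Prime (H b) ∧ H b ∣ f) →
    (∀ b ∈ V, ∀ b' ∈ V, Associated (H b) (H b') → b = b') → ∑ b ∈ V, d (H b) ≤ d f := by
  induction V using Finset.induction_on with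
  | empty =>
    intro f _ _ _
    simp
  | insert a V ha ih =>
    intro f hf hV hinj
    obtain ⟨hpa, g, hg⟩ := hV a (Finset.mem_insert_self a V)
    have hg0 : g ≠ 0 := by
      rintro rfl
      exact hf (by rw [hg, mul_zero])
    rw [Finset.sum_insert ha, hg, hd _ _ hpa.ne_zero hg0]
    apply Nat.add_le_add_left
    apply ih g hg0
    · intro b hb
      obtain ⟨hpb, hbf⟩ := hV b (Finset.mem_insert_of_mem hb)
      refine ⟨hpb, ?_⟩
      rw [hg] at hbf
      rcases hpb.dvd_or_dvd hbf with h1 | h1
      · exfalso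
        have has := hpb.associated_of_dvd hpa h1
        have := hinj b (Finset.mem_insert_of_mem hb) a (Finset.mem_insert_self a V) has
        exact ha (this ▸ hb)
      · exact h1
    · intro b hb b' hb' h
      exact hinj b (Finset.mem_insert_of_mem hb) b' (Finset.mem_insert_of_mem hb') h

theorem count_div {B : Type*} [CommRing B] [IsDomain B] (d : B → ℕ)
    (hd : ∀ a b : B, a ≠ 0 → b ≠ 0 → d (a * b) = d a + d b) {ι : Type*} (S : Finset ι) (H : ι → B) (f : B)
    (hf : f ≠ 0) (hS : ∀ b ∈ S, Prime (H b) ∧ H b ∣ f ∧ 1 ≤ d (H b)) (val : ι → ℝ)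
    (hv : ∀ b ∈ S, ∀ b' ∈ S, Associated (H b) (H b') → val b = val b') :
    (S.image val).card ≤ d f := by
  classical
  rcases S.eq_empty_or_nonempty with hemp | ⟨b0, hb0⟩
  · rw [hemp]
    simp
  have hne0 : Nonempty ι := ⟨b0⟩
  have hch : ∀ v ∈ S.image val, ∃ b ∈ S, val b = v := by
    intro v hv'
    exact Finset.mem_image.mp hv'
  choose! r hrS hrv using hch
  have hinj : ∀ v ∈ S.image val, ∀ v' ∈ S.image val, r v = r v' → v = v' := by
    intro v h1 v' h2 h
    rw [← hrv v h1, ← hrv v' h2, h]
  have hcard : ((S.image val).image r).card = (S.image val).card :=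
    Finset.card_image_of_injOn (fun v h1 v' h2 h => hinj v h1 v' h2 h)
  rw [← hcard]
  have hsum : ∑ b ∈ (S.image val).image r, d (H b) ≤ d f := by
    apply zcop_sum d hd H _ f hf
    · intro b hb
      obtain ⟨v, hv1, rfl⟩ := Finset.mem_image.mp hb
      exact ⟨(hS _ (hrS v hv1)).1, (hS _ (hrS v hv1)).2.1⟩
    · intro b hb b' hb' h
      obtain ⟨v, hv1, rfl⟩ := Finset.mem_image.mp hb
      obtain ⟨v', hv1', rfl⟩ := Finset.mem_image.mp hb'
      have h3 := hv _ (hrS v hv1) _ (hrS v' hv1') h
      rw [hrv v hv1, hrv v' hv1'] at h3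
      rw [h3]
  refine le_trans ?_ hsum
  rw [Finset.card_eq_sum_ones]
  apply Finset.sum_le_sum
  intro b hb
  obtain ⟨v, hv1, rfl⟩ := Finset.mem_image.mp hb
  exact (hS _ (hrS v hv1)).2.2

end Pool.Agent.NLE.Zer
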