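import Mathlib

/-!
# NLE-ZDefs: zero estimate for three logarithms, definitions (helper79; paper proof, Section 2.3)

`P2` = real polynomials in `U` (inner variable) and `V` (outer variable), `P3` = polynomials in one more
variable `Y` over `P2`.
-/

namespace Pool.Agent.NLE.Zer

open Polynomial

/-- polynomials in `U` (inner) and `V` (outer) -/
abbrev P2 : Type := Polynomial (Polynomial ℝ)

/-- polynomials in `Y` over `P2` -/
abbrev P3 : Type := Polynomial P2

/-- the translation `U ↦ U + x`, `V ↦ V + y` -/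
noncomputable def sh2 (x y : ℝ) : P2 ≃+* P2 :=
  (Polynomial.mapEquiv (taylorEquiv x).toRingEquiv).trans (taylorEquiv (C y : ℝ[X])).toRingEquiv

/-- the translation `U ↦ U + x`, `V ↦ V + y`, `Y ↦ l Y` -/
noncomputable def sh3 (x y l : ℝ) : P3 →+* P3 :=
  (compRingHom (C (C (C l)) * X)).comp (mapRingHom (sh2 x y : P2 →+* P2))

/-- the value at `U = a`, `V = b` -/
noncomputable def ev2 (a b : ℝ) : P2 →+* ℝ := evalEvalRingHom a b

/-- the value at `U = a`, `V = b`, `Y = z` -/
noncomputable def ev3 (a b z : ℝ) : P3 →+* ℝ := eval₂RingHom (ev2 a b) z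

/-- the degree in `U`; the degree in `V` is `natDegree` -/
noncomputable def degU (f : P2) : ℕ := (Bivariate.swap f).natDegree

/-- the box `0 ≤ r < R1`, `0 ≤ s < R2`, `0 ≤ t < R3` -/
def box (R1 R2 R3 : ℕ) : Finset (ℕ × ℕ × ℕ) :=
  Finset.range R1 ×ˢ Finset.range R2 ×ˢ Finset.range R3

end Pool.Agent.NLE.Zer
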