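import Pool.Agent.NLE.ZDefs

/-!
# NLE-ZNum: the number of values of a linear form on the box

`Z1 = rho r + q s`, `Z3 = rho t + s`.

PLAN `lin_values`. Let `A = al rho`, `B = al q + be`, `G = be rho`; the form is `A r + B s + G t` and
`rho B = q A + G`. If `(r, s) ↦ A r + B s` is injective on the box `R1 × R2` there are at least `R1 R2 > T`
values (take `t = 0`). Otherwise `A r0 + B s0 = 0` with integers `|r0| < R1`, `|s0| < R2`, not both zero.
If `r0 = 0`: `B = 0`, `G = - q A`, `A ≠ 0` (else `al = be = 0`), the form `A (r - q t)` is injective in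
`(r, t)`, as `R1 ≤ q`: `R1 R3 > T` values. If `r0 ≠ 0`, wlog `r0 > 0`: `A = - B s0 / r0`, `B ≠ 0` and
`G = (B / r0) c` with the integer `c = rho r0 + q s0`, `|c| ≥ E` (`hE` with `b = r0`, `a = - s0`). For `r = 0` the
form is `(B / r0) (r0 s + c t)`. Let `d = gcd (r0, c)`, `c' = c / d`: `r0 s + c t = r0 s' + c t'` implies that `c'`
divides `s - s'`; so the form is injective on `s < min (|c'|, R2)`, `t < R3`: if `|c'| ≥ R2` there are at least
`R2 R3 > T` values, otherwise at least `|c'| R3 ≥ |c| R3 / d ≥ E R3 / R1 > T` values (`d ≤ r0 < R1`).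

PLAN `box_inj`. For `M > rho R1 + q R2` the value `Z1 + M Z3` determines `Z1` and `Z3` (naturals, `Z1 < M`);
`rho (r - r') = q (s' - s)`, `rho (t - t') = s' - s`, so `r - r' = q (t - t')`, and `|r - r'| < R1 ≤ q` gives
`t = t'`, `r = r'`, `s = s'`.
-/

namespace Pool.Agent.NLE.Zer

private theorem znum_box {f : ℕ × ℕ × ℕ → ℝ} {R1 R2 R3 a b c T : ℕ} (ha : a ≤ R1) (hb : b ≤ R2)
    (hc : c ≤ R3) (hT : T < a * (b * c))
    (hi : ∀ r s t r' s' t' : ℕ, r < a → s < b → t < c → r' < a → s' < b → t' < c →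
      f (r, s, t) = f (r', s', t') → r = r' ∧ s = s' ∧ t = t') :
    T < ((box R1 R2 R3).image f).card := by
  have h1 : (box a b c).card = a * (b * c) := by
    simp [box]
  have h2 : box a b c ⊆ box R1 R2 R3 := by
    rintro ⟨r, s, t⟩ h
    simp only [box, Finset.mem_product, Finset.mem_range] at h ⊢
    exact ⟨lt_of_lt_of_le h.1 ha, lt_of_lt_of_le h.2.1 hb, lt_of_lt_of_le h.2.2 hc⟩
  have h3 : Set.InjOn f (box a b c : Finset (ℕ × ℕ × ℕ)) := by
    rintro ⟨r, s, t⟩ h ⟨r', s', t'⟩ h' he
    rw [Finset.mem_coe] at h h'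
    simp only [box, Finset.mem_product, Finset.mem_range] at h h'
    obtain ⟨e1, e2, e3⟩ := hi r s t r' s' t' h.1 h.2.1 h.2.2 h'.1 h'.2.1 h'.2.2 he
    rw [e1, e2, e3]
  calc T < a * (b * c) := hT
    _ = (box a b c).card := h1.symm
    _ = ((box a b c).image f).card := (Finset.card_image_of_injOn h3).symm
    _ ≤ _ := Finset.card_le_card (Finset.image_subset_image h2)

private theorem znum_core {q rho R1 R2 R3 T E : ℕ} (hr1 : 1 ≤ rho) (hR1 : 1 ≤ R1)
    (h23 : T < R2 * R3)
    (hE : ∀ b : ℕ, ∀ a : ℤ, 1 ≤ b → b < R1 → (E : ℤ) ≤ |(b : ℤ) * rho - a * q|)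
    (hE2 : T * R1 < E * R3) (al be : ℝ) (h : al ≠ 0 ∨ be ≠ 0) (r0 : ℕ) (h1 : 1 ≤ r0)
    (h2 : r0 < R1) (s0 : ℤ) (h0 : al * rho * r0 + (al * q + be) * s0 = 0) :
    T < ((box R1 R2 R3).image (fun b : ℕ × ℕ × ℕ => al * ((rho * b.1 + q * b.2.1 : ℕ) : ℝ) +
      be * ((rho * b.2.2 + b.2.1 : ℕ) : ℝ))).card := by
  have hr0 : (r0 : ℝ) ≠ 0 := by
    have : (0 : ℝ) < r0 := by exact_mod_cast h1
    exact this.ne'
  have hrho : (rho : ℝ) ≠ 0 := by
    have : (0 : ℝ) < rho := by exact_mod_cast hr1
    exact this.ne'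
  have hB : al * q + be ≠ 0 := by
    intro hB
    rw [hB, zero_mul, add_zero] at h0
    have hal : al = 0 := by
      rcases mul_eq_zero.1 h0 with h3 | h3
      · rcases mul_eq_zero.1 h3 with h4 | h4
        · exact h4
        · exact absurd h4 hrho
      · exact absurd h3 hr0
    rw [hal, zero_mul, zero_add] at hB
    rcases h with h | h
    · exact h hal
    · exact h hB
  obtain ⟨c, hc⟩ : ∃ c : ℤ, c = rho * r0 + q * s0 := ⟨_, rfl⟩
  have hEc : (E : ℤ) ≤ |c| := by
    have h3 := hE r0 (-s0) h1 h2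
    have h4 : (r0 : ℤ) * rho - -s0 * q = c := by
      rw [hc]
      ring
    rwa [h4] at h3
  have hEpos : 0 < E := by
    rcases Nat.eq_zero_or_pos E with h3 | h3
    · rw [h3, zero_mul] at hE2
      exact absurd hE2 (Nat.not_lt_zero _)
    · exact h3
  have hc0 : c ≠ 0 := by
    intro h3
    rw [h3, abs_zero] at hEc
    have : (E : ℤ) > 0 := by exact_mod_cast hEpos
    omega
  have hG : (r0 : ℝ) * (be * rho) = (al * q + be) * c := by
    have h3 : (c : ℝ) = rho * r0 + q * s0 := by
      rw [hc]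
      push_cast
      ring
    rw [h3]
    linear_combination (-(q : ℝ)) * h0
  have hgpos : 0 < Int.gcd (r0 : ℤ) c := Int.gcd_pos_of_ne_zero_right _ hc0
  obtain ⟨r1, c1, hg1, hr01, hc1⟩ := Int.exists_gcd_one hgpos
  set d : ℕ := Int.gcd (r0 : ℤ) c with hd
  have hdr : d ≤ r0 := by
    have h3 : (d : ℤ) ∣ (r0 : ℤ) := Int.gcd_dvd_left ..
    exact Nat.le_of_dvd h1 (Int.natCast_dvd_natCast.1 h3)
  have hc10 : c1 ≠ 0 := by
    intro h3
    apply hc0
    rw [hc1, h3, zero_mul]
  have habs : |c| = (c1.natAbs : ℤ) * d := by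
    rw [hc1, abs_mul, Int.abs_eq_natAbs c1]
    congr 1
    exact abs_of_nonneg (Int.natCast_nonneg d)
  have hcop : IsCoprime c1 r1 := by
    rw [Int.isCoprime_iff_gcd_eq_one, Int.gcd_comm]
    exact hg1
  refine znum_box (a := 1) (b := min c1.natAbs R2) (c := R3) hR1 (min_le_right _ _) le_rfl ?_ ?_
  · rw [one_mul]
    rcases le_total R2 c1.natAbs with h3 | h3
    · rw [min_eq_right h3]
      exact h23
    · rw [min_eq_left h3]
      have h4 : (E : ℤ) ≤ (c1.natAbs : ℤ) * d := by rw [← habs]; exact hEc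
      have h5 : E ≤ c1.natAbs * d := by exact_mod_cast h4
      have h6 : c1.natAbs * d ≤ c1.natAbs * R1 := Nat.mul_le_mul_left _ (hdr.trans h2.le)
      have h7 : T * R1 < c1.natAbs * R3 * R1 := by
        calc T * R1 < E * R3 := hE2
          _ ≤ c1.natAbs * R1 * R3 := Nat.mul_le_mul_right _ (h5.trans h6)
          _ = c1.natAbs * R3 * R1 := by ring
      exact lt_of_mul_lt_mul_right h7 (Nat.zero_le _)
  · intro r s t r' s' t' hr hs ht hr' hs' ht' he
    have er : r = 0 := by omega
    have er' : r' = 0 := by omega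
    subst er
    subst er'
    dsimp only at he
    push_cast at he
    have h3 : (al * q + be) * ((r0 : ℝ) * s + c * t) = (al * q + be) * ((r0 : ℝ) * s' + c * t') := by
      linear_combination (r0 : ℝ) * he - ((t : ℝ) - t') * hG
    have h4 : (r0 : ℝ) * s + c * t = (r0 : ℝ) * s' + c * t' := mul_left_cancel₀ hB h3
    have h5 : (r0 : ℤ) * s + c * t = (r0 : ℤ) * s' + c * t' := by exact_mod_cast h4
    have hd0 : (d : ℤ) ≠ 0 := by
      have : (0 : ℤ) < d := by exact_mod_cast hgpos
      exact this.ne'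
    have h6 : r1 * ((s : ℤ) - s') = c1 * ((t' : ℤ) - t) := by
      apply mul_right_cancel₀ hd0
      rw [hr01, hc1] at h5
      linear_combination h5
    have h7 : c1 ∣ ((s : ℤ) - s') := by
      have h8 : c1 ∣ r1 * ((s : ℤ) - s') := by
        rw [h6]
        exact dvd_mul_right _ _
      exact hcop.dvd_of_dvd_mul_left h8
    have h8 : (s : ℤ) - s' = 0 := by
      apply Int.eq_zero_of_abs_lt_dvd ((abs_dvd c1 _).2 h7)
      have hs1 : s < c1.natAbs := lt_of_lt_of_le hs (min_le_left _ _)
      have hs2 : s' < c1.natAbs := lt_of_lt_of_le hs' (min_le_left _ _)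
      rw [Int.abs_eq_natAbs c1, abs_lt]
      constructor
      · omega
      · omega
    have h9 : c * ((t' : ℤ) - t) = 0 := by
      linear_combination -h5 + (r0 : ℤ) * h8
    have h10 : (t' : ℤ) - t = 0 := by
      rcases mul_eq_zero.1 h9 with h11 | h11
      · exact absurd h11 hc0
      · exact h11
    refine ⟨rfl, ?_, ?_⟩
    · omega
    · omega

theorem lin_values {q rho R1 R2 R3 T E : ℕ} (hr1 : 1 ≤ rho) (hR1 : 1 ≤ R1) (hR1q : R1 ≤ q)
    (h12 : T < R1 * R2) (h13 : T < R1 * R3) (h23 : T < R2 * R3)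
    (hE : ∀ b : ℕ, ∀ a : ℤ, 1 ≤ b → b < R1 → (E : ℤ) ≤ |(b : ℤ) * rho - a * q|)
    (hE2 : T * R1 < E * R3) (al be : ℝ) (h : al ≠ 0 ∨ be ≠ 0) :
    T < ((box R1 R2 R3).image (fun b : ℕ × ℕ × ℕ => al * ((rho * b.1 + q * b.2.1 : ℕ) : ℝ) +
      be * ((rho * b.2.2 + b.2.1 : ℕ) : ℝ))).card := by
  have hR2 : 1 ≤ R2 := by
    rcases Nat.eq_zero_or_pos R2 with h3 | h3
    · rw [h3, mul_zero] at h12
      exact absurd h12 (Nat.not_lt_zero _)
    · exact h3
  have hR3 : 1 ≤ R3 := by
    rcases Nat.eq_zero_or_pos R3 with h3 | h3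
    · rw [h3, mul_zero] at h13
      exact absurd h13 (Nat.not_lt_zero _)
    · exact h3
  have hrho : (rho : ℝ) ≠ 0 := by
    have : (0 : ℝ) < rho := by exact_mod_cast hr1
    exact this.ne'
  by_cases hinj : ∀ r s r' s' : ℕ, r < R1 → s < R2 → r' < R1 → s' < R2 →
      al * rho * r + (al * q + be) * s = al * rho * r' + (al * q + be) * s' → r = r' ∧ s = s'
  · refine znum_box (a := R1) (b := R2) (c := 1) le_rfl le_rfl hR3 ?_ ?_
    · rw [mul_one]
      exact h12
    · intro r s t r' s' t' hr hs ht hr' hs' ht' he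
      have et : t = 0 := by omega
      have et' : t' = 0 := by omega
      subst et
      subst et'
      dsimp only at he
      push_cast at he
      obtain ⟨e1, e2⟩ := hinj r s r' s' hr hs hr' hs' (by linear_combination he)
      exact ⟨e1, e2, rfl⟩
  · push Not at hinj
    obtain ⟨r, s, r', s', hr, hs, hr', hs', he, hne⟩ := hinj
    rcases lt_trichotomy r r' with hlt | heq | hgt
    · refine znum_core hr1 hR1 h23 hE hE2 al be h (r' - r) (by omega) (by omega)
        ((s' : ℤ) - s) ?_
      rw [Nat.cast_sub hlt.le]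
      push_cast
      linear_combination -he
    · subst heq
      have hss : s ≠ s' := hne rfl
      have hB : al * q + be = 0 := by
        have h3 : (al * q + be) * ((s : ℝ) - s') = 0 := by linear_combination he
        rcases mul_eq_zero.1 h3 with h4 | h4
        · exact h4
        · exfalso
          apply hss
          have h5 : (s : ℝ) = s' := sub_eq_zero.1 h4
          exact_mod_cast h5
      have hal : al ≠ 0 := by
        intro h3
        rw [h3, zero_mul, zero_add] at hB
        rcases h with h | h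
        · exact h h3
        · exact h hB
      refine znum_box (a := R1) (b := 1) (c := R3) le_rfl hR2 le_rfl ?_ ?_
      · rw [one_mul]
        exact h13
      · intro r1 s1 t r1' s1' t' hr1' hs1 ht hr1'' hs1' ht' he'
        have es : s1 = 0 := by omega
        have es' : s1' = 0 := by omega
        subst es
        subst es'
        dsimp only at he'
        push_cast at he'
        have h3 : (al * rho) * ((r1 : ℝ) - q * t) = (al * rho) * ((r1' : ℝ) - q * t') := by
          linear_combination he' - ((rho : ℝ) * t - rho * t') * hB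
        have h4 : (r1 : ℝ) - q * t = (r1' : ℝ) - q * t' :=
          mul_left_cancel₀ (mul_ne_zero hal hrho) h3
        have h5 : (r1 : ℤ) - r1' = q * ((t : ℤ) - t') := by
          have h6 : ((r1 : ℝ) - r1') = q * ((t : ℝ) - t') := by linear_combination h4
          exact_mod_cast h6
        have h6 : (r1 : ℤ) - r1' = 0 := by
          apply Int.eq_zero_of_abs_lt_dvd (m := (q : ℤ))
          · rw [h5]
            exact dvd_mul_right _ _
          · rw [abs_lt]
            constructor
            · omega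
            · omega
        have hq : (q : ℤ) ≠ 0 := by omega
        have h7 : (t : ℤ) - t' = 0 := by
          rw [h6] at h5
          rcases mul_eq_zero.1 h5.symm with h8 | h8
          · exact absurd h8 hq
          · exact h8
        refine ⟨?_, rfl, ?_⟩
        · omega
        · omega
    · refine znum_core hr1 hR1 h23 hE hE2 al be h (r - r') (by omega) (by omega)
        ((s : ℤ) - s') ?_
      rw [Nat.cast_sub hgt.le]
      push_cast
      linear_combination he

theorem box_inj {q rho R1 R2 R3 M : ℕ} (hr1 : 1 ≤ rho) (hR1q : R1 ≤ q) (hM : rho * R1 + q * R2 < M) :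
    Set.InjOn (fun b : ℕ × ℕ × ℕ => (((rho * b.1 + q * b.2.1) + M * (rho * b.2.2 + b.2.1) : ℕ) : ℝ))
      (box R1 R2 R3 : Finset (ℕ × ℕ × ℕ)) := by
  rintro ⟨r, s, t⟩ h ⟨r', s', t'⟩ h' he
  rw [Finset.mem_coe] at h h'
  simp only [box, Finset.mem_product, Finset.mem_range] at h h'
  obtain ⟨hr, hs, ht⟩ := h
  obtain ⟨hr', hs', ht'⟩ := h'
  dsimp only at he
  have he1 : (rho * r + q * s) + M * (rho * t + s) = (rho * r' + q * s') + M * (rho * t' + s') := by
    exact_mod_cast he
  have hz : rho * r + q * s < M :=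
    lt_of_le_of_lt (Nat.add_le_add (Nat.mul_le_mul_left _ hr.le) (Nat.mul_le_mul_left _ hs.le)) hM
  have hz' : rho * r' + q * s' < M :=
    lt_of_le_of_lt (Nat.add_le_add (Nat.mul_le_mul_left _ hr'.le) (Nat.mul_le_mul_left _ hs'.le)) hM
  have hMpos : 0 < M := lt_of_le_of_lt (Nat.zero_le _) hz
  have e1 : rho * r + q * s = rho * r' + q * s' := by
    have h1 := congrArg (fun x => x % M) he1
    simp only [Nat.add_mul_mod_self_left] at h1
    rwa [Nat.mod_eq_of_lt hz, Nat.mod_eq_of_lt hz'] at h1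
  have e2 : rho * t + s = rho * t' + s' := by
    rw [e1] at he1
    exact Nat.eq_of_mul_eq_mul_left hMpos (Nat.add_left_cancel he1)
  have e1' : (rho : ℤ) * r + q * s = rho * r' + q * s' := by exact_mod_cast e1
  have e2' : (rho : ℤ) * t + s = rho * t' + s' := by exact_mod_cast e2
  have hrho : (rho : ℤ) ≠ 0 := by omega
  have h5 : (r : ℤ) - r' = q * ((t : ℤ) - t') := by
    apply mul_left_cancel₀ hrho
    linear_combination e1' - (q : ℤ) * e2'
  have hRq : (R1 : ℤ) ≤ q := by exact_mod_cast hR1q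
  have h6 : (r : ℤ) - r' = 0 := by
    apply Int.eq_zero_of_abs_lt_dvd (m := (q : ℤ))
    · rw [h5]
      exact dvd_mul_right _ _
    · rw [abs_lt]
      constructor
      · omega
      · omega
  have hq : (q : ℤ) ≠ 0 := by omega
  have h7 : (t : ℤ) - t' = 0 := by
    rw [h6] at h5
    rcases mul_eq_zero.1 h5.symm with h8 | h8
    · exact absurd h8 hq
    · exact h8
  have er : r = r' := by omega
  have et : t = t' := by omega
  subst er
  subst et
  have es : s = s' := Nat.add_left_cancel e2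
  rw [es]

end Pool.Agent.NLE.Zer
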