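import Pool.Agent.NLE.ZDefs

/-!
# NLE-ZRes: resultants

PLAN. Mathlib: `Polynomial.resultant f g m n`, `exists_mul_add_mul_eq_C_resultant`, `resultant_add_right_deg`,
`resultant_map_map`, `resultant_eq_zero_iff` (over a field).
`res_ne`: `n = natDegree G + k`, so the resultant is `leadingCoeff F ^ k * resultant F G`; over the fraction field
`K` of `A` the resultant is zero only if the images of `F`, `G` are not coprime (`F ≠ 0`), so there is a common
irreducible factor `p` in `K[X]`. `F` is a product of irreducible elements of `A[X]`; `p` divides the image of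
one of them, `h`. `h` has positive degree (otherwise its image is a unit), is primitive, its image is
irreducible (`IsPrimitive.irreducible_iff_irreducible_map_fraction_map`), so it divides the image of `G`, and
Gauss' lemma (`IsPrimitive.dvd_of_fraction_map_dvd_fraction_map`, with the content of `G`) gives `h ∣ G`:
contradiction. (If `G = 0`: `IsRelPrime F 0` means that `F` is a unit.)
`res_zero`: apply `eval₂ φ y` to `F * p + G * q = C (resultant …)`.
`natDegree_res`, `degU_res`: the resultant is a determinant of size `m + n`, whose entries are `0` or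
coefficients of `F`, `G`; for `degU` apply the ring homomorphism `Bivariate.swap` (`resultant_map_map`).
-/

namespace Pool.Agent.NLE.Zer

open Polynomial

private theorem ZRes_cop {A : Type*} [CommRing A] [IsDomain A] [UniqueFactorizationMonoid A]
    (F G : A[X]) (hF : F ≠ 0) (h : IsRelPrime F G) :
    IsCoprime (F.map (algebraMap A (FractionRing A))) (G.map (algebraMap A (FractionRing A))) := by
  have hinj : Function.Injective (algebraMap A (FractionRing A)) :=
    IsFractionRing.injective A (FractionRing A)
  have hF' : F.map (algebraMap A (FractionRing A)) ≠ 0 :=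
    (Polynomial.map_ne_zero_iff hinj).2 hF
  rw [← isRelPrime_iff_isCoprime, UniqueFactorizationMonoid.isRelPrime_iff_no_prime_factors hF']
  intro d hdF hdG hd
  obtain ⟨s, hs, hsF⟩ := WfDvdMonoid.exists_factors F hF
  have h1 : d ∣ (s.map (mapRingHom (algebraMap A (FractionRing A)))).prod := by
    rw [← map_multiset_prod]
    refine hdF.trans ?_
    have h2 : F ∣ s.prod := hsF.symm.dvd
    exact map_dvd (mapRingHom (algebraMap A (FractionRing A))) h2
  obtain ⟨q, hq, hdq⟩ := hd.exists_mem_multiset_map_dvd h1
  have hqi : Irreducible q := hs q hq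
  have hqF : q ∣ F := (Multiset.dvd_prod hq).trans hsF.dvd
  have hq0 : q.natDegree ≠ 0 := by
    intro h0
    obtain ⟨a, rfl⟩ := natDegree_eq_zero.1 h0
    have ha : a ≠ 0 := by
      rintro rfl
      exact hqi.ne_zero (by simp)
    apply hd.not_isUnit
    refine isUnit_of_dvd_unit hdq ?_
    rw [coe_mapRingHom, map_C]
    refine isUnit_C.2 (isUnit_iff_ne_zero.2 ?_)
    exact (map_ne_zero_iff _ hinj).2 ha
  have hqp : q.IsPrimitive := hqi.isPrimitive hq0
  have hqK : Irreducible (q.map (algebraMap A (FractionRing A))) :=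
    hqp.irreducible_iff_irreducible_map_fraction_map.1 hqi
  have hass : Associated d (q.map (algebraMap A (FractionRing A))) :=
    hd.irreducible.associated_of_dvd hqK hdq
  have hqG : q ∣ G := hqp.dvd_of_fraction_map_dvd_fraction_map (K := FractionRing A)
    (hass.symm.dvd.trans hdG)
  exact hqi.not_isUnit (h hqF hqG)

theorem res_ne {A : Type*} [CommRing A] [IsDomain A] [UniqueFactorizationMonoid A] (F G : A[X]) (hF : F ≠ 0)
    (h : IsRelPrime F G) (n : ℕ) (hn : G.natDegree ≤ n) (hn1 : 1 ≤ n) :
    resultant F G F.natDegree n ≠ 0 := by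
  have hinj : Function.Injective (algebraMap A (FractionRing A)) :=
    IsFractionRing.injective A (FractionRing A)
  obtain ⟨k, rfl⟩ := Nat.exists_eq_add_of_le hn
  rw [resultant_add_right_deg F G F.natDegree G.natDegree k le_rfl]
  refine mul_ne_zero (pow_ne_zero _ (leadingCoeff_ne_zero.2 hF)) ?_
  intro h0
  have h1 : resultant (F.map (algebraMap A (FractionRing A)))
      (G.map (algebraMap A (FractionRing A))) = 0 := by
    rw [natDegree_map_eq_of_injective hinj, natDegree_map_eq_of_injective hinj,
      resultant_map_map, h0, map_zero]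
  exact (resultant_eq_zero_iff.1 h1).2 (ZRes_cop F G hF h)

theorem res_zero {A : Type*} [CommRing A] (F G : A[X]) (n : ℕ) (hn : G.natDegree ≤ n) (hn1 : 1 ≤ n)
    (φ : A →+* ℝ) (y : ℝ) (h1 : eval₂ φ y F = 0) (h2 : eval₂ φ y G = 0) :
    φ (resultant F G F.natDegree n) = 0 := by
  obtain ⟨p, q, _, _, hpq⟩ := exists_mul_add_mul_eq_C_resultant F G le_rfl hn
    (Or.inr (Nat.one_le_iff_ne_zero.1 hn1))
  have h3 := congrArg (eval₂ φ y) hpq
  rw [eval₂_add, eval₂_mul, eval₂_mul, h1, h2, zero_mul, zero_mul, add_zero, eval₂_C] at h3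
  exact h3.symm

private theorem ZRes_det {B : Type*} [CommRing B] {k : ℕ} (M : Matrix (Fin k) (Fin k) B[X]) (D : ℕ)
    (hM : ∀ i j, (M i j).natDegree ≤ D) : M.det.natDegree ≤ k * D := by
  rw [Matrix.det_apply']
  refine natDegree_sum_le_of_forall_le _ _ ?_
  intro σ _
  refine natDegree_mul_le.trans ?_
  rw [natDegree_intCast, zero_add]
  refine (natDegree_prod_le _ _).trans ?_
  refine (Finset.sum_le_card_nsmul _ _ D fun i _ => hM _ _).trans ?_
  simp

theorem natDegree_res {B : Type*} [CommRing B] (F G : Polynomial (Polynomial B)) (m n D : ℕ)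
    (hF : ∀ i, (F.coeff i).natDegree ≤ D) (hG : ∀ i, (G.coeff i).natDegree ≤ D) :
    (resultant F G m n).natDegree ≤ (m + n) * D := by
  refine ZRes_det _ D ?_
  intro i j
  refine Fin.addCases (fun j₁ => ?_) (fun j₁ => ?_) j
  · simp only [sylvester, Matrix.of_apply, Fin.addCases_left]
    split_ifs
    · exact hG _
    · simp
  · simp only [sylvester, Matrix.of_apply, Fin.addCases_right]
    split_ifs
    · exact hF _
    · simp

theorem degU_res (F G : P3) (m n D : ℕ) (hF : ∀ i, degU (F.coeff i) ≤ D) (hG : ∀ i, degU (G.coeff i) ≤ D) :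
    degU (resultant F G m n) ≤ (m + n) * D := by
  let ψ : P2 →+* P2 := (Bivariate.swap (R := ℝ)).toAlgHom.toRingHom
  have h1 : Bivariate.swap (resultant F G m n) = resultant (F.map ψ) (G.map ψ) m n :=
    (resultant_map_map F G m n ψ).symm
  unfold degU
  rw [h1]
  refine natDegree_res _ _ m n D ?_ ?_
  · intro i
    rw [coeff_map]
    exact hF i
  · intro i
    rw [coeff_map]
    exact hG i

theorem degU_mul (f g : P2) (hf : f ≠ 0) (hg : g ≠ 0) : degU (f * g) = degU f + degU g := by
  unfold degU
  rw [map_mul]
  refine natDegree_mul ?_ ?_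
  · exact (map_ne_zero_iff _ (Bivariate.swap (R := ℝ)).injective).2 hf
  · exact (map_ne_zero_iff _ (Bivariate.swap (R := ℝ)).injective).2 hg

theorem degU_add (f g : P2) (D : ℕ) (hf : degU f ≤ D) (hg : degU g ≤ D) : degU (f + g) ≤ D := by
  unfold degU at *
  rw [map_add]
  exact (natDegree_add_le _ _).trans (max_le hf hg)

private theorem ZRes_coeff (f : P2) (i j : ℕ) :
    ((Bivariate.swap f).coeff i).coeff j = (f.coeff j).coeff i := by
  induction f using Polynomial.induction_on' with
  | add p q hp hq => rw [map_add, coeff_add, coeff_add, coeff_add, coeff_add, hp, hq]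
  | monomial n a =>
    induction a using Polynomial.induction_on' with
    | add p q hp hq =>
      rw [map_add, map_add, coeff_add, coeff_add, coeff_add, coeff_add, hp, hq]
    | monomial m r =>
      rw [Bivariate.swap_monomial_monomial, coeff_monomial, coeff_monomial]
      split_ifs with h1 h2 h2
      · subst h1
        subst h2
        rw [coeff_monomial, coeff_monomial, if_pos rfl, if_pos rfl]
      · subst h1
        rw [coeff_monomial, if_neg h2, coeff_zero]
      · subst h2
        rw [coeff_monomial, if_neg h1, coeff_zero]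
      · rw [coeff_zero, coeff_zero]

/-- the coefficients of a polynomial of degree `≤ D` in `U` have degree `≤ D`, and conversely -/
theorem degU_le_iff (f : P2) (D : ℕ) : degU f ≤ D ↔ ∀ i, (f.coeff i).natDegree ≤ D := by
  unfold degU
  constructor
  · intro h i
    rw [natDegree_le_iff_coeff_eq_zero]
    intro N hN
    rw [← ZRes_coeff, coeff_eq_zero_of_natDegree_lt (h.trans_lt hN), coeff_zero]
  · intro h
    rw [natDegree_le_iff_coeff_eq_zero]
    intro N hN
    refine Polynomial.ext fun j => ?_
    rw [ZRes_coeff, coeff_zero, coeff_eq_zero_of_natDegree_lt ((h j).trans_lt hN)]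

/-- a polynomial which is not constant has a positive degree -/
theorem deg_pos (f : P2) (hf : f ≠ 0) (hu : ¬ IsUnit f) : 1 ≤ f.natDegree + degU f := by
  by_contra hlt
  have h1 : f.natDegree = 0 := by omega
  have h2 : degU f ≤ 0 := by omega
  obtain ⟨a, rfl⟩ := natDegree_eq_zero.1 h1
  have h3 := (degU_le_iff _ 0).1 h2 0
  rw [coeff_C_zero] at h3
  obtain ⟨r, rfl⟩ := natDegree_eq_zero.1 (Nat.le_zero.1 h3)
  apply hu
  refine isUnit_C.2 (isUnit_C.2 (isUnit_iff_ne_zero.2 ?_))
  rintro rfl
  exact hf (by simp)

end Pool.Agent.NLE.Zer
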