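import Pool.Agent.NLE.ZSt
import Pool.Agent.NLE.ZCop
import Pool.Agent.NLE.ZRes

/-!
# NLE-ZOne: elimination of `Y`

PLAN. `F ≠ 0`. Write `F = X ^ k * F'` with `F'.coeff 0 ≠ 0`; `F'` satisfies the same assumptions (its
coefficients are the coefficients of `F` shifted, `lam b ≠ 0`). Let `h` be an irreducible divisor of `F'` which
divides `sh3 (u b) (v b) (lam b) F'` for all `b` in the box `R1, R2, R3`. Then
`H b = sh3 (- u b) (- v b) (lam b)⁻¹ h` divides `F'` (`sh3_inv`) and is irreducible (`sh3_irr`), so prime.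
If `h.natDegree > 0`: `h.coeff 0 ≠ 0` as `h ∣ F'`, and by `count_div` with `d = natDegree`, `val = lam`
(`sh3_assoc`, `inv_inj`) the set of the values of `lam` has at most `natDegree F' < L` elements: contradiction.
If `h = C h0`: `H b = C (sh2 (- u b) (- v b) h0)`, so `sh2 (- u b) (- v b) h0` divides `F'.coeff 0 ≠ 0`; by
`count_div` with `d f = f.natDegree + degU f`, `sh2_assoc` and `stab_line` (the form there, applied to
`(- u b, - v b)`) a non-zero form `al u + be v` takes at most `3 K` values: contradiction (`1 ≤ L`, `1 ≤ K`).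
So `exists_comb` gives `G = ∑ c b • sh3 (u b) (v b) (lam b) F'` with `IsRelPrime F' G`; `G.natDegree < L`, its
coefficients have degrees `≤ 2 K`, `≤ K` (`degU_add`, `degU_sh2`, multiplication with constants), and `G`
vanishes at the points of the box `2 R1, 2 R2, 2 R3` (`ev3_sh3`, `hu`, `hv`, `hlam`). Take
`Q = resultant F' G F'.natDegree L`: `res_ne`, `res_zero`, `natDegree_res`, `degU_res`; its size is
`≤ (L - 1) + L ≤ 2 L`.
-/

namespace Pool.Agent.NLE.Zer

open Polynomial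

private theorem zone_sh3_C (x y l : ℝ) (f : P2) : sh3 x y l (C f) = C (sh2 x y f) := by
  simp [sh3]

private theorem zone_ev3_X (a b z : ℝ) : ev3 a b z X = z := by
  simp [ev3]

private theorem zone_nm (a b : P3) (ha : a ≠ 0) (hb : b ≠ 0) :
    (a * b).natDegree = a.natDegree + b.natDegree := by
  exact natDegree_mul ha hb

private theorem zone_nat (c l : ℝ) (g : P2) (i D : ℕ) (h : g.natDegree ≤ D) :
    (c • (g * C (C l) ^ i)).natDegree ≤ D := by
  refine (natDegree_smul_le _ _).trans ?_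
  rw [← C_pow]
  exact (natDegree_mul_C_le _ _).trans h

private theorem zone_degU (c l : ℝ) (g : P2) (i D : ℕ) (h : degU g ≤ D) :
    degU (c • (g * C (C l) ^ i)) ≤ D := by
  rw [degU_le_iff] at h ⊢
  intro j
  rw [coeff_smul, ← C_pow, coeff_mul_C]
  refine (natDegree_smul_le _ _).trans ?_
  rw [← C_pow]
  exact (natDegree_mul_C_le _ _).trans (h j)

private theorem zone_hS {R1 R2 R3 K L : ℕ} (hL : 1 ≤ L) (u v lam : ℕ × ℕ × ℕ → ℝ)
    (hpos : ∀ b, 0 < lam b)
    (F : P3) (hF : F.coeff 0 ≠ 0) (hd : F.natDegree < L) (hc1 : (F.coeff 0).natDegree ≤ 2 * K)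
    (hc2 : degU (F.coeff 0) ≤ K)
    (hb : ∀ al be : ℝ, (al ≠ 0 ∨ be ≠ 0) →
      8 * L * K < ((box R1 R2 R3).image (fun b => al * u b + be * v b)).card)
    (hl : L ≤ ((box R1 R2 R3).image lam).card) (h : P3) (hh : Irreducible h) (hdvd : h ∣ F) :
    ∃ b ∈ box R1 R2 R3, ¬ h ∣ sh3 (u b) (v b) (lam b) F := by
  by_contra hcon
  push Not at hcon
  have hF0 : F ≠ 0 := by
    rintro rfl
    exact hF (coeff_zero 0)
  have hH : ∀ b ∈ box R1 R2 R3, Prime (sh3 (-u b) (-v b) (lam b)⁻¹ h) ∧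
      sh3 (-u b) (-v b) (lam b)⁻¹ h ∣ F := by
    intro b hb'
    refine ⟨(sh3_irr _ _ _ (inv_ne_zero (hpos b).ne') h hh).prime, ?_⟩
    have h1 := map_dvd (sh3 (-u b) (-v b) (lam b)⁻¹) (hcon b hb')
    rwa [sh3_inv _ _ _ (hpos b).ne'] at h1
  have hh0 : h.coeff 0 ≠ 0 := by
    obtain ⟨q, rfl⟩ := hdvd
    rw [mul_coeff_zero] at hF
    exact left_ne_zero_of_mul hF
  rcases Nat.eq_zero_or_pos h.natDegree with hn | hn
  · obtain ⟨h0, rfl⟩ : ∃ h0, h = C h0 := ⟨_, eq_C_of_natDegree_eq_zero hn⟩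
    rw [coeff_C_zero] at hh0
    have hnu : ¬ IsUnit h0 := fun hu => hh.not_isUnit (isUnit_C.2 hu)
    obtain ⟨al, be, hab, hst⟩ := stab_line h0 hh0 hnu
    have hcount := count_div (fun f : P2 => f.natDegree + degU f)
      (fun a b ha hb => by
        rw [natDegree_mul ha hb, degU_mul a b ha hb]; ring)
      (box R1 R2 R3) (fun b => sh2 (-u b) (-v b) h0) (F.coeff 0) hF
      (by
        intro b hb'
        have h1 := hH b hb'
        rw [zone_sh3_C, prime_C_iff, C_dvd_iff_dvd_coeff] at h1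
        exact ⟨h1.1, h1.2 0, deg_pos _ h1.1.ne_zero h1.1.not_isUnit⟩)
      (fun b => al * u b + be * v b)
      (by
        intro b _ b' _ hA
        have h1 := hst _ _ _ _ (sh2_assoc _ _ _ _ h0 hh0 hA)
        linarith)
    have h2 := hb al be hab
    have h3 : 3 * K ≤ 8 * L * K := Nat.mul_le_mul_right K (by omega)
    omega
  · have hcount := count_div (B := P3) natDegree zone_nm
      (box R1 R2 R3) (fun b => sh3 (-u b) (-v b) (lam b)⁻¹ h) F hF0
      (by
        intro b hb'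
        have h1 := hH b hb'
        refine ⟨h1.1, h1.2, ?_⟩
        rw [natDegree_sh3 _ _ _ (inv_ne_zero (hpos b).ne')]
        exact hn)
      lam
      (by
        intro b _ b' _ hA
        exact inv_injective (sh3_assoc _ _ _ _ _ _ (inv_pos.2 (hpos b)) (inv_pos.2 (hpos b')) h
          hh0 hn hA))
    omega

theorem elim_one {R1 R2 R3 K L : ℕ} (hK : 1 ≤ K) (hL : 1 ≤ L) (u v lam : ℕ × ℕ × ℕ → ℝ)
    (hu : ∀ b b', u (b + b') = u b + u b') (hv : ∀ b b', v (b + b') = v b + v b')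
    (hlam : ∀ b b', lam (b + b') = lam b * lam b') (hpos : ∀ b, 0 < lam b)
    (F : P3) (hF : F ≠ 0) (hd : F.natDegree < L) (hc1 : ∀ i, (F.coeff i).natDegree ≤ 2 * K)
    (hc2 : ∀ i, degU (F.coeff i) ≤ K)
    (hz : ∀ b ∈ box (3 * R1) (3 * R2) (3 * R3), ev3 (u b) (v b) (lam b) F = 0)
    (hb : ∀ al be : ℝ, (al ≠ 0 ∨ be ≠ 0) →
      8 * L * K < ((box R1 R2 R3).image (fun b => al * u b + be * v b)).card)
    (hl : L ≤ ((box R1 R2 R3).image lam).card) :
    ∃ Q : P2, Q ≠ 0 ∧ Q.natDegree ≤ 4 * L * K ∧ degU Q ≤ 2 * L * K ∧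
      ∀ b ∈ box (2 * R1) (2 * R2) (2 * R3), ev2 (u b) (v b) Q = 0 := by
  obtain ⟨k, F', hX, rfl⟩ := WfDvdMonoid.max_power_factor hF (irreducible_X (R := P2))
  rw [X_dvd_iff] at hX
  have hF' : F' ≠ 0 := right_ne_zero_of_mul hF
  have hd' : F'.natDegree < L := by
    rw [natDegree_X_pow_mul _ hF'] at hd
    omega
  have hco : ∀ i, F'.coeff i = (X ^ k * F').coeff (i + k) := fun i => (coeff_X_pow_mul F' k i).symm
  have hc1' : ∀ i, (F'.coeff i).natDegree ≤ 2 * K := fun i => by rw [hco]; exact hc1 _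
  have hc2' : ∀ i, degU (F'.coeff i) ≤ K := fun i => by rw [hco]; exact hc2 _
  have hz' : ∀ b ∈ box (3 * R1) (3 * R2) (3 * R3), ev3 (u b) (v b) (lam b) F' = 0 := by
    intro b hb'
    have h1 := hz b hb'
    rw [map_mul, map_pow, zone_ev3_X] at h1
    exact (mul_eq_zero.1 h1).resolve_left (pow_ne_zero _ (hpos b).ne')
  clear hz hc1 hc2 hd hF hco
  obtain ⟨c, hc⟩ := exists_comb (box R1 R2 R3) (fun b => sh3 (u b) (v b) (lam b) F') F' hF'
    (fun h hh hdvd => zone_hS hL u v lam hpos F' hX hd' (hc1' 0) (hc2' 0) hb hl h hh hdvd)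
  set G : P3 := ∑ b ∈ box R1 R2 R3, c b • sh3 (u b) (v b) (lam b) F' with hG
  have hGd : G.natDegree ≤ L := by
    refine natDegree_sum_le_of_forall_le _ _ fun b _ => ?_
    refine (natDegree_smul_le _ _).trans ?_
    rw [natDegree_sh3 _ _ _ (hpos b).ne']
    exact hd'.le
  have hGc : ∀ i, G.coeff i = ∑ b ∈ box R1 R2 R3,
      c b • (sh2 (u b) (v b) (F'.coeff i) * C (C (lam b)) ^ i) := by
    intro i
    rw [hG, finsetSum_coeff]
    refine Finset.sum_congr rfl fun b _ => ?_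
    rw [coeff_smul, coeff_sh3]
  have hG1 : ∀ i, (G.coeff i).natDegree ≤ 2 * K := by
    intro i
    rw [hGc]
    refine natDegree_sum_le_of_forall_le _ _ fun b _ => ?_
    apply zone_nat
    rw [natDegree_sh2]
    exact hc1' i
  have hG2 : ∀ i, degU (G.coeff i) ≤ K := by
    intro i
    rw [hGc, degU_le_iff]
    intro j
    rw [finsetSum_coeff]
    refine natDegree_sum_le_of_forall_le _ _ fun b _ => ?_
    have h1 : degU (c b • (sh2 (u b) (v b) (F'.coeff i) * C (C (lam b)) ^ i)) ≤ K := by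
      apply zone_degU
      rw [degU_sh2]
      exact hc2' i
    rw [degU_le_iff] at h1
    exact h1 j
  have hsub : ∀ b ∈ box (2 * R1) (2 * R2) (2 * R3), ∀ b' ∈ box R1 R2 R3,
      b + b' ∈ box (3 * R1) (3 * R2) (3 * R3) := by
    intro b hb1 b' hb2
    simp only [box, Finset.mem_product, Finset.mem_range] at hb1 hb2 ⊢
    obtain ⟨a1, a2, a3⟩ := hb1
    obtain ⟨b1, b2, b3⟩ := hb2
    simp only [Prod.fst_add, Prod.snd_add]
    omega
  have hGz : ∀ b ∈ box (2 * R1) (2 * R2) (2 * R3), ev3 (u b) (v b) (lam b) G = 0 := by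
    intro b hb1
    rw [hG, map_sum]
    refine Finset.sum_eq_zero fun b' hb2 => ?_
    have h1 : c b' • sh3 (u b') (v b') (lam b') F' =
        C (C (C (c b'))) * sh3 (u b') (v b') (lam b') F' := by
      rw [Algebra.smul_def]
      rfl
    rw [h1, map_mul, ev3_sh3, ← hu, ← hv, mul_comm (lam b') (lam b), ← hlam,
      hz' _ (hsub b hb1 b' hb2), mul_zero]
  have hFz : ∀ b ∈ box (2 * R1) (2 * R2) (2 * R3), ev3 (u b) (v b) (lam b) F' = 0 := by
    intro b hb1
    apply hz'
    simp only [box, Finset.mem_product, Finset.mem_range] at hb1 ⊢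
    omega
  refine ⟨resultant F' G F'.natDegree L, res_ne F' G hF' hc L hGd hL, ?_, ?_, ?_⟩
  · refine (natDegree_res F' G F'.natDegree L (2 * K) hc1' hG1).trans ?_
    calc (F'.natDegree + L) * (2 * K) ≤ (2 * L) * (2 * K) := Nat.mul_le_mul_right _ (by omega)
      _ = 4 * L * K := by ring
  · refine (degU_res F' G F'.natDegree L K hc2' hG2).trans ?_
    exact Nat.mul_le_mul_right _ (by omega)
  · intro b hb1
    exact res_zero F' G L hGd hL (ev2 (u b) (v b)) (lam b) (hFz b hb1) (hGz b hb1)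

end Pool.Agent.NLE.Zer
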