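import Pool.Agent.NLE.ZTr

/-!
# NLE-ZSt: the stabiliser of a non-constant polynomial in two variables is contained in a line

PLAN. Let `St` be the set of the `(x, y)` with `sh2 x y h = h`. (i) it is closed under `ℕ`-multiples
(`sh2_add`). (ii) For `(x, y) ∈ St` and real `a, b` the polynomial `g(T) = h(a + x T, b + y T)`
(`(h.map (compRingHom (C a + C x * X))).eval (C b + C y * X)` in `ℝ[X]`) takes the value `ev2 a b h` at every
natural number, so it is constant: `ev2 (a + x * T) (b + y * T) h = ev2 a b h` for all real `T`. (iii) if `St`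
contains `(x, y)`, `(x', y')` with `x * y' ≠ x' * y` then `ev2 a b h = ev2 0 0 h` for all `a, b` (write `(a, b)`
as a combination of the two vectors), so `h = C (C r)` is a unit or zero. (iv) if there is a non-zero
`(x0, y0) ∈ St` take `(al, be) = (y0, -x0)`, otherwise `(1, 0)`. Apply it to `(x - x', y - y')`:
`sh2 x y h = sh2 x' y' h` implies `sh2 (x - x') (y - y') h = h`.
-/

namespace Pool.Agent.NLE.Zer

open Polynomial

private theorem zst_nat {h : P2} {x y : ℝ} (hs : sh2 x y h = h) (n : ℕ) :
    sh2 (x * n) (y * n) h = h := by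
  induction n with
  | zero => simpa using sh2_zero h
  | succ n ih =>
    have h1 := sh2_add x y (x * n) (y * n) h
    rw [ih, hs] at h1
    have e1 : x * ((n + 1 : ℕ) : ℝ) = x + x * n := by
      push_cast
      ring
    have e2 : y * ((n + 1 : ℕ) : ℝ) = y + y * n := by
      push_cast
      ring
    rw [e1, e2]
    exact h1.symm

private theorem zst_hom (h : P2) (a b x y t : ℝ) :
    ((h.map (compRingHom (C a + C x * X))).eval (C b + C y * X)).eval t =
      ev2 (a + x * t) (b + y * t) h := by
  have e : ((evalRingHom t).comp ((evalRingHom (C b + C y * X : ℝ[X])).comp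
      (mapRingHom (compRingHom (C a + C x * X : ℝ[X]))))) = ev2 (a + x * t) (b + y * t) := by
    apply Polynomial.ringHom_ext
    · intro p
      simp [ev2, eval_comp]
    · simp [ev2]
  have e2 := RingHom.congr_fun e h
  simpa using e2

private theorem zst_line {h : P2} {x y : ℝ} (hs : sh2 x y h = h) (a b t : ℝ) :
    ev2 (a + x * t) (b + y * t) h = ev2 a b h := by
  have e : ((h.map (compRingHom (C a + C x * X))).eval (C b + C y * X)) = C (ev2 a b h) := by
    apply Polynomial.eq_of_infinite_eval_eq
    refine Set.Infinite.mono (s := Set.range (fun n : ℕ => (n : ℝ))) ?_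
      (Set.infinite_range_of_injective Nat.cast_injective)
    rintro _ ⟨n, rfl⟩
    show eval (n : ℝ) _ = eval (n : ℝ) _
    rw [zst_hom, eval_C, ← ev2_sh2, zst_nat hs n]
  rw [← zst_hom, e, eval_C]

private theorem zst_two {h : P2} (h0 : h ≠ 0) (hu : ¬ IsUnit h) {x y x' y' : ℝ}
    (hs : sh2 x y h = h) (hs' : sh2 x' y' h = h) : x * y' = x' * y := by
  by_contra hd
  have hd' : x * y' - x' * y ≠ 0 := sub_ne_zero.2 hd
  have key : h = C (C (ev2 0 0 h)) := by
    apply p2_ext
    intro a b
    have e1 := zst_line hs 0 0 ((a * y' - b * x') / (x * y' - x' * y))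
    have e2 := zst_line hs' (0 + x * ((a * y' - b * x') / (x * y' - x' * y)))
      (0 + y * ((a * y' - b * x') / (x * y' - x' * y)))
      ((x * b - y * a) / (x * y' - x' * y))
    have e3 : 0 + x * ((a * y' - b * x') / (x * y' - x' * y)) +
        x' * ((x * b - y * a) / (x * y' - x' * y)) = a := by
      rw [zero_add, ← mul_div_assoc, ← mul_div_assoc, ← add_div, div_eq_iff hd']
      ring
    have e4 : 0 + y * ((a * y' - b * x') / (x * y' - x' * y)) +
        y' * ((x * b - y * a) / (x * y' - x' * y)) = b := by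
      rw [zero_add, ← mul_div_assoc, ← mul_div_assoc, ← add_div, div_eq_iff hd']
      ring
    rw [e3, e4, e1] at e2
    rw [e2]
    simp [ev2]
  have hr : ev2 0 0 h ≠ 0 := by
    intro hr
    rw [hr] at key
    apply h0
    rw [key]
    simp
  apply hu
  rw [key]
  exact (hr.isUnit.map C).map C

theorem stab_line (h : P2) (h0 : h ≠ 0) (hu : ¬ IsUnit h) :
    ∃ al be : ℝ, (al ≠ 0 ∨ be ≠ 0) ∧ ∀ x y x' y' : ℝ, sh2 x y h = sh2 x' y' h →
      al * x + be * y = al * x' + be * y' := by
  have hsub : ∀ x y x' y' : ℝ, sh2 x y h = sh2 x' y' h → sh2 (x - x') (y - y') h = h := by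
    intro x y x' y' he
    have h1 := congrArg (fun f => sh2 (-x') (-y') f) he
    simp only [sh2_add] at h1
    rw [neg_add_cancel, neg_add_cancel, sh2_zero] at h1
    have e1 : x - x' = -x' + x := by ring
    have e2 : y - y' = -y' + y := by ring
    rw [e1, e2]
    exact h1
  by_cases hex : ∃ x0 y0 : ℝ, (x0 ≠ 0 ∨ y0 ≠ 0) ∧ sh2 x0 y0 h = h
  · obtain ⟨x0, y0, hne, hs⟩ := hex
    refine ⟨y0, -x0, ?_, ?_⟩
    · rcases hne with h1 | h1
      · right
        exact neg_ne_zero.2 h1
      · left
        exact h1
    · intro x y x' y' he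
      have h1 := zst_two h0 hu hs (hsub x y x' y' he)
      linarith
  · refine ⟨1, 0, Or.inl one_ne_zero, ?_⟩
    intro x y x' y' he
    have h1 : x - x' = 0 := by
      by_contra h2
      exact hex ⟨_, _, Or.inl h2, hsub x y x' y' he⟩
    linarith

end Pool.Agent.NLE.Zer
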