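import Pool.Agent.NLE.ZDefs

/-!
# NLE-ZTr: translations

PLAN. `sh2 x y f` is `taylor (C y) (f.map (taylor x))` (use `taylor_eval`, `natDegree_taylor`,
`leadingCoeff_taylor`, `taylor_taylor`, `map_taylor`). Two elements of `P2` with the same values under all
`ev2 a b` are equal (`Polynomial.funext` twice), which gives `sh2_add` and `sh2_neg` from `ev2_sh2`.
`coeff_sh3` from `comp_C_mul_X_coeff`. `degU_sh2`: `swap (sh2 x y f) = sh2 y x (swap f)` (compare the values)
and `natDegree_sh2`.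
`sh2_assoc`: a unit of `P2` is `C (C r)`, `r ≠ 0`; from `sh2 x y h = C (C r) * sh2 x' y' h` and
`leadingCoeff (leadingCoeff (sh2 x y h)) = leadingCoeff (leadingCoeff h) ≠ 0` one gets `r = 1`.
`sh3_assoc`: a unit of `P3` is `C (C (C r))`; the coefficient of `Y^0` gives `r = 1` as before, the coefficient
of `Y^d`, `d = natDegree h > 0`, gives `l ^ d = r * l' ^ d`, so `l = l'` (both positive).
-/

namespace Pool.Agent.NLE.Zer

open Polynomial

private theorem ztr_sh2 (x y : ℝ) (f : P2) :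
    sh2 x y f = taylor (C y) (f.map ((taylorEquiv x).toRingEquiv : ℝ[X] →+* ℝ[X])) := rfl

private theorem ztr_sh2_CC (x y r : ℝ) : sh2 x y (C (C r)) = C (C r) := by
  rw [ztr_sh2, map_C, taylor_C]
  congr 1
  exact taylor_C x r

private theorem ztr_sh2_CX (x y : ℝ) : sh2 x y (C X) = C (X + C x) := by
  rw [ztr_sh2, map_C, taylor_C]
  congr 1
  exact taylor_X x

private theorem ztr_sh2_X (x y : ℝ) : sh2 x y X = X + C (C y) := by
  rw [ztr_sh2, map_X, taylor_X]

private theorem ztr_hom {S : Type*} [CommRing S] {φ ψ : P2 →+* S}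
    (h0 : ∀ r : ℝ, φ (C (C r)) = ψ (C (C r))) (h1 : φ (C X) = ψ (C X)) (h2 : φ X = ψ X) : φ = ψ := by
  refine Polynomial.ringHom_ext' ?_ h2
  refine Polynomial.ringHom_ext' ?_ h1
  exact RingHom.ext fun r => h0 r

private theorem ztr_ev2_CC (a b r : ℝ) : ev2 a b (C (C r)) = r := by
  show evalEval a b (C (C r)) = r
  exact evalEval_CC a b r

private theorem ztr_ev2_CX (a b : ℝ) : ev2 a b (C X) = a := by
  show evalEval a b (C X) = a
  rw [evalEval_C, eval_X]

private theorem ztr_ev2_X (a b : ℝ) : ev2 a b X = b := by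
  show evalEval a b X = b
  exact evalEval_X a b

theorem p2_ext {f g : P2} (h : ∀ a b : ℝ, ev2 a b f = ev2 a b g) : f = g := by
  refine Polynomial.eq_of_infinite_eval_eq f g ?_
  refine Set.Infinite.mono ?_ (Set.infinite_range_of_injective (C_injective (R := ℝ)))
  rintro _ ⟨b, rfl⟩
  show eval (C b) f = eval (C b) g
  refine Polynomial.funext fun a => ?_
  exact h a b

theorem ev2_sh2 (x y a b : ℝ) (f : P2) : ev2 a b (sh2 x y f) = ev2 (a + x) (b + y) f := by
  have h : (ev2 a b).comp (sh2 x y : P2 →+* P2) = ev2 (a + x) (b + y) := by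
    refine ztr_hom ?_ ?_ ?_
    · intro r
      show ev2 a b (sh2 x y (C (C r))) = _
      rw [ztr_sh2_CC, ztr_ev2_CC, ztr_ev2_CC]
    · show ev2 a b (sh2 x y (C X)) = _
      rw [ztr_sh2_CX, ztr_ev2_CX, C_add, map_add, ztr_ev2_CX, ztr_ev2_CC]
    · show ev2 a b (sh2 x y X) = _
      rw [ztr_sh2_X, ztr_ev2_X, map_add, ztr_ev2_X, ztr_ev2_CC]
  exact congrArg (fun φ : P2 →+* ℝ => φ f) h

private theorem ztr_sh3 (x y l : ℝ) (f : P3) :
    sh3 x y l f = (f.map (sh2 x y : P2 →+* P2)).comp (C (C (C l)) * X) := rfl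

theorem ev3_sh3 (x y l a b z : ℝ) (f : P3) :
    ev3 a b z (sh3 x y l f) = ev3 (a + x) (b + y) (l * z) f := by
  have h : (ev3 a b z).comp (sh3 x y l) = ev3 (a + x) (b + y) (l * z) := by
    refine Polynomial.ringHom_ext' (RingHom.ext fun c => ?_) ?_
    · show ev3 a b z (sh3 x y l (C c)) = ev3 (a + x) (b + y) (l * z) (C c)
      rw [ztr_sh3, map_C, C_comp]
      show eval₂ (ev2 a b) z (C (sh2 x y c)) = eval₂ (ev2 (a + x) (b + y)) (l * z) (C c)
      rw [eval₂_C, eval₂_C, ev2_sh2]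
    · show ev3 a b z (sh3 x y l X) = ev3 (a + x) (b + y) (l * z) X
      rw [ztr_sh3, map_X, X_comp]
      show eval₂ (ev2 a b) z (C (C (C l)) * X) = eval₂ (ev2 (a + x) (b + y)) (l * z) X
      rw [eval₂_mul, eval₂_C, eval₂_X, eval₂_X, ztr_ev2_CC]
  exact congrArg (fun φ : P3 →+* ℝ => φ f) h

theorem sh2_add (x y x' y' : ℝ) (f : P2) : sh2 x y (sh2 x' y' f) = sh2 (x + x') (y + y') f := by
  refine p2_ext fun a b => ?_
  rw [ev2_sh2, ev2_sh2, ev2_sh2, add_assoc, add_assoc]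

theorem sh2_zero (f : P2) : sh2 0 0 f = f := by
  refine p2_ext fun a b => ?_
  rw [ev2_sh2, add_zero, add_zero]

theorem natDegree_sh2 (x y : ℝ) (f : P2) : (sh2 x y f).natDegree = f.natDegree := by
  rw [ztr_sh2, natDegree_taylor]
  exact natDegree_map_eq_of_injective (taylorEquiv x).toRingEquiv.injective f

private theorem ztr_swap (a b : ℝ) (f : P2) : ev2 a b (Bivariate.swap f) = ev2 b a f := by
  have h : (ev2 a b).comp ((Bivariate.swap (R := ℝ)).toRingEquiv : P2 →+* P2) = ev2 b a := by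
    refine ztr_hom ?_ ?_ ?_
    · intro r
      show ev2 a b (Bivariate.swap (C (C r))) = _
      rw [Bivariate.swap_C_C, ztr_ev2_CC, ztr_ev2_CC]
    · show ev2 a b (Bivariate.swap (C X)) = _
      rw [Bivariate.swap_X, ztr_ev2_X, ztr_ev2_CX]
    · show ev2 a b (Bivariate.swap X) = _
      rw [Bivariate.swap_Y, ztr_ev2_X, ztr_ev2_CX]
  exact congrArg (fun φ : P2 →+* ℝ => φ f) h

theorem degU_sh2 (x y : ℝ) (f : P2) : degU (sh2 x y f) = degU f := by
  have h : Bivariate.swap (sh2 x y f) = sh2 y x (Bivariate.swap f) := by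
    refine p2_ext fun a b => ?_
    rw [ztr_swap, ev2_sh2, ev2_sh2, ztr_swap]
  unfold degU
  rw [h, natDegree_sh2]

theorem coeff_sh3 (x y l : ℝ) (f : P3) (i : ℕ) :
    (sh3 x y l f).coeff i = sh2 x y (f.coeff i) * C (C l) ^ i := by
  rw [ztr_sh3, comp_C_mul_X_coeff, coeff_map]
  rfl

theorem sh3_inv (x y l : ℝ) (hl : l ≠ 0) (f : P3) : sh3 (-x) (-y) l⁻¹ (sh3 x y l f) = f := by
  refine Polynomial.ext fun i => ?_
  rw [coeff_sh3, coeff_sh3, map_mul, map_pow, sh2_add, ztr_sh2_CC, neg_add_cancel, neg_add_cancel,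
    sh2_zero, mul_assoc, ← mul_pow, ← C_mul, ← C_mul, mul_inv_cancel₀ hl, C_1, C_1, one_pow, mul_one]

theorem sh3_inv' (x y l : ℝ) (hl : l ≠ 0) (f : P3) : sh3 x y l (sh3 (-x) (-y) l⁻¹ f) = f := by
  have h := sh3_inv (-x) (-y) l⁻¹ (inv_ne_zero hl) f
  rwa [neg_neg, neg_neg, inv_inv] at h

theorem natDegree_sh3 (x y l : ℝ) (hl : l ≠ 0) (f : P3) : (sh3 x y l f).natDegree = f.natDegree := by
  have hle : ∀ (x y l : ℝ) (f : P3), (sh3 x y l f).natDegree ≤ f.natDegree := by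
    intro x y l f
    rw [natDegree_le_iff_coeff_eq_zero]
    intro N hN
    rw [coeff_sh3, coeff_eq_zero_of_natDegree_lt hN, map_zero, zero_mul]
  refine le_antisymm (hle x y l f) ?_
  have h := hle (-x) (-y) l⁻¹ (sh3 x y l f)
  rwa [sh3_inv x y l hl] at h

/-- a translate of an irreducible element is irreducible -/
theorem sh3_irr (x y l : ℝ) (hl : l ≠ 0) (h : P3) (hh : Irreducible h) : Irreducible (sh3 x y l h) := by
  let e : P3 ≃+* P3 := RingEquiv.ofRingHom (sh3 x y l) (sh3 (-x) (-y) l⁻¹)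
    (RingHom.ext fun f => sh3_inv' x y l hl f) (RingHom.ext fun f => sh3_inv x y l hl f)
  have h1 : Irreducible (e h) := (MulEquiv.irreducible_iff e).2 hh
  exact h1

private theorem ztr_lc (x y : ℝ) (f : P2) :
    (sh2 x y f).leadingCoeff.leadingCoeff = f.leadingCoeff.leadingCoeff := by
  have e : (f.map ((taylorEquiv x).toRingEquiv : ℝ[X] →+* ℝ[X])).leadingCoeff =
      taylor x f.leadingCoeff := leadingCoeff_map_of_injective
    (taylorEquiv x).toRingEquiv.injective f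
  rw [ztr_sh2, leadingCoeff_taylor, e, leadingCoeff_taylor]

private theorem ztr_lc_ne {f : P2} (hf : f ≠ 0) : f.leadingCoeff.leadingCoeff ≠ 0 := by
  rw [leadingCoeff_ne_zero, leadingCoeff_ne_zero]
  exact hf

private theorem ztr_lc_mul (f : P2) (r : ℝ) :
    (f * C (C r)).leadingCoeff.leadingCoeff = f.leadingCoeff.leadingCoeff * r := by
  rw [leadingCoeff_mul, leadingCoeff_mul, leadingCoeff_C, leadingCoeff_C]

private theorem ztr_unit {u : P2} (hu : IsUnit u) : ∃ r : ℝ, u = C (C r) := by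
  obtain ⟨s, hs, rfl⟩ := Polynomial.isUnit_iff.1 hu
  obtain ⟨r, _, rfl⟩ := Polynomial.isUnit_iff.1 hs
  exact ⟨r, rfl⟩

private theorem ztr_one {x y x' y' r : ℝ} {h : P2} (h0 : h ≠ 0)
    (e : sh2 x y h * C (C r) = sh2 x' y' h) : r = 1 := by
  have e1 := congrArg (fun f : P2 => f.leadingCoeff.leadingCoeff) e
  simp only [ztr_lc_mul, ztr_lc] at e1
  exact mul_left_cancel₀ (ztr_lc_ne h0) (by rw [e1, mul_one])

theorem sh2_assoc (x y x' y' : ℝ) (h : P2) (h0 : h ≠ 0) (hA : Associated (sh2 x y h) (sh2 x' y' h)) :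
    sh2 x y h = sh2 x' y' h := by
  obtain ⟨u, hu⟩ := hA
  obtain ⟨r, hr⟩ := ztr_unit u.isUnit
  rw [hr] at hu
  have h1 := ztr_one h0 hu
  rw [h1, C_1, C_1, mul_one] at hu
  exact hu

theorem sh3_assoc (x y l x' y' l' : ℝ) (hl : 0 < l) (hl' : 0 < l') (h : P3) (h0 : h.coeff 0 ≠ 0)
    (hd : 0 < h.natDegree) (hA : Associated (sh3 x y l h) (sh3 x' y' l' h)) : l = l' := by
  obtain ⟨u, hu⟩ := hA
  obtain ⟨s, hs, hs'⟩ := Polynomial.isUnit_iff.1 u.isUnit
  obtain ⟨r, hr⟩ := ztr_unit hs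
  rw [← hs', hr] at hu
  have e0 := congrArg (fun f : P3 => f.coeff 0) hu
  simp only [coeff_mul_C, coeff_sh3, pow_zero, mul_one] at e0
  have hr1 := ztr_one h0 e0
  have ed := congrArg (fun f : P3 => f.coeff h.natDegree) hu
  simp only [coeff_sh3, hr1, C_1, mul_one, ← C_pow] at ed
  have e1 := congrArg (fun f : P2 => f.leadingCoeff.leadingCoeff) ed
  simp only [ztr_lc_mul, ztr_lc] at e1
  have hne : h.coeff h.natDegree ≠ 0 := by
    intro h1
    have h2 : h = 0 := leadingCoeff_eq_zero.1 h1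
    rw [h2] at hd
    simp at hd
  have e2 := mul_left_cancel₀ (ztr_lc_ne hne) e1
  exact (pow_left_inj₀ hl.le hl'.le hd.ne').1 e2

end Pool.Agent.NLE.Zer
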