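import Pool.Agent.NLE.ZSt
import Pool.Agent.NLE.ZCop
import Pool.Agent.NLE.ZRes

/-!
# NLE-ZTwo: elimination of `V`

PLAN. Let `h` be an irreducible divisor of `Q` which divides `sh2 (u b) (v b) Q` for all `b` in the box
`R1, R2, R3`. Then `H b = sh2 (- u b) (- v b) h` is prime and divides `Q`; by `count_div` with
`d f = f.natDegree + degU f`, `sh2_assoc` and `stab_line` (the form there, applied to `(- u b, - v b)`) a
non-zero form takes at most `6 L K` values: contradiction. So `exists_comb` gives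
`G = ∑ c b • sh2 (u b) (v b) Q` with `IsRelPrime Q G`; `G.natDegree ≤ 4 L K`, `degU G ≤ 2 L K`, `G` vanishes at
the points of the box `R1, R2, R3`. `P = resultant Q G Q.natDegree (4 L K)` in `ℝ[X]` is not zero (`res_ne`), has
degree `≤ (4 L K + 4 L K) * (2 L K)` (`natDegree_res`, `degU_le_iff`) and vanishes at the `R1 R2 R3` different
numbers `u b` (`res_zero`, `ev2 a b f = eval₂ (evalRingHom a) b f`): `Polynomial.card_roots'`.
-/

namespace Pool.Agent.NLE.Zer

open Polynomial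

private theorem ztwo_smul (a b c : ℝ) (f : P2) : ev2 a b (c • f) = c * ev2 a b f := by
  rw [Algebra.smul_def, map_mul]
  congr 1
  simp [ev2]

private theorem ztwo_eval (a b : ℝ) (f : P2) : eval₂ (evalRingHom a) b f = ev2 a b f := by
  have h : eval₂RingHom (evalRingHom a) b = ev2 a b := by
    apply Polynomial.ringHom_ext
    · intro p
      simp [ev2]
    · simp [ev2]
  have h2 := RingHom.congr_fun h f
  simpa using h2

private theorem ztwo_degsmul (c : ℝ) (f : P2) (D : ℕ) (hf : degU f ≤ D) : degU (c • f) ≤ D := by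
  rw [degU_le_iff] at hf ⊢
  intro i
  rw [coeff_smul]
  exact (natDegree_smul_le c _).trans (hf i)

private theorem ztwo_degsum {ι : Type*} (S : Finset ι) (g : ι → P2) (D : ℕ)
    (h : ∀ b ∈ S, degU (g b) ≤ D) : degU (∑ b ∈ S, g b) ≤ D := by
  classical
  induction S using Finset.induction_on with
  | empty =>
    rw [Finset.sum_empty, degU_le_iff]
    intro i
    simp
  | insert a s ha ih =>
    rw [Finset.sum_insert ha]
    exact degU_add _ _ _ (h a (Finset.mem_insert_self a s))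
      (ih fun b hb => h b (Finset.mem_insert_of_mem hb))

private theorem ztwo_box {R1 R2 R3 : ℕ} {b b' : ℕ × ℕ × ℕ} (h : b ∈ box R1 R2 R3)
    (h' : b' ∈ box R1 R2 R3) : b + b' ∈ box (2 * R1) (2 * R2) (2 * R3) := by
  unfold box at *
  rw [Finset.mem_product, Finset.mem_product, Finset.mem_range, Finset.mem_range,
    Finset.mem_range] at *
  obtain ⟨h1, h2, h3⟩ := h
  obtain ⟨h4, h5, h6⟩ := h'
  have e1 : (b + b').1 = b.1 + b'.1 := rfl
  have e2 : (b + b').2.1 = b.2.1 + b'.2.1 := rfl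
  have e3 : (b + b').2.2 = b.2.2 + b'.2.2 := rfl
  rw [e1, e2, e3]
  omega

private theorem ztwo_box2 {R1 R2 R3 : ℕ} {b : ℕ × ℕ × ℕ} (h : b ∈ box R1 R2 R3) :
    b ∈ box (2 * R1) (2 * R2) (2 * R3) := by
  unfold box at *
  rw [Finset.mem_product, Finset.mem_product, Finset.mem_range, Finset.mem_range,
    Finset.mem_range] at *
  omega

private theorem ztwo_irr {R1 R2 R3 K L : ℕ} (u v : ℕ × ℕ × ℕ → ℝ)
    (Q : P2) (hQ : Q ≠ 0) (hd : Q.natDegree ≤ 4 * L * K) (hd2 : degU Q ≤ 2 * L * K)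
    (hb : ∀ al be : ℝ, (al ≠ 0 ∨ be ≠ 0) →
      8 * L * K < ((box R1 R2 R3).image (fun b => al * u b + be * v b)).card)
    (h : P2) (hh : Irreducible h) : ∃ b ∈ box R1 R2 R3, ¬ h ∣ sh2 (u b) (v b) Q := by
  by_contra hcon
  have hcon' : ∀ b ∈ box R1 R2 R3, h ∣ sh2 (u b) (v b) Q := fun b hb' => by
    by_contra h1
    exact hcon ⟨b, hb', h1⟩
  obtain ⟨al, be, hne, hst⟩ := stab_line h hh.ne_zero hh.not_isUnit
  have hH : ∀ b ∈ box R1 R2 R3, Prime (sh2 (-u b) (-v b) h) ∧ sh2 (-u b) (-v b) h ∣ Q ∧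
      1 ≤ (sh2 (-u b) (-v b) h).natDegree + degU (sh2 (-u b) (-v b) h) := by
    intro b hb'
    refine ⟨?_, ?_, ?_⟩
    · exact (MulEquiv.prime_iff (sh2 (-u b) (-v b)).toMulEquiv).2 hh.prime
    · have h1 := map_dvd (sh2 (-u b) (-v b)) (hcon' b hb')
      rw [sh2_add, neg_add_cancel, neg_add_cancel, sh2_zero] at h1
      exact h1
    · rw [natDegree_sh2, degU_sh2]
      exact deg_pos h hh.ne_zero hh.not_isUnit
  have hcnt := count_div (fun f : P2 => f.natDegree + degU f) (fun a b h1 h2 => by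
    show (a * b).natDegree + degU (a * b) = a.natDegree + degU a + (b.natDegree + degU b)
    rw [natDegree_mul h1 h2, degU_mul a b h1 h2]
    ring) (box R1 R2 R3) (fun b => sh2 (-u b) (-v b) h) Q hQ hH
    (fun b => al * u b + be * v b) (fun b _ b' _ hA => by
      have h1 := hst _ _ _ _ (sh2_assoc _ _ _ _ h hh.ne_zero hA)
      show al * u b + be * v b = al * u b' + be * v b'
      linarith)
  have h1 := hb al be hne
  have h2 : ((box R1 R2 R3).image (fun b => al * u b + be * v b)).card ≤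
    Q.natDegree + degU Q := hcnt
  have e1 : 4 * L * K = 4 * (L * K) := by ring
  have e2 : 2 * L * K = 2 * (L * K) := by ring
  have e3 : 8 * L * K = 8 * (L * K) := by ring
  rw [e1] at hd
  rw [e2] at hd2
  rw [e3] at h1
  omega

theorem elim_two {R1 R2 R3 K L : ℕ} (hK : 1 ≤ K) (hL : 1 ≤ L) (u v : ℕ × ℕ × ℕ → ℝ)
    (hu : ∀ b b', u (b + b') = u b + u b') (hv : ∀ b b', v (b + b') = v b + v b')
    (Q : P2) (hQ : Q ≠ 0) (hd : Q.natDegree ≤ 4 * L * K) (hd2 : degU Q ≤ 2 * L * K)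
    (hz : ∀ b ∈ box (2 * R1) (2 * R2) (2 * R3), ev2 (u b) (v b) Q = 0)
    (ha : Set.InjOn u (box R1 R2 R3 : Finset (ℕ × ℕ × ℕ)))
    (hb : ∀ al be : ℝ, (al ≠ 0 ∨ be ≠ 0) →
      8 * L * K < ((box R1 R2 R3).image (fun b => al * u b + be * v b)).card)
    (hR : 32 * L ^ 2 * K ^ 2 < R1 * R2 * R3) : False := by
  obtain ⟨c, hc⟩ := exists_comb (box R1 R2 R3) (fun b => sh2 (u b) (v b) Q) Q hQ
    (fun h hh _ => ztwo_irr u v Q hQ hd hd2 hb h hh)
  have hW : 1 ≤ L * K := Nat.mul_pos hL hK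
  have e1 : 4 * L * K = 4 * (L * K) := by ring
  have e2 : 2 * L * K = 2 * (L * K) := by ring
  set G : P2 := ∑ b ∈ box R1 R2 R3, c b • sh2 (u b) (v b) Q with hG
  have hGd : G.natDegree ≤ 4 * L * K := by
    rw [hG]
    refine natDegree_sum_le_of_forall_le _ _ fun b _ => ?_
    refine (natDegree_smul_le (c b) _).trans ?_
    rw [natDegree_sh2]
    exact hd
  have hGu : degU G ≤ 2 * L * K := by
    rw [hG]
    refine ztwo_degsum _ _ _ fun b _ => ztwo_degsmul _ _ _ ?_
    rw [degU_sh2]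
    exact hd2
  have hGz : ∀ b ∈ box R1 R2 R3, ev2 (u b) (v b) G = 0 := by
    intro b hb'
    rw [hG, map_sum]
    refine Finset.sum_eq_zero fun b' hb'' => ?_
    rw [ztwo_smul, ev2_sh2, ← hu, ← hv, hz _ (ztwo_box hb' hb''), mul_zero]
  have hn1 : 1 ≤ 4 * L * K := by
    rw [e1]
    omega
  have hP : resultant Q G Q.natDegree (4 * L * K) ≠ 0 := res_ne Q G hQ hc _ hGd hn1
  have hPd : (resultant Q G Q.natDegree (4 * L * K)).natDegree ≤
      (Q.natDegree + 4 * L * K) * (2 * L * K) :=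
    natDegree_res Q G _ _ _ ((degU_le_iff Q _).1 hd2) ((degU_le_iff G _).1 hGu)
  have hroot : ∀ b ∈ box R1 R2 R3,
      (resultant Q G Q.natDegree (4 * L * K)).eval (u b) = 0 := by
    intro b hb'
    have h1 := res_zero Q G (4 * L * K) hGd hn1 (evalRingHom (u b)) (v b)
      (by rw [ztwo_eval]; exact hz b (ztwo_box2 hb')) (by rw [ztwo_eval]; exact hGz b hb')
    simpa using h1
  have hcard : R1 * R2 * R3 ≤ (resultant Q G Q.natDegree (4 * L * K)).natDegree := by
    have h1 : ((box R1 R2 R3).image u).card = R1 * R2 * R3 := by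
      rw [Finset.card_image_of_injOn ha]
      unfold box
      rw [Finset.card_product, Finset.card_product, Finset.card_range, Finset.card_range,
        Finset.card_range, mul_assoc]
    have h2 : (box R1 R2 R3).image u ⊆
        (resultant Q G Q.natDegree (4 * L * K)).roots.toFinset := by
      intro x hx
      obtain ⟨b, hb', rfl⟩ := Finset.mem_image.1 hx
      rw [Multiset.mem_toFinset, mem_roots hP]
      exact hroot b hb'
    rw [← h1]
    exact (Finset.card_le_card h2).trans ((Multiset.toFinset_card_le _).trans (card_roots' _))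
  have h3 : (Q.natDegree + 4 * L * K) * (2 * L * K) ≤ (8 * (L * K)) * (2 * (L * K)) := by
    rw [e1] at hd ⊢
    rw [e2]
    exact Nat.mul_le_mul (by omega) le_rfl
  have h4 : (8 * (L * K)) * (2 * (L * K)) = 16 * (L ^ 2 * K ^ 2) := by ring
  have h5 : 32 * L ^ 2 * K ^ 2 = 32 * (L ^ 2 * K ^ 2) := by ring
  rw [h4] at h3
  rw [h5] at hR
  omega

end Pool.Agent.NLE.Zer
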