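import Pool.Agent.NLE.LDefs
import Pool.Agent.NLE.ZOne
import Pool.Agent.NLE.ZTwo
import Pool.Agent.NLE.ZNum
import Pool.Agent.NLE.ZApp

/-!
# NLE-Zero3: zero estimate for three logarithms (paper proof, Section 2.3; architect helper79)
-/

namespace Pool.Agent.NLE

open Finset

private theorem zero3_box {R1 R2 R3 r s t : ℕ} :
    (r, s, t) ∈ Zer.box R1 R2 R3 ↔ r < R1 ∧ s < R2 ∧ t < R3 := by
  simp [Zer.box]

private theorem zero3_lam {R1 R2 R3 : ℕ} {α₁ α₂ α₃ : ℝ} (h2 : 1 < α₂) (hR1 : 1 ≤ R1) (hR3 : 1 ≤ R3) :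
    R2 ≤ ((Zer.box R1 R2 R3).image
      (fun b : ℕ × ℕ × ℕ => α₁ ^ b.1 * α₂ ^ b.2.1 * α₃ ^ b.2.2)).card := by
  classical
  have hsub : (range R2).image (fun s : ℕ => α₂ ^ s) ⊆ (Zer.box R1 R2 R3).image
      (fun b : ℕ × ℕ × ℕ => α₁ ^ b.1 * α₂ ^ b.2.1 * α₃ ^ b.2.2) := by
    intro x hx
    rw [mem_image] at hx ⊢
    obtain ⟨s, hs, rfl⟩ := hx
    rw [mem_range] at hs
    exact ⟨(0, s, 0), zero3_box.2 ⟨hR1, hs, hR3⟩, by simp⟩
  have hcard : ((range R2).image (fun s : ℕ => α₂ ^ s)).card = R2 := by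
    rw [card_image_of_injective _ (pow_right_strictMono₀ h2).injective, card_range]
  exact le_trans (le_of_eq hcard.symm) (card_le_card hsub)

theorem zero_est3 {q rho R1 R2 R3 K L E : ℕ} {α₁ α₂ α₃ : ℝ} (h1 : 0 < α₁) (h2 : 1 < α₂) (h3 : 0 < α₃)
    (hr1 : 1 ≤ rho) (hrq : rho ≤ q) (hR1 : 1 ≤ R1) (hR2 : 1 ≤ R2) (hR3 : 1 ≤ R3) (hK : 1 ≤ K)
    (hL1 : 1 ≤ L) (hR1q : 3 * R1 ≤ q) (hL : L ≤ R2)
    (h12 : 8 * L * K < R1 * R2) (h13 : 8 * L * K < R1 * R3) (h23 : 8 * L * K < R2 * R3)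
    (hE : ∀ b : ℕ, ∀ a : ℤ, 1 ≤ b → b < R1 → (E : ℤ) ≤ |(b : ℤ) * rho - a * q|)
    (hE2 : 8 * L * K * R1 < E * R3) (h123 : 32 * L ^ 2 * K ^ 2 < R1 * R2 * R3)
    (c : ℕ → ℕ → ℕ → ℝ)
    (hc : ∀ r < 3 * R1, ∀ s < 3 * R2, ∀ t < 3 * R3, ∑ a ∈ range K, ∑ b ∈ range K, ∑ l ∈ range L,
      c a b l * ent3 q rho α₁ α₂ α₃ a b l r s t = 0) :
    ∀ a < K, ∀ b < K, ∀ l < L, c a b l = 0 := by
  classical
  obtain ⟨M, hM⟩ : ∃ M : ℕ, rho * R1 + q * R2 < M := ⟨_, Nat.lt_succ_self _⟩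
  obtain ⟨F, hF1, hF2, hF3, hF4, hF5⟩ := Zer.exists_poly K L M hL1 c
  by_contra hne
  have hF : F ≠ 0 := fun h => hne (hF5 h)
  obtain ⟨u, hu⟩ : ∃ u : ℕ × ℕ × ℕ → ℝ, u = fun b =>
    (((rho * b.1 + q * b.2.1) + M * (rho * b.2.2 + b.2.1) : ℕ) : ℝ) := ⟨_, rfl⟩
  obtain ⟨v, hv⟩ : ∃ v : ℕ × ℕ × ℕ → ℝ, v = fun b => ((rho * b.2.2 + b.2.1 : ℕ) : ℝ) := ⟨_, rfl⟩
  obtain ⟨lam, hlam⟩ : ∃ lam : ℕ × ℕ × ℕ → ℝ, lam = fun b =>
    α₁ ^ b.1 * α₂ ^ b.2.1 * α₃ ^ b.2.2 := ⟨_, rfl⟩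
  have hua : ∀ b b', u (b + b') = u b + u b' := by
    intro b b'
    simp only [hu, Prod.fst_add, Prod.snd_add]
    push_cast
    ring
  have hva : ∀ b b', v (b + b') = v b + v b' := by
    intro b b'
    simp only [hv, Prod.fst_add, Prod.snd_add]
    push_cast
    ring
  have hla : ∀ b b', lam (b + b') = lam b * lam b' := by
    intro b b'
    simp only [hlam, Prod.fst_add, Prod.snd_add, pow_add]
    ring
  have hlp : ∀ b, 0 < lam b := by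
    intro b
    simp only [hlam]
    positivity
  have hz : ∀ b ∈ Zer.box (3 * R1) (3 * R2) (3 * R3), Zer.ev3 (u b) (v b) (lam b) F = 0 := by
    rintro ⟨r, s, t⟩ hb
    obtain ⟨hr, hs, ht⟩ := zero3_box.1 hb
    have e := hc r hr s hs t ht
    simp only [hu, hv, hlam]
    rw [hF4, ← e]
    refine sum_congr rfl fun a _ => sum_congr rfl fun b _ => sum_congr rfl fun l _ => ?_
    unfold ent3
    ring
  have hb : ∀ al be : ℝ, (al ≠ 0 ∨ be ≠ 0) →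
      8 * L * K < ((Zer.box R1 R2 R3).image (fun b => al * u b + be * v b)).card := by
    intro al be hab
    have h := Zer.lin_values (T := 8 * L * K) (E := E) hr1 hR1 (by omega : R1 ≤ q) h12 h13 h23 hE hE2 al
      (al * M + be) (by
        by_cases h0 : al = 0
        · right
          rw [h0, zero_mul, zero_add]
          exact hab.resolve_left (fun h' => h' h0)
        · exact Or.inl h0)
    have e : (fun b : ℕ × ℕ × ℕ => al * u b + be * v b) =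
        (fun b : ℕ × ℕ × ℕ => al * ((rho * b.1 + q * b.2.1 : ℕ) : ℝ) +
          (al * M + be) * ((rho * b.2.2 + b.2.1 : ℕ) : ℝ)) := by
      funext b
      simp only [hu, hv]
      push_cast
      ring
    rw [e]
    exact h
  have hl : L ≤ ((Zer.box R1 R2 R3).image lam).card := by
    rw [hlam]
    exact le_trans hL (zero3_lam h2 hR1 hR3)
  obtain ⟨Q, hQ, hQ1, hQ2, hQ3⟩ := Zer.elim_one hK hL1 u v lam hua hva hla hlp F hF hF1 hF2 hF3 hz hb hl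
  have ha : Set.InjOn u (Zer.box R1 R2 R3 : Finset (ℕ × ℕ × ℕ)) := by
    rw [hu]
    exact Zer.box_inj hr1 (by omega) hM
  exact Zer.elim_two hK hL1 u v hua hva Q hQ hQ1 hQ2 hQ3 ha hb h123

end Pool.Agent.NLE
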